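import Pool.Agent.Dcp.Grp

/-!
# Dcp, module BN: reduction to separated pairs

`bn_pt`: let `|z i|` be maximal at `i = m` (`N ≥ 1`; for `N = 0` both sides are `0`, `p > 0`).  If all `i` with `|i - m| ≥ 2` satisfy
`N ‖z i‖ ≤ ‖z m‖`, then `‖∑ z‖ ≤ 3 ‖z m‖ + N (‖z m‖/N) = 4 ‖z m‖`.  Otherwise some `i` with `|i - m| ≥ 2` has `‖z m‖ < N ‖z i‖`, and
`‖∑ z‖ ≤ N ‖z m‖ ≤ N (N ‖z i‖ ‖z m‖)^(1/2) ≤ N² (‖z i‖ ‖z m‖)^(1/2)`.
`cs`: `F^(p/2) G^(p/2) = (F^a G^(p-a))^(1/2) (G^a F^(p-a))^(1/2)` and `ENNReal.lintegral_mul_norm_pow_le`.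
`dec_bn`: `F_i = bs (m-a) i f`, `i < N = 2^a`; `∑_{j < 2^m} f j = ∑_{i < N} F_i` (`sum_nest`, `bk_zero`).
`∫ ‖∑ F‖^p ≤ 4^p ∑ nI (F_i) + N^(2p) ∑∑_{far} ∫ ‖F_i‖^(p/2) ‖F_j‖^(p/2)`.  `nI (F_i) ≤ D^p S_i^(p/2)` (`dec_bk`), and by `cs` and
the two inequalities `ML` (for `(f, f)` with the blocks `(i, j)` and `(j, i)`; the separation is at least `2^(-a)` if
`|i - j| ≥ 2`): `∫ ‖F_i‖^(p/2) ‖F_j‖^(p/2) ≤ M^p S_i^(p/4) S_j^(p/4) ≤ M^p S^(p/2)`.  Sum: `(4D)^p S^(p/2) + N^(2p+2) M^p S^(p/2)`,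
`2p + 2 ≤ 4p`, `x^p + y^p ≤ (x+y)^p`.
-/

set_option autoImplicit false

namespace Pool.Agent.Dcp

open MeasureTheory Finset
open scoped ENNReal

theorem bn_pt (N : ℕ) (z : ℕ → ℂ) {p : ℝ} (hp : 2 ≤ p) :
    ‖∑ i ∈ range N, z i‖ₑ ^ p ≤ 4 ^ p * ∑ i ∈ range N, ‖z i‖ₑ ^ p +
      (N : ℝ≥0∞) ^ (2 * p) * ∑ i ∈ range N, ∑ j ∈ range N,
        if i + 2 ≤ j ∨ j + 2 ≤ i then ‖z i‖ₑ ^ (p / 2) * ‖z j‖ₑ ^ (p / 2) else 0 := by
  have hp0 : 0 ≤ p := by linarith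
  have hpp : 0 < p := by linarith
  rcases Nat.eq_zero_or_pos N with hN | hN
  · subst hN
    simp [ENNReal.zero_rpow_of_pos hpp]
  obtain ⟨m, hm, hmax⟩ := Finset.exists_max_image (range N) (fun i => ‖z i‖ₑ)
    ⟨0, by simpa using hN⟩
  have hN0 : (N : ℝ≥0∞) ≠ 0 := by exact_mod_cast hN.ne'
  have hNt : (N : ℝ≥0∞) ≠ ⊤ := ENNReal.natCast_ne_top N
  have hN1 : (1 : ℝ≥0∞) ≤ (N : ℝ≥0∞) := by exact_mod_cast hN
  by_cases hA : ∀ i ∈ range N, (m + 2 ≤ i ∨ i + 2 ≤ m) → (N : ℝ≥0∞) * ‖z i‖ₑ ≤ ‖z m‖ₑ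
  · -- broad indices are negligible
    have h1 : ‖∑ i ∈ range N, z i‖ₑ ≤ 4 * ‖z m‖ₑ := by
      calc ‖∑ i ∈ range N, z i‖ₑ ≤ ∑ i ∈ range N, ‖z i‖ₑ := enorm_sum_le _ _
        _ ≤ ∑ i ∈ range N, ((if i ∈ ({m - 1, m, m + 1} : Finset ℕ) then ‖z m‖ₑ else 0)
              + ‖z m‖ₑ / N) := by
            apply Finset.sum_le_sum
            intro i hi
            split_ifs with h
            · exact le_trans (hmax i hi) le_self_add
            · rw [zero_add, ENNReal.le_div_iff_mul_le (Or.inl hN0) (Or.inl hNt), mul_comm]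
              apply hA i hi
              simp only [Finset.mem_insert, Finset.mem_singleton, not_or] at h
              omega
        _ = (∑ i ∈ range N, (if i ∈ ({m - 1, m, m + 1} : Finset ℕ) then ‖z m‖ₑ else 0))
              + ∑ i ∈ range N, ‖z m‖ₑ / N := Finset.sum_add_distrib
        _ ≤ 3 * ‖z m‖ₑ + ‖z m‖ₑ := by
            gcongr
            · rw [← Finset.sum_filter, Finset.sum_const, nsmul_eq_mul]
              gcongr
              have hc : (Finset.filter (fun i => i ∈ ({m - 1, m, m + 1} : Finset ℕ)) (range N)).card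
                  ≤ 3 := by
                refine le_trans (Finset.card_le_card (t := ({m - 1, m, m + 1} : Finset ℕ)) ?_) ?_
                · intro i hi
                  exact (Finset.mem_filter.1 hi).2
                · exact Finset.card_le_three
              exact_mod_cast hc
            · rw [Finset.sum_const, Finset.card_range, nsmul_eq_mul, ENNReal.mul_div_cancel hN0 hNt]
        _ = 4 * ‖z m‖ₑ := by
            have : (4 : ℝ≥0∞) = 3 + 1 := by norm_num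
            rw [this, add_mul, one_mul]
    calc ‖∑ i ∈ range N, z i‖ₑ ^ p ≤ (4 * ‖z m‖ₑ) ^ p := ENNReal.rpow_le_rpow h1 hp0
      _ = 4 ^ p * ‖z m‖ₑ ^ p := ENNReal.mul_rpow_of_nonneg _ _ hp0
      _ ≤ 4 ^ p * ∑ i ∈ range N, ‖z i‖ₑ ^ p := by
          gcongr
          exact Finset.single_le_sum (f := fun i => ‖z i‖ₑ ^ p) (fun _ _ => zero_le) hm
      _ ≤ _ := le_self_add
  · push Not at hA
    obtain ⟨i, hi, hfar, hlt⟩ := hA
    have h1 : ‖∑ i ∈ range N, z i‖ₑ ≤ N * ‖z m‖ₑ := by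
      calc ‖∑ i ∈ range N, z i‖ₑ ≤ ∑ i ∈ range N, ‖z i‖ₑ := enorm_sum_le _ _
        _ ≤ ∑ i ∈ range N, ‖z m‖ₑ := Finset.sum_le_sum hmax
        _ = N * ‖z m‖ₑ := by rw [Finset.sum_const, Finset.card_range, nsmul_eq_mul]
    have hp2 : 0 ≤ p / 2 := by linarith
    calc ‖∑ i ∈ range N, z i‖ₑ ^ p ≤ (N * ‖z m‖ₑ) ^ p := ENNReal.rpow_le_rpow h1 hp0
      _ = (N : ℝ≥0∞) ^ p * (‖z m‖ₑ ^ (p / 2) * ‖z m‖ₑ ^ (p / 2)) := by
          rw [ENNReal.mul_rpow_of_nonneg _ _ hp0, ← ENNReal.rpow_add_of_nonneg _ _ hp2 hp2,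
            add_halves]
      _ ≤ (N : ℝ≥0∞) ^ p * (((N : ℝ≥0∞) * ‖z i‖ₑ) ^ (p / 2) * ‖z m‖ₑ ^ (p / 2)) := by
          gcongr
      _ = ((N : ℝ≥0∞) ^ p * (N : ℝ≥0∞) ^ (p / 2)) * (‖z i‖ₑ ^ (p / 2) * ‖z m‖ₑ ^ (p / 2)) := by
          rw [ENNReal.mul_rpow_of_nonneg _ _ hp2]
          ring
      _ ≤ (N : ℝ≥0∞) ^ (2 * p) * (‖z i‖ₑ ^ (p / 2) * ‖z m‖ₑ ^ (p / 2)) := by
          gcongr
          rw [← ENNReal.rpow_add_of_nonneg _ _ hp0 hp2]
          exact ENNReal.rpow_le_rpow_of_exponent_le hN1 (by linarith)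
      _ ≤ (N : ℝ≥0∞) ^ (2 * p) * ∑ i ∈ range N, ∑ j ∈ range N,
            if i + 2 ≤ j ∨ j + 2 ≤ i then ‖z i‖ₑ ^ (p / 2) * ‖z j‖ₑ ^ (p / 2) else 0 := by
          gcongr
          refine le_trans ?_ (Finset.single_le_sum (f := fun i => ∑ j ∈ range N,
            if i + 2 ≤ j ∨ j + 2 ≤ i then ‖z i‖ₑ ^ (p / 2) * ‖z j‖ₑ ^ (p / 2) else 0)
            (fun _ _ => zero_le) hi)
          refine le_trans ?_ (Finset.single_le_sum (f := fun j =>
            if i + 2 ≤ j ∨ j + 2 ≤ i then ‖z i‖ₑ ^ (p / 2) * ‖z j‖ₑ ^ (p / 2) else 0)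
            (fun _ _ => zero_le) hm)
          rw [if_pos (by omega)]
      _ ≤ _ := le_add_self

theorem cs {k : ℕ} {p a : ℝ} (ha : 0 ≤ a) (hp : a ≤ p) (F G : E k → ℝ≥0∞) (hF : Measurable F)
    (hG : Measurable G) (hF' : ∀ x, F x ≠ ⊤) (hG' : ∀ x, G x ≠ ⊤) :
    ∫⁻ x, F x ^ (p / 2) * G x ^ (p / 2) ≤
      (∫⁻ x, F x ^ a * G x ^ (p - a)) ^ (1 / 2 : ℝ) *
        (∫⁻ x, G x ^ a * F x ^ (p - a)) ^ (1 / 2 : ℝ) := by
  have hpa : 0 ≤ p - a := by linarith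
  have key : ∀ x, F x ^ (p / 2) * G x ^ (p / 2) =
      (F x ^ a * G x ^ (p - a)) ^ (1 / 2 : ℝ) * (G x ^ a * F x ^ (p - a)) ^ (1 / 2 : ℝ) := by
    intro x
    rw [← ENNReal.mul_rpow_of_nonneg _ _ (by norm_num : (0:ℝ) ≤ 1 / 2)]
    have : F x ^ a * G x ^ (p - a) * (G x ^ a * F x ^ (p - a)) = F x ^ p * G x ^ p := by
      have e1 : F x ^ p = F x ^ a * F x ^ (p - a) := by
        rw [← ENNReal.rpow_add_of_nonneg _ _ ha hpa]; congr 1; ring
      have e2 : G x ^ p = G x ^ a * G x ^ (p - a) := by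
        rw [← ENNReal.rpow_add_of_nonneg _ _ ha hpa]; congr 1; ring
      rw [e1, e2]; ring
    rw [this, ENNReal.mul_rpow_of_nonneg _ _ (by norm_num), ← ENNReal.rpow_mul,
      ← ENNReal.rpow_mul]
    congr 2 <;> ring
  simp_rw [key]
  apply ENNReal.lintegral_mul_norm_pow_le
  · exact ((hF.pow_const a).mul (hG.pow_const (p - a))).aemeasurable
  · exact ((hG.pow_const a).mul (hF.pow_const (p - a))).aemeasurable
  · norm_num
  · norm_num
  · norm_num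

theorem bn_P_two_le {k : ℕ} (hk : 1 ≤ k) : 2 ≤ P k := by
  unfold P
  have : (1 : ℝ) ≤ k := by exact_mod_cast hk
  nlinarith

theorem bn_P_le_P {k l : ℕ} (hl : l ≤ k) : P l ≤ P k := by
  unfold P
  have : (l : ℝ) ≤ k := by exact_mod_cast hl
  have h0 : (0 : ℝ) ≤ l := Nat.cast_nonneg l
  nlinarith

theorem bn_P_zero_le (l : ℕ) : 0 ≤ P l := by
  unfold P
  positivity

theorem dec_bn {k l m a : ℕ} {D M : ℝ≥0∞} (hk : 1 ≤ k) (hl : l ≤ k) (ha : a ≤ m)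
    (hD : Dec k 2 (m - a) D) (hM : ML k l (1 / 2 ^ a) m a a M) :
    Dec k 2 m (4 * D + 2 ^ (4 * a) * M) := by
  intro f hf
  have hp2 : 2 ≤ P k := bn_P_two_le hk
  have hp0 : 0 ≤ P k := by linarith
  have hlP : P l ≤ P k := bn_P_le_P hl
  have hl0 : 0 ≤ P l := bn_P_zero_le l
  set p := P k with hpdef
  set S := S2 p (range (2 ^ m)) f with hS
  set F : ℕ → E k → ℂ := fun i => bs (m - a) i f with hFdef
  have hcont : ∀ i < 2 ^ a, Continuous (F i) := fun i hi =>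
    spec_cont (spec_bs (by norm_num) (by norm_num) hf ha hi)
  have hma : m - a + a = m := Nat.sub_add_cancel ha
  have hsum : ∀ x, ∑ j ∈ range (2 ^ m), f j x = ∑ i ∈ range (2 ^ a), F i x := by
    intro x
    have := sum_nest (fun j => f j x) (m - a) a 0
    rw [hma, bk_zero, bk_zero] at this
    exact this
  have hSsum : S = ∑ i ∈ range (2 ^ a), S2 p (bk (m - a) i) f := by
    have := sum_nest (fun j => nI p (f j) ^ (2 / p)) (m - a) a 0
    rw [hma, bk_zero, bk_zero] at this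
    exact this
  have hSi : ∀ i < 2 ^ a, S2 p (bk (m - a) i) f ≤ S := by
    intro i hi
    rw [hSsum]
    exact Finset.single_le_sum (f := fun i => S2 p (bk (m - a) i) f) (fun _ _ => zero_le)
      (Finset.mem_range.2 hi)
  have hdiag : ∑ i ∈ range (2 ^ a), nI p (F i) ≤ D ^ p * S ^ (p / 2) := by
    calc ∑ i ∈ range (2 ^ a), nI p (F i)
        ≤ ∑ i ∈ range (2 ^ a), D ^ p * S2 p (bk (m - a) i) f ^ (p / 2) := by
          apply Finset.sum_le_sum
          intro i hi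
          exact dec_bk hk hD one_pos hf ha (Finset.mem_range.1 hi)
      _ = D ^ p * ∑ i ∈ range (2 ^ a), S2 p (bk (m - a) i) f ^ (p / 2) := by
          rw [Finset.mul_sum]
      _ ≤ D ^ p * S ^ (p / 2) := by
          gcongr
          rw [hSsum]
          exact sum_pow_le (by linarith) _ _
  have hfar : ∀ i < 2 ^ a, ∀ j < 2 ^ a, (i + 2 ≤ j ∨ j + 2 ≤ i) →
      ∫⁻ x, ‖F i x‖ₑ ^ (p / 2) * ‖F j x‖ₑ ^ (p / 2) ≤ M ^ p * S ^ (p / 2) := by
    intro i hi j hj hij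
    have h2a : (0 : ℝ) < 2 ^ a := by positivity
    have hsep : ∀ i' j' : ℕ, (i' + 2 ≤ j' ∨ j' + 2 ≤ i') →
        (∀ s t : ℝ, (i' : ℝ) / 2 ^ a ≤ s → s ≤ (i' + 1) / 2 ^ a → (j' : ℝ) / 2 ^ a ≤ t →
          t ≤ (j' + 1) / 2 ^ a → 1 / 2 ^ a ≤ |s - t|) := by
      intro i' j' h s t h1 h2 h3 h4
      rcases h with h | h
      · have h5 : (i' : ℝ) + 2 ≤ j' := by exact_mod_cast h
        have h6 : ((i' : ℝ) + 1) / 2 ^ a + 1 / 2 ^ a ≤ (j' : ℝ) / 2 ^ a := by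
          rw [← add_div]
          gcongr
          linarith
        rw [abs_sub_comm]
        exact le_trans (by linarith) (le_abs_self _)
      · have h5 : (j' : ℝ) + 2 ≤ i' := by exact_mod_cast h
        have h6 : ((j' : ℝ) + 1) / 2 ^ a + 1 / 2 ^ a ≤ (i' : ℝ) / 2 ^ a := by
          rw [← add_div]
          gcongr
          linarith
        exact le_trans (by linarith) (le_abs_self _)
    have e1 := hM 0 f f hf hf i j hi hj (hsep i j hij)
    have e2 := hM 0 f f hf hf j i hj hi (hsep j i hij.symm)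
    have hm' : ∀ i < 2 ^ a, Measurable (fun x => ‖F i x‖ₑ) := fun i hi =>
      (hcont i hi).enorm.measurable
    have h3 := cs hl0 hlP (fun x => ‖F i x‖ₑ) (fun x => ‖F j x‖ₑ) (hm' i hi) (hm' j hj)
      (fun x => enorm_ne_top) (fun x => enorm_ne_top)
    refine le_trans h3 ?_
    refine le_trans (mul_le_mul' (ENNReal.rpow_le_rpow e1 (by norm_num))
      (ENNReal.rpow_le_rpow e2 (by norm_num))) ?_
    rw [← ENNReal.mul_rpow_of_nonneg _ _ (by norm_num)]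
    have hq : 0 ≤ (P k - P l) / 2 := by linarith
    have hq' : 0 ≤ P l / 2 := by linarith
    have h4 : M ^ P k * S2 (P k) (bk (m - a) i) f ^ (P l / 2) *
        S2 (P k) (bk (m - a) j) f ^ ((P k - P l) / 2) *
        (M ^ P k * S2 (P k) (bk (m - a) j) f ^ (P l / 2) *
        S2 (P k) (bk (m - a) i) f ^ ((P k - P l) / 2)) ≤ (M ^ p * S ^ (p / 2)) ^ (2 : ℝ) := by
      have e3 : (M ^ p * S ^ (p / 2)) ^ (2 : ℝ) = M ^ p * S ^ (P l / 2) * S ^ ((P k - P l) / 2) *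
          (M ^ p * S ^ (P l / 2) * S ^ ((P k - P l) / 2)) := by
        rw [ENNReal.rpow_two, sq]
        have : S ^ (p / 2) = S ^ (P l / 2) * S ^ ((P k - P l) / 2) := by
          rw [← ENNReal.rpow_add_of_nonneg _ _ hq' hq]
          congr 1
          rw [hpdef]; ring
        rw [this]
        ring
      rw [e3]
      have hi' := hSi i hi
      have hj' := hSi j hj
      gcongr
    calc _ ≤ ((M ^ p * S ^ (p / 2)) ^ (2 : ℝ)) ^ (1 / 2 : ℝ) :=
          ENNReal.rpow_le_rpow h4 (by norm_num)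
      _ = M ^ p * S ^ (p / 2) := by
          rw [← ENNReal.rpow_mul]; norm_num
  have hmeasF : ∀ i ∈ range (2 ^ a), Measurable (fun x => ‖F i x‖ₑ) := fun i hi =>
    (hcont i (Finset.mem_range.1 hi)).enorm.measurable
  have hN : ((2 ^ a : ℕ) : ℝ≥0∞) = 2 ^ a := by push_cast; rfl
  have hNt : (2 : ℝ≥0∞) ^ a ≠ ⊤ := ENNReal.pow_ne_top (by norm_num)
  have hN1 : (1 : ℝ≥0∞) ≤ 2 ^ a := one_le_pow_of_one_le' (by norm_num) a
  have hmain : nI p (fun x => ∑ j ∈ range (2 ^ m), f j x) ≤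
      4 ^ p * (D ^ p * S ^ (p / 2)) + ((2 : ℝ≥0∞) ^ a) ^ (2 * p) *
        (((2 : ℝ≥0∞) ^ a) * (((2 : ℝ≥0∞) ^ a) * (M ^ p * S ^ (p / 2)))) := by
    calc nI p (fun x => ∑ j ∈ range (2 ^ m), f j x)
        = ∫⁻ x, ‖∑ i ∈ range (2 ^ a), F i x‖ₑ ^ p := by
          unfold nI
          simp_rw [hsum]
      _ ≤ ∫⁻ x, (4 ^ p * ∑ i ∈ range (2 ^ a), ‖F i x‖ₑ ^ p +
            ((2 ^ a : ℕ) : ℝ≥0∞) ^ (2 * p) * ∑ i ∈ range (2 ^ a), ∑ j ∈ range (2 ^ a),
              if i + 2 ≤ j ∨ j + 2 ≤ i then ‖F i x‖ₑ ^ (p / 2) * ‖F j x‖ₑ ^ (p / 2) else 0) :=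
          lintegral_mono (fun x => bn_pt (2 ^ a) (fun i => F i x) hp2)
      _ = 4 ^ p * ∑ i ∈ range (2 ^ a), nI p (F i) +
            ((2 ^ a : ℕ) : ℝ≥0∞) ^ (2 * p) * ∑ i ∈ range (2 ^ a), ∑ j ∈ range (2 ^ a),
              ∫⁻ x, (if i + 2 ≤ j ∨ j + 2 ≤ i then ‖F i x‖ₑ ^ (p / 2) * ‖F j x‖ₑ ^ (p / 2)
                else 0) := by
          have hm1 : ∀ i ∈ range (2 ^ a), Measurable (fun x => ‖F i x‖ₑ ^ p) :=
            fun i hi => (hmeasF i hi).pow_const p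
          have hm2 : ∀ i ∈ range (2 ^ a), ∀ j ∈ range (2 ^ a), Measurable (fun x =>
              (if i + 2 ≤ j ∨ j + 2 ≤ i then ‖F i x‖ₑ ^ (p / 2) * ‖F j x‖ₑ ^ (p / 2)
                else 0 : ℝ≥0∞)) := by
            intro i hi j hj
            split_ifs
            · exact ((hmeasF i hi).pow_const _).mul ((hmeasF j hj).pow_const _)
            · exact measurable_const
          rw [lintegral_add_left, lintegral_const_mul, lintegral_const_mul,
            lintegral_finsetSum, lintegral_finsetSum]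
          · congr 2
            apply Finset.sum_congr rfl
            intro i hi
            rw [lintegral_finsetSum]
            intro j hj
            exact hm2 i hi j hj
          · intro i hi
            exact Finset.measurable_sum _ (fun j hj => hm2 i hi j hj)
          · exact hm1
          · exact Finset.measurable_sum _ (fun i hi =>
              Finset.measurable_sum _ (fun j hj => hm2 i hi j hj))
          · exact Finset.measurable_sum _ hm1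
          · exact (Finset.measurable_sum _ hm1).const_mul _
      _ ≤ _ := by
          rw [hN]
          gcongr ?_ + _ * ?_
          · gcongr
          · calc ∑ i ∈ range (2 ^ a), ∑ j ∈ range (2 ^ a),
                ∫⁻ x, (if i + 2 ≤ j ∨ j + 2 ≤ i then ‖F i x‖ₑ ^ (p / 2) * ‖F j x‖ₑ ^ (p / 2)
                  else 0) ≤ ∑ i ∈ range (2 ^ a), ∑ j ∈ range (2 ^ a), M ^ p * S ^ (p / 2) := by
                  apply Finset.sum_le_sum
                  intro i hi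
                  apply Finset.sum_le_sum
                  intro j hj
                  split_ifs with h
                  · exact hfar i (Finset.mem_range.1 hi) j (Finset.mem_range.1 hj) h
                  · simp
              _ = _ := by
                  rw [Finset.sum_const, Finset.sum_const, Finset.card_range, nsmul_eq_mul,
                    nsmul_eq_mul, hN]
  refine le_trans hmain ?_
  have h5 : ((2 : ℝ≥0∞) ^ a) ^ (2 * p) * (((2 : ℝ≥0∞) ^ a) * (((2 : ℝ≥0∞) ^ a) *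
      (M ^ p * S ^ (p / 2)))) ≤ (2 ^ (4 * a) * M) ^ p * S ^ (p / 2) := by
    have e4 : (2 : ℝ≥0∞) ^ (4 * a) = (2 ^ a) ^ (4 : ℝ) := by
      rw [show (4 : ℝ) = ((4 : ℕ) : ℝ) by norm_num, ENNReal.rpow_natCast, ← pow_mul, mul_comm]
    rw [ENNReal.mul_rpow_of_nonneg _ _ hp0, e4, ← ENNReal.rpow_mul]
    have e5 : ((2 : ℝ≥0∞) ^ a) ^ (2 * p) * (((2 : ℝ≥0∞) ^ a) * (((2 : ℝ≥0∞) ^ a) *
        (M ^ p * S ^ (p / 2)))) = (((2 : ℝ≥0∞) ^ a) ^ (2 * p) * ((2 : ℝ≥0∞) ^ a) ^ (2 : ℝ)) *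
        M ^ p * S ^ (p / 2) := by
      rw [ENNReal.rpow_two, sq]; ring
    rw [e5]
    gcongr
    rw [← ENNReal.rpow_add_of_nonneg _ _ (by linarith) (by norm_num)]
    exact ENNReal.rpow_le_rpow_of_exponent_le hN1 (by linarith)
  calc _ ≤ 4 ^ p * (D ^ p * S ^ (p / 2)) + (2 ^ (4 * a) * M) ^ p * S ^ (p / 2) := by
        gcongr
    _ = ((4 * D) ^ p + (2 ^ (4 * a) * M) ^ p) * S ^ (p / 2) := by
        rw [ENNReal.mul_rpow_of_nonneg 4 D hp0]; ring
    _ ≤ (4 * D + 2 ^ (4 * a) * M) ^ p * S ^ (p / 2) := by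
        gcongr
        exact ENNReal.add_rpow_le_rpow_add _ _ (by linarith)

end Pool.Agent.Dcp
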