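import Pool.Agent.Dcp.SpA

/-!
# Dcp, module SpM: sums and products

`spec_add`: `α ⊕ β` with the measure `μ.map Sum.inl + ν.map Sum.inr` (`MeasurableEmbedding.inl`, `integral_map`), frequencies
`Sum.elim ξ ξ'`, coefficients `Sum.elim c c'`.  `spec_sum`: induction (`spec_zero`, `spec_add`).
`spec_mul`: `α × β` with the product measure, frequencies `ξ p.1 + ξ' p.2`, coefficients `c p.1 * c' p.2`,
`integral_prod_mul`.  `spec_conj` is not needed.  `spec_smul`: `spec_mul` or directly.
-/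

set_option autoImplicit false

namespace Pool.Agent.Dcp

open MeasureTheory Finset
open scoped ENNReal

private theorem meas_term {k : ℕ} {α : Type} [MeasurableSpace α] {ξ : α → E k} {c : α → ℂ}
    (hξ : Measurable ξ) (hc : Measurable c) (x : E k) :
    Measurable (fun a => c a * ee (ξ a ⬝ᵥ x)) := by
  refine hc.mul (ee_cont.measurable.comp ?_)
  unfold dotProduct
  exact Finset.measurable_sum _ fun i _ => ((measurable_pi_apply i).comp hξ).mul_const _

private theorem int_term {k : ℕ} {α : Type} [MeasurableSpace α] {μ : Measure α}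
    [IsFiniteMeasure μ] {ξ : α → E k} {c : α → ℂ} {B : ℝ}
    (hξ : Measurable ξ) (hc : Measurable c) (hB : ∀ a, ‖c a‖ ≤ B) (x : E k) :
    Integrable (fun a => c a * ee (ξ a ⬝ᵥ x)) μ := by
  refine Integrable.of_bound (meas_term hξ hc x).aestronglyMeasurable B ?_
  refine Filter.Eventually.of_forall fun a => ?_
  rw [norm_mul, ee_norm, mul_one]
  exact hB a

theorem spec_add {k : ℕ} {Ω : Set (E k)} {f g : E k → ℂ} (hf : Spec Ω f) (hg : Spec Ω g) :
    Spec Ω (fun x => f x + g x) := by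
  obtain ⟨α, mα, μ, ξ, c, B, hμ, hξ, hc, hΩ, hB, hf⟩ := hf
  obtain ⟨β, mβ, ν, ξ', c', B', hν, hξ', hc', hΩ', hB', hg⟩ := hg
  have hm : Measurable (Sum.elim ξ ξ') := measurable_fun_sum hξ hξ'
  have hmc : Measurable (Sum.elim c c') := measurable_fun_sum hc hc'
  have hBB : ∀ a, ‖Sum.elim c c' a‖ ≤ max B B' := by
    rintro (a | b)
    · exact (hB a).trans (le_max_left _ _)
    · exact (hB' b).trans (le_max_right _ _)
  refine ⟨α ⊕ β, inferInstance, μ.map Sum.inl + ν.map Sum.inr, Sum.elim ξ ξ', Sum.elim c c',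
    max B B', inferInstance, hm, hmc, ?_, hBB, ?_⟩
  · rintro (a | b)
    · exact hΩ a
    · exact hΩ' b
  · intro x
    rw [integral_add_measure (int_term hm hmc hBB x) (int_term hm hmc hBB x),
      integral_map measurable_inl.aemeasurable (meas_term hm hmc x).aestronglyMeasurable,
      integral_map measurable_inr.aemeasurable (meas_term hm hmc x).aestronglyMeasurable]
    simp only [Sum.elim_inl, Sum.elim_inr]
    rw [hf x, hg x]

theorem spec_smul {k : ℕ} {Ω : Set (E k)} {f : E k → ℂ} (c : ℂ) (hf : Spec Ω f) :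
    Spec Ω (fun x => c * f x) := by
  obtain ⟨α, mα, μ, ξ, c', B, hμ, hξ, hc, hΩ, hB, hf⟩ := hf
  refine ⟨α, mα, μ, ξ, fun a => c * c' a, ‖c‖ * B, hμ, hξ, hc.const_mul c, hΩ, ?_, ?_⟩
  · intro a
    rw [norm_mul]
    exact mul_le_mul_of_nonneg_left (hB a) (norm_nonneg c)
  · intro x
    beta_reduce
    rw [hf x, ← integral_const_mul]
    congr 1
    funext a
    ring

theorem spec_sum {k : ℕ} {Ω : Set (E k)} (s : Finset ℕ) (f : ℕ → E k → ℂ)
    (h : ∀ j ∈ s, Spec Ω (f j)) : Spec Ω (fun x => ∑ j ∈ s, f j x) := by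
  classical
  induction s using Finset.induction_on with
  | empty =>
    simp only [Finset.sum_empty]
    exact spec_zero Ω
  | insert a s ha ih =>
    simp only [Finset.sum_insert ha]
    exact spec_add (h a (Finset.mem_insert_self a s))
      (ih fun j hj => h j (Finset.mem_insert_of_mem hj))

theorem spec_mul {k : ℕ} {Ω Ω' Ω'' : Set (E k)} {f g : E k → ℂ} (hf : Spec Ω f) (hg : Spec Ω' g)
    (h : ∀ ξ ∈ Ω, ∀ η ∈ Ω', ξ + η ∈ Ω'') : Spec Ω'' (fun x => f x * g x) := by
  obtain ⟨α, mα, μ, ξ, c, B, hμ, hξ, hc, hΩ, hB, hf⟩ := hf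
  obtain ⟨β, mβ, ν, ξ', c', B', hν, hξ', hc', hΩ', hB', hg⟩ := hg
  refine ⟨α × β, inferInstance, μ.prod ν, fun p => ξ p.1 + ξ' p.2, fun p => c p.1 * c' p.2,
    B * B', inferInstance, ?_, ?_, ?_, ?_, ?_⟩
  · exact (hξ.comp measurable_fst).add (hξ'.comp measurable_snd)
  · exact (hc.comp measurable_fst).mul (hc'.comp measurable_snd)
  · intro p
    exact h _ (hΩ p.1) _ (hΩ' p.2)
  · intro p
    rw [norm_mul]
    exact mul_le_mul (hB p.1) (hB' p.2) (norm_nonneg _) ((norm_nonneg _).trans (hB p.1))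
  · intro x
    beta_reduce
    rw [hf x, hg x, ← integral_prod_mul]
    congr 1
    funext p
    rw [add_dotProduct, ee_add]
    ring

end Pool.Agent.Dcp
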