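import Pool.Agent.Dcp.Kr
import Pool.Agent.Dcp.SpM

/-!
# Dcp, module Base: the case `k = 1`

`P 1 = 2`.  `orth`: `f` has spectrum in `{|ξ 0 - x| ≤ ρ}`, `g` in `{2 ρ ≤ |ξ 0 - x|}`, both in `L²`; then `∫ f conj g = 0`:
with `K` from `kr_one` (moved to `E 1`) and `κ v = ρ K (ρ v) ee (x v)`: `∫ κ v f (y - v) = f y` and `∫ κ v g (y - v) = 0`
for all `y` (`spec_rep`).  So `∫ f conj g = ∫∫ κ v f (y - v) conj (g y) dv dy = ∫ f z conj (∫ conj (κ v) g (z + v) dv) dz`
(Fubini: the double integrand is dominated by `‖κ v‖ ‖f (y-v)‖ ‖g y‖`, whose integral is at most `‖κ‖₁ ‖f‖₂ ‖g‖₂`), and the kernel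
`v ↦ conj (κ (-v))` has the same Fourier transform up to conjugation (`∫ conj (κ (-v)) ee (-(ξ v)) dv = conj (∫ κ v ee (-(ξ v)) dv)`),
which is `0` on the spectrum of `g`; so the inner integral is `0`.
`dec_one`: if some `nI 2 (f j)` is infinite the right side is infinite (the power `2/2 = 1`; the constant is not `0`).  Otherwise all
`f j` are in `L²`.  `UU 1 2 t δ = {ξ | |ξ 0 - t| ≤ 2 δ}`, `t_j = j δ`, `δ = 2^(-m)`.  For `|i - j| ≥ 6`:
`|t_i - t_j| ≥ 6 δ`, so with `ρ = 2 δ`, `x = t_i` the functions `f i`, `f j` are orthogonal.  Split the indices by their residue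
mod `6`: `‖∑ f_j‖² ≤ 6 ∑_{r<6} ‖∑_{j ≡ r} f_j‖²` pointwise (Cauchy-Schwarz), and `∫ ‖∑_{j ≡ r} f_j‖² = ∑_{j≡r} ∫ ‖f_j‖²`.
Constant `6 ≤ 3²`.
-/

set_option autoImplicit false

namespace Pool.Agent.Dcp

open MeasureTheory Finset
open scoped ENNReal

theorem base_tr (G : ℝ → ℂ) : ∫ v : E 1, G (v 0) = ∫ u, G u :=
  (volume_preserving_funUnique (Fin 1) ℝ).integral_comp' G

theorem base_ker (x ρ : ℝ) (hρ : 0 < ρ) : ∃ κ : E 1 → ℂ, Integrable κ ∧
    (∀ ξ : E 1, |ξ 0 - x| ≤ ρ → ∫ v, κ v * ee (-(ξ ⬝ᵥ v)) = 1) ∧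
    (∀ ξ : E 1, 2 * ρ ≤ |ξ 0 - x| → ∫ v, κ v * ee (-(ξ ⬝ᵥ v)) = 0) := by
  obtain ⟨K, hKc, hKi, -, h1, h2⟩ := kr_one
  have key : ∀ ξ : E 1, ∫ v : E 1, ((ρ : ℂ) * K (ρ * v 0) * ee (x * v 0)) * ee (-(ξ ⬝ᵥ v)) =
      ∫ w, K w * ee (-(((ξ 0 - x) / ρ) * w)) := by
    intro ξ
    have e1 : ∀ v : E 1, ((ρ : ℂ) * K (ρ * v 0) * ee (x * v 0)) * ee (-(ξ ⬝ᵥ v)) =
        (fun u : ℝ => (ρ : ℂ) * (fun w : ℝ => K w * ee (-(((ξ 0 - x) / ρ) * w))) (ρ * u)) (v 0) := by
      intro v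
      have e2 : ξ ⬝ᵥ v = ξ 0 * v 0 := by simp [dotProduct]
      rw [e2, mul_assoc, ← ee_add]
      have e3 : x * v 0 + -(ξ 0 * v 0) = -((ξ 0 - x) / ρ * (ρ * v 0)) := by
        field_simp
        ring
      rw [e3]
      show _ = (ρ : ℂ) * (K (ρ * v 0) * ee (-((ξ 0 - x) / ρ * (ρ * v 0))))
      ring
    rw [integral_congr_ae (Filter.Eventually.of_forall e1), base_tr (fun u : ℝ => (ρ : ℂ) *
      (fun w : ℝ => K w * ee (-(((ξ 0 - x) / ρ) * w))) (ρ * u)), integral_const_mul,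
      Measure.integral_comp_mul_left (fun w : ℝ => K w * ee (-(((ξ 0 - x) / ρ) * w))) ρ,
      abs_of_pos (inv_pos.2 hρ), Complex.real_smul, ← mul_assoc]
    have e4 : (ρ : ℂ) * ((ρ⁻¹ : ℝ) : ℂ) = 1 := by
      rw [← Complex.ofReal_mul, mul_inv_cancel₀ hρ.ne', Complex.ofReal_one]
    rw [e4, one_mul]
  refine ⟨fun v => (ρ : ℂ) * K (ρ * v 0) * ee (x * v 0), ?_, ?_, ?_⟩
  · have i1 : Integrable (fun u : ℝ => (ρ : ℂ) * K (ρ * u) * ee (x * u)) := by
      have i2 : Integrable (fun u : ℝ => (ρ : ℂ) * K (ρ * u)) :=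
        (hKi.comp_mul_left' hρ.ne').const_mul _
      refine i2.mul_bdd (c := 1) (ee_cont.comp (continuous_const.mul continuous_id)).aestronglyMeasurable ?_
      filter_upwards with u
      exact (ee_norm _).le
    exact ((volume_preserving_funUnique (Fin 1) ℝ).integrable_comp_emb
      (MeasurableEquiv.funUnique (Fin 1) ℝ).measurableEmbedding).2 i1
  · intro ξ hξ
    rw [key]
    apply h1
    rw [abs_div, abs_of_pos hρ, div_le_one hρ]
    exact hξ
  · intro ξ hξ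
    rw [key]
    apply h2
    rw [abs_div, abs_of_pos hρ, le_div_iff₀ hρ]
    exact hξ

theorem base_int {κ : E 1 → ℂ} (hκ : Integrable κ) {f g : E 1 → ℂ} (hf : Continuous f)
    (hg : Continuous g) (hf2 : Integrable (fun x => ‖f x‖ ^ 2))
    (hg2 : Integrable (fun x => ‖g x‖ ^ 2)) :
    Integrable (fun p : E 1 × E 1 => κ p.1 * f (p.2 - p.1) * (starRingEnd ℂ) (g p.2))
      (volume.prod volume) := by
  have h1 : Integrable (fun p : E 1 × E 1 => ‖κ p.1‖ * ‖f p.2‖ ^ 2) (volume.prod volume) :=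
    hκ.norm.mul_prod hf2
  have h2 : Integrable (fun p : E 1 × E 1 => ‖κ p.1‖ * ‖g p.2‖ ^ 2) (volume.prod volume) :=
    hκ.norm.mul_prod hg2
  have hmp := measurePreserving_prod_sub (volume : Measure (E 1)) (volume : Measure (E 1))
  have h3 : Integrable (fun p : E 1 × E 1 => ‖κ p.1‖ * ‖f (p.2 - p.1)‖ ^ 2)
      (volume.prod volume) :=
    (hmp.integrable_comp h1.aestronglyMeasurable).2 h1
  refine (h3.add h2).mono' ?_ ?_
  · exact ((hκ.aestronglyMeasurable.comp_fst).mul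
      (hf.comp (continuous_snd.sub continuous_fst)).aestronglyMeasurable).mul
      (Complex.continuous_conj.comp (hg.comp continuous_snd)).aestronglyMeasurable
  · filter_upwards with p
    rw [norm_mul, norm_mul, RCLike.norm_conj]
    have a := norm_nonneg (κ p.1)
    have b : ‖f (p.2 - p.1)‖ * ‖g p.2‖ ≤ ‖f (p.2 - p.1)‖ ^ 2 + ‖g p.2‖ ^ 2 := by
      nlinarith [sq_nonneg (‖f (p.2 - p.1)‖ - ‖g p.2‖), sq_nonneg ‖f (p.2 - p.1)‖,
        sq_nonneg ‖g p.2‖]
    have c := mul_le_mul_of_nonneg_left b a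
    show _ ≤ ‖κ p.1‖ * ‖f (p.2 - p.1)‖ ^ 2 + ‖κ p.1‖ * ‖g p.2‖ ^ 2
    linarith

/-- functions with separated spectra are orthogonal -/
theorem base_orth {x ρ : ℝ} (hρ : 0 < ρ) {f g : E 1 → ℂ} (hf : Spec {ξ | |ξ 0 - x| ≤ ρ} f)
    (hg : Spec {ξ | 2 * ρ ≤ |ξ 0 - x|} g) (hf2 : Integrable (fun y => ‖f y‖ ^ 2))
    (hg2 : Integrable (fun y => ‖g y‖ ^ 2)) : ∫ y, f y * (starRingEnd ℂ) (g y) = 0 := by
  obtain ⟨κ, hκ, hκ1, hκ0⟩ := base_ker x ρ hρ
  have hfc := spec_cont hf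
  have hgc := spec_cont hg
  have hI := base_int hκ hfc hgc hf2 hg2
  have hrep : ∀ y, ∫ v, κ v * f (y - v) = f y := by
    intro y
    have := spec_rep hf hκ (c := 1) (fun ξ hξ => hκ1 ξ hξ) y
    rwa [one_mul] at this
  -- the conjugate kernel
  have hκ' : Integrable (fun v => (starRingEnd ℂ) (κ (-v))) :=
    (Complex.conjCLE.toContinuousLinearMap.integrable_comp hκ.comp_neg)
  have hrep0 : ∀ z, ∫ v, (starRingEnd ℂ) (κ (-v)) * g (z - v) = 0 := by
    intro z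
    have h1 := spec_rep hg hκ' (c := 0) (fun ξ hξ => ?_) z
    · rwa [zero_mul] at h1
    · have h2 : ∀ v : E 1, (starRingEnd ℂ) (κ (-v)) * ee (-(ξ ⬝ᵥ v)) =
          (fun w => (starRingEnd ℂ) (κ w * ee (-(ξ ⬝ᵥ w)))) (-v) := by
        intro v
        show _ = (starRingEnd ℂ) (κ (-v) * ee (-(ξ ⬝ᵥ (-v))))
        rw [map_mul]
        congr 1
        unfold ee
        rw [← Complex.exp_conj]
        congr 1
        simp only [map_mul, Complex.conj_ofReal, Complex.conj_I, dotProduct_neg]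
        have : (starRingEnd ℂ) 2 = 2 := Complex.conj_ofReal 2
        rw [this]
        push_cast
        ring
      rw [integral_congr_ae (Filter.Eventually.of_forall h2), integral_neg_eq_self
        (fun w => (starRingEnd ℂ) (κ w * ee (-(ξ ⬝ᵥ w)))) volume, integral_conj, hκ0 ξ hξ, map_zero]
  -- step 1
  have s1 : ∫ y, f y * (starRingEnd ℂ) (g y) =
      ∫ y, ∫ v, κ v * f (y - v) * (starRingEnd ℂ) (g y) := by
    refine integral_congr_ae (Filter.Eventually.of_forall fun y => ?_)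
    show f y * (starRingEnd ℂ) (g y) = ∫ v, κ v * f (y - v) * (starRingEnd ℂ) (g y)
    rw [integral_mul_const, hrep]
  -- step 2 : the double integral
  have s2 : ∫ y, ∫ v, κ v * f (y - v) * (starRingEnd ℂ) (g y) =
      ∫ p : E 1 × E 1, κ p.1 * f (p.2 - p.1) * (starRingEnd ℂ) (g p.2) ∂(volume.prod volume) :=
    (integral_prod_symm _ hI).symm
  have hmp := measurePreserving_prod_add (volume : Measure (E 1)) (volume : Measure (E 1))
  have s3 : ∫ p : E 1 × E 1, κ p.1 * f (p.2 - p.1) * (starRingEnd ℂ) (g p.2) ∂(volume.prod volume) =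
      ∫ p : E 1 × E 1, κ p.1 * f p.2 * (starRingEnd ℂ) (g (p.1 + p.2)) ∂(volume.prod volume) := by
    have h1 := integral_map (μ := (volume : Measure (E 1)).prod (volume : Measure (E 1)))
      hmp.measurable.aemeasurable (f := fun p : E 1 × E 1 => κ p.1 * f (p.2 - p.1) *
        (starRingEnd ℂ) (g p.2)) (by rw [hmp.map_eq]; exact hI.aestronglyMeasurable)
    rw [hmp.map_eq] at h1
    rw [h1]
    refine integral_congr_ae (Filter.Eventually.of_forall fun p => ?_)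
    show κ p.1 * f (p.1 + p.2 - p.1) * (starRingEnd ℂ) (g (p.1 + p.2)) = _
    rw [add_sub_cancel_left]
  have hI' : Integrable (fun p : E 1 × E 1 => κ p.1 * f p.2 * (starRingEnd ℂ) (g (p.1 + p.2)))
      (volume.prod volume) := by
    have h1 := (hmp.integrable_comp hI.aestronglyMeasurable).2 hI
    refine h1.congr (Filter.Eventually.of_forall fun p => ?_)
    show κ p.1 * f (p.1 + p.2 - p.1) * (starRingEnd ℂ) (g (p.1 + p.2)) = _
    rw [add_sub_cancel_left]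
  have s4 : ∫ p : E 1 × E 1, κ p.1 * f p.2 * (starRingEnd ℂ) (g (p.1 + p.2)) ∂(volume.prod volume) =
      ∫ z, ∫ v, κ v * f z * (starRingEnd ℂ) (g (v + z)) :=
    integral_prod_symm _ hI'
  rw [s1, s2, s3, s4]
  have s5 : ∀ z, ∫ v, κ v * f z * (starRingEnd ℂ) (g (v + z)) = 0 := by
    intro z
    have h1 : ∀ v, κ v * f z * (starRingEnd ℂ) (g (v + z)) =
        (fun w => f z * (starRingEnd ℂ) ((starRingEnd ℂ) (κ (-w)) * g (z - w))) (-v) := by
      intro v
      show _ = f z * (starRingEnd ℂ) ((starRingEnd ℂ) (κ (- -v)) * g (z - -v))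
      rw [map_mul, Complex.conj_conj, neg_neg, sub_neg_eq_add, add_comm z v]
      ring
    rw [integral_congr_ae (Filter.Eventually.of_forall h1), integral_neg_eq_self
      (fun w => f z * (starRingEnd ℂ) ((starRingEnd ℂ) (κ (-w)) * g (z - w))) volume,
      integral_const_mul, integral_conj, hrep0, map_zero, mul_zero]
  rw [integral_congr_ae (Filter.Eventually.of_forall s5), integral_zero]

theorem base_nI {f : E 1 → ℂ} (hf : Continuous f) (h : nI 2 f ≠ ⊤) :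
    Integrable (fun x => ‖f x‖ ^ 2) ∧ nI 2 f = ENNReal.ofReal (∫ x, ‖f x‖ ^ 2) := by
  have e1 : nI 2 f = ∫⁻ x, ‖(‖f x‖ ^ 2 : ℝ)‖ₑ := by
    unfold nI
    refine lintegral_congr fun x => ?_
    rw [enorm_pow, enorm_norm]
    exact_mod_cast ENNReal.rpow_natCast ‖f x‖ₑ 2
  have hi : Integrable (fun x => ‖f x‖ ^ 2) := by
    refine ⟨(hf.norm.pow 2).aestronglyMeasurable, ?_⟩
    unfold HasFiniteIntegral
    rw [← e1]
    exact lt_top_iff_ne_top.2 h
  refine ⟨hi, ?_⟩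
  rw [e1, ofReal_integral_eq_lintegral_ofReal hi (Filter.Eventually.of_forall fun x => sq_nonneg _)]
  refine lintegral_congr fun x => ?_
  rw [Real.enorm_eq_ofReal (sq_nonneg _)]

/-- Pythagoras -/
theorem base_pyth {x ρ : ℝ} (hρ : 0 < ρ) {f g : E 1 → ℂ} (hf : Spec {ξ | |ξ 0 - x| ≤ ρ} f)
    (hg : Spec {ξ | 2 * ρ ≤ |ξ 0 - x|} g) (hf2 : nI 2 f ≠ ⊤) (hg2 : nI 2 g ≠ ⊤) :
    nI 2 (fun y => f y + g y) = nI 2 f + nI 2 g := by
  obtain ⟨if1, ef⟩ := base_nI (spec_cont hf) hf2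
  obtain ⟨ig1, eg⟩ := base_nI (spec_cont hg) hg2
  have hfc := spec_cont hf
  have hgc := spec_cont hg
  have horth := base_orth hρ hf hg if1 ig1
  have hpt : ∀ y, ‖f y + g y‖ ^ 2 = ‖f y‖ ^ 2 + ‖g y‖ ^ 2 + 2 * (f y * (starRingEnd ℂ) (g y)).re := by
    intro y
    rw [← Complex.normSq_eq_norm_sq, ← Complex.normSq_eq_norm_sq, ← Complex.normSq_eq_norm_sq,
      Complex.normSq_add]
  have ifg : Integrable (fun y => f y * (starRingEnd ℂ) (g y)) := by
    refine (if1.add ig1).mono' (hfc.mul (Complex.continuous_conj.comp hgc)).aestronglyMeasurable ?_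
    filter_upwards with y
    rw [norm_mul, RCLike.norm_conj]
    show _ ≤ ‖f y‖ ^ 2 + ‖g y‖ ^ 2
    nlinarith [sq_nonneg (‖f y‖ - ‖g y‖), sq_nonneg ‖f y‖, sq_nonneg ‖g y‖]
  have ire : Integrable (fun y => (f y * (starRingEnd ℂ) (g y)).re) := ifg.re
  have hre : ∫ y, (f y * (starRingEnd ℂ) (g y)).re = 0 := by
    have h1 : ∫ y, (f y * (starRingEnd ℂ) (g y)).re = (∫ y, f y * (starRingEnd ℂ) (g y)).re :=
      integral_re ifg
    rw [h1, horth, Complex.zero_re]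
  have hsum : Integrable (fun y => ‖f y + g y‖ ^ 2) := by
    refine ((if1.add ig1).add (ire.const_mul 2)).congr (Filter.Eventually.of_forall fun y => ?_)
    show ‖f y‖ ^ 2 + ‖g y‖ ^ 2 + 2 * (f y * (starRingEnd ℂ) (g y)).re = ‖f y + g y‖ ^ 2
    rw [hpt]
  have hint : ∫ y, ‖f y + g y‖ ^ 2 = (∫ y, ‖f y‖ ^ 2) + ∫ y, ‖g y‖ ^ 2 := by
    have hadd : Integrable (fun y => ‖f y‖ ^ 2 + ‖g y‖ ^ 2) := if1.add ig1
    rw [integral_congr_ae (Filter.Eventually.of_forall hpt), integral_add hadd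
      (ire.const_mul 2), integral_add if1 ig1, integral_const_mul, hre, mul_zero, add_zero]
  have hne : nI 2 (fun y => f y + g y) ≠ ⊤ := by
    have e1 : nI 2 (fun y => f y + g y) = ∫⁻ y, ‖(‖f y + g y‖ ^ 2 : ℝ)‖ₑ := by
      unfold nI
      refine lintegral_congr fun y => ?_
      rw [enorm_pow, enorm_norm]
      exact_mod_cast ENNReal.rpow_natCast ‖f y + g y‖ₑ 2
    rw [e1]
    exact hsum.2.ne
  rw [(base_nI (f := fun y => f y + g y) (hfc.add hgc) hne).2, hint, ef, eg, ENNReal.ofReal_add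
    (integral_nonneg fun y => sq_nonneg _) (integral_nonneg fun y => sq_nonneg _)]

/-- sums of functions with separated spectra -/
theorem base_sum {ρ : ℝ} (hρ : 0 < ρ) (tt : ℕ → ℝ) (f : ℕ → E 1 → ℂ) (s : Finset ℕ)
    (hf : ∀ j ∈ s, Spec {ξ | |ξ 0 - tt j| ≤ ρ} (f j)) (hfin : ∀ j ∈ s, nI 2 (f j) ≠ ⊤)
    (hsep : ∀ i ∈ s, ∀ j ∈ s, i ≠ j → 3 * ρ ≤ |tt i - tt j|) :
    nI 2 (fun x => ∑ j ∈ s, f j x) = ∑ j ∈ s, nI 2 (f j) := by
  classical
  induction s using Finset.induction_on with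
  | empty =>
    simp only [Finset.sum_empty]
    unfold nI
    simp
  | insert a s ha ih =>
    have ih' := ih (fun j hj => hf j (Finset.mem_insert_of_mem hj))
      (fun j hj => hfin j (Finset.mem_insert_of_mem hj))
      (fun i hi j hj => hsep i (Finset.mem_insert_of_mem hi) j (Finset.mem_insert_of_mem hj))
    simp only [Finset.sum_insert ha]
    have hS : Spec {ξ : E 1 | 2 * ρ ≤ |ξ 0 - tt a|} (fun x => ∑ j ∈ s, f j x) := by
      refine spec_sum s f fun j hj => ?_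
      refine spec_mono (hf j (Finset.mem_insert_of_mem hj)) ?_
      intro ξ hξ
      rw [Set.mem_ofPred_eq] at hξ ⊢
      have h1 := hsep a (Finset.mem_insert_self a s) j (Finset.mem_insert_of_mem hj)
        (fun h => ha (h ▸ hj))
      have h2 : |tt a - tt j| ≤ |ξ 0 - tt j| + |ξ 0 - tt a| := by
        have := abs_sub (ξ 0 - tt j) (ξ 0 - tt a)
        have e : (ξ 0 - tt j) - (ξ 0 - tt a) = tt a - tt j := by ring
        rw [e] at this
        exact this
      linarith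
    rw [base_pyth hρ (hf a (Finset.mem_insert_self a s)) hS (hfin a (Finset.mem_insert_self a s)) ?_,
      ih']
    rw [ih']
    exact (ENNReal.sum_lt_top.2 fun j hj =>
      lt_top_iff_ne_top.2 (hfin j (Finset.mem_insert_of_mem hj))).ne

theorem base_UU {t δ : ℝ} {ξ : E 1} (h : ξ ∈ UU 1 2 t δ) : |ξ 0 - t| ≤ 2 * δ := by
  obtain ⟨c, hc, rfl⟩ := h
  have h1 := hc 0
  have h2 : pt 1 t c 0 - t = c 0 := by
    unfold pt mc fr
    simp
  rw [h2]
  simpa using h1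

theorem P_one : P 1 = 2 := by
  unfold P
  norm_num

theorem dec_one (n : ℕ) : Dec 1 2 n 3 := by
  intro f hf
  rw [P_one]
  have hS2 : S2 2 (range (2 ^ n)) f = ∑ j ∈ range (2 ^ n), nI 2 (f j) := by
    unfold S2
    refine Finset.sum_congr rfl fun j _ => ?_
    rw [div_self (two_ne_zero), ENNReal.rpow_one]
  rw [hS2, div_self (two_ne_zero), ENNReal.rpow_one]
  have h9 : (3 : ℝ≥0∞) ^ (2 : ℝ) = 9 := by
    have : (3 : ℝ≥0∞) ^ (2 : ℝ) = (3 : ℝ≥0∞) ^ (2 : ℕ) := by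
      exact_mod_cast ENNReal.rpow_natCast (3 : ℝ≥0∞) 2
    rw [this]
    norm_num
  rw [h9]
  by_cases hfin : ∀ j ∈ range (2 ^ n), nI 2 (f j) ≠ ⊤
  · have hδ : (0 : ℝ) < 1 / 2 ^ n := by positivity
    have hspec : ∀ j ∈ range (2 ^ n),
        Spec {ξ : E 1 | |ξ 0 - (0 + 1 * ((j : ℝ) / 2 ^ n))| ≤ 2 * (1 / 2 ^ n)} (f j) := by
      intro j hj
      exact spec_mono (hf j (Finset.mem_range.1 hj)) fun ξ hξ => base_UU hξ
    have hres : ∀ r ∈ range 6, nI 2 (fun x => ∑ j ∈ (range (2 ^ n)).filter (fun j => j % 6 = r), f j x) =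
        ∑ j ∈ (range (2 ^ n)).filter (fun j => j % 6 = r), nI 2 (f j) := by
      intro r _
      refine base_sum (ρ := 2 * (1 / 2 ^ n)) (by positivity) (fun j => 0 + 1 * ((j : ℝ) / 2 ^ n)) f _
        (fun j hj => hspec j (Finset.mem_of_mem_filter j hj))
        (fun j hj => hfin j (Finset.mem_of_mem_filter j hj)) ?_
      intro i hi j hj hij
      rw [Finset.mem_filter] at hi hj
      have h6 : (6 : ℝ) ≤ |(i : ℝ) - j| := by
        rcases Nat.lt_or_ge i j with h | h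
        · have h1 : i + 6 ≤ j := by omega
          have h2 : (i : ℝ) + 6 ≤ j := by exact_mod_cast h1
          rw [abs_sub_comm, abs_of_nonneg (by linarith)]
          linarith
        · have h1 : j + 6 ≤ i := by omega
          have h2 : (j : ℝ) + 6 ≤ i := by exact_mod_cast h1
          rw [abs_of_nonneg (by linarith)]
          linarith
      have e1 : (0 + 1 * ((i : ℝ) / 2 ^ n)) - (0 + 1 * ((j : ℝ) / 2 ^ n)) =
          ((i : ℝ) - j) * (1 / 2 ^ n) := by ring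
      show 3 * (2 * (1 / 2 ^ n)) ≤ |(0 + 1 * ((i : ℝ) / 2 ^ n)) - (0 + 1 * ((j : ℝ) / 2 ^ n))|
      rw [e1, abs_mul, abs_of_pos hδ]
      nlinarith
    have hpt : ∀ x, ‖∑ j ∈ range (2 ^ n), f j x‖ₑ ^ (2 : ℝ) ≤
        6 * ∑ r ∈ range 6, ‖∑ j ∈ (range (2 ^ n)).filter (fun j => j % 6 = r), f j x‖ₑ ^ (2 : ℝ) := by
      intro x
      have e1 : ∑ j ∈ range (2 ^ n), f j x =
          ∑ r ∈ range 6, ∑ j ∈ (range (2 ^ n)).filter (fun j => j % 6 = r), f j x :=
        (Finset.sum_fiberwise_of_maps_to (fun j _ => Finset.mem_range.2 (Nat.mod_lt j (by norm_num))) _).symm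
      have e2 : ‖∑ j ∈ range (2 ^ n), f j x‖ₑ ≤
          ∑ r ∈ range 6, ‖∑ j ∈ (range (2 ^ n)).filter (fun j => j % 6 = r), f j x‖ₑ := by
        rw [e1]
        exact enorm_sum_le _ _
      refine (ENNReal.rpow_le_rpow e2 (by norm_num)).trans ?_
      have e3 := ENNReal.rpow_sum_le_const_mul_sum_rpow (range 6)
        (fun r => ‖∑ j ∈ (range (2 ^ n)).filter (fun j => j % 6 = r), f j x‖ₑ) (p := 2) (by norm_num)
      refine e3.trans (le_of_eq ?_)
      congr 1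
      rw [Finset.card_range]
      norm_num
    have hcont : ∀ j ∈ range (2 ^ n), Continuous (f j) := fun j hj => spec_cont (hspec j hj)
    calc nI 2 (fun x => ∑ j ∈ range (2 ^ n), f j x)
        ≤ ∫⁻ x, 6 * ∑ r ∈ range 6,
            ‖∑ j ∈ (range (2 ^ n)).filter (fun j => j % 6 = r), f j x‖ₑ ^ (2 : ℝ) :=
          lintegral_mono hpt
      _ = 6 * ∑ r ∈ range 6, nI 2 (fun x => ∑ j ∈ (range (2 ^ n)).filter (fun j => j % 6 = r), f j x) := by
          rw [lintegral_const_mul' _ _ (by norm_num), lintegral_finsetSum']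
          · rfl
          · intro r _
            refine Measurable.aemeasurable ?_
            refine Measurable.pow_const ?_ _
            refine Measurable.enorm ?_
            exact (continuous_finsetSum _ fun j hj =>
              hcont j (Finset.mem_of_mem_filter j hj)).measurable
      _ = 6 * ∑ r ∈ range 6, ∑ j ∈ (range (2 ^ n)).filter (fun j => j % 6 = r), nI 2 (f j) := by
          rw [Finset.sum_congr rfl hres]
      _ = 6 * ∑ j ∈ range (2 ^ n), nI 2 (f j) := by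
          rw [Finset.sum_fiberwise_of_maps_to
            (fun j _ => Finset.mem_range.2 (Nat.mod_lt j (by norm_num)))]
      _ ≤ 9 * ∑ j ∈ range (2 ^ n), nI 2 (f j) := by
          gcongr
          norm_num
  · push Not at hfin
    obtain ⟨j, hj, hj2⟩ := hfin
    have h1 : ∑ j ∈ range (2 ^ n), nI 2 (f j) = ⊤ := ENNReal.sum_eq_top.2 ⟨j, hj, hj2⟩
    rw [h1, ENNReal.mul_top (by norm_num)]
    exact le_top

theorem adm_one : Adm 1 0 := by
  intro ε hε
  refine ⟨3, by norm_num, fun n f hf => ?_⟩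
  refine (dec_one n f hf).trans ?_
  have h1 : (1 : ℝ≥0∞) ≤ 2 ^ ((0 + ε) * (n : ℝ)) := by
    have h2 : (1 : ℝ≥0∞) = 2 ^ (0 : ℝ) := (ENNReal.rpow_zero).symm
    rw [h2]
    exact ENNReal.rpow_le_rpow_of_exponent_le (by norm_num) (by positivity)
  have h3 : (3 : ℝ≥0∞) ≤ 3 * 2 ^ ((0 + ε) * (n : ℝ)) := by
    calc (3 : ℝ≥0∞) = 3 * 1 := (mul_one _).symm
      _ ≤ _ := by gcongr
  gcongr
  unfold P
  positivity

end Pool.Agent.Dcp
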