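import Pool.Agent.Dcp.QSt
import Pool.Agent.Dcp.BN
import Pool.Agent.Dcp.Base

/-!
# Dcp, module Boot: the decoupling theorem for the moment curve

`boot`: `T = 3/η`, `n, l` from `aa_grow`, `c = k^(n+1)`, `q = k!^n`, `η' = max (η - 1/c) (η/2)`, `a0` with `η' a0 ≥ 3`, `κ = 1/2^a0`, `K` from
`qq_all` for `ε = 1/c`.  For `m ≥ m₀ := c (q + k a0) + a0`: `b = q ⌊m/(c q)⌋`, `c b ≤ m`, `b ≥ m/c - q ≥ k a0`.
`QQ` with first scale `a0` (`l a0 ≤ k a0 ≤ b`): `ML k l κ m a0 b (K 2^(η (m - A b) + m/c))`, `η A ≥ 3`; `ml_down` from `b` to `a0`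
(`2^(b-a0) ≤ 2^b`): `ML k l κ m a0 a0 (K 2^(η m - 2 b + m/c))`, and `2 b ≥ 2 m/c - 2 q`: constant `≤ K 2^(2q) 2^((η - 1/c) m) ≤ K₂ 2^(η' m)`.
`dec_bn`: `Dec k 2 m (4 D + 2^(4 a0) K₂ 2^(η' m))` if `Dec k 2 (m-a0) D`.  With `X = 2^m₀ + 2 · 2^(4 a0) K₂`, by strong induction
`Dec k 2 m (X 2^(η' m))`: for `m < m₀` `dec_triv`; for `m ≥ m₀`: `4 X 2^(η'(m-a0)) ≤ X 2^(η' m)/2` as `2^(η' a0) ≥ 8`.
So `Adm k η'`.
`dec_all`: strong induction on `k`; `k = 1`: `adm_one`.  `k ≥ 2`: `η₀ = inf {η ≥ 0 | Adm k η}` (`adm_top`: nonempty);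
`Adm k η₀` (for `ε` choose `η < η₀ + ε/2` in the set and use it with `ε/2`, `dec_mono`); if `η₀ > 0`, `boot` gives a smaller
element, a contradiction.
-/

set_option autoImplicit false

namespace Pool.Agent.Dcp

open MeasureTheory Finset
open scoped ENNReal

private theorem two_rpow_le' {x y : ℝ} (h : x ≤ y) : (2 : ℝ≥0∞) ^ x ≤ 2 ^ y :=
  ENNReal.rpow_le_rpow_of_exponent_le (by norm_num) h

private theorem rpow_split (x y : ℝ) : (2 : ℝ≥0∞) ^ (x + y) = 2 ^ x * 2 ^ y :=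
  ENNReal.rpow_add _ _ two_ne_zero ENNReal.ofNat_ne_top

theorem boot {k : ℕ} (hk : 2 ≤ k) (hD : ∀ l : ℕ, 1 ≤ l → l < k → Adm l 0) {η : ℝ} (hη : 0 < η)
    (h : Adm k η) : ∃ η' : ℝ, 0 ≤ η' ∧ η' < η ∧ Adm k η' := by
  obtain ⟨n, l, hl1, hlk, hA⟩ := aa_grow k hk (3 / η)
  obtain ⟨c, hc⟩ : ∃ c : ℕ, c = k ^ (n + 1) := ⟨_, rfl⟩
  have hc1 : 1 ≤ c := by rw [hc]; exact Nat.one_le_pow _ _ (by omega)
  have hcR : (0 : ℝ) < c := by exact_mod_cast hc1
  obtain ⟨q, hq⟩ : ∃ q : ℕ, q = k.factorial ^ n := ⟨_, rfl⟩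
  have hq1 : 1 ≤ q := by rw [hq]; exact Nat.one_le_pow _ _ (Nat.factorial_pos k)
  obtain ⟨η', hη'⟩ : ∃ η' : ℝ, η' = max (η - 1 / c) (η / 2) := ⟨_, rfl⟩
  have hη'1 : η - 1 / c ≤ η' := by rw [hη']; exact le_max_left _ _
  have hη'2 : η / 2 ≤ η' := by rw [hη']; exact le_max_right _ _
  have hη'3 : η' < η := by
    rw [hη', max_lt_iff]
    have : (0 : ℝ) < 1 / c := by positivity
    constructor <;> linarith
  have hη'0 : 0 < η' := by linarith
  obtain ⟨a0, ha0⟩ := exists_nat_gt (3 / η')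
  have ha0' : 3 ≤ η' * a0 := by
    rw [div_lt_iff₀ hη'0] at ha0
    linarith
  have ha01 : 1 ≤ a0 := by
    rcases Nat.eq_zero_or_pos a0 with h0 | h0
    · rw [h0] at ha0'; norm_num at ha0'
    · exact h0
  have hκ : (0 : ℝ) < 1 / 2 ^ a0 := by positivity
  obtain ⟨K, hK, hQ⟩ := qq_all hk hD hη.le hκ h n (1 / c) (by positivity)
  rw [← hc] at hQ
  rw [← hq] at hQ
  have hηA : 3 ≤ η * AA k n l := by
    have := mul_le_mul_of_nonneg_left hA hη.le
    rwa [mul_div_cancel₀ _ hη.ne'] at this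
  obtain ⟨m₀, hm₀⟩ : ∃ m₀ : ℕ, m₀ = c * (q + k * a0) + a0 := ⟨_, rfl⟩
  obtain ⟨K₂, hK₂⟩ : ∃ K₂ : ℝ≥0∞, K₂ = K * 2 ^ (2 * (q : ℝ)) := ⟨_, rfl⟩
  have hK₂t : K₂ ≠ ⊤ := by
    rw [hK₂]
    exact ENNReal.mul_ne_top hK (ENNReal.rpow_ne_top_of_nonneg (by positivity)
      ENNReal.ofNat_ne_top)
  -- the bilinear inequality at the scale `a0`
  have hML : ∀ m : ℕ, m₀ ≤ m → ML k l (1 / 2 ^ a0) m a0 a0 (K₂ * 2 ^ (η' * m)) := by
    intro m hm
    obtain ⟨N, hN⟩ : ∃ N : ℕ, N = m / (c * q) := ⟨_, rfl⟩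
    have hcq : 0 < c * q := Nat.mul_pos hc1 hq1
    have hcb : c * (q * N) ≤ m := by
      rw [← mul_assoc, hN]
      exact Nat.mul_div_le m (c * q)
    have hcb2 : m < c * (q * N + q) := by
      have h1 := Nat.lt_mul_div_succ m hcq
      rw [← hN] at h1
      calc m < c * q * (N + 1) := h1
        _ = c * (q * N + q) := by ring
    have hkb : k * a0 ≤ q * N := by
      have h1 : c * (q + k * a0) < c * (q * N + q) := by
        calc c * (q + k * a0) ≤ m₀ := by rw [hm₀]; exact Nat.le_add_right _ _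
          _ ≤ m := hm
          _ < _ := hcb2
      have h2 := Nat.lt_of_mul_lt_mul_left h1
      omega
    have ha0m : a0 ≤ m := by
      calc a0 ≤ m₀ := by rw [hm₀]; exact Nat.le_add_left _ _
        _ ≤ m := hm
    have ha0b : a0 ≤ q * N := (Nat.le_mul_of_pos_left _ (by omega)).trans hkb
    have hbm : q * N ≤ m := (Nat.le_mul_of_pos_left _ hc1).trans hcb
    have hM := hQ m a0 (q * N) l hlk ⟨N, rfl⟩ hcb ha0m (by
      calc l * a0 ≤ k * a0 := Nat.mul_le_mul_right _ hlk.le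
        _ ≤ q * N := hkb
        _ ≤ (k - l + 1) * (q * N) := Nat.le_mul_of_pos_left _ (by omega))
    refine ml_mono (ml_down hlk ha0b hbm hM) ?_
    have hbR : (m : ℝ) / c - q ≤ ((q * N : ℕ) : ℝ) := by
      have h1 : (m : ℝ) ≤ c * (((q * N : ℕ) : ℝ) + q) := by exact_mod_cast hcb2.le
      rw [sub_le_iff_le_add, div_le_iff₀ hcR]
      linarith
    have h2pow : (2 : ℝ≥0∞) ^ (q * N - a0) ≤ 2 ^ (((q * N : ℕ) : ℝ)) := by
      rw [← ENNReal.rpow_natCast]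
      apply two_rpow_le'
      exact_mod_cast Nat.sub_le _ _
    obtain ⟨b, hb⟩ : ∃ b : ℝ, b = ((q * N : ℕ) : ℝ) := ⟨_, rfl⟩
    have hb0 : 0 ≤ b := by rw [hb]; exact Nat.cast_nonneg _
    rw [← hb] at hbR h2pow ⊢
    calc (2 : ℝ≥0∞) ^ (q * N - a0) * (K * 2 ^ (η * ((m : ℝ) - AA k n l * b) + 1 / c * m))
        ≤ 2 ^ b * (K * 2 ^ (η * ((m : ℝ) - AA k n l * b) + 1 / c * m)) :=
          mul_le_mul' h2pow le_rfl
      _ = K * 2 ^ (b + (η * ((m : ℝ) - AA k n l * b) + 1 / c * m)) := by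
          rw [rpow_split b (η * ((m : ℝ) - AA k n l * b) + 1 / c * m)]; ring
      _ ≤ K * 2 ^ (2 * (q : ℝ) + η' * m) := by
          refine mul_le_mul' le_rfl (two_rpow_le' ?_)
          have hm0 : (0 : ℝ) ≤ m := Nat.cast_nonneg m
          have e1 : 3 * b ≤ η * AA k n l * b := mul_le_mul_of_nonneg_right hηA hb0
          have e2 : (η - 1 / c) * m ≤ η' * m := mul_le_mul_of_nonneg_right hη'1 hm0
          have e3 : (m : ℝ) / c = 1 / c * m := by ring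
          rw [e3] at hbR
          nlinarith
      _ = K₂ * 2 ^ (η' * m) := by rw [rpow_split, hK₂, mul_assoc]
  -- the induction
  obtain ⟨X, hX⟩ : ∃ X : ℝ≥0∞, X = 2 ^ m₀ + 2 * (2 ^ (4 * a0) * K₂) := ⟨_, rfl⟩
  have hXt : X ≠ ⊤ := by
    rw [hX]
    refine ENNReal.add_ne_top.2 ⟨ENNReal.pow_ne_top ENNReal.ofNat_ne_top, ?_⟩
    exact ENNReal.mul_ne_top ENNReal.ofNat_ne_top
      (ENNReal.mul_ne_top (ENNReal.pow_ne_top ENNReal.ofNat_ne_top) hK₂t)
  have hmain : ∀ m : ℕ, Dec k 2 m (X * 2 ^ (η' * m)) := by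
    intro m
    induction m using Nat.strong_induction_on with
    | _ m ih =>
      have hm0 : (0 : ℝ) ≤ m := Nat.cast_nonneg m
      have hone : (1 : ℝ≥0∞) ≤ 2 ^ (η' * m) := by
        have := two_rpow_le' (x := 0) (y := η' * m) (by positivity)
        rwa [ENNReal.rpow_zero] at this
      rcases lt_or_ge m m₀ with hm | hm
      · refine dec_mono (dec_triv (by omega) 2 m) ?_
        calc (2 : ℝ≥0∞) ^ m ≤ 2 ^ m₀ := pow_le_pow_right₀ (by norm_num) hm.le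
          _ ≤ X := by rw [hX]; exact le_self_add
          _ = X * 1 := (mul_one X).symm
          _ ≤ _ := mul_le_mul' le_rfl hone
      · have ha0m : a0 ≤ m := by
          calc a0 ≤ m₀ := by rw [hm₀]; exact Nat.le_add_left _ _
            _ ≤ m := hm
        have hi := ih (m - a0) (by omega)
        refine dec_mono (dec_bn (by omega) hlk.le ha0m hi (hML m hm)) ?_
        have hcast : ((m - a0 : ℕ) : ℝ) = m - a0 := Nat.cast_sub ha0m
        rw [hcast]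
        obtain ⟨G, hG⟩ : ∃ G : ℝ≥0∞, G = 2 ^ (η' * ((m : ℝ) - a0)) := ⟨_, rfl⟩
        have h8 : 8 * G ≤ 2 ^ (η' * m) := by
          have e1 : (8 : ℝ≥0∞) = 2 ^ (3 : ℝ) := by
            rw [show (3 : ℝ) = ((3 : ℕ) : ℝ) by norm_num, ENNReal.rpow_natCast]
            norm_num
          rw [hG, e1, ← rpow_split]
          apply two_rpow_le'
          nlinarith
        rw [← hG]
        have h1 : 2 * (4 * (X * G)) ≤ X * 2 ^ (η' * m) := by
          calc 2 * (4 * (X * G)) = X * (8 * G) := by ring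
            _ ≤ _ := mul_le_mul' le_rfl h8
        have h2 : 2 * (2 ^ (4 * a0) * (K₂ * 2 ^ (η' * m))) ≤ X * 2 ^ (η' * m) := by
          calc 2 * (2 ^ (4 * a0) * (K₂ * 2 ^ (η' * m)))
              = (2 * (2 ^ (4 * a0) * K₂)) * 2 ^ (η' * m) := by ring
            _ ≤ _ := mul_le_mul' (by rw [hX]; exact le_add_self) le_rfl
        have h3 : 2 * (4 * (X * G) + 2 ^ (4 * a0) * (K₂ * 2 ^ (η' * m))) ≤
            2 * (X * 2 ^ (η' * m)) := by
          rw [mul_add, two_mul (X * 2 ^ (η' * m))]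
          exact add_le_add h1 h2
        exact (ENNReal.mul_le_mul_iff_right two_ne_zero ENNReal.ofNat_ne_top).1 h3
  refine ⟨η', hη'0.le, hη'3, fun ε hε => ⟨X, hXt, fun m => dec_mono (hmain m) ?_⟩⟩
  refine mul_le_mul' le_rfl (two_rpow_le' ?_)
  have hm0 : (0 : ℝ) ≤ m := Nat.cast_nonneg m
  nlinarith

theorem dec_all (k : ℕ) (hk : 1 ≤ k) : Adm k 0 := by
  induction k using Nat.strong_induction_on with
  | _ k ih =>
    rcases Nat.lt_or_ge k 2 with h1 | h2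
    · have : k = 1 := by omega
      subst this
      exact adm_one
    · have hD : ∀ l : ℕ, 1 ≤ l → l < k → Adm l 0 := fun l hl hlk => ih l hlk hl
      obtain ⟨S, hS⟩ : ∃ S : Set ℝ, S = {η : ℝ | 0 ≤ η ∧ Adm k η} := ⟨_, rfl⟩
      have hne : S.Nonempty := ⟨1, by rw [hS]; exact ⟨zero_le_one, adm_top hk⟩⟩
      have hbdd : BddBelow S := ⟨0, by rw [hS]; exact fun η hη => hη.1⟩
      have h0 : 0 ≤ sInf S := le_csInf hne (by rw [hS]; exact fun η hη => hη.1)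
      have hadm : Adm k (sInf S) := by
        intro ε hε
        obtain ⟨η, hη, hlt⟩ := exists_lt_of_csInf_lt hne (show sInf S < sInf S + ε / 2 by linarith)
        rw [hS] at hη
        obtain ⟨K, hK, hdec⟩ := hη.2 (ε / 2) (by positivity)
        refine ⟨K, hK, fun m => dec_mono (hdec m) (mul_le_mul' le_rfl (two_rpow_le' ?_))⟩
        have hm0 : (0 : ℝ) ≤ m := Nat.cast_nonneg m
        exact mul_le_mul_of_nonneg_right (by linarith) hm0
      rcases h0.eq_or_lt with he | hlt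
      · rw [← he] at hadm
        exact hadm
      · obtain ⟨η', h1', h2', h3'⟩ := boot h2 hD hlt hadm
        exact absurd (csInf_le hbdd (show η' ∈ S by rw [hS]; exact ⟨h1', h3'⟩)) (not_le.2 h2')

end Pool.Agent.Dcp
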