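import Pool.Agent.Dcp.EDefs
import Pool.Agent.Dcp.Boot

/-!
# Dcp, module Vm: the mean value theorem of Vinogradov (Bourgain, Demeter, Guth), with weights

Let `N = 2^ν` first, `|n| < N` on `s` (`a n = 0` outside `s`), `p = P d`, `R = d 4^d N^d` (a multiple of every `N^(i+1)`).
`f j X = a n ee (mc d (n/N) ⬝ᵥ X) Ph (X/R)`, `n = j - N`, `j < 2N = 2^(ν+1)`, has spectrum in `mc d (n/N) + {|e_i| ≤ 1/R}`, and by
`pt_err`, `fm_bd` (`|n/N| ≤ 1`) this is in `UU d 2 (n/N) (1/N)` (`d 4^d/R ≤ N^(-d)`): `Fam d 2 (-1) 2 (ν+1) f` (`-1 + 2 (j/2^(ν+1)) = n/N`,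
`2/2^(ν+1) = 1/N`; `spec_exp`, `Ph_spec`, `spec_mul`).  `Dec d 2 (ν+1) (K 2^(ε' (ν+1)))` (`dec_all`) and `rescale`:
`∫ ‖∑ f_j‖^p ≤ (K 2^(ε'(ν+1)))^p (∑ |a n|² (∫ Ph (X/R)^p)^(2/p))^(p/2) = (…)^p (∑|a n|²)^(p/2) R^d ∫ Ph^p` (`psi_int`, `psi_fin`).
The left side is at least `c^p ∫_{[0,R)^d} ‖∑ a n ee (mc d (n/N) ⬝ᵥ X)‖^p dX` (`Ph (X/R) ≥ c > 0` for `0 ≤ X_i ≤ R`), and with
`X_i = N^(i+1) x_i` (`lint_mat` with a diagonal matrix) and the periodicity of `FS` (`[0, R/N^(i+1))` consists of `R/N^(i+1)` periods):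
`= c^p R^d ∫_{cube} ‖FS d s a x‖^p`.  So the theorem holds for `N = 2^ν`, with the factor `K' N^(ε' p)`; choose `ε' p ≤ ε`.
General `N`: the next power of two `≤ 4 N`.
`vmvt_low`: `cube d` has measure `1`: `∫ ‖F‖^p ≤ (∫ ‖F‖^(P d))^(p/P d)` (Hölder, `ENNReal.lintegral_mul_norm_pow_le` or
`lintegral_rpow_mono`-type lemma), with `ε P d/p` for `ε` (or note `N^(ε p/P d) ≤ N^ε` for `N ≥ 1`).
-/

set_option autoImplicit false

namespace Pool.Agent.Dcp

open MeasureTheory Finset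
open scoped ENNReal

theorem FS_cont (d : ℕ) (s : Finset ℤ) (a : ℤ → ℂ) : Continuous (FS d s a) := by
  unfold FS
  refine continuous_finset_sum _ fun n _ => continuous_const.mul (ee_cont.comp ?_)
  fun_prop

private theorem vm_ee_int (n : ℤ) : ee (n : ℝ) = 1 := by
  unfold ee
  have h : (2 : ℂ) * Real.pi * ((n : ℝ) : ℂ) * Complex.I = (n : ℂ) * (2 * Real.pi * Complex.I) := by
    push_cast
    ring
  rw [h, Complex.exp_int_mul_two_pi_mul_I]

theorem FS_per (d : ℕ) (s : Finset ℤ) (a : ℤ → ℂ) (x : E d) (z : Fin d → ℤ) :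
    FS d s a (fun i => x i + z i) = FS d s a x := by
  unfold FS
  refine Finset.sum_congr rfl fun n _ => ?_
  congr 1
  have h : ∑ i : Fin d, (n : ℝ) ^ (i.val + 1) * (x i + (z i : ℝ)) =
      ∑ i : Fin d, (n : ℝ) ^ (i.val + 1) * x i + ((∑ i : Fin d, n ^ (i.val + 1) * z i : ℤ) : ℝ) := by
    push_cast
    rw [← Finset.sum_add_distrib]
    exact Finset.sum_congr rfl fun i _ => by ring
  rw [h, ee_add, vm_ee_int, mul_one]

private theorem vm_P (d : ℕ) (hd : 1 ≤ d) : 2 ≤ P d := by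
  unfold P
  have h : (1 : ℝ) ≤ d := by exact_mod_cast hd
  nlinarith

private theorem vm_cube_meas (d : ℕ) : MeasurableSet (cube d) :=
  MeasurableSet.univ_pi fun _ => measurableSet_Ico

private theorem vm_cube_vol (d : ℕ) : volume (cube d) = 1 := by
  unfold cube
  rw [volume_pi_pi]
  simp

/-- a periodic function over a box with integral sides -/
private theorem vm_period (d : ℕ) (H : E d → ℝ≥0∞) (hH : Measurable H)
    (hper : ∀ (x : E d) (z : Fin d → ℤ), H (fun i => x i + z i) = H x) (k : Fin d → ℕ) :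
    (∏ i, (k i : ℝ≥0∞)) * ∫⁻ x in cube d, H x ≤
      ∫⁻ x in Set.pi Set.univ (fun i => Set.Ico (0 : ℝ) (k i)), H x := by
  have hbox : MeasurableSet (Set.pi Set.univ (fun i : Fin d => Set.Ico (0 : ℝ) (k i))) :=
    MeasurableSet.univ_pi fun _ => measurableSet_Ico
  rw [← lintegral_indicator (vm_cube_meas d), ← lintegral_indicator hbox]
  set Z : Finset (Fin d → ℕ) := Fintype.piFinset (fun i => Finset.range (k i)) with hZ
  have hcard : (∏ i, (k i : ℝ≥0∞)) = (Z.card : ℝ≥0∞) := by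
    rw [hZ, Fintype.card_piFinset]
    push_cast
    simp
  have hm : Measurable ((cube d).indicator H) := hH.indicator (vm_cube_meas d)
  have h1 : ∀ z : Fin d → ℕ, ∫⁻ x, (cube d).indicator H (x - fun i => (z i : ℝ)) =
      ∫⁻ x, (cube d).indicator H x := by
    intro z
    exact lintegral_sub_right_eq_self _ _
  have h2 : (Z.card : ℝ≥0∞) * ∫⁻ x, (cube d).indicator H x =
      ∫⁻ x, ∑ z ∈ Z, (cube d).indicator H (x - fun i => (z i : ℝ)) := by
    have h0 : ∫⁻ x, ∑ z ∈ Z, (cube d).indicator H (x - fun i => (z i : ℝ)) =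
        ∑ z ∈ Z, ∫⁻ x, (cube d).indicator H (x - fun i => (z i : ℝ)) :=
      lintegral_finset_sum' Z (fun z _ => (hm.comp (measurable_id.sub_const _)).aemeasurable)
    rw [h0, Finset.sum_congr rfl fun z _ => h1 z, Finset.sum_const, nsmul_eq_mul]
  rw [hcard, h2]
  refine lintegral_mono fun x => ?_
  show ∑ z ∈ Z, (cube d).indicator H (x - fun i => (z i : ℝ)) ≤ _
  by_cases hex : ∃ z ∈ Z, (x - fun i => (z i : ℝ)) ∈ cube d
  · obtain ⟨z, hz, hx⟩ := hex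
    have hx' : ∀ i, (z i : ℝ) ≤ x i ∧ x i < z i + 1 := by
      intro i
      have := hx i (Set.mem_univ _)
      simp only [Pi.sub_apply, Set.mem_Ico] at this
      constructor <;> linarith [this.1, this.2]
    have hbx : x ∈ Set.pi Set.univ (fun i : Fin d => Set.Ico (0 : ℝ) (k i)) := by
      intro i _
      have h3 := Fintype.mem_piFinset.1 hz i
      rw [Finset.mem_range] at h3
      have h4 : (z i : ℝ) + 1 ≤ k i := by exact_mod_cast h3
      exact ⟨le_trans (Nat.cast_nonneg _) (hx' i).1, lt_of_lt_of_le (hx' i).2 h4⟩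
    rw [Set.indicator_of_mem hbx, Finset.sum_eq_single z]
    · rw [Set.indicator_of_mem hx]
      have h5 := hper (x - fun i => (z i : ℝ)) (fun i => (z i : ℤ))
      rw [← h5]
      refine le_of_eq (congrArg H ?_)
      funext i
      simp
    · intro z' _ hne
      refine Set.indicator_of_notMem ?_ _
      intro hx2
      apply hne
      funext i
      have := hx2 i (Set.mem_univ _)
      simp only [Pi.sub_apply, Set.mem_Ico] at this
      have h6 : (z' i : ℝ) < z i + 1 := by linarith [(hx' i).2, this.1]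
      have h7 : (z i : ℝ) < z' i + 1 := by linarith [(hx' i).1, this.2]
      have h8 : z' i < z i + 1 := by exact_mod_cast h6
      have h9 : z i < z' i + 1 := by exact_mod_cast h7
      omega
    · intro h
      exact absurd hz h
  · rw [Finset.sum_eq_zero]
    · exact zero_le
    · intro z hz
      exact Set.indicator_of_notMem (fun h => hex ⟨z, hz, h⟩) _

private theorem vm_reindex {M : Type*} [AddCommMonoid M] (ν : ℕ) (s : Finset ℤ)
    (hs : ∀ n ∈ s, |n| < 2 ^ ν) (g : ℤ → M) (hg : ∀ n, n ∉ s → g n = 0) :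
    ∑ j ∈ range (2 ^ (ν + 1)), g ((j : ℤ) - 2 ^ ν) = ∑ n ∈ s, g n := by
  have inj : Set.InjOn (fun j : ℕ => (j : ℤ) - 2 ^ ν) ↑(range (2 ^ (ν + 1))) := by
    intro i _ j _ h
    simp only at h
    omega
  rw [← Finset.sum_image inj]
  symm
  apply Finset.sum_subset
  · intro n hn
    have h1 := abs_lt.1 (hs n hn)
    rw [Finset.mem_image]
    refine ⟨(n + 2 ^ ν).toNat, ?_, ?_⟩
    · rw [Finset.mem_range]
      have h2 : n + 2 ^ ν < 2 ^ (ν + 1) := by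
        rw [pow_succ]
        linarith [h1.2]
      have h3 : ((n + 2 ^ ν).toNat : ℤ) < ((2 ^ (ν + 1) : ℕ) : ℤ) := by
        rw [Int.toNat_of_nonneg (by linarith [h1.1])]
        push_cast
        exact h2
      exact_mod_cast h3
    · show (((n + 2 ^ ν).toNat : ℕ) : ℤ) - 2 ^ ν = n
      rw [Int.toNat_of_nonneg (by linarith [h1.1])]
      ring
  · intro n _ hn
    exact hg n hn

private theorem vm_enorm_real {r : ℝ} (hr : 0 ≤ r) : ‖(r : ℂ)‖ₑ = ENNReal.ofReal r := by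
  rw [← ofReal_norm_eq_enorm, Complex.norm_real, Real.norm_of_nonneg hr]

private theorem vm_Ph_low (d : ℕ) : ∃ c : ℝ, 0 < c ∧ ∀ w : E d, (∀ i, 0 ≤ w i ∧ w i ≤ 1) →
    c ≤ Ph w := by
  obtain ⟨c, hc, h⟩ := ph_lo
  refine ⟨(c / 2) ^ d, by positivity, fun w hw => ?_⟩
  unfold Ph
  have h1 : (c / 2) ^ d = ∏ _i : Fin d, c / 2 := by
    rw [Finset.prod_const, Finset.card_univ, Fintype.card_fin]
  rw [h1]
  refine Finset.prod_le_prod (fun i _ => by positivity) fun i _ => ?_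
  refine le_trans ?_ (h (w i))
  have h2 : w i ^ 2 ≤ 1 := by
    nlinarith [(hw i).1, (hw i).2]
  exact div_le_div_of_nonneg_left hc.le (by positivity) (by linarith)

/-- the spectrum of the windowed characters -/
private theorem vm_spec (d : ℕ) (hd : 1 ≤ d) (ν : ℕ) {t : ℝ} (ht : |t| ≤ 1) (b : ℂ) :
    Spec (UU d 2 t (1 / 2 ^ ν)) (fun X : E d => b * ee (mc d t ⬝ᵥ X) *
      ((Ph (fun i => X i / (d * 4 ^ d * (2 ^ ν) ^ d)) : ℝ) : ℂ)) := by
  have hd' : (0 : ℝ) < d := by exact_mod_cast (by omega : 0 < d)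
  have hR : (0 : ℝ) < d * 4 ^ d * (2 ^ ν) ^ d := by positivity
  have h1 := Ph_spec d hR 0
  have h2 : (fun y : E d => ((Ph (fun i => (y i - (0 : E d) i) / (d * 4 ^ d * (2 ^ ν) ^ d)) : ℝ) : ℂ)) =
      fun y => ((Ph (fun i => y i / (d * 4 ^ d * (2 ^ ν) ^ d)) : ℝ) : ℂ) := by
    funext y
    simp
  rw [h2] at h1
  refine spec_mul (spec_exp (mc d t) b) h1 ?_
  intro ξ hξ η hη
  rw [Set.mem_singleton_iff] at hξ
  subst hξ
  have h3 : mc d t = pt d t 0 := by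
    rw [pt_eq, Matrix.mulVec_zero, add_zero]
  refine ⟨0 + (fm d (-t)).transpose.mulVec η, fun i => ?_, ?_⟩
  · rw [zero_add]
    have h4 := fm_bd d (t := -t) (by rw [abs_neg]; linarith) (u := η) hη i
    refine h4.trans ?_
    have h5 : (d : ℝ) * 4 ^ d * (1 / (d * 4 ^ d * (2 ^ ν) ^ d)) = (1 / 2 ^ ν) ^ d := by
      have h9 : (0 : ℝ) < (2 ^ ν) ^ d := by positivity
      rw [mul_one_div, div_pow, one_pow, div_eq_div_iff hR.ne' h9.ne']
      ring
    rw [h5]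
    have h6 : (1 / 2 ^ ν : ℝ) ≤ 1 := by
      rw [div_le_one (by positivity)]
      exact one_le_pow₀ (by norm_num)
    have h7 : (1 / 2 ^ ν : ℝ) ^ d ≤ (1 / 2 ^ ν) ^ (i.val + 1) :=
      pow_le_pow_of_le_one (by positivity) h6 (by omega)
    have h8 : (0 : ℝ) ≤ (1 / 2 ^ ν) ^ (i.val + 1) := by positivity
    linarith
  · rw [← pt_err, ← h3]

private theorem vm_cancel {e r Q D S I : ℝ≥0∞} (he0 : e ≠ 0) (he1 : e ≠ ⊤) (hr0 : r ≠ 0)
    (hr1 : r ≠ ⊤) (h : e * (r * Q) ≤ D * (S * (r * I))) : Q ≤ e⁻¹ * I * D * S := by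
  have h1 : Q = e⁻¹ * r⁻¹ * (e * (r * Q)) := by
    have : e⁻¹ * r⁻¹ * (e * (r * Q)) = (e⁻¹ * e) * (r⁻¹ * r) * Q := by ring
    rw [this, ENNReal.inv_mul_cancel he0 he1, ENNReal.inv_mul_cancel hr0 hr1, one_mul, one_mul]
  rw [h1]
  refine (mul_le_mul_right h _).trans (le_of_eq ?_)
  have : e⁻¹ * r⁻¹ * (D * (S * (r * I))) = (r⁻¹ * r) * (e⁻¹ * I * D * S) := by ring
  rw [this, ENNReal.inv_mul_cancel hr0 hr1, one_mul]

private theorem vm_J (d : ℕ) {p R : ℝ} (hR : 0 < R) :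
    ∫⁻ X : E d, ENNReal.ofReal (Ph (fun i => X i / R)) ^ p =
      ENNReal.ofReal (R ^ d) * ∫⁻ w : E d, ENNReal.ofReal (Ph w) ^ p := by
  refine lint_scale hR (fun w : E d => ENNReal.ofReal (Ph w) ^ p) ?_
  exact ((Ph_cont d).measurable.ennreal_ofReal).pow_const _

private theorem vm_I1 (d : ℕ) {p : ℝ} (hp : 1 ≤ p) :
    ∫⁻ w : E d, ENNReal.ofReal (Ph w) ^ p ≠ ⊤ := by
  have h := psi_fin d hp
  have h1 : ∫⁻ w, psi d p 1 w = ∫⁻ w : E d, ENNReal.ofReal (Ph w) ^ p := by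
    refine lintegral_congr fun w => ?_
    unfold psi
    rw [inv_one, one_pow, one_mul, ENNReal.ofReal_rpow_of_nonneg (Ph_pos w).le (by linarith)]
    simp
  rwa [h1] at h

private theorem vm_ee_enorm (t : ℝ) : ‖ee t‖ₑ = 1 := by
  rw [← ofReal_norm_eq_enorm, ee_norm, ENNReal.ofReal_one]

/-- change of variables -/
private theorem vm_change (d : ℕ) (hd : 1 ≤ d) (ν : ℕ) (s : Finset ℤ) (a : ℤ → ℂ) {p : ℝ} :
    ENNReal.ofReal ((d * 4 ^ d * (2 ^ ν) ^ d) ^ d) * ∫⁻ x in cube d, ‖FS d s a x‖ₑ ^ p ≤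
      ∫⁻ X in Set.pi Set.univ (fun _ : Fin d => Set.Ico (0 : ℝ) (d * 4 ^ d * (2 ^ ν) ^ d)),
        ‖∑ n ∈ s, a n * ee (mc d ((n : ℝ) / 2 ^ ν) ⬝ᵥ X)‖ₑ ^ p := by
  set k : Fin d → ℕ := fun i => d * 4 ^ d * (2 ^ ν) ^ (d - 1 - i.val) with hk
  set R : ℝ := d * 4 ^ d * (2 ^ ν) ^ d with hR
  have hkR : ∀ i : Fin d, (2 ^ ν : ℝ) ^ (i.val + 1) * (k i : ℝ) = R := by
    intro i
    have h1 : (i.val + 1) + (d - 1 - i.val) = d := by
      have := i.isLt
      omega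
    have h2 : R = d * 4 ^ d * (2 ^ ν) ^ ((i.val + 1) + (d - 1 - i.val)) := by rw [h1]
    rw [h2, pow_add, hk]
    push_cast
    ring
  set v : Fin d → ℝ := fun i => (2 ^ ν : ℝ) ^ (i.val + 1) with hv
  have hvpos : ∀ i, 0 < v i := fun i => by rw [hv]; positivity
  have hdet : (Matrix.diagonal v).det = ∏ i, v i := Matrix.det_diagonal
  have hdpos : 0 < ∏ i, v i := Finset.prod_pos fun i _ => hvpos i
  have hbR : MeasurableSet (Set.pi Set.univ (fun _ : Fin d => Set.Ico (0 : ℝ) R)) :=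
    MeasurableSet.univ_pi fun _ => measurableSet_Ico
  have hbk : MeasurableSet (Set.pi Set.univ (fun i : Fin d => Set.Ico (0 : ℝ) (k i))) :=
    MeasurableSet.univ_pi fun _ => measurableSet_Ico
  set G : E d → ℝ≥0∞ := fun X => ‖∑ n ∈ s, a n * ee (mc d ((n : ℝ) / 2 ^ ν) ⬝ᵥ X)‖ₑ ^ p with hG
  have hGm : Measurable G := by
    refine Measurable.pow_const ?_ _
    refine Continuous.measurable ?_
    refine Continuous.enorm ?_
    refine continuous_finset_sum _ fun n _ => continuous_const.mul (ee_cont.comp ?_)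
    unfold dotProduct
    fun_prop
  have h1 := vm_period d (fun x => ‖FS d s a x‖ₑ ^ p)
    (((FS_cont d s a).enorm.measurable).pow_const _)
    (fun x z => by
      show ‖FS d s a (fun i => x i + z i)‖ₑ ^ p = _
      rw [FS_per]) k
  have h2 := lint_mat (Matrix.diagonal v) (by rw [hdet]; exact hdpos.ne')
    ((Set.pi Set.univ (fun _ : Fin d => Set.Ico (0 : ℝ) R)).indicator G) (hGm.indicator hbR)
  have h3 : ∀ x : E d, (Set.pi Set.univ (fun _ : Fin d => Set.Ico (0 : ℝ) R)).indicator G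
      ((Matrix.diagonal v).mulVec x) =
      (Set.pi Set.univ (fun i : Fin d => Set.Ico (0 : ℝ) (k i))).indicator
        (fun x => ‖FS d s a x‖ₑ ^ p) x := by
    intro x
    have h4 : ((Matrix.diagonal v).mulVec x ∈ Set.pi Set.univ (fun _ : Fin d => Set.Ico (0 : ℝ) R)) ↔
        x ∈ Set.pi Set.univ (fun i : Fin d => Set.Ico (0 : ℝ) (k i)) := by
      rw [Set.mem_univ_pi, Set.mem_univ_pi]
      refine forall_congr' fun i => ?_
      rw [Matrix.mulVec_diagonal, Set.mem_Ico, Set.mem_Ico, ← hkR i]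
      constructor
      · rintro ⟨h5, h6⟩
        exact ⟨nonneg_of_mul_nonneg_right h5 (hvpos i), lt_of_mul_lt_mul_left h6 (hvpos i).le⟩
      · rintro ⟨h5, h6⟩
        exact ⟨mul_nonneg (hvpos i).le h5, mul_lt_mul_of_pos_left h6 (hvpos i)⟩
    by_cases hx : x ∈ Set.pi Set.univ (fun i : Fin d => Set.Ico (0 : ℝ) (k i))
    · rw [Set.indicator_of_mem hx, Set.indicator_of_mem (h4.2 hx), hG]
      show ‖∑ n ∈ s, a n * ee (mc d ((n : ℝ) / 2 ^ ν) ⬝ᵥ (Matrix.diagonal v).mulVec x)‖ₑ ^ p = _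
      unfold FS
      congr 2
      refine Finset.sum_congr rfl fun n _ => ?_
      congr 2
      unfold dotProduct mc
      refine Finset.sum_congr rfl fun i _ => ?_
      rw [Matrix.mulVec_diagonal, hv]
      show ((n : ℝ) / 2 ^ ν) ^ (i.val + 1) * ((2 ^ ν : ℝ) ^ (i.val + 1) * x i) = _
      rw [div_pow, ← mul_assoc, div_mul_cancel₀]
      positivity
    · rw [Set.indicator_of_notMem hx, Set.indicator_of_notMem (fun h => hx (h4.1 h))]
  simp only [h3] at h2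
  rw [lintegral_indicator hbk, lintegral_indicator hbR, hdet, abs_of_pos hdpos] at h2
  rw [h2] at h1
  have h5 : ENNReal.ofReal (R ^ d) = ENNReal.ofReal (∏ i, v i) * ∏ i, (k i : ℝ≥0∞) := by
    have h6 : (∏ i, (k i : ℝ≥0∞)) = ENNReal.ofReal (∏ i, (k i : ℝ)) := by
      rw [ENNReal.ofReal_prod_of_nonneg fun i _ => Nat.cast_nonneg _]
      exact Finset.prod_congr rfl fun i _ => (ENNReal.ofReal_natCast _).symm
    rw [h6, ← ENNReal.ofReal_mul hdpos.le, ← Finset.prod_mul_distrib,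
      Finset.prod_congr rfl fun i _ => hkR i, Finset.prod_const, Finset.card_univ,
      Fintype.card_fin]
  rw [h5, mul_assoc]
  refine (mul_le_mul_right h1 _).trans (le_of_eq ?_)
  rw [← mul_assoc, ← ENNReal.ofReal_mul hdpos.le, mul_inv_cancel₀ hdpos.ne', ENNReal.ofReal_one,
    one_mul]

private theorem vm_main (d : ℕ) (hd : 1 ≤ d) : ∃ C : ℝ≥0∞, C ≠ ⊤ ∧
    ∀ (ν : ℕ) (D : ℝ≥0∞), Dec d 2 (ν + 1) D → ∀ (s : Finset ℤ) (a : ℤ → ℂ),
      (∀ n ∈ s, |n| < 2 ^ ν) → ∫⁻ x in cube d, ‖FS d s a x‖ₑ ^ P d ≤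
        C * D ^ P d * (∑ n ∈ s, ‖a n‖ₑ ^ 2) ^ (P d / 2) := by
  obtain ⟨c, hc, hlow⟩ := vm_Ph_low d
  have hp := vm_P d hd
  have hp0 : 0 < P d := by linarith
  have hc0 : ENNReal.ofReal c ^ P d ≠ 0 := by
    rw [ENNReal.ofReal_rpow_of_pos hc]
    exact (ENNReal.ofReal_pos.2 (Real.rpow_pos_of_pos hc _)).ne'
  have hc1 : ENNReal.ofReal c ^ P d ≠ ⊤ :=
    ENNReal.rpow_ne_top_of_nonneg hp0.le ENNReal.ofReal_ne_top
  refine ⟨(ENNReal.ofReal c ^ P d)⁻¹ * ∫⁻ w : E d, ENNReal.ofReal (Ph w) ^ P d,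
    ENNReal.mul_ne_top (ENNReal.inv_ne_top.2 hc0) (vm_I1 d (by linarith)), ?_⟩
  intro ν D hD s a hs
  have hd' : (0 : ℝ) < d := by exact_mod_cast (by omega : 0 < d)
  have hR0 : (0 : ℝ) < d * 4 ^ d * (2 ^ ν) ^ d := by positivity
  have hchange := vm_change d hd ν s a (p := P d)
  set R : ℝ := d * 4 ^ d * (2 ^ ν) ^ d with hR
  set b : ℤ → ℂ := fun n => if n ∈ s then a n else 0 with hb
  set f : ℕ → E d → ℂ := fun j X => b ((j : ℤ) - 2 ^ ν) *
    ee (mc d ((((j : ℤ) - 2 ^ ν : ℤ) : ℝ) / 2 ^ ν) ⬝ᵥ X) *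
      ((Ph (fun i => X i / R) : ℝ) : ℂ) with hf
  have hFam : Fam d 2 (-1) 2 (ν + 1) f := by
    intro j hj
    have ht : (-1 + 2 * ((j : ℝ) / 2 ^ (ν + 1))) = (((j : ℤ) - 2 ^ ν : ℤ) : ℝ) / 2 ^ ν := by
      push_cast
      rw [pow_succ]
      field_simp
      ring
    have hδ : (2 : ℝ) / 2 ^ (ν + 1) = 1 / 2 ^ ν := by
      rw [pow_succ]
      field_simp
    rw [ht, hδ]
    refine vm_spec d hd ν ?_ _
    have h2 : (j : ℝ) < 2 * 2 ^ ν := by
      have : (j : ℝ) < ((2 ^ (ν + 1) : ℕ) : ℝ) := by exact_mod_cast hj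
      push_cast at this
      rw [pow_succ] at this
      linarith
    have h3 : (0 : ℝ) ≤ j := Nat.cast_nonneg _
    rw [abs_div, abs_of_pos (by positivity : (0 : ℝ) < 2 ^ ν), div_le_one (by positivity), abs_le]
    push_cast
    constructor <;> linarith
  have h1 := rescale hd hD (by norm_num : (0 : ℝ) < 2) hFam
  set J : ℝ≥0∞ := ∫⁻ X : E d, ENNReal.ofReal (Ph (fun i => X i / R)) ^ P d with hJ
  have hJ' : J = ENNReal.ofReal (R ^ d) * ∫⁻ w : E d, ENNReal.ofReal (Ph w) ^ P d :=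
    vm_J d hR0
  have hPm : Measurable (fun X : E d => ENNReal.ofReal (Ph (fun i => X i / R)) ^ P d) := by
    refine Measurable.pow_const ?_ _
    refine Measurable.ennreal_ofReal ?_
    refine ((Ph_cont d).comp ?_).measurable
    fun_prop
  have hnI : ∀ j, nI (P d) (f j) = ‖b ((j : ℤ) - 2 ^ ν)‖ₑ ^ P d * J := by
    intro j
    unfold nI
    rw [hJ, ← lintegral_const_mul _ hPm]
    refine lintegral_congr fun X => ?_
    rw [hf]
    show ‖b ((j : ℤ) - 2 ^ ν) * ee (mc d ((((j : ℤ) - 2 ^ ν : ℤ) : ℝ) / 2 ^ ν) ⬝ᵥ X) *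
      ((Ph (fun i => X i / R) : ℝ) : ℂ)‖ₑ ^ P d = _
    rw [enorm_mul, enorm_mul, vm_ee_enorm, mul_one, vm_enorm_real (Ph_pos _).le,
      ENNReal.mul_rpow_of_nonneg _ _ hp0.le]
  have hS2 : S2 (P d) (range (2 ^ (ν + 1))) f =
      (∑ n ∈ s, ‖a n‖ₑ ^ 2) * J ^ (2 / P d) := by
    unfold S2
    have h2 : ∀ j ∈ range (2 ^ (ν + 1)), nI (P d) (f j) ^ (2 / P d) =
        (fun n : ℤ => ‖b n‖ₑ ^ 2 * J ^ (2 / P d)) ((j : ℤ) - 2 ^ ν) := by
      intro j _
      show nI (P d) (f j) ^ (2 / P d) = ‖b ((j : ℤ) - 2 ^ ν)‖ₑ ^ 2 * J ^ (2 / P d)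
      rw [hnI, ENNReal.mul_rpow_of_nonneg _ _ (by positivity), ← ENNReal.rpow_mul,
        mul_div_cancel₀ _ hp0.ne', ENNReal.rpow_ofNat]
    rw [Finset.sum_congr rfl h2, vm_reindex ν s hs (fun n : ℤ => ‖b n‖ₑ ^ 2 * J ^ (2 / P d)),
      Finset.sum_mul]
    · refine Finset.sum_congr rfl fun n hn => ?_
      rw [hb]
      show ‖(if n ∈ s then a n else 0)‖ₑ ^ 2 * _ = _
      rw [if_pos hn]
    · intro n hn
      show ‖b n‖ₑ ^ 2 * J ^ (2 / P d) = 0
      rw [hb]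
      show ‖(if n ∈ s then a n else 0)‖ₑ ^ 2 * _ = _
      rw [if_neg hn]
      simp
  have hsum : ∀ X : E d, ∑ j ∈ range (2 ^ (ν + 1)), f j X =
      (∑ n ∈ s, a n * ee (mc d ((n : ℝ) / 2 ^ ν) ⬝ᵥ X)) * ((Ph (fun i => X i / R) : ℝ) : ℂ) := by
    intro X
    rw [hf]
    show ∑ j ∈ range (2 ^ (ν + 1)), b ((j : ℤ) - 2 ^ ν) *
      ee (mc d ((((j : ℤ) - 2 ^ ν : ℤ) : ℝ) / 2 ^ ν) ⬝ᵥ X) *
      ((Ph (fun i => X i / R) : ℝ) : ℂ) = _
    rw [← Finset.sum_mul]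
    congr 1
    rw [vm_reindex ν s hs (fun n : ℤ => b n * ee (mc d ((n : ℝ) / 2 ^ ν) ⬝ᵥ X))]
    · refine Finset.sum_congr rfl fun n hn => ?_
      rw [hb]
      show (if n ∈ s then a n else 0) * _ = _
      rw [if_pos hn]
    · intro n hn
      show b n * _ = 0
      rw [hb]
      show (if n ∈ s then a n else 0) * _ = _
      rw [if_neg hn, zero_mul]
  have hbR : MeasurableSet (Set.pi Set.univ (fun _ : Fin d => Set.Ico (0 : ℝ) R)) :=
    MeasurableSet.univ_pi fun _ => measurableSet_Ico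
  have hlb : ENNReal.ofReal c ^ P d *
      ∫⁻ X in Set.pi Set.univ (fun _ : Fin d => Set.Ico (0 : ℝ) R),
        ‖∑ n ∈ s, a n * ee (mc d ((n : ℝ) / 2 ^ ν) ⬝ᵥ X)‖ₑ ^ P d ≤
      nI (P d) (fun x => ∑ j ∈ range (2 ^ (ν + 1)), f j x) := by
    unfold nI
    have hGm : Measurable (fun X : E d =>
        ‖∑ n ∈ s, a n * ee (mc d ((n : ℝ) / 2 ^ ν) ⬝ᵥ X)‖ₑ ^ P d) := by
      refine Measurable.pow_const ?_ _
      refine Continuous.measurable ?_
      refine Continuous.enorm ?_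
      refine continuous_finset_sum _ fun n _ => continuous_const.mul (ee_cont.comp ?_)
      unfold dotProduct
      fun_prop
    rw [← lintegral_const_mul _ hGm, ← lintegral_indicator hbR]
    refine lintegral_mono fun X => ?_
    show (Set.pi Set.univ (fun _ : Fin d => Set.Ico (0 : ℝ) R)).indicator _ X ≤
      ‖∑ j ∈ range (2 ^ (ν + 1)), f j X‖ₑ ^ P d
    by_cases hX : X ∈ Set.pi Set.univ (fun _ : Fin d => Set.Ico (0 : ℝ) R)
    · rw [Set.indicator_of_mem hX, hsum, enorm_mul, ENNReal.mul_rpow_of_nonneg _ _ hp0.le, mul_comm]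
      refine mul_le_mul_right ?_ _
      refine ENNReal.rpow_le_rpow ?_ hp0.le
      rw [vm_enorm_real (Ph_pos _).le]
      refine ENNReal.ofReal_le_ofReal (hlow _ fun i => ?_)
      have h2 := hX i (Set.mem_univ _)
      exact ⟨div_nonneg h2.1 hR0.le, (div_le_one hR0).2 h2.2.le⟩
    · rw [Set.indicator_of_notMem hX]
      exact zero_le
  have hfin : ENNReal.ofReal c ^ P d * (ENNReal.ofReal (R ^ d) *
      ∫⁻ x in cube d, ‖FS d s a x‖ₑ ^ P d) ≤ D ^ P d * ((∑ n ∈ s, ‖a n‖ₑ ^ 2) ^ (P d / 2) *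
        (ENNReal.ofReal (R ^ d) * ∫⁻ w : E d, ENNReal.ofReal (Ph w) ^ P d)) := by
    refine (mul_le_mul_right hchange _).trans (hlb.trans (h1.trans (le_of_eq ?_)))
    rw [hS2, ENNReal.mul_rpow_of_nonneg _ _ (by positivity), ← ENNReal.rpow_mul, ← hJ']
    have h3 : 2 / P d * (P d / 2) = 1 := by
      field_simp
    rw [h3, ENNReal.rpow_one]
  exact vm_cancel hc0 hc1 (ENNReal.ofReal_pos.2 (by positivity)).ne' ENNReal.ofReal_ne_top hfin

theorem vmvt (d : ℕ) (hd : 1 ≤ d) {ε : ℝ} (hε : 0 < ε) : ∃ K : ℝ≥0∞, K ≠ ⊤ ∧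
    ∀ (N : ℕ) (s : Finset ℤ) (a : ℤ → ℂ), 1 ≤ N → (∀ n ∈ s, |n| ≤ N) →
      ∫⁻ x in cube d, ‖FS d s a x‖ₑ ^ P d ≤
        K * (N : ℝ≥0∞) ^ ε * (∑ n ∈ s, ‖a n‖ₑ ^ 2) ^ (P d / 2) := by
  obtain ⟨C, hC, hmain⟩ := vm_main d hd
  have hp := vm_P d hd
  have hp0 : 0 < P d := by linarith
  obtain ⟨K0, hK0, hdec⟩ := dec_all d hd (ε / P d) (by positivity)
  refine ⟨C * (K0 ^ P d * 4 ^ ε), ENNReal.mul_ne_top hC (ENNReal.mul_ne_top
    (ENNReal.rpow_ne_top_of_nonneg hp0.le hK0)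
    (ENNReal.rpow_ne_top_of_nonneg hε.le (by norm_num))), ?_⟩
  intro N s a hN hs
  set ν := Nat.log 2 N + 1 with hν
  have h1 : N < 2 ^ ν := Nat.lt_pow_succ_log_self (by norm_num) N
  have h2 : 2 ^ ν ≤ 2 * N := by
    rw [hν, pow_succ]
    have := Nat.pow_log_le_self 2 (by omega : N ≠ 0)
    omega
  have h3 := hmain ν _ (hdec (ν + 1)) s a (fun n hn => by
    have h4 := hs n hn
    have h5 : (N : ℤ) < 2 ^ ν := by exact_mod_cast h1
    linarith)
  refine h3.trans ?_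
  refine mul_le_mul_left ?_ _
  rw [mul_assoc]
  refine mul_le_mul_right ?_ _
  rw [ENNReal.mul_rpow_of_nonneg _ _ hp0.le, mul_assoc]
  refine mul_le_mul_right ?_ _
  rw [← ENNReal.rpow_mul]
  have h6 : (0 + ε / P d) * ((ν + 1 : ℕ) : ℝ) * P d = ((ν + 1 : ℕ) : ℝ) * ε := by
    field_simp
    ring
  rw [h6, ENNReal.rpow_mul, ENNReal.rpow_natCast, ← ENNReal.mul_rpow_of_nonneg _ _ hε.le]
  refine ENNReal.rpow_le_rpow ?_ hε.le
  have h7 : 2 ^ (ν + 1) ≤ 4 * N := by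
    rw [pow_succ]
    omega
  calc (2 : ℝ≥0∞) ^ (ν + 1) = ((2 ^ (ν + 1) : ℕ) : ℝ≥0∞) := by push_cast; rfl
    _ ≤ ((4 * N : ℕ) : ℝ≥0∞) := by exact_mod_cast h7
    _ = 4 * (N : ℝ≥0∞) := by push_cast; rfl

theorem vmvt_low (d : ℕ) (hd : 1 ≤ d) {p : ℝ} (hp : 1 ≤ p) (hp' : p ≤ P d) {ε : ℝ} (hε : 0 < ε) :
    ∃ K : ℝ≥0∞, K ≠ ⊤ ∧
    ∀ (N : ℕ) (s : Finset ℤ) (a : ℤ → ℂ), 1 ≤ N → (∀ n ∈ s, |n| ≤ N) →
      ∫⁻ x in cube d, ‖FS d s a x‖ₑ ^ p ≤
        K * (N : ℝ≥0∞) ^ ε * (∑ n ∈ s, ‖a n‖ₑ ^ 2) ^ (p / 2) := by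
  have hP := vm_P d hd
  have hP0 : 0 < P d := by linarith
  have hp0 : 0 < p := by linarith
  obtain ⟨K, hK, h⟩ := vmvt d hd (ε := ε * (P d / p)) (by positivity)
  refine ⟨K ^ (p / P d), ENNReal.rpow_ne_top_of_nonneg (by positivity) hK, ?_⟩
  intro N s a hN hs
  have h1 := h N s a hN hs
  haveI : IsProbabilityMeasure (volume.restrict (cube d)) :=
    ⟨by rw [Measure.restrict_apply_univ, vm_cube_vol]⟩
  have h2 : (∫⁻ x in cube d, ‖FS d s a x‖ₑ ^ p) ≤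
      (∫⁻ x in cube d, ‖FS d s a x‖ₑ ^ P d) ^ (p / P d) := by
    have h3 := eLpNorm'_le_eLpNorm'_of_exponent_le (μ := volume.restrict (cube d)) hp0 hp'
      (FS_cont d s a).aestronglyMeasurable
    unfold eLpNorm' at h3
    have h4 := ENNReal.rpow_le_rpow h3 hp0.le
    rw [← ENNReal.rpow_mul, ← ENNReal.rpow_mul, one_div_mul_cancel hp0.ne', ENNReal.rpow_one] at h4
    refine h4.trans (le_of_eq ?_)
    congr 1
    rw [one_div, inv_mul_eq_div]
  refine h2.trans ((ENNReal.rpow_le_rpow h1 (by positivity)).trans (le_of_eq ?_))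
  rw [ENNReal.mul_rpow_of_nonneg _ _ (by positivity), ENNReal.mul_rpow_of_nonneg _ _ (by positivity),
    ← ENNReal.rpow_mul, ← ENNReal.rpow_mul]
  congr 2
  · congr 1
    field_simp
  · field_simp

end Pool.Agent.Dcp
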