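import Pool.Agent.Dcp.Defs

/-!
# Dcp, module Lin: changes of variables in lower Lebesgue integrals

`lint_mat`: `Real.map_matrix_volume_pi_eq_smul_volume_pi` and `lintegral_map` (the function is measurable).
`lint_append`: `Fin.append` as the composition of the measure preserving equivalences
`volume_measurePreserving_sumPiEquivProdPi` and `volume_measurePreserving_piCongrLeft` with `finSumFinEquiv`
(`Fin.appendEquiv` if present), then Tonelli.  `lint_scale`: `lint_mat` for a multiple of the identity, or
`Measure.lintegral_comp_smul`.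
-/

set_option autoImplicit false

namespace Pool.Agent.Dcp

open MeasureTheory Finset
open scoped ENNReal

theorem lint_mat {k : ℕ} (A : Matrix (Fin k) (Fin k) ℝ) (hA : A.det ≠ 0) (F : E k → ℝ≥0∞)
    (hF : Measurable F) :
    ∫⁻ x, F (A.mulVec x) = ENNReal.ofReal |A.det|⁻¹ * ∫⁻ x, F x := by
  have h1 := Real.map_matrix_volume_pi_eq_smul_volume_pi hA
  have hm : Measurable (Matrix.toLin' A : E k → E k) :=
    (LinearMap.continuous_of_finiteDimensional _).measurable
  have h2 : ∫⁻ x, F (A.mulVec x) = ∫⁻ y, F y ∂(Measure.map (Matrix.toLin' A) volume) := by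
    rw [lintegral_map hF hm]
    rfl
  rw [h2, h1, lintegral_smul_measure, abs_inv, smul_eq_mul]

theorem append_cont (r l : ℕ) :
    Continuous (fun p : E r × E l => (Fin.append p.1 p.2 : E (r + l))) := by
  refine continuous_pi fun i => ?_
  induction i using Fin.addCases with
  | left i =>
    simp only [Fin.append_left]
    exact (continuous_apply i).comp continuous_fst
  | right i =>
    simp only [Fin.append_right]
    exact (continuous_apply i).comp continuous_snd

theorem mp_append (r l : ℕ) :
    MeasurePreserving (fun p : E r × E l => (Fin.append p.1 p.2 : E (r + l))) volume volume := by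
  refine ⟨(append_cont r l).measurable, ?_⟩
  refine (Measure.pi_eq fun s hs => ?_).symm
  rw [Measure.map_apply (append_cont r l).measurable (MeasurableSet.univ_pi hs)]
  have h : (fun p : E r × E l => (Fin.append p.1 p.2 : E (r + l))) ⁻¹' (Set.pi Set.univ s) =
      (Set.pi Set.univ (fun i => s (Fin.castAdd l i))) ×ˢ
        (Set.pi Set.univ (fun i => s (Fin.natAdd r i))) := by
    ext p
    constructor
    · intro hp
      refine ⟨fun i _ => ?_, fun i _ => ?_⟩
      · have := hp (Fin.castAdd l i) (Set.mem_univ _)
        simpa only [Fin.append_left] using this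
      · have := hp (Fin.natAdd r i) (Set.mem_univ _)
        simpa only [Fin.append_right] using this
    · rintro ⟨h1, h2⟩ i -
      induction i using Fin.addCases with
      | left i =>
        have := h1 i (Set.mem_univ _)
        simpa only [Fin.append_left] using this
      | right i =>
        have := h2 i (Set.mem_univ _)
        simpa only [Fin.append_right] using this
  rw [h, Measure.volume_eq_prod, Measure.prod_prod, volume_pi_pi, volume_pi_pi, Fin.prod_univ_add]

theorem lint_append {r l : ℕ} (F : E (r + l) → ℝ≥0∞) (hF : Measurable F) :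
    ∫⁻ x, F x = ∫⁻ y : E r, ∫⁻ z : E l, F (Fin.append y z) := by
  rw [← (mp_append r l).lintegral_comp hF, Measure.volume_eq_prod]
  exact lintegral_prod (fun p : E r × E l => F (Fin.append p.1 p.2))
    (hF.comp (append_cont r l).measurable).aemeasurable

theorem lint_scale {k : ℕ} {c : ℝ} (hc : 0 < c) (F : E k → ℝ≥0∞) (hF : Measurable F) :
    ∫⁻ x : E k, F (fun i => x i / c) = ENNReal.ofReal (c ^ k) * ∫⁻ x, F x := by
  have hdet : (c⁻¹ • (1 : Matrix (Fin k) (Fin k) ℝ)).det = (c⁻¹) ^ k := by
    rw [Matrix.det_smul, Matrix.det_one, mul_one, Fintype.card_fin]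
  have hc' : (0 : ℝ) < (c⁻¹) ^ k := by positivity
  have h := lint_mat (c⁻¹ • (1 : Matrix (Fin k) (Fin k) ℝ)) (by rw [hdet]; exact hc'.ne') F hF
  have h2 : ∀ x : E k, (c⁻¹ • (1 : Matrix (Fin k) (Fin k) ℝ)).mulVec x = fun i => x i / c := by
    intro x
    rw [Matrix.smul_mulVec, Matrix.one_mulVec]
    funext i
    rw [Pi.smul_apply, smul_eq_mul, div_eq_inv_mul]
  simp only [h2] at h
  rw [h, hdet, abs_of_pos hc', inv_pow, inv_inv]

end Pool.Agent.Dcp
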