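import Pool.Agent.Dcp.SpM
import Pool.Agent.Dcp.Lin

/-!
# Dcp, module Snc: the positive band limited weight

`ph x = sinc² (π x) + sinc² (π (x - 1/2))`, `sin² (π x) + sin² (π x - π/2) = 1`.
`ph_lo`: for `x ≠ 0, 1/2`: `ph x = sin²(π x)/(π x)² + cos²(π x)/(π (x-1/2))² ≥ 1/(2 π² (1 + x²))` as `x² ≤ 2(1+x²)` and
`(x-1/2)² ≤ 2 (1 + x²)`; at the two points one term is `1` (or use continuity, or multiply out:
`sin² (π x) = (π x)² sinc² (π x)` for all `x`).
`ph_hi`: `sinc² ≤ 1` and `sinc² (π y) ≤ 1/(π y)²`, so `sinc² (π y) ≤ 2/(1 + y²)`, and `1 + x² ≤ 2 (1 + (x - 1/2)²) + …`.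
`Ph_shift`: `ph (w - v) ≤ C/(1 + (w-v)²) ≤ C'/(1 + w²) ≤ C'' ph w` for `|v| ≤ L` (`1 + w² ≤ 2(1 + L²)(1 + (w-v)²)`); product.
`Ph_spec`: in one dimension `sinc (π x) = ∫_{-1/2}^{1/2} ee (s x) ds`, so `x ↦ sinc (π x)` has spectrum in `[-1/2, 1/2]`, its square in
`[-1, 1]` (`spec_mul`), the translate as well; in `l` dimensions every factor depends on one coordinate (`spec_aff` with a
`1 × l` matrix), product by `spec_mul` (induction on a finset of coordinates, the spectra lie in the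
`{ξ | ∀ i ∈ s, |ξ i| ≤ 1/R, ∀ i ∉ s, ξ i = 0}`).
`psi_int`: `lint_scale`.  `psi_fin`: `Ph w ^ p ≤ C ∏ 1/(1 + w_i²)` for `p ≥ 1` (`ph ≤ 2`), product of integrable functions
(`lintegral_fintype_prod_eq_prod` or `Integrable.fintype_prod`, `integrable_inv_one_add_sq`).
-/

set_option autoImplicit false

namespace Pool.Agent.Dcp

open MeasureTheory Finset
open scoped ENNReal

theorem snc_sq_mul (x : ℝ) : x ^ 2 * Real.sinc x ^ 2 = Real.sin x ^ 2 := by
  by_cases hx : x = 0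
  · simp [hx]
  · rw [Real.sinc_of_ne_zero hx]
    field_simp

theorem snc_sq_le (x : ℝ) : Real.sinc x ^ 2 ≤ 1 := by
  have h := Real.abs_sinc_le_one x
  rw [← sq_abs]
  exact pow_le_one₀ (abs_nonneg _) h

theorem ph_cont : Continuous ph := by
  unfold ph
  fun_prop

theorem snc_one (x : ℝ) :
    (Real.pi * x) ^ 2 * Real.sinc (Real.pi * x) ^ 2 +
      (Real.pi * (x - 1 / 2)) ^ 2 * Real.sinc (Real.pi * (x - 1 / 2)) ^ 2 = 1 := by
  rw [snc_sq_mul, snc_sq_mul]
  have h : Real.pi * (x - 1 / 2) = Real.pi * x - Real.pi / 2 := by ring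
  rw [h, Real.sin_sub_pi_div_two, neg_sq]
  exact Real.sin_sq_add_cos_sq _

theorem ph_lo : ∃ c : ℝ, 0 < c ∧ ∀ x, c / (1 + x ^ 2) ≤ ph x := by
  have hpi := Real.pi_pos
  refine ⟨1 / (2 * Real.pi ^ 2), by positivity, fun x => ?_⟩
  have h1 := snc_one x
  have hx : (0 : ℝ) < 1 + x ^ 2 := by positivity
  rw [div_le_iff₀ hx, div_le_iff₀ (by positivity)]
  unfold ph
  set A := Real.sinc (Real.pi * x) ^ 2 with hA
  set B := Real.sinc (Real.pi * (x - 1 / 2)) ^ 2 with hB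
  have hA0 : 0 ≤ A := sq_nonneg _
  have hB0 : 0 ≤ B := sq_nonneg _
  have e1 : (Real.pi * x) ^ 2 ≤ (1 + x ^ 2) * (2 * Real.pi ^ 2) := by
    have : 0 ≤ Real.pi ^ 2 * (2 + x ^ 2) := by positivity
    nlinarith
  have e2 : (Real.pi * (x - 1 / 2)) ^ 2 ≤ (1 + x ^ 2) * (2 * Real.pi ^ 2) := by
    have : 0 ≤ Real.pi ^ 2 * ((x + 1 / 2) ^ 2 + 3 / 2) := by positivity
    nlinarith
  calc (1 : ℝ) = (Real.pi * x) ^ 2 * A + (Real.pi * (x - 1 / 2)) ^ 2 * B := h1.symm
    _ ≤ (1 + x ^ 2) * (2 * Real.pi ^ 2) * A + (1 + x ^ 2) * (2 * Real.pi ^ 2) * B :=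
        add_le_add (mul_le_mul_of_nonneg_right e1 hA0) (mul_le_mul_of_nonneg_right e2 hB0)
    _ = (A + B) * (1 + x ^ 2) * (2 * Real.pi ^ 2) := by ring

theorem snc_hi (y : ℝ) : Real.sinc (Real.pi * y) ^ 2 * (1 + y ^ 2) ≤ 2 := by
  have h1 := snc_sq_le (Real.pi * y)
  have h2 := snc_sq_mul (Real.pi * y)
  have h3 : Real.sin (Real.pi * y) ^ 2 ≤ 1 := Real.sin_sq_le_one _
  have h4 : (1 : ℝ) ≤ Real.pi ^ 2 := by
    have := Real.pi_gt_three
    nlinarith
  have h5 : 0 ≤ Real.sinc (Real.pi * y) ^ 2 * y ^ 2 := by positivity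
  nlinarith

theorem ph_hi : ∃ C : ℝ, 0 < C ∧ ∀ x, ph x ≤ C / (1 + x ^ 2) := by
  refine ⟨6, by norm_num, fun x => ?_⟩
  have hx : (0 : ℝ) < 1 + x ^ 2 := by positivity
  rw [le_div_iff₀ hx]
  unfold ph
  have h1 := snc_hi x
  have h2 := snc_hi (x - 1 / 2)
  have h3 : 1 + x ^ 2 ≤ 2 * (1 + (x - 1 / 2) ^ 2) := by nlinarith [sq_nonneg (x - 1)]
  have h4 : 0 ≤ Real.sinc (Real.pi * (x - 1 / 2)) ^ 2 := sq_nonneg _
  have h5 := mul_le_mul_of_nonneg_left h3 h4
  nlinarith

theorem ph_pos (x : ℝ) : 0 < ph x := by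
  obtain ⟨c, hc, h⟩ := ph_lo
  exact lt_of_lt_of_le (by positivity) (h x)

theorem Ph_pos {l : ℕ} (w : E l) : 0 < Ph w := by
  unfold Ph
  exact Finset.prod_pos fun i _ => ph_pos _

theorem Ph_cont (l : ℕ) : Continuous (Ph : E l → ℝ) := by
  unfold Ph
  exact continuous_finsetProd _ fun i _ => ph_cont.comp (continuous_apply i)

theorem Ph_bdd (l : ℕ) : ∃ C : ℝ, 0 < C ∧ ∀ w : E l, Ph w ≤ C := by
  obtain ⟨C, hC, h⟩ := ph_hi
  refine ⟨C ^ l, by positivity, fun w => ?_⟩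
  unfold Ph
  calc ∏ i, ph (w i) ≤ ∏ _i : Fin l, C := by
        refine Finset.prod_le_prod (fun i _ => (ph_pos _).le) fun i _ => (h _).trans ?_
        exact div_le_self hC.le (by nlinarith [sq_nonneg (w i)])
    _ = C ^ l := by simp

theorem Ph_shift (l : ℕ) (L : ℝ) :
    ∃ C : ℝ, 0 < C ∧ ∀ w v : E l, (∀ i, |v i| ≤ L) → Ph (fun i => w i - v i) ≤ C * Ph w := by
  obtain ⟨C, hC, hhi⟩ := ph_hi
  obtain ⟨c, hc, hlo⟩ := ph_lo
  refine ⟨(C * (2 * (1 + L ^ 2)) / c) ^ l, by positivity, fun w v hv => ?_⟩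
  unfold Ph
  have key : ∀ i, ph (w i - v i) ≤ C * (2 * (1 + L ^ 2)) / c * ph (w i) := by
    intro i
    have hv2 : (v i) ^ 2 ≤ L ^ 2 := by
      rw [← sq_abs (v i)]
      exact pow_le_pow_left₀ (abs_nonneg _) (hv i) 2
    have h1 : 1 + (w i) ^ 2 ≤ 2 * (1 + L ^ 2) * (1 + (w i - v i) ^ 2) := by
      have : 0 ≤ L ^ 2 * (w i - v i) ^ 2 := by positivity
      nlinarith [sq_nonneg (w i - 2 * v i)]
    calc ph (w i - v i) ≤ C / (1 + (w i - v i) ^ 2) := hhi _
      _ ≤ C * (2 * (1 + L ^ 2)) / (1 + (w i) ^ 2) := by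
          rw [div_le_div_iff₀ (by positivity) (by positivity)]
          calc C * (1 + (w i) ^ 2) ≤ C * (2 * (1 + L ^ 2) * (1 + (w i - v i) ^ 2)) :=
                mul_le_mul_of_nonneg_left h1 hC.le
            _ = _ := by ring
      _ = C * (2 * (1 + L ^ 2)) / c * (c / (1 + (w i) ^ 2)) := by
          field_simp
      _ ≤ C * (2 * (1 + L ^ 2)) / c * ph (w i) :=
          mul_le_mul_of_nonneg_left (hlo _) (by positivity)
  calc ∏ i, ph (w i - v i) ≤ ∏ i, (C * (2 * (1 + L ^ 2)) / c * ph (w i)) :=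
        Finset.prod_le_prod (fun i _ => (ph_pos _).le) fun i _ => key i
    _ = (C * (2 * (1 + L ^ 2)) / c) ^ l * ∏ i, ph (w i) := by
        rw [Finset.prod_mul_distrib, Finset.prod_const, Finset.card_univ, Fintype.card_fin]

theorem sinc_int (x : ℝ) :
    ∫ s in (-(1 / 2) : ℝ)..(1 / 2), ee (s * x) = ((Real.sinc (Real.pi * x) : ℝ) : ℂ) := by
  by_cases hx : x = 0
  · subst hx
    simp [ee]
    norm_num
  · have h2 : (2 * Real.pi * x : ℝ) ≠ 0 := by
      have := Real.pi_pos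
      positivity
    have h := intervalIntegral.integral_comp_mul_left (a := -(1 / 2 : ℝ)) (b := 1 / 2)
      (fun t : ℝ => Complex.exp (t * Complex.I)) h2
    have e1 : ∀ s : ℝ, ee (s * x) = Complex.exp (((2 * Real.pi * x * s : ℝ) : ℂ) * Complex.I) := by
      intro s
      unfold ee
      congr 1
      push_cast
      ring
    simp_rw [e1]
    rw [h]
    have e2 : 2 * Real.pi * x * -(1 / 2) = -(Real.pi * x) := by ring
    have e3 : 2 * Real.pi * x * (1 / 2) = Real.pi * x := by ring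
    rw [e2, e3, integral_exp_mul_I_eq_sinc]
    rw [Complex.real_smul]
    have h3 : (Real.pi : ℂ) ≠ 0 := by exact_mod_cast Real.pi_ne_zero
    have h4 : (x : ℂ) ≠ 0 := by exact_mod_cast hx
    push_cast
    field_simp

theorem sinc_spec {l : ℕ} (i : Fin l) {R : ℝ} (hR : 0 < R) (z : ℝ) :
    Spec {ξ : E l | |ξ i| ≤ 1 / 2 / R ∧ ∀ j, j ≠ i → ξ j = 0}
      (fun y => ((Real.sinc (Real.pi * ((y i - z) / R)) : ℝ) : ℂ)) := by
  refine ⟨ℝ, inferInstance, volume.restrict (Set.Ioc (-(1 / 2)) (1 / 2)),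
    fun s => Pi.single i (max (-(1 / 2)) (min s (1 / 2)) / R), fun s => ee (-(s * z / R)), 1,
    ?_, ?_, ?_, ?_, ?_, ?_⟩
  · constructor
    simp
  · refine measurable_pi_lambda _ fun j => ?_
    by_cases hj : j = i
    · subst hj
      simp only [Pi.single_eq_same]
      fun_prop
    · simp only [Pi.single_eq_of_ne hj]
      exact measurable_const
  · exact (ee_cont.comp (by fun_prop)).measurable
  · intro s
    refine ⟨?_, fun j hj => Pi.single_eq_of_ne hj _⟩
    show |(Pi.single i (max (-(1 / 2)) (min s (1 / 2)) / R) : E l) i| ≤ 1 / 2 / R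
    rw [Pi.single_eq_same, abs_div, abs_of_pos hR]
    refine div_le_div_of_nonneg_right ?_ hR.le
    rw [abs_le]
    constructor
    · exact le_max_left _ _
    · exact max_le (by norm_num) (min_le_right _ _)
  · intro s
    rw [ee_norm]
  · intro y
    show ((Real.sinc (Real.pi * ((y i - z) / R)) : ℝ) : ℂ) = _
    rw [← sinc_int, intervalIntegral.integral_of_le (by norm_num)]
    refine setIntegral_congr_fun measurableSet_Ioc fun s hs => ?_
    simp only
    rw [single_dotProduct, ← ee_add]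
    have h1 : max (-(1 / 2)) (min s (1 / 2)) = s := by
      rw [min_eq_left hs.2, max_eq_right hs.1.le]
    rw [h1]
    congr 1
    ring

theorem ph_spec {l : ℕ} (i : Fin l) {R : ℝ} (hR : 0 < R) (z : ℝ) :
    Spec {ξ : E l | |ξ i| ≤ 1 / R ∧ ∀ j, j ≠ i → ξ j = 0}
      (fun y => ((ph ((y i - z) / R) : ℝ) : ℂ)) := by
  have key : ∀ z : ℝ, Spec {ξ : E l | |ξ i| ≤ 1 / R ∧ ∀ j, j ≠ i → ξ j = 0}
      (fun y => ((Real.sinc (Real.pi * ((y i - z) / R)) : ℝ) : ℂ) *
        ((Real.sinc (Real.pi * ((y i - z) / R)) : ℝ) : ℂ)) := by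
    intro z
    refine spec_mul (sinc_spec i hR z) (sinc_spec i hR z) ?_
    rintro ξ ⟨h1, h2⟩ η ⟨h3, h4⟩
    refine ⟨?_, fun j hj => ?_⟩
    · calc |(ξ + η) i| ≤ |ξ i| + |η i| := abs_add_le _ _
        _ ≤ 1 / 2 / R + 1 / 2 / R := add_le_add h1 h3
        _ = 1 / R := by ring
    · rw [Pi.add_apply, h2 j hj, h4 j hj, add_zero]
  have h := spec_add (key z) (key (z + R / 2))
  have e : (fun y : E l => ((ph ((y i - z) / R) : ℝ) : ℂ)) =
      fun y => ((Real.sinc (Real.pi * ((y i - z) / R)) : ℝ) : ℂ) *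
        ((Real.sinc (Real.pi * ((y i - z) / R)) : ℝ) : ℂ) +
        ((Real.sinc (Real.pi * ((y i - (z + R / 2)) / R)) : ℝ) : ℂ) *
        ((Real.sinc (Real.pi * ((y i - (z + R / 2)) / R)) : ℝ) : ℂ) := by
    funext y
    have e1 : (y i - (z + R / 2)) / R = (y i - z) / R - 1 / 2 := by
      field_simp
      ring
    rw [e1]
    unfold ph
    push_cast
    ring
  rw [e]
  exact h

theorem Ph_spec (l : ℕ) {R : ℝ} (hR : 0 < R) (z : E l) :
    Spec {ξ : E l | ∀ i, |ξ i| ≤ 1 / R} (fun y => ((Ph (fun i => (y i - z i) / R) : ℝ) : ℂ)) := by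
  have key : ∀ s : Finset (Fin l),
      Spec {ξ : E l | (∀ i ∈ s, |ξ i| ≤ 1 / R) ∧ ∀ i, i ∉ s → ξ i = 0}
        (fun y => ∏ i ∈ s, ((ph ((y i - z i) / R) : ℝ) : ℂ)) := by
    intro s
    induction s using Finset.induction_on with
    | empty =>
      have h := spec_exp (0 : E l) 1
      have e : (fun x : E l => (1 : ℂ) * ee ((0 : E l) ⬝ᵥ x)) =
          fun y => ∏ i ∈ (∅ : Finset (Fin l)), ((ph ((y i - z i) / R) : ℝ) : ℂ) := by
        funext y
        simp [ee_zero]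
      rw [e] at h
      refine spec_mono h ?_
      rintro ξ hξ
      rw [Set.mem_singleton_iff] at hξ
      subst hξ
      simp
    | insert a s ha ih =>
      have h := spec_mul (Ω'' := {ξ : E l | (∀ i ∈ insert a s, |ξ i| ≤ 1 / R) ∧
        ∀ i, i ∉ insert a s → ξ i = 0}) (ph_spec a hR (z a)) ih ?_
      · have e : (fun y : E l => ∏ i ∈ insert a s, ((ph ((y i - z i) / R) : ℝ) : ℂ)) =
            fun y => ((ph ((y a - z a) / R) : ℝ) : ℂ) *
              ∏ i ∈ s, ((ph ((y i - z i) / R) : ℝ) : ℂ) := by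
          funext y
          rw [Finset.prod_insert ha]
        rw [e]
        exact h
      · rintro ξ ⟨h1, h2⟩ η ⟨h3, h4⟩
        refine ⟨fun i hi => ?_, fun i hi => ?_⟩
        · rcases Finset.mem_insert.1 hi with hia | his
          · subst hia
            rw [Pi.add_apply, h4 i ha, add_zero]
            exact h1
          · have hne : i ≠ a := fun hia => ha (hia ▸ his)
            rw [Pi.add_apply, h2 i hne, zero_add]
            exact h3 i his
        · rw [Finset.mem_insert, not_or] at hi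
          rw [Pi.add_apply, h2 i hi.1, h4 i hi.2, add_zero]
  have h := key Finset.univ
  have e : (fun y : E l => ((Ph (fun i => (y i - z i) / R) : ℝ) : ℂ)) =
      fun y => ∏ i, ((ph ((y i - z i) / R) : ℝ) : ℂ) := by
    funext y
    unfold Ph
    push_cast
    rfl
  rw [e]
  refine spec_mono h ?_
  rintro ξ ⟨h1, _⟩ i
  exact h1 i (Finset.mem_univ _)

theorem psi_meas (l : ℕ) (p R : ℝ) : Measurable (psi l p R) := by
  unfold psi
  refine Measurable.ennreal_ofReal ?_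
  refine Measurable.const_mul ?_ _
  refine Measurable.pow_const ?_ p
  exact ((Ph_cont l).comp (by fun_prop)).measurable

theorem psi_one (l : ℕ) (p : ℝ) (w : E l) : psi l p 1 w = ENNReal.ofReal (Ph w ^ p) := by
  unfold psi
  simp

theorem psi_int (l : ℕ) {p R : ℝ} (hR : 0 < R) : ∫⁻ w, psi l p R w = ∫⁻ w, psi l p 1 w := by
  have h := lint_scale (k := l) hR (psi l p 1) (psi_meas l p 1)
  have e : ∀ w : E l, psi l p R w = ENNReal.ofReal (R⁻¹ ^ l) * psi l p 1 (fun i => w i / R) := by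
    intro w
    rw [psi_one]
    unfold psi
    rw [ENNReal.ofReal_mul (by positivity)]
  simp_rw [e]
  rw [lintegral_const_mul', h, ← mul_assoc, ← ENNReal.ofReal_mul (by positivity), ← mul_pow,
    inv_mul_cancel₀ hR.ne', one_pow, ENNReal.ofReal_one, one_mul]
  exact ENNReal.ofReal_ne_top

theorem psi_fin (l : ℕ) {p : ℝ} (hp : 1 ≤ p) : ∫⁻ w, psi l p 1 w ≠ ⊤ := by
  obtain ⟨C, hC, hhi⟩ := ph_hi
  have hint : Integrable (fun w : E l => (C ^ l) ^ p * ∏ i, (1 + (w i) ^ 2)⁻¹) := by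
    refine Integrable.const_mul ?_ _
    exact Integrable.fintype_prod (f := fun (_ : Fin l) (x : ℝ) => (1 + x ^ 2)⁻¹)
      (μ := fun _ => volume) fun _ => integrable_inv_one_add_sq
  refine ne_of_lt (lt_of_le_of_lt ?_ hint.lintegral_lt_top)
  refine lintegral_mono fun w => ?_
  rw [psi_one]
  refine ENNReal.ofReal_le_ofReal ?_
  set t : ℝ := ∏ i, (1 + (w i) ^ 2)⁻¹ with ht
  have ht0 : 0 < t := Finset.prod_pos fun i _ => by positivity
  have ht1 : t ≤ 1 := by
    refine Finset.prod_le_one (fun i _ => by positivity) fun i _ => ?_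
    exact inv_le_one_of_one_le₀ (by nlinarith [sq_nonneg (w i)])
  have h1 : Ph w ≤ C ^ l * t := by
    unfold Ph
    calc ∏ i, ph (w i) ≤ ∏ i, (C * (1 + (w i) ^ 2)⁻¹) := by
          refine Finset.prod_le_prod (fun i _ => (ph_pos _).le) fun i _ => ?_
          have := hhi (w i)
          rwa [div_eq_mul_inv] at this
      _ = C ^ l * t := by
          rw [Finset.prod_mul_distrib, ht]; simp
  calc Ph w ^ p ≤ (C ^ l * t) ^ p := Real.rpow_le_rpow (Ph_pos w).le h1 (by linarith)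
    _ = (C ^ l) ^ p * t ^ p := Real.mul_rpow (by positivity) ht0.le
    _ ≤ (C ^ l) ^ p * t := by
        refine mul_le_mul_of_nonneg_left ?_ (by positivity)
        calc t ^ p ≤ t ^ (1 : ℝ) := Real.rpow_le_rpow_of_exponent_ge ht0 ht1 hp
          _ = t := Real.rpow_one t

theorem psi_pos (l : ℕ) (p : ℝ) : ∫⁻ w, psi l p 1 w ≠ 0 := by
  have h : 0 < ∫⁻ w, psi l p 1 w := by
    rw [lintegral_pos_iff_support (psi_meas l p 1)]
    have hs : Function.support (psi l p 1) = Set.univ := by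
      ext w
      simp only [Function.mem_support, Set.mem_univ, iff_true]
      rw [psi_one]
      have : 0 < Ph w ^ p := Real.rpow_pos_of_pos (Ph_pos w) p
      exact (ENNReal.ofReal_pos.2 this).ne'
    rw [hs]
    exact isOpen_univ.measure_pos volume Set.univ_nonempty
  exact h.ne'

end Pool.Agent.Dcp
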