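import Pool.Agent.Dcp.EDefs
import Pool.Agent.Dcp.Snc

/-!
# Dcp, module WSm: sums of the weights, periodic functions

`wt_sum`: the sum over `Z` is at most the sum over the product set `{z | ∀ q, |z q| ≤ B 2^(ν(q+1))}` (`Fintype.piFinset`), which is the
product over `q` of `∑_{|k| ≤ B M} ph (M y - k)^p`, `M = 2^(ν(q+1)) ≥ 1`, `y = x q` (`Finset.prod_univ_sum`).  With `ph ≤ C/(1 + ·²)`, `p ≥ 1`:
`ph^p ≤ C'/(1 + ·²)`.  If `|y| ≤ 2 B` the sum is at most `C' ∑_{k ∈ ℤ} 1/(1 + (M y - k)²) ≤ C''`.  If `|y| > 2 B`: `|M y - k| ≥ M |y|/2`, at most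
`2 B M + 1 ≤ 3 B M` terms, each at most `4 C'/(M y)²`: sum at most `12 B C'/(M y²) ≤ 12 B C'/y²`.  In both cases `≤ C₃/(1 + y²)`.
`per_int`: cut `ℝ^l` into the cubes `z + cube l`, `z ∈ ℤ^l`; on it `1/(1 + x²) ≤ 4/(1 + z²)` for every coordinate
(`1 + z² ≤ 2 (1 + x²) + 2`), and `∑_z ∏ 4/(1 + z_q²) = (∑_k 4/(1 + k²))^l < ∞`; the integral of `g` over `z + cube l` is that over `cube l`.
(The index set `Fin l → ℤ` is countable: `lintegral_iUnion` or `IsAddFundamentalDomain`; or induction on `l`.)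
`cube_cons`: `MeasurableEquiv.piFinSuccAbove` at `0` (`volume_preserving_piFinSuccAbove`), Tonelli.
`wt_shift`: `Ph_shift`.
-/

set_option autoImplicit false

namespace Pool.Agent.Dcp

open MeasureTheory Finset
open scoped ENNReal

theorem wt_meas (l : ℕ) (p : ℝ) (ν : ℕ) (z : E l) : Measurable (wt l p ν z) := by
  unfold wt
  refine ENNReal.measurable_ofReal.comp ?_
  refine Measurable.pow_const ?_ p
  refine (Ph_cont l).measurable.comp ?_
  refine measurable_pi_iff.2 (fun i => ?_)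
  exact ((measurable_pi_apply i).const_mul _).sub_const _

theorem wt_cell (l : ℕ) {p : ℝ} (hp : 1 ≤ p) : ∃ C : ℝ≥0∞, C ≠ ⊤ ∧ ∀ (ν : ℕ) (z x : E l),
    (∀ q, |2 ^ (ν * (q.val + 1)) * x q - z q| ≤ 1) → 1 ≤ C * wt l p ν z x := by
  obtain ⟨c, hc, hlo⟩ := ph_lo
  have hc2 : 0 < (c / 2) ^ l := by positivity
  have hcp : 0 < ((c / 2) ^ l) ^ p := Real.rpow_pos_of_pos hc2 p
  refine ⟨ENNReal.ofReal ((((c / 2) ^ l) ^ p)⁻¹), ENNReal.ofReal_ne_top, fun ν z x h => ?_⟩
  unfold wt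
  rw [← ENNReal.ofReal_mul (by positivity), ← ENNReal.ofReal_one]
  apply ENNReal.ofReal_le_ofReal
  have h1 : (c / 2) ^ l ≤ Ph (fun i : Fin l => 2 ^ (ν * (i.val + 1)) * x i - z i) := by
    unfold Ph
    have h0 : (c / 2) ^ l = ∏ _i : Fin l, (c / 2) := by
      rw [Finset.prod_const, Finset.card_univ, Fintype.card_fin]
    rw [h0]
    refine Finset.prod_le_prod (fun _ _ => by positivity) (fun i _ => ?_)
    refine le_trans ?_ (hlo _)
    apply div_le_div_of_nonneg_left hc.le (by positivity)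
    have h3 := (sq_le_one_iff_abs_le_one _).2 (h i)
    linarith
  have h2 := Real.rpow_le_rpow hc2.le h1 (by linarith : 0 ≤ p)
  rw [inv_mul_eq_div, le_div_iff₀ hcp]
  linarith

theorem wt_shift (l : ℕ) {p : ℝ} (hp : 1 ≤ p) (C : ℝ) : ∃ K : ℝ≥0∞, K ≠ ⊤ ∧
    ∀ (ν : ℕ) (z x b : E l), (∀ q, |b q| ≤ C / 2 ^ (ν * (q.val + 1))) →
      wt l p ν z (fun q => x q - b q) ≤ K * wt l p ν z x := by
  obtain ⟨K, hK, hsh⟩ := Ph_shift l C
  refine ⟨ENNReal.ofReal (K ^ p), ENNReal.ofReal_ne_top, fun ν z x b hb => ?_⟩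
  unfold wt
  rw [← ENNReal.ofReal_mul (by positivity)]
  apply ENNReal.ofReal_le_ofReal
  rw [← Real.mul_rpow hK.le (Ph_pos _).le]
  refine Real.rpow_le_rpow (Ph_pos _).le ?_ (by linarith)
  have h := hsh (fun i : Fin l => 2 ^ (ν * (i.val + 1)) * x i - z i)
    (fun i : Fin l => 2 ^ (ν * (i.val + 1)) * b i) (fun i => ?_)
  · refine le_trans (le_of_eq ?_) h
    congr 1
    funext i
    ring
  · have h2 : (0 : ℝ) < 2 ^ (ν * (i.val + 1)) := by positivity
    rw [abs_mul, abs_of_pos h2, mul_comm]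
    exact (le_div_iff₀ h2).1 (hb i)

theorem wSm_summable : Summable (fun k : ℤ => 1 / (1 + (k : ℝ) ^ 2)) := by
  have h1 : Summable (fun k : ℤ => 1 / (k : ℝ) ^ 2 + if k = 0 then (1 : ℝ) else 0) :=
    (Real.summable_one_div_int_pow.2 (by norm_num)).add (hasSum_ite_eq 0 (1 : ℝ)).summable
  refine Summable.of_nonneg_of_le (fun k => by positivity) (fun k => ?_) h1
  by_cases hk : k = 0
  · subst hk
    simp
  · rw [if_neg hk, add_zero]
    have hk' : (k : ℝ) ≠ 0 := by exact_mod_cast hk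
    apply one_div_le_one_div_of_le (by positivity)
    linarith

theorem wSm_shift : ∃ A : ℝ, 0 < A ∧ ∀ (a : ℝ) (S : Finset ℤ),
    ∑ k ∈ S, 1 / (1 + (a - k) ^ 2) ≤ A := by
  refine ⟨2 * ∑' k : ℤ, 1 / (1 + (k : ℝ) ^ 2) + 1, ?_, fun a S => ?_⟩
  · have : 0 ≤ ∑' k : ℤ, 1 / (1 + (k : ℝ) ^ 2) := tsum_nonneg (fun k => by positivity)
    linarith
  · have hs : Summable (fun k : ℤ => 1 / (1 + ((k - round a : ℤ) : ℝ) ^ 2)) :=
      (Equiv.subRight (round a)).summable_iff.2 wSm_summable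
    have ht : ∑' k : ℤ, 1 / (1 + ((k - round a : ℤ) : ℝ) ^ 2) = ∑' k : ℤ, 1 / (1 + (k : ℝ) ^ 2) :=
      (Equiv.subRight (round a)).tsum_eq (fun k : ℤ => 1 / (1 + (k : ℝ) ^ 2))
    have h1 : ∑ k ∈ S, 1 / (1 + (a - k) ^ 2) ≤
        ∑ k ∈ S, 2 * (1 / (1 + ((k - round a : ℤ) : ℝ) ^ 2)) := by
      refine Finset.sum_le_sum (fun k _ => ?_)
      rw [mul_one_div]
      rw [div_le_div_iff₀ (by positivity) (by positivity)]
      have hr := abs_le.1 (abs_sub_round a)
      push_cast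
      nlinarith [sq_nonneg ((a - k) - (a - round a)), sq_nonneg ((a - k) + (a - round a)),
        mul_nonneg (sub_nonneg.2 hr.1) (sub_nonneg.2 hr.2)]
    rw [← Finset.mul_sum] at h1
    have h2 := hs.sum_le_tsum S (fun k _ => by positivity)
    rw [ht] at h2
    linarith

theorem wSm_one {B : ℝ} (hB : 1 ≤ B) : ∃ C : ℝ, 0 < C ∧ ∀ (M : ℝ), 1 ≤ M → ∀ (y : ℝ)
    (S : Finset ℤ), (∀ k ∈ S, |(k : ℝ)| ≤ B * M) →
      ∑ k ∈ S, 1 / (1 + (M * y - k) ^ 2) ≤ C / (1 + y ^ 2) := by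
  obtain ⟨A, hA, hsh⟩ := wSm_shift
  refine ⟨A * (1 + 4 * B ^ 2) + 24 * B, by positivity, fun M hM y S hS => ?_⟩
  by_cases hy : |y| ≤ 2 * B
  · refine (hsh (M * y) S).trans ?_
    rw [le_div_iff₀ (by positivity)]
    have h1 : y ^ 2 ≤ 4 * B ^ 2 := by
      rw [← sq_abs]
      nlinarith [abs_nonneg y]
    nlinarith
  · push Not at hy
    have hBM : 0 ≤ B * M := by positivity
    have hcard : (S.card : ℝ) ≤ 3 * (B * M) := by
      have hsub : S ⊆ Finset.Icc (-⌊B * M⌋) ⌊B * M⌋ := by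
        intro k hk
        have := abs_le.1 (hS k hk)
        rw [Finset.mem_Icc]
        refine ⟨?_, Int.le_floor.2 this.2⟩
        have h3 : -k ≤ ⌊B * M⌋ := Int.le_floor.2 (by push_cast; linarith)
        linarith
      have h4 := Finset.card_le_card hsub
      rw [Int.card_Icc] at h4
      have h5 : (0 : ℤ) ≤ ⌊B * M⌋ := Int.floor_nonneg.2 hBM
      have h6 : (S.card : ℤ) ≤ 2 * ⌊B * M⌋ + 1 := by omega
      have h7 : (S.card : ℝ) ≤ 2 * (⌊B * M⌋ : ℝ) + 1 := by exact_mod_cast h6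
      have h8 : ((⌊B * M⌋ : ℤ) : ℝ) ≤ B * M := Int.floor_le _
      nlinarith
    have hy0 : 0 < |y| := by linarith
    have hterm : ∀ k ∈ S, 1 / (1 + (M * y - k) ^ 2) ≤ 4 / (M * |y|) ^ 2 := by
      intro k hk
      have h1 : M * |y| / 2 ≤ |M * y - k| := by
        have h2 : |M * y| - |(k : ℝ)| ≤ |M * y - k| := abs_sub_abs_le_abs_sub _ _
        rw [abs_mul, abs_of_pos (by linarith : (0 : ℝ) < M)] at h2
        have h3 := hS k hk
        nlinarith
      have h4 : (M * |y| / 2) ^ 2 ≤ (M * y - k) ^ 2 := by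
        rw [← sq_abs (M * y - k)]
        exact pow_le_pow_left₀ (by positivity) h1 2
      rw [div_le_div_iff₀ (by positivity) (by positivity)]
      nlinarith
    have hsum : ∑ k ∈ S, 1 / (1 + (M * y - k) ^ 2) ≤ 3 * (B * M) * (4 / (M * |y|) ^ 2) := by
      calc ∑ k ∈ S, 1 / (1 + (M * y - k) ^ 2) ≤ ∑ _k ∈ S, 4 / (M * |y|) ^ 2 :=
            Finset.sum_le_sum hterm
        _ = S.card * (4 / (M * |y|) ^ 2) := by rw [Finset.sum_const, nsmul_eq_mul]
        _ ≤ _ := mul_le_mul_of_nonneg_right hcard (by positivity)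
    refine hsum.trans ?_
    have h1 : 3 * (B * M) * (4 / (M * |y|) ^ 2) = 12 * B / (M * y ^ 2) := by
      rw [mul_pow, sq_abs]
      have : M ≠ 0 := by linarith
      field_simp
      ring
    rw [h1, div_le_div_iff₀ (by
      have : 0 < y ^ 2 := by rw [← sq_abs]; positivity
      positivity) (by positivity)]
    have h2 : 1 ≤ y ^ 2 := by
      rw [← sq_abs]
      nlinarith
    have h3 : 0 ≤ A * (1 + 4 * B ^ 2) := by positivity
    have h4 : 12 * B * (1 + y ^ 2) ≤ 24 * B * y ^ 2 := by nlinarith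
    have h5 : 24 * B * y ^ 2 ≤ 24 * B * (M * y ^ 2) := by
      have : y ^ 2 ≤ M * y ^ 2 := by nlinarith
      nlinarith
    nlinarith [mul_nonneg h3 (by positivity : 0 ≤ M * y ^ 2)]

theorem wSm_ph {p : ℝ} (hp : 1 ≤ p) : ∃ C : ℝ, 0 < C ∧ ∀ x, ph x ^ p ≤ C * (1 / (1 + x ^ 2)) := by
  obtain ⟨C, hC, hhi⟩ := ph_hi
  refine ⟨C ^ p, by positivity, fun x => ?_⟩
  have h1 : ph x ^ p ≤ (C / (1 + x ^ 2)) ^ p :=
    Real.rpow_le_rpow (ph_pos x).le (hhi x) (by linarith)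
  refine h1.trans ?_
  rw [Real.div_rpow hC.le (by positivity), div_eq_mul_one_div]
  refine mul_le_mul_of_nonneg_left ?_ (by positivity)
  apply one_div_le_one_div_of_le (by positivity)
  have h2 : (1 + x ^ 2) ^ (1 : ℝ) ≤ (1 + x ^ 2) ^ p :=
    Real.rpow_le_rpow_of_exponent_le (by nlinarith [sq_nonneg x]) hp
  rwa [Real.rpow_one] at h2

theorem wSm_line {p B : ℝ} (hp : 1 ≤ p) (hB : 1 ≤ B) : ∃ C : ℝ, 0 < C ∧ ∀ (M : ℝ), 1 ≤ M →
    ∀ (y : ℝ) (S : Finset ℤ), (∀ k ∈ S, |(k : ℝ)| ≤ B * M) →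
      ∑ k ∈ S, ph (M * y - k) ^ p ≤ C * (1 / (1 + y ^ 2)) := by
  obtain ⟨C1, hC1, h1⟩ := wSm_ph hp
  obtain ⟨C2, hC2, h2⟩ := wSm_one hB
  refine ⟨C1 * C2, by positivity, fun M hM y S hS => ?_⟩
  calc ∑ k ∈ S, ph (M * y - k) ^ p ≤ ∑ k ∈ S, C1 * (1 / (1 + (M * y - k) ^ 2)) :=
        Finset.sum_le_sum (fun k _ => h1 _)
    _ = C1 * ∑ k ∈ S, 1 / (1 + (M * y - k) ^ 2) := by rw [Finset.mul_sum]
    _ ≤ C1 * (C2 / (1 + y ^ 2)) := mul_le_mul_of_nonneg_left (h2 M hM y S hS) hC1.le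
    _ = C1 * C2 * (1 / (1 + y ^ 2)) := by ring

theorem wt_sum (l : ℕ) {p B : ℝ} (hp : 1 ≤ p) (hB : 1 ≤ B) : ∃ C : ℝ, 0 < C ∧
    ∀ (ν : ℕ) (Z : Finset (Fin l → ℤ)), (∀ z ∈ Z, ∀ q, |(z q : ℝ)| ≤ B * 2 ^ (ν * (q.val + 1))) →
      ∀ x : E l, ∑ z ∈ Z, wt l p ν (fun q => z q) x ≤
        ENNReal.ofReal (C * ∏ q, 1 / (1 + x q ^ 2)) := by
  obtain ⟨C, hC, hline⟩ := wSm_line hp hB
  refine ⟨C ^ l, by positivity, fun ν Z hZ x => ?_⟩
  unfold wt
  rw [← ENNReal.ofReal_sum_of_nonneg (fun z _ => Real.rpow_nonneg (Ph_pos _).le _)]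
  apply ENNReal.ofReal_le_ofReal
  have hexp : ∀ z : Fin l → ℤ, Ph (fun i : Fin l => 2 ^ (ν * (i.val + 1)) * x i - (z i : ℝ)) ^ p =
      ∏ i, ph (2 ^ (ν * (i.val + 1)) * x i - (z i : ℝ)) ^ p := by
    intro z
    unfold Ph
    rw [Real.finsetProd_rpow _ _ (fun i _ => (ph_pos _).le)]
  have hsub : Z ⊆ Fintype.piFinset (fun q : Fin l => Z.image (fun z => z q)) := by
    intro z hz
    rw [Fintype.mem_piFinset]
    intro q
    exact Finset.mem_image.2 ⟨z, hz, rfl⟩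
  calc ∑ z ∈ Z, Ph (fun i : Fin l => 2 ^ (ν * (i.val + 1)) * x i - (z i : ℝ)) ^ p
      ≤ ∑ z ∈ Fintype.piFinset (fun q : Fin l => Z.image (fun z => z q)),
          Ph (fun i : Fin l => 2 ^ (ν * (i.val + 1)) * x i - (z i : ℝ)) ^ p :=
        Finset.sum_le_sum_of_subset_of_nonneg hsub
          (fun z _ _ => Real.rpow_nonneg (Ph_pos _).le _)
    _ = ∑ z ∈ Fintype.piFinset (fun q : Fin l => Z.image (fun z => z q)),
          ∏ i, ph (2 ^ (ν * (i.val + 1)) * x i - (z i : ℝ)) ^ p :=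
        Finset.sum_congr rfl (fun z _ => hexp z)
    _ = ∏ q : Fin l, ∑ k ∈ Z.image (fun z => z q),
          ph (2 ^ (ν * (q.val + 1)) * x q - (k : ℝ)) ^ p :=
        (Finset.prod_univ_sum (fun q : Fin l => Z.image (fun z => z q))
          (fun q k => ph (2 ^ (ν * (q.val + 1)) * x q - (k : ℝ)) ^ p)).symm
    _ ≤ ∏ q : Fin l, C * (1 / (1 + x q ^ 2)) := by
        refine Finset.prod_le_prod (fun q _ =>
          Finset.sum_nonneg (fun k _ => Real.rpow_nonneg (ph_pos _).le _)) (fun q _ => ?_)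
        refine hline (2 ^ (ν * (q.val + 1))) (one_le_pow₀ (by norm_num)) (x q) _ ?_
        intro k hk
        obtain ⟨z, hz, rfl⟩ := Finset.mem_image.1 hk
        exact hZ z hz q
    _ = C ^ l * ∏ q, 1 / (1 + x q ^ 2) := by
        rw [Finset.prod_mul_distrib]
        simp

theorem wSm_symm (l : ℕ) (q : ℝ × E l) :
    (MeasurableEquiv.piFinSuccAbove (fun _ : Fin (l + 1) => ℝ) 0).symm q = Fin.cons q.1 q.2 := by
  rw [MeasurableEquiv.piFinSuccAbove_symm_apply]
  simp [Fin.insertNthEquiv, Fin.insertNth_zero]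

theorem wSm_cons_meas (l : ℕ) : Measurable (fun q : ℝ × E l => (Fin.cons q.1 q.2 : E (l + 1))) := by
  have h := (MeasurableEquiv.piFinSuccAbove (fun _ : Fin (l + 1) => ℝ) 0).symm.measurable
  have h2 : (fun q : ℝ × E l => (Fin.cons q.1 q.2 : E (l + 1))) =
      (MeasurableEquiv.piFinSuccAbove (fun _ : Fin (l + 1) => ℝ) 0).symm :=
    funext (fun q => (wSm_symm l q).symm)
  rw [h2]
  exact h

theorem wSm_split (l : ℕ) {F : E (l + 1) → ℝ≥0∞} (hF : Measurable F) :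
    ∫⁻ x, F x = ∫⁻ x : E l, ∫⁻ s : ℝ, F (Fin.cons s x) := by
  have hmp := volume_preserving_piFinSuccAbove (fun _ : Fin (l + 1) => ℝ) 0
  have h3 := (MeasurePreserving.symm _ hmp).lintegral_comp hF
  rw [← h3]
  have h4 : ∫⁻ q : ℝ × E l, F (Fin.cons q.1 q.2) =
      ∫⁻ x : E l, ∫⁻ s : ℝ, F (Fin.cons s x) :=
    lintegral_prod_symm' _ (hF.comp (wSm_cons_meas l))
  rw [← h4]
  exact lintegral_congr (fun q => by rw [wSm_symm])

theorem cube_cons (l : ℕ) (F : E (l + 1) → ℝ≥0∞) (hF : Measurable F) :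
    ∫⁻ x in cube l, ∫⁻ s in Set.Ico (0 : ℝ) 1, F (Fin.cons s x) = ∫⁻ x in cube (l + 1), F x := by
  have hcube : ∀ k, MeasurableSet (cube k) := fun k =>
    MeasurableSet.univ_pi (fun _ => measurableSet_Ico)
  have hG : Measurable ((cube (l + 1)).indicator F) := hF.indicator (hcube _)
  have h1 : ∫⁻ x in cube (l + 1), F x = ∫⁻ x, (cube (l + 1)).indicator F x :=
    (lintegral_indicator (hcube _) _).symm
  rw [h1, wSm_split l hG, ← lintegral_indicator (hcube _)]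
  refine lintegral_congr (fun x => ?_)
  by_cases hx : x ∈ cube l
  · rw [Set.indicator_of_mem hx, ← lintegral_indicator measurableSet_Ico]
    refine lintegral_congr (fun s => ?_)
    by_cases hs : s ∈ Set.Ico (0 : ℝ) 1
    · rw [Set.indicator_of_mem hs, Set.indicator_of_mem]
      intro i _
      refine Fin.cases ?_ (fun j => ?_) i
      · simpa using hs
      · simpa using hx j (Set.mem_univ j)
    · rw [Set.indicator_of_notMem hs, Set.indicator_of_notMem]
      intro h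
      exact hs (by simpa using h 0 (Set.mem_univ 0))
  · rw [Set.indicator_of_notMem hx]
    have : ∀ s : ℝ, (cube (l + 1)).indicator F (Fin.cons s x) = 0 := by
      intro s
      refine Set.indicator_of_notMem (fun h => hx (fun j _ => ?_)) _
      simpa using h j.succ (Set.mem_univ j.succ)
    simp only [this, lintegral_zero]

theorem wSm_per1 : ∃ C : ℝ≥0∞, C ≠ ⊤ ∧ ∀ g : ℝ → ℝ≥0∞, Measurable g →
    (∀ (x : ℝ) (z : ℤ), g (x + z) = g x) →
      ∫⁻ x, ENNReal.ofReal (1 / (1 + x ^ 2)) * g x ≤ C * ∫⁻ x in Set.Ico (0 : ℝ) 1, g x := by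
  refine ⟨∑' k : ℤ, ENNReal.ofReal (4 * (1 / (1 + (k : ℝ) ^ 2))), ?_, fun g hg hper => ?_⟩
  · exact (wSm_summable.mul_left 4).tsum_ofReal_ne_top
  · have h1 : ∫⁻ x, ENNReal.ofReal (1 / (1 + x ^ 2)) * g x =
        ∑' k : ℤ, ∫⁻ x in Set.Ico (k : ℝ) (k + 1), ENNReal.ofReal (1 / (1 + x ^ 2)) * g x := by
      rw [← lintegral_iUnion (fun k => measurableSet_Ico) (Set.pairwise_disjoint_Ico_intCast ℝ),
        iUnion_Ico_intCast, setLIntegral_univ]
    rw [h1, ← ENNReal.tsum_mul_right]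
    refine ENNReal.tsum_le_tsum (fun k => ?_)
    have h2 : ∫⁻ x in Set.Ico (k : ℝ) (k + 1), g x = ∫⁻ x in Set.Ico (0 : ℝ) 1, g x := by
      rw [← lintegral_indicator measurableSet_Ico, ← lintegral_indicator measurableSet_Ico,
        ← lintegral_add_right_eq_self _ (k : ℝ)]
      refine lintegral_congr (fun x => ?_)
      by_cases hx : x ∈ Set.Ico (0 : ℝ) 1
      · rw [Set.indicator_of_mem hx, Set.indicator_of_mem, hper]
        exact ⟨by linarith [hx.1], by linarith [hx.2]⟩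
      · rw [Set.indicator_of_notMem hx, Set.indicator_of_notMem]
        intro h
        exact hx ⟨by linarith [h.1], by linarith [h.2]⟩
    rw [← h2, ← lintegral_const_mul _ hg]
    refine setLIntegral_mono (hg.const_mul _) (fun x hx => ?_)
    refine mul_le_mul_left ?_ _
    apply ENNReal.ofReal_le_ofReal
    rw [mul_one_div, div_le_div_iff₀ (by positivity) (by positivity)]
    nlinarith [hx.1, hx.2, sq_nonneg (x + (x - k)), mul_nonneg (sub_nonneg.2 hx.1) (sub_nonneg.2 hx.2.le)]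

theorem per_int (l : ℕ) : ∃ C : ℝ≥0∞, C ≠ ⊤ ∧ ∀ g : E l → ℝ≥0∞, Measurable g →
    (∀ (x : E l) (z : Fin l → ℤ), g (fun q => x q + z q) = g x) →
      ∫⁻ x, ENNReal.ofReal (∏ q, 1 / (1 + x q ^ 2)) * g x ≤ C * ∫⁻ x in cube l, g x := by
  induction l with
  | zero =>
    refine ⟨1, ENNReal.one_ne_top, fun g hg _ => ?_⟩
    have hc : cube 0 = Set.univ := by
      ext x
      simp [cube]
    rw [hc, setLIntegral_univ, one_mul]
    simp
  | succ l ih =>
    obtain ⟨C1, hC1, h1⟩ := wSm_per1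
    obtain ⟨C2, hC2, h2⟩ := ih
    refine ⟨C1 * C2, ENNReal.mul_ne_top hC1 hC2, fun g hg hper => ?_⟩
    have hcons := wSm_cons_meas l
    have hw : Measurable (fun x : E (l + 1) => ENNReal.ofReal (∏ q, 1 / (1 + x q ^ 2))) := by
      refine ENNReal.measurable_ofReal.comp (Finset.measurable_prod _ (fun q _ => ?_))
      exact measurable_const.div (((measurable_pi_apply q).pow_const 2).const_add 1)
    have hwl : Measurable (fun x : E l => ENNReal.ofReal (∏ q, 1 / (1 + x q ^ 2))) := by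
      refine ENNReal.measurable_ofReal.comp (Finset.measurable_prod _ (fun q _ => ?_))
      exact measurable_const.div (((measurable_pi_apply q).pow_const 2).const_add 1)
    have h3 : ∫⁻ x : E (l + 1), ENNReal.ofReal (∏ q, 1 / (1 + x q ^ 2)) * g x =
        ∫⁻ x : E l, ∫⁻ s : ℝ, ENNReal.ofReal (∏ q, 1 / (1 + (Fin.cons s x : E (l + 1)) q ^ 2)) *
          g (Fin.cons s x) :=
      wSm_split l (hw.mul hg)
    set G : E l → ℝ≥0∞ := fun x => ∫⁻ s in Set.Ico (0 : ℝ) 1, g (Fin.cons s x) with hGdef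
    have hG : Measurable G :=
      Measurable.lintegral_prod_left' (hg.comp hcons)
    have hGper : ∀ (x : E l) (z : Fin l → ℤ), G (fun q => x q + z q) = G x := by
      intro x z
      rw [hGdef]
      refine lintegral_congr (fun s => ?_)
      have := hper (Fin.cons s x) (Fin.cons 0 z)
      rw [← this]
      congr 1
      funext q
      refine Fin.cases ?_ (fun j => ?_) q
      · simp
      · simp
    have h6 : ∀ x : E l, ∫⁻ s : ℝ,
        ENNReal.ofReal (∏ q, 1 / (1 + (Fin.cons s x : E (l + 1)) q ^ 2)) * g (Fin.cons s x) ≤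
          ENNReal.ofReal (∏ q, 1 / (1 + x q ^ 2)) * (C1 * G x) := by
      intro x
      have hgx : Measurable (fun s : ℝ => g (Fin.cons s x)) :=
        (hg.comp hcons).comp (measurable_id.prodMk measurable_const)
      have h7 := h1 (fun s => g (Fin.cons s x)) hgx (fun s z => by
        have := hper (Fin.cons s x) (Fin.cons z 0)
        rw [← this]
        congr 1
        funext q
        refine Fin.cases ?_ (fun j => ?_) q
        · simp
        · simp)
      have h8 : ∫⁻ s : ℝ,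
          ENNReal.ofReal (∏ q, 1 / (1 + (Fin.cons s x : E (l + 1)) q ^ 2)) * g (Fin.cons s x) =
          ENNReal.ofReal (∏ q, 1 / (1 + x q ^ 2)) *
            ∫⁻ s : ℝ, ENNReal.ofReal (1 / (1 + s ^ 2)) * g (Fin.cons s x) := by
        rw [← lintegral_const_mul']
        · refine lintegral_congr (fun s => ?_)
          rw [Fin.prod_univ_succ, ENNReal.ofReal_mul (by
            simp only [Fin.cons_zero]
            positivity)]
          simp only [Fin.cons_zero, Fin.cons_succ]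
          ring
        · exact ENNReal.ofReal_ne_top
      rw [h8]
      exact mul_le_mul_right h7 _
    rw [h3]
    calc ∫⁻ x : E l, ∫⁻ s : ℝ, ENNReal.ofReal (∏ q, 1 / (1 + (Fin.cons s x : E (l + 1)) q ^ 2)) *
          g (Fin.cons s x)
        ≤ ∫⁻ x : E l, ENNReal.ofReal (∏ q, 1 / (1 + x q ^ 2)) * (C1 * G x) :=
          lintegral_mono h6
      _ = C1 * ∫⁻ x : E l, ENNReal.ofReal (∏ q, 1 / (1 + x q ^ 2)) * G x := by
          rw [← lintegral_const_mul' _ _ hC1]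
          exact lintegral_congr (fun x => by ring)
      _ ≤ C1 * (C2 * ∫⁻ x in cube l, G x) := mul_le_mul_right (h2 G hG hGper) _
      _ = C1 * C2 * ∫⁻ x in cube (l + 1), g x := by
          rw [mul_assoc, ← cube_cons l g hg]

end Pool.Agent.Dcp
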