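import Pool.Agent.Dcp.Shf
import Pool.Agent.Dcp.WSm
import Pool.Agent.Dcp.Vm

/-!
# Dcp, module ArS: one short arc on all the cells

`p = P l = l (l+1) ≥ 2`, `d = l + 1`, `p ≤ P d`, `I = arc σ ν (ν - ν/l) i`, `b, θ, C` from `arc_shift`, `F j = FS d I (a n θ^j)`.  Integrate `arc_shift` over
`s ∈ [0,1)`: `‖FS d I a (cons u x)‖^p ≤ W^(p-1) ∑' wj C j ∫_s ‖F j (cons (u+s) (x + s b))‖^p`.  Multiply by `wt l p ν z x`, integrate in `x` and
substitute `x → x - s b` (`wt_shift`, `|s b q| ≤ C/2^(ν(q+1))`): at most `K W^(p-1) ∑' wj C j ∫_x wt z x ∫_s ‖F j (cons (u z + s) x)‖^p`; the integral over a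
period in the first variable does not depend on `u z` (`FS_per`; `lintegral` of a `1`-periodic function over `[u, u+1)` and `[0,1)`), it is
`g_j x = ∫_{s ∈ [0,1)} ‖F j (cons s x)‖^p`, a `1`-periodic function of `x`.  Sum over `z ∈ Z`: `wt_sum`, `per_int`, `cube_cons`:
`≤ C' ∑' wj C j ∫_{cube d} ‖F j‖^p ≤ C' ∑' wj C j K' (2^ν)^ε (∑_{n ∈ I} ‖a n‖²)^(p/2)` by `vmvt_low` (`|n| ≤ 2^ν` on `I`, `|a n θ^j| ≤ |a n|`), and
`∑' wj C j = WL C < ∞`.
-/

set_option autoImplicit false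

namespace Pool.Agent.Dcp

open MeasureTheory Finset
open scoped ENNReal

namespace ArSAux

/-- sum of the Taylor weights -/
lemma tsum_wj {L : ℝ} (hL : 0 ≤ L) : ∑' j, wj L j = WL L := by
  unfold wj WL
  have h0 : ∀ j : ℕ, 0 ≤ (2 * Real.pi * L) ^ j / (j.factorial : ℝ) := fun j => by positivity
  have h1 := NormedSpace.expSeries_div_hasSum_exp (𝔸 := ℝ) (2 * Real.pi * L)
  rw [← Real.exp_eq_exp_ℝ] at h1
  rw [← ENNReal.ofReal_tsum_of_nonneg h0 h1.summable, h1.tsum_eq]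

/-- the integral of a periodic function over a period -/
lemma per_shift (h : ℝ → ℝ≥0∞) (hper : ∀ (s : ℝ) (n : ℤ), h (s + n) = h s) (u : ℝ) :
    ∫⁻ s in Set.Ico (0 : ℝ) 1, h (u + s) = ∫⁻ s in Set.Ico (0 : ℝ) 1, h s := by
  have h1 : ∫⁻ s in Set.Ico (0 : ℝ) 1, h (u + s) = ∫⁻ s in Set.Ico u (u + 1), h s := by
    have hmp := measurePreserving_add_left (volume : Measure ℝ) u
    have hpre : (fun s => u + s) ⁻¹' (Set.Ico u (u + 1)) = Set.Ico (0 : ℝ) 1 := by
      ext s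
      simp only [Set.mem_preimage, Set.mem_Ico]
      constructor
      · rintro ⟨h1, h2⟩
        constructor <;> linarith
      · rintro ⟨h1, h2⟩
        constructor <;> linarith
    rw [← hpre]
    exact hmp.setLIntegral_comp_preimage_emb (measurableEmbedding_addLeft u) h (Set.Ico u (u + 1))
  rw [h1, restrict_Ico_eq_restrict_Ioc, restrict_Ico_eq_restrict_Ioc]
  have h2 := isAddFundamentalDomain_Ioc (T := (1 : ℝ)) one_pos u volume
  have h3 := isAddFundamentalDomain_Ioc (T := (1 : ℝ)) one_pos 0 volume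
  rw [zero_add] at h3
  refine h2.setLIntegral_eq h3 h ?_
  rintro ⟨g, hg⟩ x
  obtain ⟨n, rfl⟩ := AddSubgroup.mem_zmultiples_iff.1 hg
  change h (n • (1 : ℝ) + x) = h x
  rw [zsmul_one, add_comm]
  exact hper x n

/-- translation in the variable `x` -/
lemma lint_sub {l : ℕ} (f : E l → ℝ≥0∞) (v : E l) :
    ∫⁻ x : E l, f (fun q => x q + v q) = ∫⁻ x : E l, f x := by
  exact lintegral_add_right_eq_self f v

lemma cons_add {l : ℕ} (u s : ℝ) (x : E l) (z0 : ℤ) (z : Fin l → ℤ) (hs : u = s + z0) :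
    (Fin.cons u (fun q => x q + z q) : E (l + 1)) =
      fun i => (Fin.cons s x : E (l + 1)) i + ((Fin.cons z0 z : Fin (l + 1) → ℤ) i : ℝ) := by
  funext i
  refine Fin.cases ?_ (fun j => ?_) i
  · simp [hs]
  · simp

lemma cont_cons {l : ℕ} : Continuous fun y : ℝ × E l => (Fin.cons y.1 y.2 : E (l + 1)) := by
  refine continuous_pi fun i => ?_
  refine Fin.cases ?_ (fun j => ?_) i
  · simpa using continuous_fst
  · simp only [Fin.cons_succ]
    exact (continuous_apply j).comp continuous_snd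

lemma arc_abs {σ ν k i : ℕ} (hσ : σ ≤ 1) (hi : i < 2 ^ k) (hk : k ≤ ν) :
    ∀ n ∈ arc σ ν (ν - k) i, |n| ≤ ((2 ^ ν : ℕ) : ℤ) := by
  intro n hn
  obtain ⟨j, hj, rfl⟩ := Finset.mem_image.1 hn
  obtain ⟨_, h2⟩ := Finset.mem_Ico.1 hj
  have h3 : (i + 1) * 2 ^ (ν - k) ≤ 2 ^ ν := by
    calc (i + 1) * 2 ^ (ν - k) ≤ 2 ^ k * 2 ^ (ν - k) := Nat.mul_le_mul_right _ hi
      _ = 2 ^ ν := by rw [← pow_add]; congr 1; omega
  have h4 : (j : ℤ) < ((2 ^ ν : ℕ) : ℤ) := by exact_mod_cast lt_of_lt_of_le h2 h3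
  have h5 : (0 : ℤ) ≤ (j : ℤ) := Int.natCast_nonneg j
  have h6 : (σ : ℤ) * 2 ^ ν ≤ ((2 ^ ν : ℕ) : ℤ) := by
    push_cast
    have h7 : (σ : ℤ) ≤ 1 := by exact_mod_cast hσ
    have h8 : (0 : ℤ) ≤ 2 ^ ν := by positivity
    nlinarith
  have h7 : (0 : ℤ) ≤ (σ : ℤ) * 2 ^ ν := by positivity
  rw [abs_le]
  constructor <;> linarith

end ArSAux

open ArSAux

theorem arc_sum (l : ℕ) (hl : 1 ≤ l) {B : ℝ} (hB : 1 ≤ B) {ε : ℝ} (hε : 0 < ε) :
    ∃ K : ℝ≥0∞, K ≠ ⊤ ∧ ∀ (ν σ i : ℕ) (a : ℤ → ℂ) (Z : Finset (Fin l → ℤ)) (u : (Fin l → ℤ) → ℝ),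
      σ ≤ 1 → i < 2 ^ (ν / l) → (∀ n : ℤ, 2 * |n| < 2 ^ ν → a n = 0) →
      (∀ z ∈ Z, ∀ q, |(z q : ℝ)| ≤ B * 2 ^ (ν * (q.val + 1))) →
      ∑ z ∈ Z, ∫⁻ x, ‖FS (l + 1) (arc σ ν (ν - ν / l) i) a (Fin.cons (u z) x)‖ₑ ^ P l *
          wt l (P l) ν (fun q => z q) x ≤
        K * 2 ^ (ε * ν) * (∑ n ∈ arc σ ν (ν - ν / l) i, ‖a n‖ₑ ^ 2) ^ (P l / 2) := by
  have hlR : (1 : ℝ) ≤ l := by exact_mod_cast hl
  have hp : 1 ≤ P l := by
    unfold P
    nlinarith
  have hp0 : 0 ≤ P l := by linarith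
  have hpp : P l ≤ P (l + 1) := by
    unfold P
    push_cast
    nlinarith
  obtain ⟨C, hC, harc⟩ := arc_shift l hl
  obtain ⟨Kv, hKv, hv⟩ := vmvt_low (l + 1) (by omega) hp hpp hε
  obtain ⟨Ks, hKs, hsh⟩ := wt_shift l hp C
  obtain ⟨Cw, hCw, hw⟩ := wt_sum l hp hB
  obtain ⟨Ci, hCi, hci⟩ := per_int l
  refine ⟨WL C ^ (P l - 1) * (WL C * (Ks * (ENNReal.ofReal Cw * (Ci * Kv)))), ?_, ?_⟩
  · have h1 : WL C ≠ ⊤ := ENNReal.ofReal_ne_top
    exact ENNReal.mul_ne_top (ENNReal.rpow_ne_top_of_nonneg (by linarith) h1)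
      (ENNReal.mul_ne_top h1 (ENNReal.mul_ne_top hKs
        (ENNReal.mul_ne_top ENNReal.ofReal_ne_top (ENNReal.mul_ne_top hCi hKv))))
  intro ν σ i a Z u hσ hi ha hZ
  obtain ⟨b, θ, hb, hθ, hmain⟩ := harc ν σ i hσ hi
  obtain ⟨I, hI⟩ : ∃ I, I = arc σ ν (ν - ν / l) i := ⟨_, rfl⟩
  rw [← hI] at hθ hmain ⊢
  obtain ⟨p, hpd⟩ : ∃ p, p = P l := ⟨_, rfl⟩
  rw [← hpd] at hp hp0 hpp hv hsh hw ⊢
  obtain ⟨F, hF⟩ : ∃ F : ℕ → E (l + 1) → ℂ, F = fun j => FS (l + 1) I (fun n => a n * (θ n : ℂ) ^ j) :=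
    ⟨_, rfl⟩
  have hFc : ∀ j, Continuous (F j) := fun j => by
    rw [hF]
    exact FS_cont _ _ _
  have hFper : ∀ j (x : E (l + 1)) (z : Fin (l + 1) → ℤ), F j (fun i => x i + z i) = F j x := by
    intro j x z
    rw [hF]
    exact FS_per _ _ _ _ _
  -- the periodic functions
  obtain ⟨g, hg⟩ : ∃ g : ℕ → E l → ℝ≥0∞,
      g = fun j x => ∫⁻ s in Set.Ico (0 : ℝ) 1, ‖F j (Fin.cons s x)‖ₑ ^ p := ⟨_, rfl⟩
  have hmeas1 : ∀ j, Measurable fun y : ℝ × E l => ‖F j (Fin.cons y.1 y.2)‖ₑ ^ p := by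
    intro j
    exact (((hFc j).comp cont_cons).measurable.enorm).pow_const p
  have hgm : ∀ j, Measurable (g j) := by
    intro j
    rw [hg]
    have h1 : Measurable fun y : E l × ℝ => ‖F j (Fin.cons y.2 y.1)‖ₑ ^ p :=
      (hmeas1 j).comp measurable_swap
    exact h1.lintegral_prod_right'
  have hgp : ∀ j (x : E l) (z : Fin l → ℤ), g j (fun q => x q + z q) = g j x := by
    intro j x z
    rw [hg]
    refine lintegral_congr fun s => ?_
    rw [cons_add s s x 0 z (by simp), hFper]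
  -- independence of `u`
  have hgu : ∀ j (v : ℝ) (x : E l),
      ∫⁻ s in Set.Ico (0 : ℝ) 1, ‖F j (Fin.cons (v + s) x)‖ₑ ^ p = g j x := by
    intro j v x
    rw [hg]
    refine per_shift (fun s => ‖F j (Fin.cons s x)‖ₑ ^ p) ?_ v
    intro s n
    have h1 := cons_add (s + n) s x n (fun _ => 0) rfl
    simp only [Int.cast_zero, add_zero] at h1
    change ‖F j (Fin.cons (s + n) x)‖ₑ ^ p = ‖F j (Fin.cons s x)‖ₑ ^ p
    rw [h1, hFper]
  -- the cube integral
  have hcube : ∀ j, ∫⁻ x in cube l, g j x ≤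
      Kv * 2 ^ (ε * ν) * (∑ n ∈ I, ‖a n‖ₑ ^ 2) ^ (p / 2) := by
    intro j
    have h1 := cube_cons l (fun x => ‖F j x‖ₑ ^ p) (((hFc j).measurable.enorm).pow_const p)
    have h2 : ∫⁻ x in cube l, g j x = ∫⁻ x in cube (l + 1), ‖F j x‖ₑ ^ p := by
      rw [← h1, hg]
    rw [h2, hF]
    have h3 := hv (2 ^ ν) I (fun n => a n * (θ n : ℂ) ^ j) (Nat.one_le_two_pow) (by
      rw [hI]
      exact arc_abs hσ hi (Nat.div_le_self _ _))
    refine h3.trans ?_
    have h4 : (((2 ^ ν : ℕ) : ℝ≥0∞)) ^ ε = 2 ^ (ε * ν) := by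
      push_cast
      rw [← ENNReal.rpow_natCast, ← ENNReal.rpow_mul, mul_comm]
    rw [h4]
    refine mul_le_mul' le_rfl (ENNReal.rpow_le_rpow ?_ (by linarith))
    refine Finset.sum_le_sum fun n hn => ?_
    have h5 : ‖a n * (θ n : ℂ) ^ j‖ₑ ≤ ‖a n‖ₑ := by
      rw [enorm_mul, enorm_pow]
      have h6 : ‖(θ n : ℂ)‖ₑ ≤ 1 := by
        rw [← ofReal_norm, Complex.norm_real, Real.norm_eq_abs]
        exact ENNReal.ofReal_le_one.2 (hθ n hn)
      calc ‖a n‖ₑ * ‖(θ n : ℂ)‖ₑ ^ j ≤ ‖a n‖ₑ * 1 := mul_le_mul' le_rfl (pow_le_one' h6 j)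
        _ = ‖a n‖ₑ := mul_one _
    exact pow_le_pow_left' h5 2
  -- one cell
  have hcell : ∀ z ∈ Z, ∫⁻ x, ‖FS (l + 1) I a (Fin.cons (u z) x)‖ₑ ^ p *
      wt l p ν (fun q => z q) x ≤
      WL C ^ (p - 1) * ∑' j, wj C j * (Ks * ∫⁻ x, wt l p ν (fun q => z q) x * g j x) := by
    intro z _
    obtain ⟨w, hwd⟩ : ∃ w, w = wt l p ν (fun q => z q) := ⟨_, rfl⟩
    have hwm : Measurable w := by
      rw [hwd]
      exact wt_meas _ _ _ _
    rw [← hwd]
    have hvol : (volume.restrict (Set.Ico (0 : ℝ) 1)) Set.univ = 1 := by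
      rw [Measure.restrict_apply_univ, Real.volume_Ico, sub_zero, ENNReal.ofReal_one]
    -- pointwise
    have h1 : ∀ x : E l, ‖FS (l + 1) I a (Fin.cons (u z) x)‖ₑ ^ p ≤
        ∫⁻ s in Set.Ico (0 : ℝ) 1, WL C ^ (p - 1) * ∑' j : ℕ, wj C j *
          ‖F j (Fin.cons (u z + s) (fun q => x q + s * b q))‖ₑ ^ p := by
      intro x
      have h2 : ‖FS (l + 1) I a (Fin.cons (u z) x)‖ₑ ^ p =
          ∫⁻ _ in Set.Ico (0 : ℝ) 1, ‖FS (l + 1) I a (Fin.cons (u z) x)‖ₑ ^ p := by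
        rw [lintegral_const, hvol, mul_one]
      rw [h2]
      refine setLIntegral_mono' measurableSet_Ico fun s hs => ?_
      rw [hF]
      exact hmain a p (u z) s x ha hp hs.1 hs.2.le
    -- joint measurability
    have hm2 : ∀ j, Measurable fun y : E l × ℝ =>
        ‖F j (Fin.cons (u z + y.2) (fun q => y.1 q + y.2 * b q))‖ₑ ^ p := by
      intro j
      have hc : Continuous fun y : E l × ℝ =>
          ((u z + y.2, fun q => y.1 q + y.2 * b q) : ℝ × E l) := by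
        refine Continuous.prodMk (by fun_prop) ?_
        refine continuous_pi fun q => ?_
        fun_prop
      exact (hmeas1 j).comp hc.measurable
    have hm3 : ∀ (x : E l) j, Measurable fun s : ℝ =>
        ‖F j (Fin.cons (u z + s) (fun q => x q + s * b q))‖ₑ ^ p := fun x j =>
      (hm2 j).comp measurable_prodMk_left
    calc ∫⁻ x, ‖FS (l + 1) I a (Fin.cons (u z) x)‖ₑ ^ p * w x
        ≤ ∫⁻ x, (∫⁻ s in Set.Ico (0 : ℝ) 1, WL C ^ (p - 1) * ∑' j : ℕ, wj C j *
          ‖F j (Fin.cons (u z + s) (fun q => x q + s * b q))‖ₑ ^ p) * w x :=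
          lintegral_mono fun x => mul_le_mul' (h1 x) le_rfl
      _ = ∫⁻ x, WL C ^ (p - 1) * ∑' j : ℕ, wj C j *
          ((∫⁻ s in Set.Ico (0 : ℝ) 1,
            ‖F j (Fin.cons (u z + s) (fun q => x q + s * b q))‖ₑ ^ p) * w x) := by
          refine lintegral_congr fun x => ?_
          rw [lintegral_const_mul _ (Measurable.tsum fun j => (hm3 x j).const_mul _),
            lintegral_tsum fun j => ((hm3 x j).const_mul _).aemeasurable, mul_assoc,
            ← ENNReal.tsum_mul_right]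
          congr 2
          funext j
          rw [lintegral_const_mul _ (hm3 x j), mul_assoc]
      _ = WL C ^ (p - 1) * ∑' j : ℕ, wj C j * ∫⁻ x,
          ((∫⁻ s in Set.Ico (0 : ℝ) 1,
            ‖F j (Fin.cons (u z + s) (fun q => x q + s * b q))‖ₑ ^ p) * w x) := by
          have hm4 : ∀ j, Measurable fun x : E l => ((∫⁻ s in Set.Ico (0 : ℝ) 1,
            ‖F j (Fin.cons (u z + s) (fun q => x q + s * b q))‖ₑ ^ p) * w x) := by
            intro j
            exact ((hm2 j).lintegral_prod_right').mul hwm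
          rw [lintegral_const_mul _ (Measurable.tsum fun j => (hm4 j).const_mul _),
            lintegral_tsum fun j => ((hm4 j).const_mul _).aemeasurable]
          congr 2
          funext j
          rw [lintegral_const_mul _ (hm4 j)]
      _ ≤ WL C ^ (p - 1) * ∑' j, wj C j * (Ks * ∫⁻ x, w x * g j x) := by
          refine mul_le_mul' le_rfl (ENNReal.tsum_le_tsum fun j => mul_le_mul' le_rfl ?_)
          -- Tonelli, translation, Tonelli
          have hm5 : Measurable fun y : E l × ℝ =>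
              ‖F j (Fin.cons (u z + y.2) (fun q => y.1 q + y.2 * b q))‖ₑ ^ p * w y.1 :=
            (hm2 j).mul (hwm.comp measurable_fst)
          have hm6 : Measurable fun y : E l × ℝ =>
              ‖F j (Fin.cons (u z + y.2) y.1)‖ₑ ^ p * (Ks * w y.1) := by
            have hc : Continuous fun y : E l × ℝ => ((u z + y.2, y.1) : ℝ × E l) := by
              fun_prop
            exact ((hmeas1 j).comp hc.measurable).mul ((hwm.comp measurable_fst).const_mul _)
          calc ∫⁻ x, ((∫⁻ s in Set.Ico (0 : ℝ) 1,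
                ‖F j (Fin.cons (u z + s) (fun q => x q + s * b q))‖ₑ ^ p) * w x)
              = ∫⁻ x, ∫⁻ s in Set.Ico (0 : ℝ) 1,
                ‖F j (Fin.cons (u z + s) (fun q => x q + s * b q))‖ₑ ^ p * w x := by
                refine lintegral_congr fun x => ?_
                rw [lintegral_mul_const _ (hm3 x j)]
            _ = ∫⁻ s in Set.Ico (0 : ℝ) 1, ∫⁻ x,
                ‖F j (Fin.cons (u z + s) (fun q => x q + s * b q))‖ₑ ^ p * w x :=
                lintegral_lintegral_swap hm5.aemeasurable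
            _ ≤ ∫⁻ s in Set.Ico (0 : ℝ) 1, ∫⁻ x,
                ‖F j (Fin.cons (u z + s) x)‖ₑ ^ p * (Ks * w x) := by
                refine setLIntegral_mono' measurableSet_Ico fun s hs => ?_
                have e1 := lint_sub (fun x => ‖F j (Fin.cons (u z + s) x)‖ₑ ^ p *
                  w (fun q => x q - s * b q)) (fun q => s * b q)
                simp only [add_sub_cancel_right] at e1
                rw [e1]
                refine lintegral_mono fun x => mul_le_mul' le_rfl ?_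
                rw [hwd]
                refine hsh ν (fun q => z q) x (fun q => s * b q) ?_
                intro q
                rw [abs_mul, abs_of_nonneg hs.1]
                exact (mul_le_of_le_one_left (abs_nonneg _) hs.2.le).trans (hb q)
            _ = ∫⁻ x, ∫⁻ s in Set.Ico (0 : ℝ) 1,
                ‖F j (Fin.cons (u z + s) x)‖ₑ ^ p * (Ks * w x) :=
                (lintegral_lintegral_swap hm6.aemeasurable).symm
            _ = Ks * ∫⁻ x, w x * g j x := by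
                have hwg : Measurable fun x : E l => w x * g j x := hwm.mul (hgm j)
                rw [← lintegral_const_mul _ hwg]
                refine lintegral_congr fun x => ?_
                have hc : Continuous fun s : ℝ => ((u z + s, x) : ℝ × E l) := by
                  fun_prop
                have hms : Measurable fun s : ℝ => ‖F j (Fin.cons (u z + s) x)‖ₑ ^ p :=
                  (hmeas1 j).comp hc.measurable
                rw [lintegral_mul_const _ hms, hgu]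
                ring
  -- sum over the cells
  have hsum : ∀ j, ∑ z ∈ Z, ∫⁻ x, wt l p ν (fun q => z q) x * g j x ≤
      ENNReal.ofReal Cw * (Ci * (Kv * 2 ^ (ε * ν) * (∑ n ∈ I, ‖a n‖ₑ ^ 2) ^ (p / 2))) := by
    intro j
    have hmz : ∀ z ∈ Z, Measurable fun x : E l => wt l p ν (fun q => z q) x * g j x :=
      fun z _ => (wt_meas _ _ _ _).mul (hgm j)
    rw [← lintegral_finsetSum _ hmz]
    have h1 : ∀ x : E l, ∑ z ∈ Z, wt l p ν (fun q => z q) x * g j x ≤
        ENNReal.ofReal Cw * (ENNReal.ofReal (∏ q, 1 / (1 + x q ^ 2)) * g j x) := by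
      intro x
      rw [← Finset.sum_mul, ← mul_assoc, ← ENNReal.ofReal_mul hCw.le]
      exact mul_le_mul' (hw ν Z hZ x) le_rfl
    refine (lintegral_mono h1).trans ?_
    have hm : Measurable fun x : E l => ENNReal.ofReal (∏ q, 1 / (1 + x q ^ 2)) * g j x := by
      refine Measurable.mul ?_ (hgm j)
      refine Measurable.ennreal_ofReal ?_
      refine Finset.measurable_prod _ fun q _ => ?_
      have hc : Continuous fun x : E l => 1 / (1 + x q ^ 2) := by
        refine Continuous.div continuous_const (by fun_prop) fun x => ?_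
        have := sq_nonneg (x q)
        linarith
      exact hc.measurable
    rw [lintegral_const_mul _ hm]
    refine mul_le_mul' le_rfl ((hci (g j) (hgm j) (hgp j)).trans ?_)
    exact mul_le_mul' le_rfl (hcube j)
  -- assembly
  refine (Finset.sum_le_sum hcell).trans ?_
  rw [← Finset.mul_sum]
  have h1 : ∑ z ∈ Z, ∑' j, wj C j * (Ks * ∫⁻ x, wt l p ν (fun q => z q) x * g j x) =
      ∑' j, wj C j * (Ks * ∑ z ∈ Z, ∫⁻ x, wt l p ν (fun q => z q) x * g j x) := by
    rw [← Summable.tsum_finsetSum fun z _ => ENNReal.summable]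
    congr 1
    funext j
    rw [Finset.mul_sum, Finset.mul_sum]
  rw [h1]
  have h2 : ∑' j, wj C j * (Ks * ∑ z ∈ Z, ∫⁻ x, wt l p ν (fun q => z q) x * g j x) ≤
      WL C * (Ks * (ENNReal.ofReal Cw *
        (Ci * (Kv * 2 ^ (ε * ν) * (∑ n ∈ I, ‖a n‖ₑ ^ 2) ^ (p / 2))))) := by
    rw [← tsum_wj (by linarith : (0 : ℝ) ≤ C), ← ENNReal.tsum_mul_right]
    exact ENNReal.tsum_le_tsum fun j => mul_le_mul' le_rfl (mul_le_mul' le_rfl (hsum j))
  refine (mul_le_mul' le_rfl h2).trans (le_of_eq ?_)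
  ring

end Pool.Agent.Dcp
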