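import Pool.Agent.Dcp.Trn

/-!
# Dcp, module Blk: blocks

`bk n i = [i 2^n, (i+1) 2^n)`.  `sum_nest`: the block `bk (n+q) i` is the disjoint union of the `bk n i'`, `i' ∈ bk q i`.
`fam_bk`: `(i 2^(m-a) + j)/2^m = i/2^a + (j/2^(m-a))/2^a`.  `spec_bs`: every `f j`, `j ∈ bk (m-a) i`, has spectrum in
`UU k C (τ + lam (i/2^a) + h) (lam/2^m)` with `0 ≤ h`, `h + lam/2^m ≤ lam/2^a` (`UU_sub`), `spec_sum`.
`dec_bk`: `rescale` for `fam_bk`, with `lam/2^a > 0`; reindex the sums (`sum_bk_range`).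
-/

set_option autoImplicit false

namespace Pool.Agent.Dcp

open MeasureTheory Finset
open scoped ENNReal

theorem bk_card (n i : ℕ) : (bk n i).card = 2 ^ n := by
  unfold bk
  rw [Nat.card_Ico, add_mul, one_mul, Nat.add_sub_cancel_left]

theorem mem_bk {n i j : ℕ} : j ∈ bk n i ↔ i * 2 ^ n ≤ j ∧ j < (i + 1) * 2 ^ n := by
  unfold bk
  rw [Finset.mem_Ico]

theorem bk_zero (n : ℕ) : bk n 0 = range (2 ^ n) := by
  ext j
  rw [mem_bk, Finset.mem_range, zero_mul, zero_add, one_mul]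
  exact and_iff_right (Nat.zero_le j)

theorem sum_bk_range {M : Type*} [AddCommMonoid M] (F : ℕ → M) (n i : ℕ) :
    ∑ j ∈ bk n i, F j = ∑ j ∈ range (2 ^ n), F (i * 2 ^ n + j) := by
  unfold bk
  rw [Finset.sum_Ico_eq_sum_range, add_mul, one_mul, Nat.add_sub_cancel_left]

private theorem blk_aux {M : Type*} [AddCommMonoid M] (F : ℕ → M) (n s : ℕ) : ∀ N : ℕ,
    ∑ j ∈ Ico (s * 2 ^ n) ((s + N) * 2 ^ n), F j =
      ∑ i' ∈ Ico s (s + N), ∑ j ∈ bk n i', F j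
  | 0 => by simp
  | N + 1 => by
    have h1 : s * 2 ^ n ≤ (s + N) * 2 ^ n := Nat.mul_le_mul_right _ (Nat.le_add_right s N)
    have h2 : (s + N) * 2 ^ n ≤ (s + (N + 1)) * 2 ^ n :=
      Nat.mul_le_mul_right _ (by omega)
    rw [← Finset.sum_Ico_consecutive F h1 h2, blk_aux F n s N, ← add_assoc,
      Finset.sum_Ico_succ_top (Nat.le_add_right s N)]
    rfl

theorem sum_nest {M : Type*} [AddCommMonoid M] (F : ℕ → M) (n q i : ℕ) :
    ∑ j ∈ bk (n + q) i, F j = ∑ i' ∈ bk q i, ∑ j ∈ bk n i', F j := by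
  have h := blk_aux F n (i * 2 ^ q) (2 ^ q)
  have e1 : i * 2 ^ (n + q) = i * 2 ^ q * 2 ^ n := by rw [pow_add]; ring
  have e2 : (i + 1) * 2 ^ (n + q) = (i * 2 ^ q + 2 ^ q) * 2 ^ n := by rw [pow_add]; ring
  have e3 : (i + 1) * 2 ^ q = i * 2 ^ q + 2 ^ q := by ring
  have e4 : bk (n + q) i = Ico (i * 2 ^ q * 2 ^ n) ((i * 2 ^ q + 2 ^ q) * 2 ^ n) := by
    unfold bk
    rw [e1, e2]
  have e5 : bk q i = Ico (i * 2 ^ q) (i * 2 ^ q + 2 ^ q) := by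
    unfold bk
    rw [e3]
  rw [e4, e5, h]

theorem bk_lt {m a i j : ℕ} (ha : a ≤ m) (hi : i < 2 ^ a) (hj : j ∈ bk (m - a) i) :
    j < 2 ^ m := by
  have h1 := (mem_bk.1 hj).2
  have h2 : (i + 1) * 2 ^ (m - a) ≤ 2 ^ a * 2 ^ (m - a) := Nat.mul_le_mul_right _ hi
  have h3 : 2 ^ a * 2 ^ (m - a) = 2 ^ m := by rw [← pow_add, Nat.add_sub_cancel' ha]
  omega

theorem fam_bk {k : ℕ} {C τ lam : ℝ} {m a i : ℕ} {f : ℕ → E k → ℂ} (hf : Fam k C τ lam m f)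
    (ha : a ≤ m) (hi : i < 2 ^ a) :
    Fam k C (τ + lam * ((i : ℝ) / 2 ^ a)) (lam / 2 ^ a) (m - a)
      (fun j => f (i * 2 ^ (m - a) + j)) := by
  intro j hj
  have h1 : i * 2 ^ (m - a) + j < 2 ^ m := by
    apply bk_lt ha hi
    rw [mem_bk, add_mul, one_mul]
    omega
  have h2 := hf _ h1
  have h3 : (2 : ℝ) ^ m = 2 ^ a * 2 ^ (m - a) := by rw [← pow_add, Nat.add_sub_cancel' ha]
  have h4 : (0 : ℝ) < 2 ^ a := by positivity
  have h5 : (0 : ℝ) < 2 ^ (m - a) := by positivity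
  have e1 : τ + lam * (((i * 2 ^ (m - a) + j : ℕ) : ℝ) / 2 ^ m) =
      τ + lam * ((i : ℝ) / 2 ^ a) + lam / 2 ^ a * ((j : ℝ) / 2 ^ (m - a)) := by
    rw [h3]
    push_cast
    field_simp
    ring
  have e2 : lam / 2 ^ m = lam / 2 ^ a / 2 ^ (m - a) := by
    rw [h3, div_div]
  rw [e1, e2] at h2
  exact h2

theorem spec_bs {k : ℕ} {C τ lam : ℝ} {m a i : ℕ} {f : ℕ → E k → ℂ} (hC : 1 ≤ C) (hl : 0 ≤ lam)
    (hf : Fam k C τ lam m f) (ha : a ≤ m) (hi : i < 2 ^ a) :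
    Spec (UU k C (τ + lam * ((i : ℝ) / 2 ^ a)) (lam / 2 ^ a)) (bs (m - a) i f) := by
  have h3 : (2 : ℝ) ^ m = 2 ^ a * 2 ^ (m - a) := by rw [← pow_add, Nat.add_sub_cancel' ha]
  have h4 : (0 : ℝ) < 2 ^ a := by positivity
  have h5 : (0 : ℝ) < 2 ^ (m - a) := by positivity
  refine spec_sum _ _ fun j hj => ?_
  have h1 := hf j (bk_lt ha hi hj)
  obtain ⟨h6, h7⟩ := mem_bk.1 hj
  obtain ⟨l, rfl⟩ := Nat.exists_eq_add_of_le h6
  have hl2 : l + 1 ≤ 2 ^ (m - a) := by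
    rw [add_mul, one_mul] at h7
    omega
  have hl3 : (l : ℝ) + 1 ≤ 2 ^ (m - a) := by exact_mod_cast hl2
  have e1 : τ + lam * (((i * 2 ^ (m - a) + l : ℕ) : ℝ) / 2 ^ m) =
      τ + lam * ((i : ℝ) / 2 ^ a) + lam * ((l : ℝ) / 2 ^ m) := by
    rw [h3]
    push_cast
    field_simp
    ring
  rw [e1] at h1
  refine spec_mono h1 (UU_sub k hC (by positivity) (by positivity) ?_)
  have e2 : lam * ((l : ℝ) / 2 ^ m) + lam / 2 ^ m = lam * (((l : ℝ) + 1) / 2 ^ m) := by ring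
  have e3 : lam / 2 ^ a = lam * (2 ^ (m - a) / 2 ^ m) := by
    rw [h3]
    field_simp
  rw [e2, e3]
  apply mul_le_mul_of_nonneg_left _ hl
  apply div_le_div_of_nonneg_right hl3
  positivity

theorem dec_bk {k : ℕ} (hk : 1 ≤ k) {C τ lam : ℝ} {m a i : ℕ} {D : ℝ≥0∞} (h : Dec k C (m - a) D)
    (hl : 0 < lam) {f : ℕ → E k → ℂ} (hf : Fam k C τ lam m f) (ha : a ≤ m) (hi : i < 2 ^ a) :
    nI (P k) (bs (m - a) i f) ≤ D ^ P k * S2 (P k) (bk (m - a) i) f ^ (P k / 2) := by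
  have h1 := rescale hk h (τ := τ + lam * ((i : ℝ) / 2 ^ a)) (lam := lam / 2 ^ a) (by positivity)
    (fam_bk hf ha hi)
  have e1 : bs (m - a) i f = fun x => ∑ j ∈ range (2 ^ (m - a)), f (i * 2 ^ (m - a) + j) x := by
    funext x
    exact sum_bk_range (fun j => f j x) (m - a) i
  have e2 : S2 (P k) (bk (m - a) i) f =
      S2 (P k) (range (2 ^ (m - a))) (fun j => f (i * 2 ^ (m - a) + j)) := by
    unfold S2
    exact sum_bk_range (fun j => nI (P k) (f j) ^ (2 / P k)) (m - a) i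
  rw [e1, e2]
  exact h1

end Pool.Agent.Dcp
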