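import Pool.Agent.Dcp.Defs

/-!
# Dcp, module L1a: the measure theory of Lemma 1

Tonelli and Minkowski only.  `mink`: the triangle inequality in `L^(p/2)` for finite sums
(`ENNReal.lintegral_Lp_finsetSum_le` or `ENNReal.lintegral_Lp_add_le` and induction), raised to the power `p/2`; with `h_i = H_i^(2/p)`.
`l1_abs`: by `h1`, `∫∫ F^p G^q ≤ C ∫_y ∫_z F y z^p ∫_w G y (z-w)^q ψ w = C ∫_y ∫_u G y u^q ∫_z F y z^p ψ (z-u)` (substitution `w = z - u` for
fixed `z`, Tonelli), `≤ C D^p ∫_y ∫_u G y u^q (∑_i (∫_z Fi i y z^p ψ (z-u))^(2/p))^(p/2)` (`h2`)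
`= C D^p ∫_y ∫_u (∑_i (G y u^q ∫_z Fi i y z^p ψ (z-u))^(2/p))^(p/2)` (`G` is finite, `p > 0`)
`≤ C D^p (∑_i (∫_y ∫_u G y u^q ∫_z Fi i y z^p ψ (z-u))^(2/p))^(p/2)` (`mink` on the product), and the inner integral is
`∫_w ψ w ∫_y ∫_z Fi i y z^p G y (z-w)^q ≤ (∫ ψ) X Y_i^(p/2)` (`h3`).  Finally `((∫ψ) X Y_i^(p/2))^(2/p) = ((∫ψ) X)^(2/p) Y_i`.
-/

set_option autoImplicit false

namespace Pool.Agent.Dcp

open MeasureTheory Finset
open scoped ENNReal

private theorem mink0 {α : Type*} [MeasurableSpace α] (μ : Measure α) {r : ℝ} (hr : 1 ≤ r)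
    (s : Finset ℕ) (h : ℕ → α → ℝ≥0∞) (hh : ∀ i ∈ s, AEMeasurable (h i) μ) :
    (∫⁻ x, (∑ i ∈ s, h i x) ^ r ∂μ) ^ (1 / r) ≤
      ∑ i ∈ s, (∫⁻ x, h i x ^ r ∂μ) ^ (1 / r) := by
  have hr0 : 0 < r := lt_of_lt_of_le one_pos hr
  have hr1 : 0 < 1 / r := by positivity
  induction s using Finset.induction_on with
  | empty => simp [ENNReal.zero_rpow_of_pos hr0, hr0]
  | insert a s ha ih =>
    have h1 : AEMeasurable (h a) μ := hh a (mem_insert_self a s)
    have h2 : ∀ i ∈ s, AEMeasurable (h i) μ := fun i hi => hh i (mem_insert_of_mem hi)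
    have h3 : AEMeasurable (fun x => ∑ i ∈ s, h i x) μ := Finset.aemeasurable_fun_sum s h2
    have h4 := ENNReal.lintegral_Lp_add_le h1 h3 hr
    rw [sum_insert ha]
    calc (∫⁻ x, (∑ i ∈ insert a s, h i x) ^ r ∂μ) ^ (1 / r)
        = (∫⁻ x, (h a + fun x => ∑ i ∈ s, h i x) x ^ r ∂μ) ^ (1 / r) := by
          congr 1
          refine lintegral_congr fun x => ?_
          rw [sum_insert ha]
          rfl
      _ ≤ (∫⁻ x, h a x ^ r ∂μ) ^ (1 / r) + (∫⁻ x, (∑ i ∈ s, h i x) ^ r ∂μ) ^ (1 / r) := h4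
      _ ≤ _ := add_le_add le_rfl (ih h2)

theorem mink {α : Type*} [MeasurableSpace α] (μ : Measure α) {p : ℝ} (hp : 2 ≤ p) (s : Finset ℕ)
    (H : ℕ → α → ℝ≥0∞) (hH : ∀ i ∈ s, AEMeasurable (H i) μ) :
    ∫⁻ x, (∑ i ∈ s, H i x ^ (2 / p)) ^ (p / 2) ∂μ ≤
      (∑ i ∈ s, (∫⁻ x, H i x ∂μ) ^ (2 / p)) ^ (p / 2) := by
  have hp0 : 0 < p := by linarith
  have hr : 1 ≤ p / 2 := by linarith
  have hr0 : 0 < p / 2 := by linarith
  have h := mink0 μ hr s (fun i x => H i x ^ (2 / p)) (fun i hi => (hH i hi).pow_const _)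
  have e1 : (1 : ℝ) / (p / 2) = 2 / p := by field_simp
  have e2 : ∀ a : ℝ≥0∞, (a ^ (2 / p)) ^ (p / 2) = a := fun a => by
    rw [← ENNReal.rpow_mul, div_mul_div_cancel₀ hp0.ne', div_self two_ne_zero, ENNReal.rpow_one]
  rw [e1] at h
  simp only [e2] at h
  calc ∫⁻ x, (∑ i ∈ s, H i x ^ (2 / p)) ^ (p / 2) ∂μ
      = ((∫⁻ x, (∑ i ∈ s, H i x ^ (2 / p)) ^ (p / 2) ∂μ) ^ (2 / p)) ^ (p / 2) := (e2 _).symm
    _ ≤ _ := ENNReal.rpow_le_rpow h hr0.le

private theorem conv1 {l : ℕ} (a b ψ : E l → ℝ≥0∞) (ha : Measurable a) (hb : Measurable b)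
    (hψ : Measurable ψ) :
    ∫⁻ z, a z * ∫⁻ w, b (z - w) * ψ w = ∫⁻ u, b u * ∫⁻ z, a z * ψ (z - u) := by
  have hm : Measurable fun x : E l × E l => a x.1 * (b x.2 * ψ (x.1 - x.2)) :=
    (ha.comp measurable_fst).mul ((hb.comp measurable_snd).mul
      (hψ.comp (measurable_fst.sub measurable_snd)))
  calc ∫⁻ z, a z * ∫⁻ w, b (z - w) * ψ w
      = ∫⁻ z, ∫⁻ u, a z * (b u * ψ (z - u)) := by
        refine lintegral_congr fun z => ?_
        have h1 : ∫⁻ w, b (z - w) * ψ w = ∫⁻ u, b u * ψ (z - u) := by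
          have h2 := lintegral_sub_left_eq_self (μ := (volume : Measure (E l)))
            (fun u => b u * ψ (z - u)) z
          rw [← h2]
          refine lintegral_congr fun w => ?_
          rw [sub_sub_cancel]
        rw [h1, lintegral_const_mul]
        exact hb.mul (hψ.comp (measurable_const.sub measurable_id))
    _ = ∫⁻ u, ∫⁻ z, a z * (b u * ψ (z - u)) := lintegral_lintegral_swap hm.aemeasurable
    _ = ∫⁻ u, b u * ∫⁻ z, a z * ψ (z - u) := by
        refine lintegral_congr fun u => ?_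
        rw [← lintegral_const_mul]
        · refine lintegral_congr fun z => ?_
          ring
        · exact ha.mul (hψ.comp (measurable_id.sub measurable_const))

private theorem conv2 {l : ℕ} (a b ψ : E l → ℝ≥0∞) (ha : Measurable a) (hb : Measurable b)
    (hψ : Measurable ψ) :
    ∫⁻ u, b u * ∫⁻ z, a z * ψ (z - u) = ∫⁻ w, ψ w * ∫⁻ z, a z * b (z - w) := by
  rw [← conv1 a b ψ ha hb hψ]
  have hm : Measurable fun x : E l × E l => a x.1 * (b (x.1 - x.2) * ψ x.2) :=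
    (ha.comp measurable_fst).mul ((hb.comp (measurable_fst.sub measurable_snd)).mul
      (hψ.comp measurable_snd))
  calc ∫⁻ z, a z * ∫⁻ w, b (z - w) * ψ w
      = ∫⁻ z, ∫⁻ w, a z * (b (z - w) * ψ w) := by
        refine lintegral_congr fun z => ?_
        rw [lintegral_const_mul]
        exact (hb.comp (measurable_const.sub measurable_id)).mul hψ
    _ = ∫⁻ w, ∫⁻ z, a z * (b (z - w) * ψ w) := lintegral_lintegral_swap hm.aemeasurable
    _ = ∫⁻ w, ψ w * ∫⁻ z, a z * b (z - w) := by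
        refine lintegral_congr fun w => ?_
        rw [← lintegral_const_mul]
        · refine lintegral_congr fun z => ?_
          ring
        · exact ha.mul (hb.comp (measurable_id.sub measurable_const))

theorem l1_abs {r l : ℕ} {p q : ℝ} (hp : 2 ≤ p) (hq : 0 ≤ q) (s : Finset ℕ)
    (F G : E r → E l → ℝ≥0∞) (Fi : ℕ → E r → E l → ℝ≥0∞) (ψ : E l → ℝ≥0∞)
    (hF : Measurable fun x : E r × E l => F x.1 x.2)
    (hG : Measurable fun x : E r × E l => G x.1 x.2)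
    (hFi : ∀ i ∈ s, Measurable fun x : E r × E l => Fi i x.1 x.2) (hψ : Measurable ψ)
    (hG' : ∀ y z, G y z ≠ ⊤) (C D X : ℝ≥0∞) (Y : ℕ → ℝ≥0∞)
    (h1 : ∀ y z, G y z ^ q ≤ C * ∫⁻ w, G y (z - w) ^ q * ψ w)
    (h2 : ∀ y z, ∫⁻ z', F y z' ^ p * ψ (z' - z) ≤
      D ^ p * (∑ i ∈ s, (∫⁻ z', Fi i y z' ^ p * ψ (z' - z)) ^ (2 / p)) ^ (p / 2))
    (h3 : ∀ w, ∀ i ∈ s, ∫⁻ y, ∫⁻ z, Fi i y z ^ p * G y (z - w) ^ q ≤ X * Y i ^ (p / 2)) :
    ∫⁻ y, ∫⁻ z, F y z ^ p * G y z ^ q ≤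
      C * D ^ p * (∫⁻ w, ψ w) * X * (∑ i ∈ s, Y i) ^ (p / 2) := by
  have hp0 : 0 < p := by linarith
  have hr0 : 0 < p / 2 := by linarith
  have hr1 : 0 < 2 / p := by positivity
  have e2 : ∀ a : ℝ≥0∞, (a ^ (2 / p)) ^ (p / 2) = a := fun a => by
    rw [← ENNReal.rpow_mul, div_mul_div_cancel₀ hp0.ne', div_self two_ne_zero, ENNReal.rpow_one]
  have e3 : ∀ a : ℝ≥0∞, (a ^ (p / 2)) ^ (2 / p) = a := fun a => by
    rw [← ENNReal.rpow_mul, div_mul_div_cancel₀ two_ne_zero, div_self hp0.ne', ENNReal.rpow_one]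
  have hFy : ∀ y, Measurable (fun z => F y z ^ p) := fun y =>
    (hF.comp measurable_prodMk_left).pow_const _
  have hGy : ∀ y, Measurable (fun z => G y z ^ q) := fun y =>
    (hG.comp measurable_prodMk_left).pow_const _
  have hFiy : ∀ i ∈ s, ∀ y, Measurable (fun z => Fi i y z ^ p) := fun i hi y =>
    ((hFi i hi).comp measurable_prodMk_left).pow_const _
  -- the auxiliary functions
  set K : ℕ → E r × E l → ℝ≥0∞ := fun i x =>
    G x.1 x.2 ^ q * ∫⁻ z, Fi i x.1 z ^ p * ψ (z - x.2) with hK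
  have hKm : ∀ i ∈ s, Measurable (K i) := by
    intro i hi
    have h : Measurable fun x : (E r × E l) × E l => Fi i x.1.1 x.2 ^ p * ψ (x.2 - x.1.2) :=
      (((hFi i hi).comp ((measurable_fst.comp measurable_fst).prodMk
        measurable_snd)).pow_const p).mul
        (hψ.comp (measurable_snd.sub (measurable_snd.comp measurable_fst)))
    exact (hG.pow_const q).mul h.lintegral_prod_right'
  -- step 1
  have s1 : ∀ y, ∫⁻ z, F y z ^ p * G y z ^ q ≤
      C * (D ^ p * ∫⁻ u, (∑ i ∈ s, K i (y, u) ^ (2 / p)) ^ (p / 2)) := by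
    intro y
    calc ∫⁻ z, F y z ^ p * G y z ^ q
        ≤ ∫⁻ z, C * (F y z ^ p * ∫⁻ w, G y (z - w) ^ q * ψ w) := by
          refine lintegral_mono fun z => ?_
          calc F y z ^ p * G y z ^ q ≤ F y z ^ p * (C * ∫⁻ w, G y (z - w) ^ q * ψ w) :=
                mul_le_mul_right (h1 y z) _
            _ = _ := by ring
      _ = C * ∫⁻ z, F y z ^ p * ∫⁻ w, G y (z - w) ^ q * ψ w := by
          rw [lintegral_const_mul]
          have h : Measurable fun x : E l × E l => G y (x.1 - x.2) ^ q * ψ x.2 :=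
            ((hGy y).comp (measurable_fst.sub measurable_snd)).mul (hψ.comp measurable_snd)
          exact (hFy y).mul h.lintegral_prod_right'
      _ = C * ∫⁻ u, G y u ^ q * ∫⁻ z, F y z ^ p * ψ (z - u) := by
          rw [conv1 (fun z => F y z ^ p) (fun z => G y z ^ q) ψ (hFy y) (hGy y) hψ]
      _ ≤ C * ∫⁻ u, D ^ p * (∑ i ∈ s, K i (y, u) ^ (2 / p)) ^ (p / 2) := by
          refine mul_le_mul_right (lintegral_mono fun u => ?_) _
          calc G y u ^ q * ∫⁻ z, F y z ^ p * ψ (z - u)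
              ≤ G y u ^ q * (D ^ p *
                (∑ i ∈ s, (∫⁻ z', Fi i y z' ^ p * ψ (z' - u)) ^ (2 / p)) ^ (p / 2)) :=
                mul_le_mul_right (h2 y u) _
            _ = D ^ p * (∑ i ∈ s, K i (y, u) ^ (2 / p)) ^ (p / 2) := by
                have h : ∑ i ∈ s, K i (y, u) ^ (2 / p) = (G y u ^ q) ^ (2 / p) *
                    ∑ i ∈ s, (∫⁻ z', Fi i y z' ^ p * ψ (z' - u)) ^ (2 / p) := by
                  rw [mul_sum]
                  refine sum_congr rfl fun i _ => ?_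
                  rw [hK, ENNReal.mul_rpow_of_nonneg _ _ hr1.le]
                rw [h, ENNReal.mul_rpow_of_nonneg _ _ hr0.le, e2]
                ring
      _ = C * (D ^ p * ∫⁻ u, (∑ i ∈ s, K i (y, u) ^ (2 / p)) ^ (p / 2)) := by
          rw [lintegral_const_mul]
          refine (Finset.measurable_fun_sum s fun i hi => ?_).pow_const _
          exact ((hKm i hi).comp measurable_prodMk_left).pow_const _
  have hS : Measurable fun x : E r × E l => (∑ i ∈ s, K i x ^ (2 / p)) ^ (p / 2) :=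
    (Finset.measurable_fun_sum s fun i hi => (hKm i hi).pow_const _).pow_const _
  -- the integral of `K i`
  have s2 : ∀ i ∈ s, ∫⁻ x, K i x ∂(volume.prod volume) ≤ (∫⁻ w, ψ w) * X * Y i ^ (p / 2) := by
    intro i hi
    rw [lintegral_prod _ (hKm i hi).aemeasurable]
    have hm : Measurable fun x : (E r × E l) × E l => Fi i x.1.1 x.2 ^ p *
        G x.1.1 (x.2 - x.1.2) ^ q :=
      (((hFi i hi).comp ((measurable_fst.comp measurable_fst).prodMk
        measurable_snd)).pow_const p).mul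
        ((hG.comp ((measurable_fst.comp measurable_fst).prodMk
          (measurable_snd.sub (measurable_snd.comp measurable_fst)))).pow_const q)
    have hm2 : Measurable fun x : E r × E l => ∫⁻ z, Fi i x.1 z ^ p * G x.1 (z - x.2) ^ q :=
      hm.lintegral_prod_right'
    calc ∫⁻ y, ∫⁻ u, K i (y, u)
        = ∫⁻ y, ∫⁻ w, ψ w * ∫⁻ z, Fi i y z ^ p * G y (z - w) ^ q := by
          refine lintegral_congr fun y => ?_
          exact conv2 (fun z => Fi i y z ^ p) (fun z => G y z ^ q) ψ (hFiy i hi y) (hGy y) hψ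
      _ = ∫⁻ w, ∫⁻ y, ψ w * ∫⁻ z, Fi i y z ^ p * G y (z - w) ^ q :=
          lintegral_lintegral_swap ((hψ.comp measurable_snd).mul hm2).aemeasurable
      _ ≤ ∫⁻ w, ψ w * (X * Y i ^ (p / 2)) := by
          refine lintegral_mono fun w => ?_
          rw [lintegral_const_mul]
          · exact mul_le_mul_right (h3 w i hi) _
          · exact hm2.comp measurable_prodMk_right
      _ = (∫⁻ w, ψ w) * X * Y i ^ (p / 2) := by
          rw [lintegral_mul_const _ hψ, mul_assoc]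
  calc ∫⁻ y, ∫⁻ z, F y z ^ p * G y z ^ q
      ≤ ∫⁻ y, C * (D ^ p * ∫⁻ u, (∑ i ∈ s, K i (y, u) ^ (2 / p)) ^ (p / 2)) :=
        lintegral_mono s1
    _ = C * (D ^ p * ∫⁻ y, ∫⁻ u, (∑ i ∈ s, K i (y, u) ^ (2 / p)) ^ (p / 2)) := by
        have hi : Measurable fun y : E r => ∫⁻ u, (∑ i ∈ s, K i (y, u) ^ (2 / p)) ^ (p / 2) :=
          hS.lintegral_prod_right'
        rw [lintegral_const_mul _ (hi.const_mul _), lintegral_const_mul _ hi]
    _ = C * (D ^ p * ∫⁻ x, (∑ i ∈ s, K i x ^ (2 / p)) ^ (p / 2) ∂(volume.prod volume)) := by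
        rw [lintegral_prod _ hS.aemeasurable]
    _ ≤ C * (D ^ p * (∑ i ∈ s, (∫⁻ x, K i x ∂(volume.prod volume)) ^ (2 / p)) ^ (p / 2)) :=
        mul_le_mul_right (mul_le_mul_right
          (mink _ hp s K fun i hi => (hKm i hi).aemeasurable) _) _
    _ ≤ C * (D ^ p * (∑ i ∈ s, ((∫⁻ w, ψ w) * X * Y i ^ (p / 2)) ^ (2 / p)) ^ (p / 2)) := by
        refine mul_le_mul_right (mul_le_mul_right (ENNReal.rpow_le_rpow
          (sum_le_sum fun i hi => ENNReal.rpow_le_rpow (s2 i hi) hr1.le) hr0.le) _) _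
    _ = C * D ^ p * (∫⁻ w, ψ w) * X * (∑ i ∈ s, Y i) ^ (p / 2) := by
        have h : ∑ i ∈ s, ((∫⁻ w, ψ w) * X * Y i ^ (p / 2)) ^ (2 / p) =
            ((∫⁻ w, ψ w) * X) ^ (2 / p) * ∑ i ∈ s, Y i := by
          rw [mul_sum]
          refine sum_congr rfl fun i _ => ?_
          rw [ENNReal.mul_rpow_of_nonneg _ _ hr1.le, e3]
        rw [h, ENNReal.mul_rpow_of_nonneg _ _ hr0.le, e2]
        ring

end Pool.Agent.Dcp
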