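import Pool.Agent.Dcp.CDc
import Pool.Agent.Dcp.ArS
import Pool.Agent.Dcp.L1a

/-!
# Dcp, module Blo: one dyadic block on the hypersurface `x_0 = φ(x)`

`|x q| ≤ B - 1`, `B ≥ 2` on the compact set `S`.  `z(x) q = ⌊2^(ν(q+1)) x q⌋`; `Z` the finite set of the values of `z` on `S` (they are bounded:
`|z q| ≤ B 2^(ν(q+1))`); for `z ∈ Z` choose `x_z ∈ S` with `z(x_z) = z`, `u z = φ x_z`.  If `x ∈ S`, `z(x) = z`, then `|x q - x_z q| ≤ 2^(-ν(q+1)) ≤ 2^(-ν)`, so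
`|φ x - u z| ≤ L 2^(-ν)`; `tay` with `θ n = n/2^ν` (`|θ n| ≤ 1` on the arc), `lam = 2^ν (φ x - u z)`, `|lam| ≤ L`:
`‖FS a (cons (φ x) x)‖^p ≤ W^(p-1) ∑' wj L j ‖FS a_j (cons (u z) x)‖^p`, `a_j n = a n θ^j`, and `1 ≤ C wt l p ν z x` (`wt_cell`).  So
`∫_S ≤ C W^(p-1) ∑' wj L j ∑_{z ∈ Z} ∫ ‖FS a_j (cons (u z) x)‖^p wt z x`.  For every `j`: `cell_dec` for every `z`, then `mink` (`L1a`) for the
counting measure on `Z` (or Minkowski for finite sums): `∑_z (∑_i X_{i,z}^(2/p))^(p/2) ≤ (∑_i (∑_z X_{i,z})^(2/p))^(p/2)`, `arc_sum` for every `i`, and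
`∑_{i < 2^(ν/l)} ∑_{n ∈ arc σ ν (ν-ν/l) i} = ∑_{n ∈ arc σ ν ν 0}` (`sum_nest`).  `‖a_j n‖ ≤ ‖a n‖` for `n` in the arc, `∑' wj L j = WL L`.
Use `cell_dec` with `ε/(2 P l)` and `arc_sum` with `ε/2`.
-/

set_option autoImplicit false

namespace Pool.Agent.Dcp

open MeasureTheory Finset
open scoped ENNReal

private theorem blo_phase (l : ℕ) (n : ℤ) (v u : ℝ) (x : E l) :
    ∑ i : Fin (l + 1), (n : ℝ) ^ (i.val + 1) * (Fin.cons v x : E (l + 1)) i =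
      (∑ i : Fin (l + 1), (n : ℝ) ^ (i.val + 1) * (Fin.cons u x : E (l + 1)) i) + n * (v - u) := by
  rw [Fin.sum_univ_succ, Fin.sum_univ_succ]
  simp only [Fin.cons_zero, Fin.cons_succ, Fin.val_zero, zero_add, pow_one]
  ring

private theorem blo_tay {l : ℕ} {p : ℝ} (hp : 1 ≤ p) {L : ℝ} (ν : ℕ) (s : Finset ℤ) (a : ℤ → ℂ)
    (v u : ℝ) (x : E l) (h : |2 ^ ν * (v - u)| ≤ L) :
    ‖FS (l + 1) s a (Fin.cons v x)‖ₑ ^ p ≤ WL L ^ (p - 1) * ∑' j : ℕ, wj L j *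
      ‖FS (l + 1) s (fun n => a n * (((n : ℝ) / 2 ^ ν : ℝ) : ℂ) ^ j) (Fin.cons u x)‖ₑ ^ p := by
  have h1 := tay hp (L := L) s
    (fun n => a n * ee (∑ i : Fin (l + 1), (n : ℝ) ^ (i.val + 1) * (Fin.cons u x : E (l + 1)) i))
    (fun n => (n : ℝ) / 2 ^ ν) (lam := 2 ^ ν * (v - u)) h
  have e1 : ∑ n ∈ s, a n * ee (∑ i : Fin (l + 1), (n : ℝ) ^ (i.val + 1) *
      (Fin.cons u x : E (l + 1)) i) * ee (2 ^ ν * (v - u) * ((n : ℝ) / 2 ^ ν)) =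
      FS (l + 1) s a (Fin.cons v x) := by
    unfold FS
    refine Finset.sum_congr rfl fun n _ => ?_
    have e3 : (2 : ℝ) ^ ν * (v - u) * ((n : ℝ) / 2 ^ ν) = n * (v - u) := by
      have : (2 : ℝ) ^ ν ≠ 0 := by positivity
      field_simp
    rw [blo_phase l n v u x, ee_add, e3, mul_assoc]
  have e2 : ∀ j : ℕ, ∑ n ∈ s, a n * ee (∑ i : Fin (l + 1), (n : ℝ) ^ (i.val + 1) *
      (Fin.cons u x : E (l + 1)) i) * (((n : ℝ) / 2 ^ ν : ℝ) : ℂ) ^ j =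
      FS (l + 1) s (fun n => a n * (((n : ℝ) / 2 ^ ν : ℝ) : ℂ) ^ j) (Fin.cons u x) := by
    intro j
    unfold FS
    refine Finset.sum_congr rfl fun n _ => ?_
    ring
  rw [← e1]
  refine h1.trans (le_of_eq ?_)
  congr 1
  refine tsum_congr fun j => ?_
  rw [← e2 j]

private theorem blo_mink {ι : Type} {p : ℝ} (hp : 2 ≤ p) (s : Finset ℕ) (Z : Finset ι)
    (X : ℕ → ι → ℝ≥0∞) :
    ∑ z ∈ Z, (∑ i ∈ s, X i z ^ (2 / p)) ^ (p / 2) ≤
      (∑ i ∈ s, (∑ z ∈ Z, X i z) ^ (2 / p)) ^ (p / 2) := by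
  letI : MeasurableSpace Z := ⊤
  haveI : MeasurableSingletonClass Z := ⟨fun _ => trivial⟩
  have h := mink (Measure.count : Measure Z) hp s (fun i z => X i z.1)
    (fun i _ => measurable_from_top.aemeasurable)
  simp only [lintegral_count, tsum_fintype] at h
  rw [Finset.sum_coe_sort Z (fun z => (∑ i ∈ s, X i z ^ (2 / p)) ^ (p / 2))] at h
  refine h.trans (le_of_eq ?_)
  congr 1
  refine Finset.sum_congr rfl fun i _ => ?_
  rw [Finset.sum_coe_sort Z (fun z => X i z)]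

private theorem blo_arc {M : Type*} [AddCommMonoid M] (σ ν m i : ℕ) (g : ℤ → M) :
    ∑ n ∈ arc σ ν m i, g n = ∑ j ∈ bk m i, g ((j : ℤ) - σ * 2 ^ ν) := by
  unfold arc
  rw [Finset.sum_image]
  intro x _ y _ hxy
  have h : ((x : ℤ) - σ * 2 ^ ν) = (y : ℤ) - σ * 2 ^ ν := hxy
  omega

private theorem blo_arcs {M : Type*} [AddCommMonoid M] (l σ ν : ℕ) (g : ℤ → M) :
    ∑ i ∈ range (2 ^ (ν / l)), ∑ n ∈ arc σ ν (ν - ν / l) i, g n = ∑ n ∈ arc σ ν ν 0, g n := by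
  have h1 : ν / l ≤ ν := Nat.div_le_self ν l
  have h2 : ν - ν / l + ν / l = ν := Nat.sub_add_cancel h1
  have h3 := sum_nest (fun j : ℕ => g ((j : ℤ) - σ * 2 ^ ν)) (ν - ν / l) (ν / l) 0
  rw [h2, bk_zero (ν / l)] at h3
  rw [blo_arc, h3]
  exact Finset.sum_congr rfl fun i _ => blo_arc σ ν (ν - ν / l) i g

private theorem blo_le {σ ν : ℕ} (hσ : σ ≤ 1) {n : ℤ} (hn : n ∈ arc σ ν ν 0) :
    |(n : ℝ) / 2 ^ ν| ≤ 1 := by
  unfold arc at hn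
  rw [Finset.mem_image] at hn
  obtain ⟨j, hj, rfl⟩ := hn
  have h1 := (mem_bk.1 hj).2
  rw [zero_add, one_mul] at h1
  have h2 : (j : ℝ) < 2 ^ ν := by exact_mod_cast h1
  have h3 : (0 : ℝ) ≤ j := Nat.cast_nonneg j
  have h4 : (0 : ℝ) < 2 ^ ν := by positivity
  rw [abs_div, abs_of_pos h4, div_le_one h4, abs_le]
  push_cast
  have h5 : (σ : ℝ) ≤ 1 := by exact_mod_cast hσ
  have h6 : (0 : ℝ) ≤ σ := Nat.cast_nonneg σ
  constructor <;> nlinarith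

private theorem blo_wj {L : ℝ} (hL : 0 ≤ L) : ∑' j : ℕ, wj L j ≠ ⊤ := by
  have h1 : Summable fun j : ℕ => (2 * Real.pi * L) ^ j / (j.factorial : ℝ) :=
    Real.summable_pow_div_factorial _
  have h2 : 0 ≤ 2 * Real.pi * L := by positivity
  have h3 : ENNReal.ofReal (∑' j : ℕ, (2 * Real.pi * L) ^ j / (j.factorial : ℝ)) =
      ∑' j : ℕ, wj L j := ENNReal.ofReal_tsum_of_nonneg (fun j => by positivity) h1
  rw [← h3]
  exact ENNReal.ofReal_ne_top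

private theorem blo_P {l : ℕ} (hl : 1 ≤ l) : 2 ≤ P l := by
  unfold P
  have h : (1 : ℝ) ≤ l := by exact_mod_cast hl
  nlinarith

/-- all cells together, for one term of the Taylor expansion -/
private theorem blo_cells (l : ℕ) (hl : 1 ≤ l) {B : ℝ} (hB : 1 ≤ B) {ε : ℝ} (hε : 0 < ε) :
    ∃ K : ℝ≥0∞, K ≠ ⊤ ∧ ∀ (ν σ : ℕ) (a : ℤ → ℂ) (Z : Finset (Fin l → ℤ)) (u : (Fin l → ℤ) → ℝ),
      σ ≤ 1 → (∀ n : ℤ, 2 * |n| < 2 ^ ν → a n = 0) →
      (∀ z ∈ Z, ∀ q, |(z q : ℝ)| ≤ B * 2 ^ (ν * (q.val + 1))) →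
      ∑ z ∈ Z, ∫⁻ x, ‖FS (l + 1) (arc σ ν ν 0) a (Fin.cons (u z) x)‖ₑ ^ P l *
          wt l (P l) ν (fun q => z q) x ≤
        K * 2 ^ (ε * ν) * (∑ n ∈ arc σ ν ν 0, ‖a n‖ₑ ^ 2) ^ (P l / 2) := by
  have hp := blo_P hl
  have hp0 : 0 < P l := by linarith
  obtain ⟨K1, hK1, h1⟩ := cell_dec l hl (ε := ε / (2 * P l)) (by positivity)
  obtain ⟨K2, hK2, h2⟩ := arc_sum l hl hB (ε := ε / 2) (by positivity)
  refine ⟨K1 ^ P l * K2, ENNReal.mul_ne_top (ENNReal.rpow_ne_top_of_nonneg hp0.le hK1) hK2, ?_⟩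
  intro ν σ a Z u hσ ha hZ
  have hm := blo_mink hp (range (2 ^ (ν / l))) Z (fun i z =>
    ∫⁻ x, ‖FS (l + 1) (arc σ ν (ν - ν / l) i) a (Fin.cons (u z) x)‖ₑ ^ P l *
      wt l (P l) ν (fun q => z q) x)
  have hstep : ∑ i ∈ range (2 ^ (ν / l)), (∑ z ∈ Z,
      ∫⁻ x, ‖FS (l + 1) (arc σ ν (ν - ν / l) i) a (Fin.cons (u z) x)‖ₑ ^ P l *
        wt l (P l) ν (fun q => z q) x) ^ (2 / P l) ≤
      (K2 * 2 ^ (ε / 2 * ν)) ^ (2 / P l) * ∑ n ∈ arc σ ν ν 0, ‖a n‖ₑ ^ 2 := by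
    rw [← blo_arcs l σ ν, Finset.mul_sum]
    refine Finset.sum_le_sum fun i hi => ?_
    have h3 := h2 ν σ i a Z u hσ (Finset.mem_range.1 hi) ha hZ
    refine (ENNReal.rpow_le_rpow h3 (by positivity)).trans (le_of_eq ?_)
    rw [ENNReal.mul_rpow_of_nonneg _ _ (by positivity), ← ENNReal.rpow_mul]
    have e : P l / 2 * (2 / P l) = 1 := by field_simp
    rw [e, ENNReal.rpow_one]
  calc ∑ z ∈ Z, ∫⁻ x, ‖FS (l + 1) (arc σ ν ν 0) a (Fin.cons (u z) x)‖ₑ ^ P l *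
          wt l (P l) ν (fun q => z q) x
      ≤ ∑ z ∈ Z, (K1 * 2 ^ (ε / (2 * P l) * ν)) ^ P l * (∑ i ∈ range (2 ^ (ν / l)),
          (∫⁻ x, ‖FS (l + 1) (arc σ ν (ν - ν / l) i) a (Fin.cons (u z) x)‖ₑ ^ P l *
            wt l (P l) ν (fun q => z q) x) ^ (2 / P l)) ^ (P l / 2) :=
        Finset.sum_le_sum fun z _ => h1 ν σ a (u z) (fun q => z q) hσ ha
    _ ≤ (K1 * 2 ^ (ε / (2 * P l) * ν)) ^ P l * (∑ i ∈ range (2 ^ (ν / l)), (∑ z ∈ Z,
          ∫⁻ x, ‖FS (l + 1) (arc σ ν (ν - ν / l) i) a (Fin.cons (u z) x)‖ₑ ^ P l *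
            wt l (P l) ν (fun q => z q) x) ^ (2 / P l)) ^ (P l / 2) := by
        rw [← Finset.mul_sum]
        exact mul_le_mul_right hm _
    _ ≤ (K1 * 2 ^ (ε / (2 * P l) * ν)) ^ P l * ((K2 * 2 ^ (ε / 2 * ν)) ^ (2 / P l) *
          ∑ n ∈ arc σ ν ν 0, ‖a n‖ₑ ^ 2) ^ (P l / 2) :=
        mul_le_mul_right (ENNReal.rpow_le_rpow hstep (by positivity)) _
    _ = K1 ^ P l * K2 * 2 ^ (ε * ν) * (∑ n ∈ arc σ ν ν 0, ‖a n‖ₑ ^ 2) ^ (P l / 2) := by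
        rw [ENNReal.mul_rpow_of_nonneg _ _ (by positivity : (0 : ℝ) ≤ P l / 2), ← ENNReal.rpow_mul,
          ENNReal.mul_rpow_of_nonneg _ _ hp0.le, ← ENNReal.rpow_mul]
        have e1 : 2 / P l * (P l / 2) = 1 := by field_simp
        have e2 : ε / (2 * P l) * ν * P l = ε / 2 * ν := by field_simp
        have e3 : ε * ν = ε / 2 * ν + ε / 2 * ν := by ring
        rw [e1, e2, ENNReal.rpow_one, e3, ENNReal.rpow_add _ _ (by norm_num) (by norm_num)]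
        ring

theorem block (l : ℕ) (hl : 1 ≤ l) {φ : E l → ℝ} {S : Set (E l)} (hS : IsCompact S) {L : ℝ}
    (hφ : ∀ x ∈ S, ∀ y ∈ S, |φ x - φ y| ≤ L * dist x y) {ε : ℝ} (hε : 0 < ε) :
    ∃ A : ℝ≥0∞, A ≠ ⊤ ∧ ∀ (ν σ : ℕ) (a : ℤ → ℂ), σ ≤ 1 →
      (∀ n : ℤ, 2 * |n| < 2 ^ ν → a n = 0) →
      ∫⁻ x in S, ‖FS (l + 1) (arc σ ν ν 0) a (Fin.cons (φ x) x)‖ₑ ^ P l ≤
        A * 2 ^ (ε * ν) * (∑ n ∈ arc σ ν ν 0, ‖a n‖ₑ ^ 2) ^ (P l / 2) := by
  classical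
  have hp := blo_P hl
  have hp1 : 1 ≤ P l := by linarith
  have hp0 : 0 < P l := by linarith
  obtain ⟨R, hR⟩ := hS.isBounded.exists_norm_le
  set B : ℝ := max R 0 + 2 with hBdef
  have hB1 : 1 ≤ B := by
    have := le_max_right R 0
    linarith
  have hSB : ∀ x ∈ S, ∀ q, |x q| ≤ B - 1 := by
    intro x hx q
    have h1 : |x q| ≤ ‖x‖ := norm_le_pi_norm x q
    have h2 := hR x hx
    have h3 := le_max_left R 0
    linarith
  set L' : ℝ := max L 0 with hL'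
  have hL0 : 0 ≤ L' := le_max_right _ _
  obtain ⟨K, hK, hcells⟩ := blo_cells l hl hB1 hε
  obtain ⟨C, hC, hcell⟩ := wt_cell l hp1
  refine ⟨C * WL L' ^ (P l - 1) * (∑' j : ℕ, wj L' j) * K, ?_, ?_⟩
  · refine ENNReal.mul_ne_top (ENNReal.mul_ne_top (ENNReal.mul_ne_top hC ?_) (blo_wj hL0)) hK
    exact ENNReal.rpow_ne_top_of_nonneg (by linarith) ENNReal.ofReal_ne_top
  intro ν σ a hσ ha
  -- the cells
  let M : Fin l → ℝ := fun q => 2 ^ (ν * (q.val + 1))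
  have hM1 : ∀ q, 2 ^ ν ≤ M q := fun q =>
    pow_le_pow_right₀ (by norm_num) (Nat.le_mul_of_pos_right ν (Nat.succ_pos _))
  have hν1 : (1 : ℝ) ≤ 2 ^ ν := one_le_pow₀ (by norm_num)
  have hM0 : ∀ q, 0 < M q := fun q => lt_of_lt_of_le (by positivity) (hM1 q)
  let zf : E l → (Fin l → ℤ) := fun x q => ⌊M q * x q⌋
  have hzf : ∀ x ∈ S, ∀ q, |((zf x q : ℤ) : ℝ)| ≤ B * M q := by
    intro x hx q
    have h1 := Int.floor_le (M q * x q)
    have h2 := Int.lt_floor_add_one (M q * x q)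
    have h3 := abs_le.1 (hSB x hx q)
    have h4 := hM1 q
    have h5 := hM0 q
    have h6 : M q * x q ≤ M q * (B - 1) := mul_le_mul_of_nonneg_left h3.2 h5.le
    have h7 : M q * (-(B - 1)) ≤ M q * x q := mul_le_mul_of_nonneg_left h3.1 h5.le
    have h8 : ((zf x q : ℤ) : ℝ) ≤ M q * x q := h1
    have h9 : M q * x q < ((zf x q : ℤ) : ℝ) + 1 := h2
    rw [abs_le]
    constructor <;> nlinarith
  let Z : Finset (Fin l → ℤ) := (Fintype.piFinset fun q : Fin l =>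
    Finset.Icc (-⌈B * M q⌉) ⌈B * M q⌉).filter fun z => ∃ x ∈ S, zf x = z
  have hZmem : ∀ x ∈ S, zf x ∈ Z := by
    intro x hx
    refine Finset.mem_filter.2 ⟨Fintype.mem_piFinset.2 fun q => Finset.mem_Icc.2 ?_, x, hx, rfl⟩
    have h1 := abs_le.1 (hzf x hx q)
    have h2 := Int.le_ceil (B * M q)
    constructor
    · have h3 : ((-⌈B * M q⌉ : ℤ) : ℝ) ≤ ((zf x q : ℤ) : ℝ) := by
        push_cast
        linarith
      exact_mod_cast h3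
    · have h3 : ((zf x q : ℤ) : ℝ) ≤ ((⌈B * M q⌉ : ℤ) : ℝ) := by linarith
      exact_mod_cast h3
  have hZ : ∀ z ∈ Z, ∀ q, |(z q : ℝ)| ≤ B * 2 ^ (ν * (q.val + 1)) := by
    intro z hz q
    obtain ⟨x, hx, rfl⟩ := (Finset.mem_filter.1 hz).2
    exact hzf x hx q
  -- representatives
  let u : (Fin l → ℤ) → ℝ := fun z => if h : ∃ x ∈ S, zf x = z then φ h.choose else 0
  have hu : ∀ x ∈ S, |2 ^ ν * (φ x - u (zf x))| ≤ L' := by
    intro x hx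
    have hex : ∃ x' ∈ S, zf x' = zf x := ⟨x, hx, rfl⟩
    have e1 : u (zf x) = φ hex.choose := dif_pos hex
    obtain ⟨hy, hzy⟩ := hex.choose_spec
    set y := hex.choose with hydef
    rw [e1]
    have hd : dist x y ≤ 1 / 2 ^ ν := by
      rw [dist_pi_le_iff (by positivity)]
      intro q
      have h1 : ⌊M q * x q⌋ = ⌊M q * y q⌋ := (congrFun hzy q).symm
      have h2 : |M q * x q - M q * y q| < 1 := Int.abs_sub_lt_one_of_floor_eq_floor h1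
      rw [← mul_sub, abs_mul, abs_of_pos (hM0 q)] at h2
      rw [Real.dist_eq, le_div_iff₀ (by positivity)]
      have h3 : |x q - y q| * 2 ^ ν ≤ |x q - y q| * M q :=
        mul_le_mul_of_nonneg_left (hM1 q) (abs_nonneg _)
      linarith [mul_comm (M q) |x q - y q|]
    have h1 : |φ x - φ y| ≤ L' * (1 / 2 ^ ν) := by
      calc |φ x - φ y| ≤ L * dist x y := hφ x hx y hy
        _ ≤ L' * dist x y := mul_le_mul_of_nonneg_right (le_max_left _ _) dist_nonneg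
        _ ≤ L' * (1 / 2 ^ ν) := mul_le_mul_of_nonneg_left hd hL0
    rw [abs_mul, abs_of_pos (by positivity : (0 : ℝ) < 2 ^ ν)]
    calc 2 ^ ν * |φ x - φ y| ≤ 2 ^ ν * (L' * (1 / 2 ^ ν)) :=
          mul_le_mul_of_nonneg_left h1 (by positivity)
      _ = L' := by field_simp
  -- the Taylor coefficients
  let aj : ℕ → ℤ → ℂ := fun j n => a n * (((n : ℝ) / 2 ^ ν : ℝ) : ℂ) ^ j
  have haj : ∀ j, ∀ n : ℤ, 2 * |n| < 2 ^ ν → aj j n = 0 := by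
    intro j n hn
    change a n * _ = 0
    rw [ha n hn, zero_mul]
  have haj2 : ∀ j, ∑ n ∈ arc σ ν ν 0, ‖aj j n‖ₑ ^ 2 ≤ ∑ n ∈ arc σ ν ν 0, ‖a n‖ₑ ^ 2 := by
    intro j
    refine Finset.sum_le_sum fun n hn => ?_
    have h1 : ‖aj j n‖ ≤ ‖a n‖ := by
      change ‖a n * (((n : ℝ) / 2 ^ ν : ℝ) : ℂ) ^ j‖ ≤ ‖a n‖
      rw [norm_mul, norm_pow, Complex.norm_real, Real.norm_eq_abs]
      exact mul_le_of_le_one_right (norm_nonneg _) (pow_le_one₀ (abs_nonneg _) (blo_le hσ hn))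
    have h2 : ‖aj j n‖ₑ ≤ ‖a n‖ₑ := by
      rw [← ofReal_norm_eq_enorm, ← ofReal_norm_eq_enorm]
      exact ENNReal.ofReal_le_ofReal h1
    exact pow_le_pow_left' h2 2
  let F : ℕ → (Fin l → ℤ) → E l → ℝ≥0∞ := fun j z x =>
    ‖FS (l + 1) (arc σ ν ν 0) (aj j) (Fin.cons (u z) x)‖ₑ ^ P l * wt l (P l) ν (fun q => z q) x
  have hFm : ∀ j z, Measurable (F j z) := by
    intro j z
    refine Measurable.mul ?_ (wt_meas l (P l) ν _)
    refine Measurable.pow_const ?_ _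
    refine Measurable.enorm ?_
    refine ((FS_cont (l + 1) (arc σ ν ν 0) (aj j)).comp ?_).measurable
    exact Continuous.finCons continuous_const continuous_id
  have hpt : ∀ x ∈ S, ‖FS (l + 1) (arc σ ν ν 0) a (Fin.cons (φ x) x)‖ₑ ^ P l ≤
      C * WL L' ^ (P l - 1) * ∑ z ∈ Z, ∑' j : ℕ, wj L' j * F j z x := by
    intro x hx
    have h1 := blo_tay hp1 ν (arc σ ν ν 0) a (φ x) (u (zf x)) x (hu x hx)
    have h2 : 1 ≤ C * wt l (P l) ν (fun q => (zf x q : ℝ)) x := by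
      apply hcell
      intro q
      have h3 := Int.floor_le (M q * x q)
      have h4 := Int.lt_floor_add_one (M q * x q)
      change |M q * x q - ((⌊M q * x q⌋ : ℤ) : ℝ)| ≤ 1
      rw [abs_le]
      constructor <;> linarith
    have h3 : ∑' j : ℕ, wj L' j * F j (zf x) x ≤ ∑ z ∈ Z, ∑' j : ℕ, wj L' j * F j z x :=
      Finset.single_le_sum (f := fun z => ∑' j : ℕ, wj L' j * F j z x) (fun _ _ => zero_le)
        (hZmem x hx)
    have h4 : ∑' j : ℕ, wj L' j * F j (zf x) x = (∑' j : ℕ, wj L' j *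
        ‖FS (l + 1) (arc σ ν ν 0) (aj j) (Fin.cons (u (zf x)) x)‖ₑ ^ P l) *
          wt l (P l) ν (fun q => (zf x q : ℝ)) x := by
      rw [← ENNReal.tsum_mul_right]
      refine tsum_congr fun j => ?_
      change wj L' j * (_ * _) = _
      rw [mul_assoc]
    calc ‖FS (l + 1) (arc σ ν ν 0) a (Fin.cons (φ x) x)‖ₑ ^ P l
        ≤ WL L' ^ (P l - 1) * ∑' j : ℕ, wj L' j *
            ‖FS (l + 1) (arc σ ν ν 0) (aj j) (Fin.cons (u (zf x)) x)‖ₑ ^ P l := h1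
      _ ≤ (WL L' ^ (P l - 1) * ∑' j : ℕ, wj L' j *
            ‖FS (l + 1) (arc σ ν ν 0) (aj j) (Fin.cons (u (zf x)) x)‖ₑ ^ P l) *
            (C * wt l (P l) ν (fun q => (zf x q : ℝ)) x) := le_mul_of_one_le_right' h2
      _ = C * WL L' ^ (P l - 1) * ∑' j : ℕ, wj L' j * F j (zf x) x := by
          rw [h4]
          ring
      _ ≤ _ := mul_le_mul_right h3 _
  calc ∫⁻ x in S, ‖FS (l + 1) (arc σ ν ν 0) a (Fin.cons (φ x) x)‖ₑ ^ P l
      ≤ ∫⁻ x in S, C * WL L' ^ (P l - 1) * ∑ z ∈ Z, ∑' j : ℕ, wj L' j * F j z x :=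
        setLIntegral_mono' hS.measurableSet hpt
    _ ≤ ∫⁻ x, C * WL L' ^ (P l - 1) * ∑ z ∈ Z, ∑' j : ℕ, wj L' j * F j z x :=
        setLIntegral_le_lintegral _ _
    _ = C * WL L' ^ (P l - 1) * ∑' j : ℕ, wj L' j * ∑ z ∈ Z, ∫⁻ x, F j z x := by
        have hm1 : ∀ z, Measurable fun x => ∑' j : ℕ, wj L' j * F j z x := fun z =>
          Measurable.ennreal_tsum fun j => (hFm j z).const_mul _
        rw [lintegral_const_mul _ (Finset.measurable_sum _ fun z _ => hm1 z),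
          lintegral_finsetSum _ fun z _ => hm1 z]
        congr 1
        have e1 : ∀ z ∈ Z, ∫⁻ x, ∑' j : ℕ, wj L' j * F j z x = ∑' j : ℕ, wj L' j * ∫⁻ x, F j z x := by
          intro z _
          rw [lintegral_tsum fun j => ((hFm j z).const_mul _).aemeasurable]
          refine tsum_congr fun j => ?_
          rw [lintegral_const_mul _ (hFm j z)]
        rw [Finset.sum_congr rfl e1, ← Summable.tsum_finsetSum fun _ _ => ENNReal.summable]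
        refine tsum_congr fun j => ?_
        rw [Finset.mul_sum]
    _ ≤ C * WL L' ^ (P l - 1) * ∑' j : ℕ, wj L' j *
          (K * 2 ^ (ε * ν) * (∑ n ∈ arc σ ν ν 0, ‖a n‖ₑ ^ 2) ^ (P l / 2)) := by
        refine mul_le_mul_right ?_ _
        refine ENNReal.tsum_le_tsum fun j => mul_le_mul_right ?_ _
        refine (hcells ν σ (aj j) Z u hσ (haj j) hZ).trans ?_
        exact mul_le_mul_right (ENNReal.rpow_le_rpow (haj2 j) (by positivity)) _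
    _ = _ := by
        rw [ENNReal.tsum_mul_right]
        ring

end Pool.Agent.Dcp
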