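import Pool.Agent.Dcp.Blk

/-!
# Dcp, module Grp: trivial decoupling and change of the constant of the boxes

`pow_sum`: `(∑_{j ∈ s} x_j)^p ≤ (card s)^p ∑ x_j^p` for `p > 0` (`∑ x_j ≤ card · max`).
`sum_pow_le`: `∑ x_j^(p/2) ≤ (∑ x_j)^(p/2)` for `p ≥ 2`.
`dec_triv`: `‖∑ f_j‖^p ≤ (2^n)^p ∑ ‖f_j‖^p`, and `∑ nI f_j = ∑ (nI f_j ^ (2/p))^(p/2) ≤ S2 ^ (p/2)` (`p = P k ≥ 2`).
`dec_const`: choose `c` with `C k ≤ 2^c`.  Let `Fam k C 0 1 n f`, `c ≤ n`.  The block sums `F i = bs c i f`, `i < 2^(n-c)`, are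
`Fam k 2 0 1 (n-c)`: the base point of `j ∈ bk c i` is `i/2^(n-c) + h` with `0 ≤ h`, `h + 2^(-n) ≤ 2^c 2^(-n)`, so
`UU_grow` and `spec_sum`.  `Dec k 2 (n-c) D` for `F` and the trivial bound in the blocks of length `2^c`:
`nI (F i) ≤ (2^c)^p S2 (bk c i) f ^ (p/2)`, so `nI (∑ f) ≤ D^p (∑ (2^c)^2 S2 (bk c i))^(p/2) = (2^c D)^p S2^(p/2)` (`sum_nest`).
`adm_const`: `c` from `dec_const`; for `n ≥ c` the constant is `2^c K 2^((η+ε)(n-c)) ≤ 2^c K 2^((η+ε) n)`; for `n < c` use `dec_triv`,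
`2^n ≤ 2^c`.  Constant `2^c (K + 1)`.
`adm_top`: `Adm k 1` from `dec_triv`.
-/

set_option autoImplicit false

namespace Pool.Agent.Dcp

open MeasureTheory Finset
open scoped ENNReal

theorem pow_sum {p : ℝ} (hp : 0 < p) (s : Finset ℕ) (x : ℕ → ℝ≥0∞) :
    (∑ j ∈ s, x j) ^ p ≤ (s.card : ℝ≥0∞) ^ p * ∑ j ∈ s, x j ^ p := by
  rcases s.eq_empty_or_nonempty with rfl | hs
  · rw [Finset.sum_empty, ENNReal.zero_rpow_of_pos hp]
    exact zero_le
  · obtain ⟨j0, hj0, hmax⟩ := Finset.exists_max_image s x hs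
    calc (∑ j ∈ s, x j) ^ p ≤ ((s.card : ℝ≥0∞) * x j0) ^ p := by
          refine ENNReal.rpow_le_rpow ?_ hp.le
          rw [← nsmul_eq_mul]
          exact Finset.sum_le_card_nsmul s x (x j0) hmax
      _ = (s.card : ℝ≥0∞) ^ p * x j0 ^ p := ENNReal.mul_rpow_of_nonneg _ _ hp.le
      _ ≤ (s.card : ℝ≥0∞) ^ p * ∑ j ∈ s, x j ^ p := by
          refine mul_le_mul_right ?_ _
          exact Finset.single_le_sum (f := fun j => x j ^ p) (fun i _ => zero_le) hj0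

theorem sum_pow_le {q : ℝ} (hq : 1 ≤ q) (s : Finset ℕ) (x : ℕ → ℝ≥0∞) :
    ∑ j ∈ s, x j ^ q ≤ (∑ j ∈ s, x j) ^ q := by
  classical
  induction s using Finset.induction_on with
  | empty =>
    rw [Finset.sum_empty, Finset.sum_empty, ENNReal.zero_rpow_of_pos (by linarith)]
  | insert a s ha ih =>
    rw [Finset.sum_insert ha, Finset.sum_insert ha]
    exact (add_le_add le_rfl ih).trans (ENNReal.add_rpow_le_rpow_add _ _ hq)

private theorem grp_P {k : ℕ} (hk : 1 ≤ k) : 2 ≤ P k := by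
  have h1 : (1 : ℝ) ≤ (k : ℝ) := by exact_mod_cast hk
  unfold P
  nlinarith

private theorem grp_sum_nI {k : ℕ} {p : ℝ} (hp : 2 ≤ p) (s : Finset ℕ) (f : ℕ → E k → ℂ) :
    ∑ j ∈ s, nI p (f j) ≤ S2 p s f ^ (p / 2) := by
  have hp0 : p ≠ 0 := by linarith
  have h1 : ∀ j ∈ s, nI p (f j) = (nI p (f j) ^ (2 / p)) ^ (p / 2) := by
    intro j _
    rw [← ENNReal.rpow_mul]
    have h2 : 2 / p * (p / 2) = 1 := by field_simp
    rw [h2, ENNReal.rpow_one]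
  rw [Finset.sum_congr rfl h1]
  exact sum_pow_le (by linarith) s _

private theorem grp_block {k : ℕ} {p : ℝ} (hp : 2 ≤ p) (s : Finset ℕ) (f : ℕ → E k → ℂ)
    (hf : ∀ j ∈ s, Continuous (f j)) :
    nI p (fun x => ∑ j ∈ s, f j x) ≤ (s.card : ℝ≥0∞) ^ p * S2 p s f ^ (p / 2) := by
  have hp0 : 0 < p := by linarith
  have h1 : nI p (fun x => ∑ j ∈ s, f j x) ≤
      ∫⁻ x, (s.card : ℝ≥0∞) ^ p * ∑ j ∈ s, ‖f j x‖ₑ ^ p := by
    unfold nI
    refine lintegral_mono fun x => ?_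
    refine le_trans ?_ (pow_sum hp0 s (fun j => ‖f j x‖ₑ))
    exact ENNReal.rpow_le_rpow (enorm_sum_le _ _) hp0.le
  refine h1.trans ?_
  have hmeas : ∀ j ∈ s, Measurable (fun x => ‖f j x‖ₑ ^ p) := fun j hj =>
    ((hf j hj).measurable.enorm).pow_const p
  rw [lintegral_const_mul' _ _ (ENNReal.rpow_ne_top_of_nonneg hp0.le (ENNReal.natCast_ne_top _)),
    lintegral_finsetSum' s (fun j hj => (hmeas j hj).aemeasurable)]
  exact mul_le_mul_right (grp_sum_nI hp s f) _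

theorem dec_triv {k : ℕ} (hk : 1 ≤ k) (C : ℝ) (n : ℕ) : Dec k C n (2 ^ n) := by
  intro f hf
  have h := grp_block (grp_P hk) (range (2 ^ n)) f
    (fun j hj => spec_cont (hf j (Finset.mem_range.1 hj)))
  rw [Finset.card_range, Nat.cast_pow, Nat.cast_ofNat] at h
  exact h

theorem dec_mono {k : ℕ} {C : ℝ} {n : ℕ} {D D' : ℝ≥0∞} (h : Dec k C n D) (hD : D ≤ D') :
    Dec k C n D' := by
  intro f hf
  refine (h f hf).trans ?_
  refine mul_le_mul_left ?_ _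
  refine ENNReal.rpow_le_rpow hD ?_
  unfold P
  positivity

private theorem grp_fam {k : ℕ} {C : ℝ} (hC : 1 ≤ C) {c : ℕ} (hc : C * k ≤ 2 ^ c) {n : ℕ}
    (hn : c ≤ n) {f : ℕ → E k → ℂ} (hf : Fam k C 0 1 n f) :
    Fam k 2 0 1 (n - c) (fun i => bs c i f) := by
  intro i hi
  have h2n : (2 : ℝ) ^ n = 2 ^ (n - c) * 2 ^ c := by
    rw [← pow_add, Nat.sub_add_cancel hn]
  have hp1 : (0 : ℝ) < 2 ^ (n - c) := by positivity
  have hp2 : (0 : ℝ) < 2 ^ c := by positivity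
  have hp3 : (0 : ℝ) < 2 ^ n := by positivity
  refine spec_sum (bk c i) f fun j hj => ?_
  rw [mem_bk] at hj
  have hjn : j < 2 ^ n := by
    have h1 : (i + 1) * 2 ^ c ≤ 2 ^ (n - c) * 2 ^ c := Nat.mul_le_mul_right _ hi
    rw [← pow_add, Nat.sub_add_cancel hn] at h1
    exact hj.2.trans_le h1
  have h3 := hf j hjn
  have hj1 : (i : ℝ) * 2 ^ c ≤ (j : ℝ) := by exact_mod_cast hj.1
  have hj2 : (j : ℝ) + 1 ≤ ((i : ℝ) + 1) * 2 ^ c := by exact_mod_cast hj.2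
  set δ : ℝ := 1 / 2 ^ n with hδ
  have hδ0 : 0 < δ := by positivity
  set h : ℝ := ((j : ℝ) - (i : ℝ) * 2 ^ c) * δ with hh
  have hh0 : 0 ≤ h := mul_nonneg (by linarith) hδ0.le
  have hh1 : h + δ ≤ 2 ^ c * δ := by
    have h4 : ((j : ℝ) - (i : ℝ) * 2 ^ c) * δ + δ = ((j : ℝ) + 1 - (i : ℝ) * 2 ^ c) * δ := by ring
    rw [hh, h4]
    exact mul_le_mul_of_nonneg_right (by linarith) hδ0.le
  have e1 : (0 : ℝ) + 1 * ((j : ℝ) / 2 ^ n) = (0 + 1 * ((i : ℝ) / 2 ^ (n - c))) + h := by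
    rw [hh, hδ, h2n]
    field_simp
    ring
  have e2 : (1 : ℝ) / 2 ^ (n - c) = 2 ^ c * δ := by
    rw [hδ, h2n]
    field_simp
  rw [e1] at h3
  rw [e2]
  exact spec_mono h3 (UU_grow k hC hc hh0 hδ0.le hh1)

theorem dec_const {k : ℕ} (hk : 1 ≤ k) {C : ℝ} (hC : 1 ≤ C) : ∃ c : ℕ, ∀ (n : ℕ) (D : ℝ≥0∞),
    c ≤ n → Dec k 2 (n - c) D → Dec k C n (2 ^ c * D) := by
  obtain ⟨c, hc⟩ := pow_unbounded_of_one_lt (C * k) (one_lt_two)
  refine ⟨c, fun n D hn hD f hf => ?_⟩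
  have hP : 2 ≤ P k := grp_P hk
  have hP0 : 0 < P k := by linarith
  have hcont : ∀ j < 2 ^ n, Continuous (f j) := fun j hj => spec_cont (hf j hj)
  have hF := hD (fun i => bs c i f) (grp_fam hC hc.le hn hf)
  have e1 : ∀ x : E k, ∑ i ∈ range (2 ^ (n - c)), bs c i f x = ∑ j ∈ range (2 ^ n), f j x := by
    intro x
    have h := sum_nest (fun j => f j x) c (n - c) 0
    rw [Nat.add_sub_cancel' hn, bk_zero, bk_zero] at h
    exact h.symm
  simp only [e1] at hF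
  refine hF.trans ?_
  have h1 : ∀ i ∈ range (2 ^ (n - c)), nI (P k) (bs c i f) ^ (2 / P k) ≤
      ((2 : ℝ≥0∞) ^ c) ^ (2 : ℝ) * S2 (P k) (bk c i) f := by
    intro i hi
    rw [Finset.mem_range] at hi
    have h2 : nI (P k) (bs c i f) ≤ ((2 : ℝ≥0∞) ^ c) ^ P k * S2 (P k) (bk c i) f ^ (P k / 2) := by
      have h3 := grp_block hP (bk c i) f (fun j hj => hcont j (by
        rw [mem_bk] at hj
        have h4 : (i + 1) * 2 ^ c ≤ 2 ^ (n - c) * 2 ^ c := Nat.mul_le_mul_right _ hi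
        rw [← pow_add, Nat.sub_add_cancel hn] at h4
        exact hj.2.trans_le h4))
      rw [bk_card, Nat.cast_pow, Nat.cast_ofNat] at h3
      exact h3
    have h5 := ENNReal.rpow_le_rpow h2 (z := 2 / P k) (by positivity)
    rw [ENNReal.mul_rpow_of_nonneg _ _ (by positivity), ← ENNReal.rpow_mul, ← ENNReal.rpow_mul]
      at h5
    have e3 : P k * (2 / P k) = 2 := by field_simp
    have e4 : P k / 2 * (2 / P k) = 1 := by field_simp
    rw [e3, e4, ENNReal.rpow_one] at h5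
    exact h5
  have h6 : S2 (P k) (range (2 ^ (n - c))) (fun i => bs c i f) ≤
      ((2 : ℝ≥0∞) ^ c) ^ (2 : ℝ) * S2 (P k) (range (2 ^ n)) f := by
    unfold S2
    refine (Finset.sum_le_sum h1).trans ?_
    rw [← Finset.mul_sum]
    refine mul_le_mul_right (le_of_eq ?_) _
    have h := sum_nest (fun j => nI (P k) (f j) ^ (2 / P k)) c (n - c) 0
    rw [Nat.add_sub_cancel' hn, bk_zero, bk_zero] at h
    exact h.symm
  have h7 := ENNReal.rpow_le_rpow h6 (z := P k / 2) (by positivity)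
  rw [ENNReal.mul_rpow_of_nonneg _ _ (by positivity), ← ENNReal.rpow_mul] at h7
  have e5 : (2 : ℝ) * (P k / 2) = P k := by ring
  rw [e5] at h7
  refine (mul_le_mul_right h7 _).trans (le_of_eq ?_)
  rw [ENNReal.mul_rpow_of_nonneg _ _ hP0.le]
  ring

theorem adm_const {k : ℕ} (hk : 1 ≤ k) {η : ℝ} (hη : 0 ≤ η) (h : Adm k η) {C : ℝ} (hC : 1 ≤ C)
    {ε : ℝ} (hε : 0 < ε) :
    ∃ K : ℝ≥0∞, K ≠ ⊤ ∧ ∀ n : ℕ, Dec k C n (K * 2 ^ ((η + ε) * n)) := by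
  obtain ⟨c, hc⟩ := dec_const hk hC
  obtain ⟨K, hK, hKn⟩ := h ε hε
  refine ⟨2 ^ c * (K + 1), ?_, fun n => ?_⟩
  · exact ENNReal.mul_ne_top (ENNReal.pow_ne_top ENNReal.ofNat_ne_top)
      (ENNReal.add_ne_top.2 ⟨hK, ENNReal.one_ne_top⟩)
  · by_cases hn : c ≤ n
    · refine dec_mono (hc n _ hn (hKn (n - c))) ?_
      rw [mul_assoc]
      refine mul_le_mul_right ?_ _
      refine mul_le_mul' le_self_add ?_
      refine ENNReal.rpow_le_rpow_of_exponent_le (by norm_num) ?_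
      refine mul_le_mul_of_nonneg_left ?_ (by linarith)
      exact_mod_cast Nat.sub_le n c
    · refine dec_mono (dec_triv hk C n) ?_
      have h1 : (2 : ℝ≥0∞) ^ n ≤ 2 ^ c := pow_le_pow_right₀ (by norm_num) (by omega)
      have h2 : (1 : ℝ≥0∞) ≤ 2 ^ ((η + ε) * n) := by
        have h3 : (0 : ℝ) ≤ (η + ε) * n := mul_nonneg (by linarith) (Nat.cast_nonneg n)
        have h4 := ENNReal.rpow_le_rpow_of_exponent_le (x := 2) (by norm_num) h3
        rwa [ENNReal.rpow_zero] at h4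
      calc (2 : ℝ≥0∞) ^ n ≤ 2 ^ c := h1
        _ = 2 ^ c * 1 * 1 := by rw [mul_one, mul_one]
        _ ≤ 2 ^ c * (K + 1) * 2 ^ ((η + ε) * n) :=
            mul_le_mul' (mul_le_mul' le_rfl le_add_self) h2

theorem adm_top {k : ℕ} (hk : 1 ≤ k) : Adm k 1 := by
  intro ε hε
  refine ⟨1, ENNReal.one_ne_top, fun n => dec_mono (dec_triv hk 2 n) ?_⟩
  rw [one_mul, ← ENNReal.rpow_natCast]
  refine ENNReal.rpow_le_rpow_of_exponent_le (by norm_num) ?_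
  have h1 : (0 : ℝ) ≤ (n : ℝ) := Nat.cast_nonneg n
  nlinarith

end Pool.Agent.Dcp
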