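import Pool.Agent.Dcp.LNc
import Pool.Agent.Dcp.Grp

/-!
# Dcp, module LN: decoupling for the curve `(s^(r+1), …, s^(r+l))`, `κ ≤ |s| ≤ 1`

`C'` from `ln_cell`, `K₀` from `adm_const hD hC'` with `ε/2`: `Dec l C' n (K₀ 2^((ε/2) n))` for all `n`, `K₀ ≥ 1` (take the maximum).
Choose `A` with `K₀ ≤ 2^((ε/2) A)`, and `a₀` so large that `a - a₂ ≥ A`, `a₂ < a` for `a ≥ a₀`, where `a₂ = ⌈a l/(l+1)⌉`
(`a₂ ≤ a l/(l+1) + 1`, so `a - a₂ ≥ a/(l+1) - 1`; `a₀ = (l+1)(A+2)`).  `K = 2^a₀`.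
Strong induction on `a`.  `a < a₀`: the trivial bound `2^a ≤ K` (`pow_sum`, `sum_pow_le` as in `dec_triv`; continuity is not needed).
`a ≥ a₀`: `l a ≤ (l+1) a₂`, `a₂ ≤ a`.  The block sums `F₂ i = bs (a-a₂) i F`, `i < 2^a₂`, have spectrum in `UG r l κ C (τ + i/2^a₂) (1/2^a₂)`
(`spec_sum`; the definition of `UG` is monotone: if `[t, t+δ] ⊆ [t₂, t₂ + δ₂]`, `δ ≤ δ₂`, then
`UG r l κ C t δ ⊆ UG r l κ C t₂ δ₂`).  Induction hypothesis for `F₂` at `a₂`; in every block `ln_cell` with `n = a - a₂`, `δ₂ = 2^(-a₂)`,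
`t = τ + i/2^a₂` (`δ₂^(l+1) ≤ 2^(-a l)` as `l a ≤ (l+1) a₂`) and `D = K₀ 2^((ε/2)(a-a₂)) ≤ 2^(ε (a-a₂))`.
Together: constant `K 2^(ε a₂) 2^(ε(a-a₂))` (`sum_nest`, exponents as in `dec_const`).
`ln_bk`: apply `ln` to the family which is `F j` on the block and `0` otherwise (`spec_zero`).
-/

set_option autoImplicit false

namespace Pool.Agent.Dcp

open MeasureTheory Finset
open scoped ENNReal

theorem ln_P {l : ℕ} (hl : 1 ≤ l) : 2 ≤ P l := by
  have h : (1 : ℝ) ≤ l := by exact_mod_cast hl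
  unfold P
  nlinarith

theorem ln_triv {l : ℕ} {p : ℝ} (hp : 2 ≤ p) (s : Finset ℕ) (F : ℕ → E l → ℂ)
    (hF : ∀ j ∈ s, Continuous (F j)) :
    nI p (fun x => ∑ j ∈ s, F j x) ≤ (s.card : ℝ≥0∞) ^ p * S2 p s F ^ (p / 2) := by
  have hp0 : 0 < p := by linarith
  have h1 : nI p (fun x => ∑ j ∈ s, F j x) ≤
      ∫⁻ x, (s.card : ℝ≥0∞) ^ p * ∑ j ∈ s, ‖F j x‖ₑ ^ p := by
    unfold nI
    refine lintegral_mono (fun x => ?_)
    refine le_trans ?_ (pow_sum hp0 s (fun j => ‖F j x‖ₑ))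
    exact ENNReal.rpow_le_rpow (enorm_sum_le _ _) hp0.le
  refine h1.trans ?_
  have hm : ∀ j ∈ s, Measurable (fun x => ‖F j x‖ₑ ^ p) := fun j hj =>
    ((hF j hj).measurable.enorm).pow_const p
  have h2 : (∫⁻ x, (s.card : ℝ≥0∞) ^ p * ∑ j ∈ s, ‖F j x‖ₑ ^ p) =
      (s.card : ℝ≥0∞) ^ p * ∑ j ∈ s, nI p (F j) := by
    rw [lintegral_const_mul _ (Finset.measurable_sum s hm), lintegral_finsetSum s hm]
    rfl
  rw [h2]
  gcongr
  unfold S2
  refine le_trans (le_of_eq ?_) (sum_pow_le (by linarith : (1 : ℝ) ≤ p / 2) s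
    (fun j => nI p (F j) ^ (2 / p)))
  refine Finset.sum_congr rfl (fun j _ => ?_)
  rw [← ENNReal.rpow_mul, show 2 / p * (p / 2) = 1 by field_simp, ENNReal.rpow_one]

theorem ug_mono {r l : ℕ} {κ C t δ t₂ δ₂ : ℝ} (hC : 0 ≤ C) (hδ : 0 ≤ δ) (h1 : t₂ ≤ t)
    (h2 : t + δ ≤ t₂ + δ₂) : UG r l κ C t δ ⊆ UG r l κ C t₂ δ₂ := by
  have hδ₂ : δ ≤ δ₂ := by linarith
  rintro ξ ⟨s, c, e, hs1, hs2, hs3, hs4, hc, he, hξ⟩
  refine ⟨s, c, e, by linarith, by linarith, hs3, hs4, fun i => (hc i).trans ?_,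
    fun i => (he i).trans ?_, hξ⟩
  · exact mul_le_mul_of_nonneg_left (pow_le_pow_left₀ hδ hδ₂ _) hC
  · exact mul_le_mul_of_nonneg_left (pow_le_pow_left₀ hδ hδ₂ _) hC

theorem ln_two_pos : (0 : ℝ≥0∞) < 2 := by norm_num

theorem ln_rpow_mono {x y : ℝ} (h : x ≤ y) : (2 : ℝ≥0∞) ^ x ≤ 2 ^ y :=
  ENNReal.rpow_le_rpow_of_exponent_le one_le_two h

theorem ln_exA (K : ℝ≥0∞) (hK : K ≠ ⊤) {ε : ℝ} (hε : 0 < ε) : ∃ A : ℕ, K ≤ 2 ^ (ε * (A : ℝ)) := by
  obtain ⟨n, hn⟩ := ENNReal.exists_nat_gt hK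
  obtain ⟨A, hA⟩ := exists_nat_ge ((n : ℝ) / ε)
  refine ⟨A, hn.le.trans ?_⟩
  have h1 : (n : ℝ) ≤ ε * A := by
    rw [div_le_iff₀ hε] at hA
    linarith
  have h2 : ((n : ℕ) : ℝ≥0∞) ≤ 2 ^ (n : ℝ) := by
    rw [ENNReal.rpow_natCast]
    exact_mod_cast (Nat.lt_two_pow_self (n := n)).le
  exact h2.trans (ln_rpow_mono h1)

theorem ln (r l : ℕ) (hl : 1 ≤ l) (hD : Adm l 0) {κ : ℝ} (hκ : 0 < κ) {C : ℝ} (hC : 1 ≤ C)
    {ε : ℝ} (hε : 0 < ε) : ∃ K : ℝ≥0∞, K ≠ ⊤ ∧ ∀ (a : ℕ) (τ : ℝ) (F : ℕ → E l → ℂ),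
      (∀ j : ℕ, j < 2 ^ a → Spec (UG r l κ C (τ + (j : ℝ) / 2 ^ a) (1 / 2 ^ a)) (F j)) →
        nI (P l) (fun x => ∑ j ∈ range (2 ^ a), F j x) ≤
          (K * 2 ^ (ε * a)) ^ P l * S2 (P l) (range (2 ^ a)) F ^ (P l / 2) := by
  obtain ⟨C', hC', hcell⟩ := ln_cell r l hl hκ hC
  obtain ⟨K₁, hK₁, hdec⟩ := adm_const hl le_rfl hD hC' (half_pos hε)
  obtain ⟨A, hA⟩ := ln_exA K₁ hK₁ (half_pos hε)
  have hp2 : 2 ≤ P l := ln_P hl
  have hp0 : 0 < P l := by linarith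
  set a₀ : ℕ := (l + 1) * (A + 2) with ha₀
  refine ⟨2 ^ a₀, ENNReal.pow_ne_top ENNReal.ofNat_ne_top, ?_⟩
  intro a
  induction a using Nat.strong_induction_on with
  | _ a ih =>
  intro τ F hF
  by_cases ha : a < a₀
  · have hcont : ∀ j ∈ range (2 ^ a), Continuous (F j) := fun j hj =>
      spec_cont (hF j (mem_range.1 hj))
    refine (ln_triv hp2 (range (2 ^ a)) F hcont).trans ?_
    gcongr
    rw [card_range]
    calc (((2 ^ a : ℕ) : ℝ≥0∞)) = 2 ^ a := by push_cast; rfl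
      _ ≤ 2 ^ a₀ := pow_le_pow_right₀ one_le_two ha.le
      _ = 2 ^ a₀ * 1 := (mul_one _).symm
      _ ≤ 2 ^ a₀ * 2 ^ (ε * a) := by
        gcongr
        calc (1 : ℝ≥0∞) = 2 ^ (0 : ℝ) := (ENNReal.rpow_zero).symm
          _ ≤ 2 ^ (ε * (a : ℝ)) := ln_rpow_mono (by positivity)
  · rw [not_lt] at ha
    obtain ⟨a₂, h1, h2⟩ : ∃ a₂ : ℕ, l * a ≤ (l + 1) * a₂ ∧ (l + 1) * a₂ ≤ l * a + l := by
      refine ⟨(l * a + l) / (l + 1), ?_, ?_⟩
      · have h := Nat.div_add_mod (l * a + l) (l + 1)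
        have h' : (l * a + l) % (l + 1) < l + 1 := Nat.mod_lt (l * a + l) (Nat.succ_pos l)
        omega
      · exact Nat.mul_div_le _ _
    have hA2 : A + 1 + a₂ ≤ a := by
      have h3 : (l + 1) * (A + 1 + a₂) ≤ (l + 1) * a := by
        have e1 : (l + 1) * (A + 1 + a₂) = (l + 1) * (A + 1) + (l + 1) * a₂ := by ring
        have e2 : (l + 1) * a = l * a + a := by ring
        have e3 : (l + 1) * (A + 2) = (l + 1) * (A + 1) + (l + 1) := by ring
        rw [ha₀] at ha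
        omega
      exact Nat.le_of_mul_le_mul_left h3 (Nat.succ_pos l)
    have ha₂ : a₂ ≤ a := by omega
    have hlt : a₂ < a := by omega
    set n : ℕ := a - a₂ with hn
    have han : a = n + a₂ := by omega
    have hpow : (2 : ℝ) ^ a = 2 ^ a₂ * 2 ^ n := by rw [han, pow_add]; ring
    have h2a : (0 : ℝ) < 2 ^ a := by positivity
    have h2n : (0 : ℝ) < 2 ^ n := by positivity
    have h2a₂ : (0 : ℝ) < 2 ^ a₂ := by positivity
    -- spectrum of the block sums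
    have hF2 : ∀ i : ℕ, i < 2 ^ a₂ →
        Spec (UG r l κ C (τ + (i : ℝ) / 2 ^ a₂) (1 / 2 ^ a₂)) (bs n i F) := by
      intro i hi
      refine spec_sum (bk n i) F (fun j hj => ?_)
      have hj' : j < 2 ^ a := bk_lt ha₂ hi hj
      refine spec_mono (hF j hj') (ug_mono (by linarith) (by positivity) ?_ ?_)
      · obtain ⟨hj1, _⟩ := mem_bk.1 hj
        have hj1' : (i : ℝ) * 2 ^ n ≤ j := by exact_mod_cast hj1
        have : (i : ℝ) / 2 ^ a₂ ≤ (j : ℝ) / 2 ^ a := by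
          rw [div_le_div_iff₀ h2a₂ h2a, hpow]
          nlinarith
        linarith
      · obtain ⟨_, hj2⟩ := mem_bk.1 hj
        have hj2' : (j : ℝ) + 1 ≤ ((i : ℝ) + 1) * 2 ^ n := by exact_mod_cast hj2
        have : ((j : ℝ) + 1) / 2 ^ a ≤ ((i : ℝ) + 1) / 2 ^ a₂ := by
          rw [div_le_div_iff₀ h2a h2a₂, hpow]
          nlinarith
        rw [add_div, add_div] at this
        linarith
    have hind := ih a₂ hlt τ (fun i => bs n i F) hF2
    -- the cells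
    set D : ℝ≥0∞ := K₁ * 2 ^ ((0 + ε / 2) * (n : ℝ)) with hDdef
    have hDle : D ≤ 2 ^ (ε * (n : ℝ)) := by
      have hAn : (A : ℝ) ≤ n := by exact_mod_cast (by omega : A ≤ n)
      calc D ≤ 2 ^ (ε / 2 * (A : ℝ)) * 2 ^ ((0 + ε / 2) * (n : ℝ)) := by
            rw [hDdef]; gcongr
        _ = 2 ^ (ε / 2 * (A : ℝ) + (0 + ε / 2) * (n : ℝ)) := by
            rw [ENNReal.rpow_add _ _ (by norm_num) (by norm_num)]
        _ ≤ 2 ^ (ε * (n : ℝ)) := ln_rpow_mono (by nlinarith)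
    have hblock : ∀ i : ℕ, i < 2 ^ a₂ → nI (P l) (bs n i F) ≤
        D ^ P l * S2 (P l) (bk n i) F ^ (P l / 2) := by
      intro i hi
      have hδ : ((1 : ℝ) / 2 ^ a₂) ^ (l + 1) ≤ (1 / 2 ^ a₂ / 2 ^ n) ^ l := by
        rw [div_div, ← hpow, one_div, one_div, inv_pow, inv_pow, ← pow_mul, ← pow_mul]
        apply inv_anti₀ (by positivity)
        apply pow_le_pow_right₀ one_le_two
        have e1 : a * l = l * a := Nat.mul_comm _ _
        have e2 : a₂ * (l + 1) = (l + 1) * a₂ := Nat.mul_comm _ _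
        omega
      have hc := hcell n D (τ + (i : ℝ) / 2 ^ a₂) (1 / 2 ^ a₂) (hdec n) (by positivity)
        (by
          rw [div_le_one h2a₂]
          exact one_le_pow₀ one_le_two) hδ (fun j => F (i * 2 ^ n + j)) (by
          intro j hj
          have hj' : i * 2 ^ n + j < 2 ^ a := by
            have : i * 2 ^ n + j ∈ bk n i := by
              rw [mem_bk]
              constructor
              · omega
              · rw [Nat.add_mul, one_mul]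
                omega
            exact bk_lt ha₂ hi this
          have hs := hF (i * 2 ^ n + j) hj'
          have e1 : τ + ((i * 2 ^ n + j : ℕ) : ℝ) / 2 ^ a =
              τ + (i : ℝ) / 2 ^ a₂ + 1 / 2 ^ a₂ * ((j : ℝ) / 2 ^ n) := by
            rw [hpow]
            push_cast
            field_simp
            ring
          have e2 : (1 : ℝ) / 2 ^ a = 1 / 2 ^ a₂ / 2 ^ n := by
            rw [hpow, div_div]
          rw [e1, e2] at hs
          exact hs)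
      have e3 : (fun x => ∑ j ∈ range (2 ^ n), F (i * 2 ^ n + j) x) = bs n i F := by
        funext x
        exact (sum_bk_range (fun j => F j x) n i).symm
      have e4 : S2 (P l) (range (2 ^ n)) (fun j => F (i * 2 ^ n + j)) = S2 (P l) (bk n i) F := by
        unfold S2
        exact (sum_bk_range (fun j => nI (P l) (F j) ^ (2 / P l)) n i).symm
      rw [e4] at hc
      rw [e3] at hc
      exact hc
    have hrange : range (2 ^ a) = bk (n + a₂) 0 := by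
      rw [bk_zero, ← han]
    have hsum : (fun x => ∑ j ∈ range (2 ^ a), F j x) =
        fun x => ∑ i ∈ range (2 ^ a₂), (bs n i F) x := by
      funext x
      rw [hrange, sum_nest (fun j => F j x) n a₂ 0, bk_zero]
      rfl
    have hS2 : S2 (P l) (range (2 ^ a₂)) (fun i => bs n i F) ≤
        D ^ (2 : ℝ) * S2 (P l) (range (2 ^ a)) F := by
      have e5 : S2 (P l) (range (2 ^ a)) F = ∑ i ∈ range (2 ^ a₂), S2 (P l) (bk n i) F := by
        unfold S2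
        rw [hrange, sum_nest (fun j => nI (P l) (F j) ^ (2 / P l)) n a₂ 0, bk_zero]
      rw [e5, mul_sum]
      unfold S2
      refine sum_le_sum (fun i hi => ?_)
      have h5 := ENNReal.rpow_le_rpow (hblock i (mem_range.1 hi)) (by positivity : 0 ≤ 2 / P l)
      rw [ENNReal.mul_rpow_of_nonneg _ _ (by positivity : 0 ≤ 2 / P l), ← ENNReal.rpow_mul,
        ← ENNReal.rpow_mul, show P l * (2 / P l) = 2 by field_simp,
        show P l / 2 * (2 / P l) = 1 by field_simp, ENNReal.rpow_one] at h5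
      exact h5
    rw [hsum]
    refine hind.trans ?_
    calc (2 ^ a₀ * 2 ^ (ε * (a₂ : ℝ))) ^ P l *
          S2 (P l) (range (2 ^ a₂)) (fun i => bs n i F) ^ (P l / 2) ≤
        (2 ^ a₀ * 2 ^ (ε * (a₂ : ℝ))) ^ P l * (D ^ (2 : ℝ) * S2 (P l) (range (2 ^ a)) F) ^ (P l / 2) := by
          gcongr
      _ = (2 ^ a₀ * 2 ^ (ε * (a₂ : ℝ)) * D) ^ P l * S2 (P l) (range (2 ^ a)) F ^ (P l / 2) := by
          rw [ENNReal.mul_rpow_of_nonneg _ _ (by positivity : 0 ≤ P l / 2), ← ENNReal.rpow_mul,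
            show 2 * (P l / 2) = P l by ring, ← mul_assoc,
            ENNReal.mul_rpow_of_nonneg _ D hp0.le]
      _ ≤ (2 ^ a₀ * 2 ^ (ε * (a : ℝ))) ^ P l * S2 (P l) (range (2 ^ a)) F ^ (P l / 2) := by
          refine mul_le_mul' (ENNReal.rpow_le_rpow ?_ hp0.le) le_rfl
          calc 2 ^ a₀ * 2 ^ (ε * (a₂ : ℝ)) * D ≤ 2 ^ a₀ * 2 ^ (ε * (a₂ : ℝ)) * 2 ^ (ε * (n : ℝ)) := by
                gcongr
            _ = 2 ^ a₀ * 2 ^ (ε * (a₂ : ℝ) + ε * (n : ℝ)) := by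
                rw [mul_assoc, ENNReal.rpow_add _ _ (by norm_num) (by norm_num)]
            _ = 2 ^ a₀ * 2 ^ (ε * (a : ℝ)) := by
                rw [han]
                push_cast
                ring_nf

theorem ln_bk (r l : ℕ) (hl : 1 ≤ l) (hD : Adm l 0) {κ : ℝ} (hκ : 0 < κ) {C : ℝ} (hC : 1 ≤ C)
    {ε : ℝ} (hε : 0 < ε) : ∃ K : ℝ≥0∞, K ≠ ⊤ ∧ ∀ (a₂ a i : ℕ) (τ : ℝ) (F : ℕ → E l → ℂ),
      a₂ ≤ a → i < 2 ^ a₂ →
      (∀ j ∈ bk (a - a₂) i, Spec (UG r l κ C (τ + (j : ℝ) / 2 ^ a) (1 / 2 ^ a)) (F j)) →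
        nI (P l) (bs (a - a₂) i F) ≤
          (K * 2 ^ (ε * a)) ^ P l * S2 (P l) (bk (a - a₂) i) F ^ (P l / 2) := by
  obtain ⟨K, hK, h⟩ := ln r l hl hD hκ hC hε
  have hp2 : 2 ≤ P l := ln_P hl
  have hp0 : 0 < P l := by linarith
  refine ⟨K, hK, fun a₂ a i τ F ha hi hF => ?_⟩
  classical
  set F' : ℕ → E l → ℂ := fun j => if j ∈ bk (a - a₂) i then F j else fun _ => 0 with hF'
  have hsub : bk (a - a₂) i ⊆ range (2 ^ a) := fun j hj => mem_range.2 (bk_lt ha hi hj)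
  have h1 := h a τ F' (by
    intro j _
    by_cases hj : j ∈ bk (a - a₂) i
    · have e : F' j = F j := by rw [hF']; simp only [if_pos hj]
      rw [e]
      exact hF j hj
    · have e : F' j = fun _ => 0 := by rw [hF']; simp only [if_neg hj]
      rw [e]
      exact spec_zero _)
  have e1 : (fun x => ∑ j ∈ range (2 ^ a), F' j x) = bs (a - a₂) i F := by
    funext x
    unfold bs
    rw [← sum_subset hsub (fun j _ hj => by rw [hF']; simp only [if_neg hj])]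
    exact sum_congr rfl (fun j hj => by rw [hF']; simp only [if_pos hj])
  have e2 : S2 (P l) (range (2 ^ a)) F' = S2 (P l) (bk (a - a₂) i) F := by
    unfold S2
    rw [← sum_subset hsub (fun j _ hj => ?_)]
    · exact sum_congr rfl (fun j hj => by rw [hF']; simp only [if_pos hj])
    · have e : F' j = fun _ => 0 := by rw [hF']; simp only [if_neg hj]
      rw [e]
      have : nI (P l) (fun _ : E l => (0 : ℂ)) = 0 := by
        unfold nI
        simp [ENNReal.zero_rpow_of_pos hp0]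
      rw [this, ENNReal.zero_rpow_of_pos (by positivity)]
  rw [e1, e2] at h1
  exact h1

end Pool.Agent.Dcp
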