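import Pool.Agent.Dcp.EDefs
import Pool.Agent.Dcp.LN
import Pool.Agent.Dcp.Boot
import Pool.Agent.Dcp.Snc

/-!
# Dcp, module CDc: decoupling of the slice `x_0 = u` on one cell

`a' = ν/l` (floor), `N = 2^ν`, `δ = 2^(-a')`, so `1/N ≤ δ^l` (`l a' ≤ ν`).  Change of variables `x_i = X_i/N^(i+2)` on both sides (`lint_mat` with a
diagonal matrix, the factor cancels as in `rescale`; the weight becomes `Ph ((X_i - N z_i)/N)^p`).  Put
`F i X = (∑_{n ∈ arc σ ν (ν-a') i} a n ee (n u) ee (∑_q (n/N)^(q+2) X_q)) * Ph ((X - N z)/N)`, `i < 2^a'`; it has spectrum in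
`UG 1 l (1/2) 1 (-σ + i/2^a') (1/2^a')`: a term with `a n ≠ 0` has the frequency `γ(s) = (s², …, s^(l+1))`, `s = n/N = j/N - σ`,
`j ∈ bk (ν-a') i`, `1/2 ≤ |s| ≤ 1`, `-σ + i/2^a' ≤ s ≤ -σ + (i+1)/2^a'`, coefficients `c = 0` (`pt (1+l) s 0 = mc (1+l) s`) and the
error `|e| ≤ 1/N ≤ δ^l` from `Ph_spec` (`R = N`); terms with `a n = 0` vanish.  `ln 1 l` with `a := a'`, `τ = -σ` (`dec_all l`), constants
`K 2^(ε a') ≤ K 2^(ε ν)`; `∑_{i < 2^a'} F i` is the full sum over `arc σ ν ν 0` (`sum_nest`, `bk_zero`; the map `j ↦ j - σ 2^ν` is injective).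
-/

set_option autoImplicit false

namespace Pool.Agent.Dcp

open MeasureTheory Finset
open scoped ENNReal

/-- the integer of index `j` -/
private def cdn (ν σ j : ℕ) : ℤ := (j : ℤ) - σ * 2 ^ ν

/-- one term -/
private noncomputable def cdT (l : ℕ) (a : ℤ → ℂ) (u : ℝ) (ν σ j : ℕ) (X : E l) : ℂ :=
  (a (cdn ν σ j) * ee ((cdn ν σ j : ℝ) * u)) *
    ee ((fun q : Fin l => ((cdn ν σ j : ℝ) / 2 ^ ν) ^ (q.val + 2)) ⬝ᵥ X)

/-- the weight -/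
private noncomputable def cdH (l ν : ℕ) (z X : E l) : ℝ :=
  Ph (fun i => (X i - (2 : ℝ) ^ ν * z i) / (2 : ℝ) ^ ν)

private theorem cdT_cont (l : ℕ) (a : ℤ → ℂ) (u : ℝ) (ν σ j : ℕ) :
    Continuous (cdT l a u ν σ j) := by
  unfold cdT
  refine continuous_const.mul (ee_cont.comp ?_)
  unfold dotProduct
  fun_prop

private theorem cdH_cont (l ν : ℕ) (z : E l) : Continuous (cdH l ν z) := by
  unfold cdH
  exact (Ph_cont l).comp (by fun_prop)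

private theorem cd_FS (l : ℕ) (a : ℤ → ℂ) (u : ℝ) (ν σ m i : ℕ) (x : E l) :
    FS (l + 1) (arc σ ν m i) a (Fin.cons u x) =
      ∑ j ∈ bk m i, cdT l a u ν σ j (fun q => (2 : ℝ) ^ (ν * (q.val + 2)) * x q) := by
  unfold FS arc
  rw [Finset.sum_image (by
    intro j _ j' _ h
    have h' : (j : ℤ) - σ * 2 ^ ν = (j' : ℤ) - σ * 2 ^ ν := h
    omega)]
  refine Finset.sum_congr rfl fun j _ => ?_
  rw [Fin.sum_univ_succ, ee_add]
  unfold cdT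
  change a (cdn ν σ j) * (ee ((cdn ν σ j : ℝ) ^ (0 + 1) * u) *
    ee (∑ q : Fin l, (cdn ν σ j : ℝ) ^ (q.val + 1 + 1) * x q)) = _
  rw [zero_add, pow_one, mul_assoc]
  congr 3
  unfold dotProduct
  refine Finset.sum_congr rfl fun q _ => ?_
  change (cdn ν σ j : ℝ) ^ (q.val + 1 + 1) * x q =
    ((cdn ν σ j : ℝ) / 2 ^ ν) ^ (q.val + 2) * ((2 : ℝ) ^ (ν * (q.val + 2)) * x q)
  rw [div_pow, ← pow_mul]
  have h2 : (2 : ℝ) ^ (ν * (q.val + 2)) ≠ 0 := by positivity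
  field_simp

private theorem cd_wt (l : ℕ) (p : ℝ) (ν : ℕ) (z x : E l) :
    wt l p ν z x =
      ENNReal.ofReal (cdH l ν z (fun q => (2 : ℝ) ^ (ν * (q.val + 2)) * x q) ^ p) := by
  unfold wt cdH
  congr 3
  funext q
  have h2 : (2 : ℝ) ^ ν ≠ 0 := by positivity
  have h3 : (2 : ℝ) ^ (ν * (q.val + 2)) = 2 ^ (ν * (q.val + 1)) * 2 ^ ν := by
    rw [← pow_add]
    congr 1
  change (2 : ℝ) ^ (ν * (q.val + 1)) * x q - z q =
    ((2 : ℝ) ^ (ν * (q.val + 2)) * x q - (2 : ℝ) ^ ν * z q) / (2 : ℝ) ^ ν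
  rw [h3]
  field_simp

private theorem cd_lint (l ν : ℕ) : ∃ Λ : ℝ≥0∞, Λ ≠ 0 ∧ Λ ≠ ⊤ ∧ ∀ G : E l → ℝ≥0∞, Measurable G →
    ∫⁻ x : E l, G (fun q => (2 : ℝ) ^ (ν * (q.val + 2)) * x q) = Λ * ∫⁻ x, G x := by
  have hdet : (Matrix.diagonal (fun q : Fin l => (2 : ℝ) ^ (ν * (q.val + 2)))).det ≠ 0 := by
    rw [Matrix.det_diagonal]
    exact Finset.prod_ne_zero_iff.2 fun q _ => by positivity
  refine ⟨ENNReal.ofReal |(Matrix.diagonal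
    (fun q : Fin l => (2 : ℝ) ^ (ν * (q.val + 2)))).det|⁻¹, ?_, ENNReal.ofReal_ne_top,
    fun G hG => ?_⟩
  · rw [Ne, ENNReal.ofReal_eq_zero, not_le]
    exact inv_pos.2 (abs_pos.2 hdet)
  · rw [← lint_mat _ hdet G hG]
    refine lintegral_congr fun x => ?_
    congr 1
    funext q
    rw [Matrix.mulVec_diagonal]

private theorem cd_key (l : ℕ) {p : ℝ} (hp : 0 ≤ p) (a : ℤ → ℂ) (u : ℝ) (ν σ : ℕ) (z : E l) :
    ∃ Λ : ℝ≥0∞, Λ ≠ 0 ∧ Λ ≠ ⊤ ∧ ∀ m i : ℕ,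
      ∫⁻ x, ‖FS (l + 1) (arc σ ν m i) a (Fin.cons u x)‖ₑ ^ p * wt l p ν z x =
        Λ * nI p (fun X : E l => ∑ j ∈ bk m i, cdT l a u ν σ j X * ((cdH l ν z X : ℝ) : ℂ)) := by
  obtain ⟨Λ, h0, ht, hΛ⟩ := cd_lint l ν
  refine ⟨Λ, h0, ht, fun m i => ?_⟩
  have hmeas : Measurable (fun X : E l =>
      ‖∑ j ∈ bk m i, cdT l a u ν σ j X * ((cdH l ν z X : ℝ) : ℂ)‖ₑ ^ p) := by
    have hc : Continuous (fun X : E l =>
        ∑ j ∈ bk m i, cdT l a u ν σ j X * ((cdH l ν z X : ℝ) : ℂ)) :=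
      continuous_finsetSum _ fun j _ => (cdT_cont l a u ν σ j).mul
        (Complex.continuous_ofReal.comp (cdH_cont l ν z))
    exact (hc.measurable.enorm).pow_const p
  unfold nI
  rw [← hΛ _ hmeas]
  refine lintegral_congr fun x => ?_
  rw [cd_FS, cd_wt, ← Finset.sum_mul, enorm_mul, ENNReal.mul_rpow_of_nonneg _ _ hp]
  congr 1
  have hpos : 0 < cdH l ν z (fun q => (2 : ℝ) ^ (ν * (q.val + 2)) * x q) := Ph_pos _
  rw [← ENNReal.ofReal_rpow_of_pos hpos]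
  congr 1
  rw [← ofReal_norm, Complex.norm_real, Real.norm_of_nonneg hpos.le]

private theorem cd_spec (l ν σ a' i j : ℕ) (a : ℤ → ℂ) (u : ℝ) (z : E l) (hσ : σ ≤ 1)
    (ha : ∀ n : ℤ, 2 * |n| < 2 ^ ν → a n = 0) (hal : a' * l ≤ ν) (haν : a' ≤ ν)
    (hi : i < 2 ^ a') (hj : j ∈ bk (ν - a') i) :
    Spec (UG 1 l (1 / 2) 1 (-(σ : ℝ) + (i : ℝ) / 2 ^ a') (1 / 2 ^ a'))
      (fun X : E l => cdT l a u ν σ j X * ((cdH l ν z X : ℝ) : ℂ)) := by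
  by_cases ha0 : a (cdn ν σ j) = 0
  · have : (fun X : E l => cdT l a u ν σ j X * ((cdH l ν z X : ℝ) : ℂ)) = fun _ => 0 := by
      funext X
      unfold cdT
      rw [ha0]
      ring
    rw [this]
    exact spec_zero _
  have hN : (0 : ℝ) < 2 ^ ν := by positivity
  have hA : (0 : ℝ) < 2 ^ a' := by positivity
  have hB : (0 : ℝ) < 2 ^ (ν - a') := by positivity
  have eN : (2 : ℝ) ^ ν = 2 ^ a' * 2 ^ (ν - a') := by rw [← pow_add, Nat.add_sub_cancel' haν]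
  obtain ⟨hj1, hj2⟩ := mem_bk.1 hj
  have hj1' : (i : ℝ) * 2 ^ (ν - a') ≤ j := by exact_mod_cast hj1
  have hj2' : (j : ℝ) ≤ ((i : ℝ) + 1) * 2 ^ (ν - a') := by exact_mod_cast hj2.le
  have hjN : j < 2 ^ ν := bk_lt haν hi hj
  have hjN' : (j : ℝ) ≤ 2 ^ ν := by exact_mod_cast hjN.le
  have hj0 : (0 : ℝ) ≤ j := Nat.cast_nonneg j
  have hn : ((cdn ν σ j : ℤ) : ℝ) = (j : ℝ) - σ * 2 ^ ν := by
    unfold cdn
    push_cast
    ring
  have hs : ((cdn ν σ j : ℤ) : ℝ) / 2 ^ ν = (j : ℝ) / 2 ^ ν - σ := by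
    rw [hn]
    field_simp
  refine spec_mul (spec_exp _ _) (Ph_spec l hN (fun i => (2 : ℝ) ^ ν * z i)) ?_
  rintro ξ hξ η hη
  rw [Set.mem_singleton_iff] at hξ
  subst hξ
  have h1 : (i : ℝ) / 2 ^ a' ≤ (j : ℝ) / 2 ^ ν := by
    rw [div_le_div_iff₀ hA hN, eN]
    nlinarith
  have h2 : (j : ℝ) / 2 ^ ν ≤ (i : ℝ) / 2 ^ a' + 1 / 2 ^ a' := by
    rw [← add_div, div_le_div_iff₀ hN hA, eN]
    nlinarith
  have h3 : (1 : ℝ) / 2 ≤ |((cdn ν σ j : ℤ) : ℝ) / 2 ^ ν| := by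
    have h4 : ¬ 2 * |cdn ν σ j| < 2 ^ ν := fun h => ha0 (ha _ h)
    rw [not_lt] at h4
    have h5 : (2 : ℝ) ^ ν ≤ 2 * |((cdn ν σ j : ℤ) : ℝ)| := by exact_mod_cast h4
    rw [abs_div, abs_of_pos hN, le_div_iff₀ hN]
    linarith
  have h4 : |((cdn ν σ j : ℤ) : ℝ) / 2 ^ ν| ≤ 1 := by
    rw [abs_div, abs_of_pos hN, div_le_one hN, hn, abs_le]
    have hσ' : σ = 0 ∨ σ = 1 := by omega
    rcases hσ' with rfl | rfl
    · simp only [Nat.cast_zero, zero_mul, sub_zero]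
      constructor <;> linarith
    · simp only [Nat.cast_one, one_mul]
      constructor <;> linarith
  have h5 : (1 : ℝ) / 2 ^ ν ≤ 1 * (1 / 2 ^ a') ^ l := by
    rw [one_mul, div_pow, one_pow, ← pow_mul]
    exact one_div_le_one_div_of_le (by positivity) (pow_le_pow_right₀ (by norm_num) hal)
  refine ⟨((cdn ν σ j : ℤ) : ℝ) / 2 ^ ν, 0, η, ?_, ?_, h3, h4, ?_, ?_, ?_⟩
  · rw [hs]
    linarith
  · rw [hs]
    linarith
  · intro q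
    rw [Pi.zero_apply, abs_zero]
    positivity
  · intro q
    exact (hη q).trans h5
  · funext q
    unfold pt mc
    simp only [Pi.add_apply, Pi.zero_apply, zero_mul, Finset.sum_const_zero, add_zero,
      Fin.val_natAdd]
    congr 2
    omega

theorem cell_dec (l : ℕ) (hl : 1 ≤ l) {ε : ℝ} (hε : 0 < ε) : ∃ K : ℝ≥0∞, K ≠ ⊤ ∧
    ∀ (ν σ : ℕ) (a : ℤ → ℂ) (u : ℝ) (z : E l), σ ≤ 1 → (∀ n : ℤ, 2 * |n| < 2 ^ ν → a n = 0) →
      ∫⁻ x, ‖FS (l + 1) (arc σ ν ν 0) a (Fin.cons u x)‖ₑ ^ P l * wt l (P l) ν z x ≤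
        (K * 2 ^ (ε * ν)) ^ P l * (∑ i ∈ range (2 ^ (ν / l)),
          (∫⁻ x, ‖FS (l + 1) (arc σ ν (ν - ν / l) i) a (Fin.cons u x)‖ₑ ^ P l *
            wt l (P l) ν z x) ^ (2 / P l)) ^ (P l / 2) := by
  obtain ⟨K, hK, H⟩ := ln 1 l hl (dec_all l hl) (κ := 1 / 2) (by norm_num) (C := 1) le_rfl hε
  refine ⟨K, hK, fun ν σ a u z hσ ha => ?_⟩
  have hal : ν / l * l ≤ ν := Nat.div_mul_le_self ν l
  have haν : ν / l ≤ ν := Nat.div_le_self ν l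
  have hlR : (1 : ℝ) ≤ l := by exact_mod_cast hl
  have hP : 0 < P l := by
    unfold P
    positivity
  obtain ⟨Λ, h0, ht, hΛ⟩ := cd_key l hP.le a u ν σ z
  rw [hΛ ν 0]
  simp only [hΛ (ν - ν / l)]
  set F : ℕ → E l → ℂ := fun i X =>
    ∑ j ∈ bk (ν - ν / l) i, cdT l a u ν σ j X * ((cdH l ν z X : ℝ) : ℂ) with hF
  have hspec : ∀ i : ℕ, i < 2 ^ (ν / l) →
      Spec (UG 1 l (1 / 2) 1 (-(σ : ℝ) + (i : ℝ) / 2 ^ (ν / l)) (1 / 2 ^ (ν / l))) (F i) :=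
    fun i hi => spec_sum _ _ fun j hj => cd_spec l ν σ (ν / l) i j a u z hσ ha hal haν hi hj
  have h1 := H (ν / l) (-(σ : ℝ)) F hspec
  have hsum : (fun X => ∑ j ∈ bk ν 0, cdT l a u ν σ j X * ((cdH l ν z X : ℝ) : ℂ)) =
      fun X => ∑ i ∈ range (2 ^ (ν / l)), F i X := by
    funext X
    rw [← bk_zero, hF]
    have h2 := sum_nest (fun j => cdT l a u ν σ j X * ((cdH l ν z X : ℝ) : ℂ)) (ν - ν / l)
      (ν / l) 0
    rw [Nat.sub_add_cancel haν] at h2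
    exact h2
  rw [hsum]
  have h2 : (∑ i ∈ range (2 ^ (ν / l)), (Λ * nI (P l) (F i)) ^ (2 / P l)) ^ (P l / 2) =
      Λ * S2 (P l) (range (2 ^ (ν / l))) F ^ (P l / 2) := by
    unfold S2
    have e1 : ∀ i, (Λ * nI (P l) (F i)) ^ (2 / P l) =
        Λ ^ (2 / P l) * nI (P l) (F i) ^ (2 / P l) := fun i =>
      ENNReal.mul_rpow_of_nonneg _ _ (by positivity)
    rw [Finset.sum_congr rfl fun i _ => e1 i, ← Finset.mul_sum,
      ENNReal.mul_rpow_of_nonneg _ _ (by positivity), ← ENNReal.rpow_mul]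
    have e2 : 2 / P l * (P l / 2) = 1 := by field_simp
    rw [e2, ENNReal.rpow_one]
  change Λ * nI (P l) (fun X => ∑ i ∈ range (2 ^ (ν / l)), F i X) ≤
    (K * 2 ^ (ε * ν)) ^ P l *
      (∑ i ∈ range (2 ^ (ν / l)), (Λ * nI (P l) (F i)) ^ (2 / P l)) ^ (P l / 2)
  rw [h2]
  have h3 : (K * 2 ^ (ε * ((ν / l : ℕ) : ℝ))) ^ P l ≤ (K * 2 ^ (ε * ν)) ^ P l := by
    refine ENNReal.rpow_le_rpow ?_ hP.le
    refine mul_le_mul_right ?_ K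
    refine ENNReal.rpow_le_rpow_of_exponent_le (by norm_num) ?_
    refine mul_le_mul_of_nonneg_left ?_ hε.le
    exact_mod_cast haν
  calc Λ * nI (P l) (fun X => ∑ i ∈ range (2 ^ (ν / l)), F i X)
      ≤ Λ * ((K * 2 ^ (ε * ((ν / l : ℕ) : ℝ))) ^ P l *
        S2 (P l) (range (2 ^ (ν / l))) F ^ (P l / 2)) := by gcongr
    _ ≤ Λ * ((K * 2 ^ (ε * ν)) ^ P l * S2 (P l) (range (2 ^ (ν / l))) F ^ (P l / 2)) := by
        gcongr
    _ = _ := by ring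

end Pool.Agent.Dcp
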