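import Mathlib

/-!
# Dcp, module Defs: definitions for the decoupling theorem for the moment curve

`E k` coordinate space, `ee t = exp (2 π i t)`, `Spec Ω f`: the spectrum of `f : E k → ℂ` lies in `Ω`
(`f` is a superposition, over a finite measure space, of the characters `x ↦ ee (ξ ⬝ᵥ x)` with `ξ ∈ Ω` and bounded
coefficients), `mc k t = (t, t², …, t^k)`, `fr k t i` the `(i+1)`-st derivative divided by `(i+1)!`,
`pt k t c = mc k t + ∑ i, c i • fr k t i`, `UU k C t δ` the boxes, `Fam` families of functions with spectrum in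
consecutive boxes, `nI p f = ∫ ‖f‖^p`, `S2` the sum of the squares of the `L^p` norms, `Dec k C n D` the
`ℓ²L^{k(k+1)}` decoupling inequality with constant `D` for `2^n` intervals, `ML` the unbalanced bilinear
inequality, `UG` the boxes for the curve `(t^{r+1}, …, t^{r+l})`.
-/

set_option autoImplicit false

namespace Pool.Agent.Dcp

open MeasureTheory Finset
open scoped ENNReal

/-- coordinate space -/
abbrev E (k : ℕ) := Fin k → ℝ

/-- `exp (2 π i t)` -/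
noncomputable def ee (t : ℝ) : ℂ := Complex.exp (2 * Real.pi * t * Complex.I)

/-- the spectrum of `f` lies in `Ω` -/
def Spec {k : ℕ} (Ω : Set (E k)) (f : E k → ℂ) : Prop :=
  ∃ (α : Type) (_ : MeasurableSpace α) (μ : Measure α) (ξ : α → E k) (c : α → ℂ) (B : ℝ),
    IsFiniteMeasure μ ∧ Measurable ξ ∧ Measurable c ∧ (∀ a, ξ a ∈ Ω) ∧ (∀ a, ‖c a‖ ≤ B) ∧
    ∀ x, f x = ∫ a, c a * ee (ξ a ⬝ᵥ x) ∂μ

/-- the moment curve `(t, t², …, t^k)` -/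
def mc (k : ℕ) (t : ℝ) : E k := fun i => t ^ (i.val + 1)

/-- the `(i+1)`-st derivative of the moment curve divided by `(i+1)!` -/
def fr (k : ℕ) (t : ℝ) (i : Fin k) : E k :=
  fun j => (Nat.choose (j.val + 1) (i.val + 1) : ℝ) * t ^ (j.val - i.val)

/-- the point with coordinates `c` in the frame at `t` -/
def pt (k : ℕ) (t : ℝ) (c : E k) : E k := fun j => mc k t j + ∑ i, c i * fr k t i j

/-- the box of the arc of length `δ` at `t` -/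
def UU (k : ℕ) (C t δ : ℝ) : Set (E k) :=
  {ξ | ∃ c : E k, (∀ i, |c i| ≤ C * δ ^ (i.val + 1)) ∧ ξ = pt k t c}

/-- families of `2^n` functions with spectrum in the boxes of the arcs of length `lam / 2^n` starting
at `τ` -/
def Fam (k : ℕ) (C τ lam : ℝ) (n : ℕ) (f : ℕ → E k → ℂ) : Prop :=
  ∀ j : ℕ, j < 2 ^ n → Spec (UU k C (τ + lam * ((j : ℝ) / 2 ^ n)) (lam / 2 ^ n)) (f j)

/-- the critical exponent -/
noncomputable def P (k : ℕ) : ℝ := k * (k + 1)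

/-- `∫ ‖f‖^p` -/
noncomputable def nI {k : ℕ} (p : ℝ) (f : E k → ℂ) : ℝ≥0∞ := ∫⁻ x, ‖f x‖ₑ ^ p

/-- sum over the index set `s` of the squares of the `L^p` norms -/
noncomputable def S2 {k : ℕ} (p : ℝ) (s : Finset ℕ) (f : ℕ → E k → ℂ) : ℝ≥0∞ :=
  ∑ j ∈ s, nI p (f j) ^ (2 / p)

/-- the decoupling inequality for `2^n` arcs with constant `D` -/
def Dec (k : ℕ) (C : ℝ) (n : ℕ) (D : ℝ≥0∞) : Prop :=
  ∀ f : ℕ → E k → ℂ, Fam k C 0 1 n f →
    nI (P k) (fun x => ∑ j ∈ range (2 ^ n), f j x) ≤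
      D ^ P k * S2 (P k) (range (2 ^ n)) f ^ (P k / 2)

/-- decoupling with constants `K 2^((η + ε) n)` -/
def Adm (k : ℕ) (η : ℝ) : Prop :=
  ∀ ε : ℝ, 0 < ε → ∃ K : ℝ≥0∞, K ≠ ⊤ ∧ ∀ n : ℕ, Dec k 2 n (K * 2 ^ ((η + ε) * n))

/-- the `i`-th block of length `2^n` -/
def bk (n i : ℕ) : Finset ℕ := Ico (i * 2 ^ n) ((i + 1) * 2 ^ n)

/-- sum over a block -/
def bs {k : ℕ} (n i : ℕ) (f : ℕ → E k → ℂ) : E k → ℂ := fun x => ∑ j ∈ bk n i, f j x

/-- the unbalanced bilinear inequality: first scale `2^(-a)`, second scale `2^(-b)`, separation `κ` -/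
def ML (k l : ℕ) (κ : ℝ) (m a b : ℕ) (M : ℝ≥0∞) : Prop :=
  ∀ (τ : ℝ) (f g : ℕ → E k → ℂ), Fam k 2 τ 1 m f → Fam k 2 τ 1 m g →
    ∀ i j : ℕ, i < 2 ^ a → j < 2 ^ b →
    (∀ s t : ℝ, (i : ℝ) / 2 ^ a ≤ s → s ≤ (i + 1) / 2 ^ a → (j : ℝ) / 2 ^ b ≤ t →
      t ≤ (j + 1) / 2 ^ b → κ ≤ |s - t|) →
    ∫⁻ x, ‖bs (m - a) i f x‖ₑ ^ P l * ‖bs (m - b) j g x‖ₑ ^ (P k - P l) ≤
      M ^ P k * S2 (P k) (bk (m - a) i) f ^ (P l / 2) *
        S2 (P k) (bk (m - b) j) g ^ ((P k - P l) / 2)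

/-- boxes for the curve `(s^(r+1), …, s^(r+l))`, `κ ≤ |s| ≤ 1` -/
def UG (r l : ℕ) (κ C t δ : ℝ) : Set (E l) :=
  {ξ | ∃ (s : ℝ) (c : E (r + l)) (e : E l), t ≤ s ∧ s ≤ t + δ ∧ κ ≤ |s| ∧ |s| ≤ 1 ∧
    (∀ i, |c i| ≤ C * δ ^ (i.val + 1)) ∧ (∀ i, |e i| ≤ C * δ ^ l) ∧
    ξ = fun j => pt (r + l) s c (Fin.natAdd r j) + e j}

/-- the positive band limited function `sinc² (π x) + sinc² (π (x - 1/2))` -/
noncomputable def ph (x : ℝ) : ℝ :=
  Real.sinc (Real.pi * x) ^ 2 + Real.sinc (Real.pi * (x - 1 / 2)) ^ 2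

/-- product of the `ph` -/
noncomputable def Ph {l : ℕ} (w : E l) : ℝ := ∏ i, ph (w i)

/-- the weight `R^(-l) Ph (w / R)^p` -/
noncomputable def psi (l : ℕ) (p R : ℝ) (w : E l) : ℝ≥0∞ :=
  ENNReal.ofReal (R⁻¹ ^ l * Ph (fun i => w i / R) ^ p)

end Pool.Agent.Dcp
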