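import Pool.Agent.Dcp.Defs

/-!
# Dcp, module EDefs: exponential sums

`FS d s a x = ∑_{n ∈ s} a n ee (n x_0 + n² x_1 + … + n^d x_{d-1})`, `cube d = [0,1)^d`, `arc σ ν n i` the integers `j - σ 2^ν` with `j`
in the block `bk n i` (`σ = 0, 1`), `wt l p ν z` the weight of the cell `z`, `wj L j = (2 π L)^j/j!`, `WL L = exp (2 π L)`.
-/

set_option autoImplicit false

namespace Pool.Agent.Dcp

open MeasureTheory Finset
open scoped ENNReal

/-- exponential sums along the moment curve -/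
noncomputable def FS (d : ℕ) (s : Finset ℤ) (a : ℤ → ℂ) (x : E d) : ℂ :=
  ∑ n ∈ s, a n * ee (∑ i : Fin d, (n : ℝ) ^ (i.val + 1) * x i)

/-- the unit cube -/
def cube (d : ℕ) : Set (E d) := Set.pi Set.univ (fun _ => Set.Ico (0 : ℝ) 1)

/-- arcs -/
def arc (σ ν n i : ℕ) : Finset ℤ := (bk n i).image (fun j : ℕ => (j : ℤ) - σ * 2 ^ ν)

/-- the weight of the cell `z` -/
noncomputable def wt (l : ℕ) (p : ℝ) (ν : ℕ) (z x : E l) : ℝ≥0∞ :=
  ENNReal.ofReal (Ph (fun i => 2 ^ (ν * (i.val + 1)) * x i - z i) ^ p)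

/-- Taylor weights -/
noncomputable def wj (L : ℝ) (j : ℕ) : ℝ≥0∞ := ENNReal.ofReal ((2 * Real.pi * L) ^ j / j.factorial)

/-- sum of the Taylor weights -/
noncomputable def WL (L : ℝ) : ℝ≥0∞ := ENNReal.ofReal (Real.exp (2 * Real.pi * L))

end Pool.Agent.Dcp
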