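import Pool.Agent.Dcp.ThB

/-!
# Dcp, module Fin: from lower integrals to Bochner integrals
-/

set_option autoImplicit false

namespace Pool.Agent.Dcp

open MeasureTheory Finset
open scoped ENNReal

theorem FS_frozen (m : ℕ) (s : Finset ℤ) (a : ℤ → ℂ) (x : E (m + 1)) :
    ∑ n ∈ s, a n * Complex.exp (2 * (Real.pi : ℂ) * Complex.I *
      (((∑ k : Fin (m + 1), ((n : ℝ) ^ (k.val + 1)) * x k : ℝ)) : ℂ)) = FS (m + 1) s a x := by
  unfold FS ee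
  refine sum_congr rfl fun n _ => ?_
  congr 2
  ring

theorem real_of_lint {m : ℕ} {K : Set (E m)} {Φ : E m → E (m + 1)}
    (hΦ : Continuous Φ) {p : ℝ} (hp : 0 < p) {ε : ℝ}
    (h : ∃ A : ℝ≥0∞, A ≠ ⊤ ∧ ∀ (N : ℕ) (a : ℤ → ℂ), 1 ≤ N →
      ∫⁻ y in K, ‖FS (m + 1) (Icc (-(N : ℤ)) N) a (Φ y)‖ₑ ^ p ≤
        A * (N : ℝ≥0∞) ^ (p * ε) * (∑ n ∈ Icc (-(N : ℤ)) N, ‖a n‖ₑ ^ 2) ^ (p / 2)) :
    ∃ C : ℝ, ∀ N : ℕ, 1 ≤ N → ∀ a : ℤ → ℂ,
      (∫ y in K, ‖∑ n ∈ Finset.Icc (-(N : ℤ)) N,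
          a n * Complex.exp (2 * (Real.pi : ℂ) * Complex.I *
            (((∑ k : Fin (m + 1), ((n : ℝ) ^ (k.val + 1)) * Φ y k : ℝ)) : ℂ))‖ ^ p) ^ (1 / p)
        ≤ C * (N : ℝ) ^ ε * Real.sqrt (∑ n ∈ Finset.Icc (-(N : ℤ)) N, ‖a n‖ ^ 2) := by
  obtain ⟨A, hA, h⟩ := h
  refine ⟨A.toReal ^ (1 / p), fun N hN a => ?_⟩
  simp only [FS_frozen]
  have hNp : (0 : ℝ) < N := by exact_mod_cast hN
  have hc : Continuous fun y => FS (m + 1) (Icc (-(N : ℤ)) N) a (Φ y) :=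
    (FS_cont (m + 1) _ a).comp hΦ
  obtain ⟨S, hS⟩ : ∃ S, S = ∑ n ∈ Finset.Icc (-(N : ℤ)) N, ‖a n‖ ^ 2 := ⟨_, rfl⟩
  have hS0 : 0 ≤ S := by
    rw [hS]
    exact sum_nonneg fun n _ => by positivity
  have hSe : (∑ n ∈ Icc (-(N : ℤ)) N, ‖a n‖ₑ ^ 2) = ENNReal.ofReal S := by
    rw [hS, ENNReal.ofReal_sum_of_nonneg fun n _ => by positivity]
    refine sum_congr rfl fun n _ => ?_
    rw [← ofReal_norm, ENNReal.ofReal_pow (norm_nonneg _)]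
  have hNe : (N : ℝ≥0∞) ^ (p * ε) = ENNReal.ofReal ((N : ℝ) ^ (p * ε)) := by
    rw [← ENNReal.ofReal_natCast, ENNReal.ofReal_rpow_of_pos hNp]
  have hAe : A = ENNReal.ofReal A.toReal := (ENNReal.ofReal_toReal hA).symm
  have h1 := h N a hN
  rw [hSe, hNe, hAe, ENNReal.ofReal_rpow_of_nonneg hS0 (by positivity),
    ← ENNReal.ofReal_mul ENNReal.toReal_nonneg,
    ← ENNReal.ofReal_mul (mul_nonneg ENNReal.toReal_nonneg (by positivity))] at h1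
  have h2 : ∫ y in K, ‖FS (m + 1) (Icc (-(N : ℤ)) N) a (Φ y)‖ ^ p ≤
      A.toReal * (N : ℝ) ^ (p * ε) * S ^ (p / 2) := by
    rw [integral_eq_lintegral_of_nonneg_ae]
    · refine ENNReal.toReal_le_of_le_ofReal ?_ ?_
      · exact mul_nonneg (mul_nonneg ENNReal.toReal_nonneg (by positivity)) (by positivity)
      · refine le_trans (le_of_eq ?_) h1
        refine lintegral_congr fun y => ?_
        rw [← ofReal_norm, ENNReal.ofReal_rpow_of_nonneg (norm_nonneg _) hp.le]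
    · exact Filter.Eventually.of_forall fun y => by positivity
    · exact (hc.norm.rpow_const fun _ => Or.inr hp.le).aestronglyMeasurable
  rw [← hS]
  have h3 : 0 ≤ ∫ y in K, ‖FS (m + 1) (Icc (-(N : ℤ)) N) a (Φ y)‖ ^ p :=
    integral_nonneg fun y => by positivity
  calc (∫ y in K, ‖FS (m + 1) (Icc (-(N : ℤ)) N) a (Φ y)‖ ^ p) ^ (1 / p)
      ≤ (A.toReal * (N : ℝ) ^ (p * ε) * S ^ (p / 2)) ^ (1 / p) :=
        Real.rpow_le_rpow h3 h2 (by positivity)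
    _ = A.toReal ^ (1 / p) * (N : ℝ) ^ ε * Real.sqrt S := by
        rw [Real.mul_rpow (mul_nonneg ENNReal.toReal_nonneg (by positivity)) (by positivity),
          Real.mul_rpow ENNReal.toReal_nonneg (by positivity), ← Real.rpow_mul hNp.le,
          ← Real.rpow_mul hS0, Real.sqrt_eq_rpow]
        have e1 : p * ε * (1 / p) = ε := by field_simp
        have e2 : p / 2 * (1 / p) = 1 / 2 := by field_simp
        rw [e1, e2]

theorem insert_cont {m : ℕ} (j : Fin (m + 1)) {φ : E m → ℝ} (hφ : Continuous φ) :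
    Continuous fun y : E m => (Fin.insertNth (α := fun _ => ℝ) j (φ y) y : E (m + 1)) := by
  refine continuous_pi fun i => ?_
  rcases Fin.eq_self_or_eq_succAbove j i with h | ⟨k, h⟩
  · subst h
    simpa using hφ
  · subst h
    simpa using continuous_apply k

/-- a locally Lipschitz function is Lipschitz on compact sets -/
theorem loc_lip {l : ℕ} {φ : E l → ℝ} (hφ : LocallyLipschitz φ) {S : Set (E l)}
    (hS : IsCompact S) : ∃ L : ℝ, ∀ x ∈ S, ∀ y ∈ S, |φ x - φ y| ≤ L * dist x y := by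
  obtain ⟨K, hK⟩ := LocallyLipschitzOn.exists_lipschitzOnWith_of_compact hS
    hφ.locallyLipschitzOn
  exact ⟨K, fun x hx y hy => hK.dist_le_mul x hx y hy⟩

theorem thmA (m : ℕ) (hm : 1 ≤ m) {φ : E m → ℝ} (hφ : LocallyLipschitz φ) {K : Set (E m)}
    (hK : IsCompact K) {p : ℝ} (hp : 0 < p) (hp' : p ≤ ((m + 1 : ℝ) * (m : ℝ))) {ε : ℝ}
    (hε : 0 < ε) : ∃ C : ℝ, ∀ N : ℕ, 1 ≤ N → ∀ a : ℤ → ℂ,
      (∫ y in K, ‖∑ n ∈ Finset.Icc (-(N : ℤ)) N,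
          a n * Complex.exp (2 * (Real.pi : ℂ) * Complex.I *
            (((∑ k : Fin (m + 1), ((n : ℝ) ^ (k.val + 1)) *
                (Fin.insertNth (α := fun _ => ℝ) 0 (φ y) y) k : ℝ)) : ℂ))‖ ^ p) ^ (1 / p)
        ≤ C * (N : ℝ) ^ ε * Real.sqrt (∑ n ∈ Finset.Icc (-(N : ℤ)) N, ‖a n‖ ^ 2) := by
  obtain ⟨L, hL⟩ := loc_lip hφ hK
  have hP : p ≤ P m := by
    unfold P
    linarith
  obtain ⟨A, hA, h⟩ := full_low m hm hK hL hp hP (ε := p * ε) (by positivity)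
  refine real_of_lint (insert_cont 0 hφ.continuous) hp ⟨A, hA, fun N a hN => ?_⟩
  simpa only [Fin.insertNth_zero'] using h N a hN

theorem thmB (m : ℕ) (hm : 1 ≤ m) (j : Fin (m + 1)) {φ : E m → ℝ} (hφ : ContDiff ℝ 1 φ)
    {K : Set (E m)} (hK : IsCompact K)
    (hj : j ≠ 0 → ∀ y ∈ K, fderiv ℝ φ y (Pi.single ⟨0, hm⟩ 1) ≠ 0) {p : ℝ} (hp : 0 < p)
    (hp' : p ≤ ((m + 1 : ℝ) * (m : ℝ))) {ε : ℝ}
    (hε : 0 < ε) : ∃ C : ℝ, ∀ N : ℕ, 1 ≤ N → ∀ a : ℤ → ℂ,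
      (∫ y in K, ‖∑ n ∈ Finset.Icc (-(N : ℤ)) N,
          a n * Complex.exp (2 * (Real.pi : ℂ) * Complex.I *
            (((∑ k : Fin (m + 1), ((n : ℝ) ^ (k.val + 1)) *
                (Fin.insertNth (α := fun _ => ℝ) j (φ y) y) k : ℝ)) : ℂ))‖ ^ p) ^ (1 / p)
        ≤ C * (N : ℝ) ^ ε * Real.sqrt (∑ n ∈ Finset.Icc (-(N : ℤ)) N, ‖a n‖ ^ 2) := by
  have hP : p ≤ P m := by
    unfold P
    linarith
  exact real_of_lint (insert_cont j hφ.continuous) hp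
    (full_any m hm j hφ hK hj hp hP (ε := p * ε) (by positivity))

end Pool.Agent.Dcp
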