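import Pool.Agent.Dcp.Defs

/-!
# Dcp, module Fra: the frames

Components: `pt k t c j = t^(j+1) + ∑_{i ≤ j} c i * choose (j+1) (i+1) * t^(j-i)` (`choose` is `0` for `i > j`).
`pt_add`: with `c` formally extended by the coefficient `1` of the constant: binomial theorem,
`(t+h)^(j+1) = t^(j+1) + ∑_{i ≤ j} choose (j+1) (i+1) h^(i+1) t^(j-i)`, and
`∑_i choose (j+1) (i+1) t^(j-i) choose (i+1) (i'+1) h^(i-i') = choose (j+1) (i'+1) (t+h)^(j-i')`
(`Nat.choose_mul`: `choose (j+1) (i+1) choose (i+1) (i'+1) = choose (j+1) (i'+1) choose (j-i') (i-i')`).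
`fm_inv`: the linear part of `pt k 0 c = pt k t (pt k (-t) c)`, `pt k 0 c = c`.  `fm_det`: triangular with diagonal `1`.
`fm_bd`: entries at most `2^k 2^k`.
`pt_bd`: `|h|^(i+1) + ∑_{i' ≤ i} C δ^(i'+1) choose (i+1) (i'+1) δ^(i-i') ≤ δ^(i+1) (1 + C 2^(i+1))`, `2^(i+1) ≤ 2^k`.
`pt_sub`: `|pt k h c i| ≤ h^(i+1) + C ∑_{i' ≤ i} choose (i+1) (i'+1) δ'^(i'+1) h^(i-i') = h^(i+1) + C ((h+δ')^(i+1) - h^(i+1)) ≤ C (h+δ')^(i+1)`.
`UU_grow`: in the same way `≤ h^(i+1) + C ((h+δ)^(i+1) - h^(i+1))` and `(h+δ)^(i+1) - h^(i+1) ≤ (i+1) δ (h+δ)^i ≤ k δ (2^c δ)^i`,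
so the sum is at most `(2^c δ)^(i+1) + C k 2^(-c) (2^c δ)^(i+1) ≤ 2 (2^c δ)^(i+1)`.
-/

set_option autoImplicit false

namespace Pool.Agent.Dcp

open MeasureTheory Finset
open scoped ENNReal

/-- the frame as a matrix -/
noncomputable def fm (k : ℕ) (t : ℝ) : Matrix (Fin k) (Fin k) ℝ := fun i j => fr k t i j

theorem pt_eq (k : ℕ) (t : ℝ) (c : E k) : pt k t c = mc k t + (fm k t).transpose.mulVec c := by
  funext j
  simp only [pt, Pi.add_apply, Matrix.mulVec, dotProduct, Matrix.transpose_apply, fm]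
  congr 1
  exact Finset.sum_congr rfl fun i _ => mul_comm _ _

/-- a linear functional on polynomials with values `1, c_0, c_1, …` at the monomials -/
private noncomputable def fraL {k : ℕ} (c : E k) (p : Polynomial ℝ) : ℝ :=
  p.coeff 0 + ∑ i : Fin k, c i * p.coeff (i.val + 1)

private theorem fraL_add {k : ℕ} (c : E k) (p q : Polynomial ℝ) : fraL c (p + q) = fraL c p + fraL c q := by
  unfold fraL
  simp only [Polynomial.coeff_add, mul_add, Finset.sum_add_distrib]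
  ring

private theorem fraL_smul {k : ℕ} (c : E k) (r : ℝ) (p : Polynomial ℝ) :
    fraL c (Polynomial.C r * p) = r * fraL c p := by
  unfold fraL
  simp only [Polynomial.coeff_C_mul, mul_add, Finset.mul_sum]
  congr 1
  exact Finset.sum_congr rfl fun i _ => by ring

private theorem fraL_pt {k : ℕ} (c : E k) (t : ℝ) (j : Fin k) :
    fraL c ((Polynomial.X + Polynomial.C t) ^ (j.val + 1)) = pt k t c j := by
  unfold fraL pt mc fr
  simp only [Polynomial.coeff_X_add_C_pow, Nat.sub_zero, Nat.choose_zero_right, Nat.cast_one, mul_one]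
  congr 1
  refine Finset.sum_congr rfl fun i _ => ?_
  rw [Nat.add_sub_add_right]
  ring

private theorem fraL_mono {k : ℕ} (c : E k) (j : Fin k) : fraL c (Polynomial.X ^ (j.val + 1)) = c j := by
  unfold fraL
  rw [Finset.sum_eq_single j]
  · simp [Polynomial.coeff_X_pow]
  · intro i _ hi
    rw [Polynomial.coeff_X_pow, if_neg, mul_zero]
    intro h
    exact hi (Fin.ext (by omega))
  · intro h
    exact absurd (Finset.mem_univ j) h

private theorem fraL_one {k : ℕ} (c : E k) : fraL c 1 = 1 := by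
  unfold fraL
  rw [Finset.sum_eq_zero]
  · simp
  · intro i _
    rw [Polynomial.coeff_one, if_neg (by omega), mul_zero]

private theorem fraL_comp {k : ℕ} (c : E k) (h : ℝ) (p : Polynomial ℝ) (hp : p.natDegree ≤ k) :
    fraL (pt k h c) p = fraL c (p.comp (Polynomial.X + Polynomial.C h)) := by
  refine Polynomial.induction_with_natDegree_le
    (fun p => fraL (pt k h c) p = fraL c (p.comp (Polynomial.X + Polynomial.C h))) k ?_ ?_ ?_ p hp
  · have h0 : ∀ c : E k, fraL c 0 = 0 := by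
      intro c
      unfold fraL
      simp
    rw [Polynomial.zero_comp, h0, h0]
  · intro n r _ hn
    rw [Polynomial.mul_comp, Polynomial.C_comp, Polynomial.X_pow_comp, fraL_smul, fraL_smul]
    rcases n with _ | n
    · rw [pow_zero, pow_zero, fraL_one, fraL_one]
    · have hk : n < k := by omega
      rw [fraL_mono (pt k h c) ⟨n, hk⟩, fraL_pt c h ⟨n, hk⟩]
  · intro f g _ _ hf hg
    rw [Polynomial.add_comp, fraL_add, fraL_add, hf, hg]

theorem pt_add (k : ℕ) (t h : ℝ) (c : E k) : pt k (t + h) c = pt k t (pt k h c) := by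
  funext j
  rw [← fraL_pt, ← fraL_pt, fraL_comp]
  · congr 1
    rw [Polynomial.pow_comp, Polynomial.add_comp, Polynomial.X_comp, Polynomial.C_comp, add_assoc,
      ← Polynomial.C_add, add_comm h t]
  · refine (Polynomial.natDegree_pow_le).trans ?_
    rw [Polynomial.natDegree_X_add_C, mul_one]
    exact j.isLt

theorem pt_zero (k : ℕ) (c : E k) : pt k 0 c = c := by
  funext j
  rw [← fraL_pt, Polynomial.C_0, add_zero, fraL_mono]

private theorem fra_lin (k : ℕ) (t : ℝ) (c : E k) :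
    (fm k t).transpose.mulVec ((fm k (-t)).transpose.mulVec c) = c := by
  have h1 : ∀ c : E k, mc k t + ((fm k t).transpose.mulVec (mc k (-t)) +
      (fm k t).transpose.mulVec ((fm k (-t)).transpose.mulVec c)) = c := by
    intro c
    have h2 := pt_add k t (-t) c
    rw [add_neg_cancel, pt_zero, pt_eq k (-t), pt_eq k t, Matrix.mulVec_add] at h2
    exact h2.symm
  have h3 := h1 0
  rw [Matrix.mulVec_zero, Matrix.mulVec_zero, add_zero] at h3
  have h4 := h1 c
  rw [← add_assoc, h3, zero_add] at h4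
  exact h4

theorem fm_inv (k : ℕ) (t : ℝ) : fm k t * fm k (-t) = 1 := by
  have h1 : (fm k t * fm k (-t)).transpose = 1 := by
    rw [Matrix.transpose_mul, Matrix.ext_iff_mulVec]
    intro v
    rw [← Matrix.mulVec_mulVec, Matrix.one_mulVec]
    have h2 := fra_lin k (-t) v
    rw [neg_neg] at h2
    exact h2
  rw [← Matrix.transpose_transpose (fm k t * fm k (-t)), h1, Matrix.transpose_one]

theorem fm_det (k : ℕ) (t : ℝ) : (fm k t).det = 1 := by
  rw [Matrix.det_of_upperTriangular]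
  · refine Finset.prod_eq_one fun i _ => ?_
    unfold fm fr
    simp
  · intro i j hij
    have : j.val < i.val := hij
    unfold fm fr
    rw [Nat.choose_eq_zero_of_lt (by omega), Nat.cast_zero, zero_mul]

private theorem fra_choose (n m : ℕ) : (n.choose m : ℝ) ≤ 2 ^ n := by
  have h : n.choose m ≤ 2 ^ n := by
    rcases Nat.lt_or_ge n m with h | h
    · rw [Nat.choose_eq_zero_of_lt h]
      exact Nat.zero_le _
    · rw [← Nat.sum_range_choose]
      exact Finset.single_le_sum (f := fun m => n.choose m) (fun _ _ => Nat.zero_le _)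
        (Finset.mem_range.2 (by omega))
  exact_mod_cast h

theorem fm_bd (k : ℕ) {t ρ : ℝ} (ht : |t| ≤ 2) {u : E k} (hu : ∀ i, |u i| ≤ ρ) (i : Fin k) :
    |(fm k t).transpose.mulVec u i| ≤ k * 4 ^ k * ρ := by
  have hρ : 0 ≤ ρ := (abs_nonneg _).trans (hu i)
  simp only [Matrix.mulVec, dotProduct, Matrix.transpose_apply, fm]
  refine (Finset.abs_sum_le_sum_abs _ _).trans ?_
  have h1 : ∀ j ∈ (Finset.univ : Finset (Fin k)), |fr k t j i * u j| ≤ 4 ^ k * ρ := by
    intro j _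
    rw [abs_mul]
    refine mul_le_mul ?_ (hu j) (abs_nonneg _) (by positivity)
    unfold fr
    rw [abs_mul, abs_pow, Nat.abs_cast]
    have h2 : ((i.val + 1).choose (j.val + 1) : ℝ) ≤ 2 ^ k :=
      (fra_choose _ _).trans (pow_le_pow_right₀ (by norm_num) i.isLt)
    have h3 : |t| ^ (i.val - j.val) ≤ 2 ^ k :=
      (pow_le_pow_left₀ (abs_nonneg _) ht _).trans (pow_le_pow_right₀ (by norm_num) (by omega))
    calc ((i.val + 1).choose (j.val + 1) : ℝ) * |t| ^ (i.val - j.val) ≤ 2 ^ k * 2 ^ k :=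
          mul_le_mul h2 h3 (by positivity) (by positivity)
      _ = 4 ^ k := by rw [← mul_pow]; norm_num
  refine (Finset.sum_le_sum h1).trans ?_
  rw [Finset.sum_const, Finset.card_univ, Fintype.card_fin, nsmul_eq_mul]
  exact le_of_eq (by ring)

theorem pt_err (k : ℕ) (t : ℝ) (c e : E k) :
    pt k t c + e = pt k t (c + (fm k (-t)).transpose.mulVec e) := by
  rw [pt_eq, pt_eq, Matrix.mulVec_add, fra_lin, add_assoc]

theorem pt_homog (k : ℕ) {lam : ℝ} (hl : 0 < lam) (t : ℝ) (c : E k) (i : Fin k) :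
    pt k (lam * t) c i = lam ^ (i.val + 1) * pt k t (fun j => c j / lam ^ (j.val + 1)) i := by
  unfold pt mc fr
  rw [mul_add, mul_pow, Finset.mul_sum]
  congr 1
  refine Finset.sum_congr rfl fun j _ => ?_
  rcases Nat.lt_or_ge i.val j.val with h | h
  · rw [Nat.choose_eq_zero_of_lt (by omega)]
    simp
  · have h1 : lam ^ (i.val + 1) = lam ^ (i.val - j.val) * lam ^ (j.val + 1) := by
      rw [← pow_add]
      congr 1
      omega
    rw [h1, mul_pow]
    field_simp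

/-- binomial theorem in the frame -/
private theorem fra_binom (k : ℕ) (h x : ℝ) (i : Fin k) :
    ∑ j : Fin k, x ^ (j.val + 1) * fr k h j i = (h + x) ^ (i.val + 1) - h ^ (i.val + 1) := by
  have h1 : ∀ y : ℝ, pt k y 0 = mc k y := by
    intro y
    funext j
    unfold pt
    simp
  have h2 := congrFun (pt_add k h x 0) i
  rw [h1, h1] at h2
  unfold pt mc at h2
  linarith

private theorem fra_abs (k : ℕ) {C h x : ℝ} {c : E k}
    (hc : ∀ i, |c i| ≤ C * x ^ (i.val + 1)) (i : Fin k) :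
    |pt k h c i| ≤ |h| ^ (i.val + 1) + C * ((|h| + x) ^ (i.val + 1) - |h| ^ (i.val + 1)) := by
  unfold pt
  refine (abs_add_le _ _).trans (add_le_add (le_of_eq ?_) ?_)
  · unfold mc
    rw [abs_pow]
  · rw [← fra_binom, Finset.mul_sum]
    refine (Finset.abs_sum_le_sum_abs _ _).trans (Finset.sum_le_sum fun j _ => ?_)
    have h1 : |fr k h j i| = fr k |h| j i := by
      unfold fr
      rw [abs_mul, abs_pow, Nat.abs_cast]
    have h2 : 0 ≤ fr k |h| j i := by
      rw [← h1]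
      exact abs_nonneg _
    rw [abs_mul, h1, ← mul_assoc]
    exact mul_le_mul_of_nonneg_right (hc j) h2

theorem pt_bd (k : ℕ) {C h δ : ℝ} (hC : 0 ≤ C) (hh : |h| ≤ δ) {c : E k}
    (hc : ∀ i, |c i| ≤ C * δ ^ (i.val + 1)) (i : Fin k) :
    |pt k h c i| ≤ (1 + C) * 2 ^ k * δ ^ (i.val + 1) := by
  have hδ : 0 ≤ δ := (abs_nonneg _).trans hh
  refine (fra_abs k hc i).trans ?_
  have h1 : |h| ^ (i.val + 1) ≤ δ ^ (i.val + 1) := pow_le_pow_left₀ (abs_nonneg _) hh _
  have h2 : (|h| + δ) ^ (i.val + 1) ≤ 2 ^ k * δ ^ (i.val + 1) := by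
    calc (|h| + δ) ^ (i.val + 1) ≤ (2 * δ) ^ (i.val + 1) :=
          pow_le_pow_left₀ (add_nonneg (abs_nonneg _) hδ) (by linarith) _
      _ = 2 ^ (i.val + 1) * δ ^ (i.val + 1) := mul_pow _ _ _
      _ ≤ 2 ^ k * δ ^ (i.val + 1) :=
          mul_le_mul_of_nonneg_right (pow_le_pow_right₀ (by norm_num) i.isLt) (pow_nonneg hδ _)
  have h3 : 0 ≤ |h| ^ (i.val + 1) := pow_nonneg (abs_nonneg _) _
  have h4 : (1 : ℝ) ≤ 2 ^ k := one_le_pow₀ (by norm_num)
  have h5 : δ ^ (i.val + 1) ≤ 2 ^ k * δ ^ (i.val + 1) := le_mul_of_one_le_left (pow_nonneg hδ _) h4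
  have h6 : C * ((|h| + δ) ^ (i.val + 1) - |h| ^ (i.val + 1)) ≤ C * (2 ^ k * δ ^ (i.val + 1)) :=
    mul_le_mul_of_nonneg_left (by linarith) hC
  calc _ ≤ 2 ^ k * δ ^ (i.val + 1) + C * (2 ^ k * δ ^ (i.val + 1)) := by linarith
    _ = (1 + C) * 2 ^ k * δ ^ (i.val + 1) := by ring

theorem pt_sub (k : ℕ) {C h δ' δ : ℝ} (hC : 1 ≤ C) (h0 : 0 ≤ h) (hδ' : 0 ≤ δ') (hh : h + δ' ≤ δ)
    {c : E k} (hc : ∀ i, |c i| ≤ C * δ' ^ (i.val + 1)) (i : Fin k) :
    |pt k h c i| ≤ C * δ ^ (i.val + 1) := by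
  have h1 := fra_abs k (h := h) hc i
  rw [abs_of_nonneg h0] at h1
  have h2 : h ^ (i.val + 1) ≤ C * h ^ (i.val + 1) := le_mul_of_one_le_left (pow_nonneg h0 _) hC
  have h3 : C * (h + δ') ^ (i.val + 1) ≤ C * δ ^ (i.val + 1) :=
    mul_le_mul_of_nonneg_left (pow_le_pow_left₀ (by linarith) hh _) (by linarith)
  linarith

theorem UU_sub (k : ℕ) {C t h δ' δ : ℝ} (hC : 1 ≤ C) (h0 : 0 ≤ h) (hδ' : 0 ≤ δ')
    (hh : h + δ' ≤ δ) : UU k C (t + h) δ' ⊆ UU k C t δ := by
  rintro ξ ⟨c, hc, rfl⟩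
  exact ⟨pt k h c, fun i => pt_sub k hC h0 hδ' hh hc i, pt_add k t h c⟩

private theorem fra_pow {h δ : ℝ} (h0 : 0 ≤ h) (hδ : 0 ≤ δ) (n : ℕ) :
    (h + δ) ^ (n + 1) - h ^ (n + 1) ≤ (n + 1) * δ * (h + δ) ^ n := by
  induction n with
  | zero => simp
  | succ n ih =>
    have h1 : h ^ (n + 1) ≤ (h + δ) ^ (n + 1) := pow_le_pow_left₀ h0 (by linarith) _
    have h2 : (h + δ) ^ (n + 1 + 1) - h ^ (n + 1 + 1) =
        (h + δ) * ((h + δ) ^ (n + 1) - h ^ (n + 1)) + δ * h ^ (n + 1) := by ring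
    rw [h2]
    have h3 : (h + δ) * ((h + δ) ^ (n + 1) - h ^ (n + 1)) ≤ (h + δ) * ((n + 1) * δ * (h + δ) ^ n) :=
      mul_le_mul_of_nonneg_left ih (by linarith)
    have h4 : δ * h ^ (n + 1) ≤ δ * (h + δ) ^ (n + 1) := mul_le_mul_of_nonneg_left h1 hδ
    calc _ ≤ (h + δ) * ((n + 1) * δ * (h + δ) ^ n) + δ * (h + δ) ^ (n + 1) := add_le_add h3 h4
      _ = (((n + 1 : ℕ) : ℝ) + 1) * δ * (h + δ) ^ (n + 1) := by
          push_cast
          ring

theorem UU_grow (k : ℕ) {C t h δ : ℝ} {c : ℕ} (hC : 1 ≤ C) (hc : C * k ≤ 2 ^ c) (h0 : 0 ≤ h)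
    (hδ : 0 ≤ δ) (hh : h + δ ≤ 2 ^ c * δ) : UU k C (t + h) δ ⊆ UU k 2 t (2 ^ c * δ) := by
  rintro ξ ⟨c', hc', rfl⟩
  refine ⟨pt k h c', fun i => ?_, pt_add k t h c'⟩
  have h1 := fra_abs k (h := h) hc' i
  rw [abs_of_nonneg h0] at h1
  refine h1.trans ?_
  have hD : 0 ≤ 2 ^ c * δ := by positivity
  have h2 : h ^ (i.val + 1) ≤ (2 ^ c * δ) ^ (i.val + 1) := pow_le_pow_left₀ h0 (by linarith) _
  have h3 := fra_pow h0 hδ i.val
  have h4 : (h + δ) ^ i.val ≤ (2 ^ c * δ) ^ i.val := pow_le_pow_left₀ (by linarith) hh _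
  have h5 : ((i.val : ℝ) + 1) ≤ k := by exact_mod_cast i.isLt
  have h6 : C * ((h + δ) ^ (i.val + 1) - h ^ (i.val + 1)) ≤ (2 ^ c * δ) ^ (i.val + 1) := by
    calc C * ((h + δ) ^ (i.val + 1) - h ^ (i.val + 1)) ≤ C * (((i.val : ℝ) + 1) * δ * (h + δ) ^ i.val) :=
          mul_le_mul_of_nonneg_left h3 (by linarith)
      _ ≤ C * (k * δ * (2 ^ c * δ) ^ i.val) := by
          refine mul_le_mul_of_nonneg_left ?_ (by linarith)
          exact mul_le_mul (mul_le_mul_of_nonneg_right h5 hδ) h4 (pow_nonneg (by linarith) _)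
            (by positivity)
      _ = (C * k) * (δ * (2 ^ c * δ) ^ i.val) := by ring
      _ ≤ 2 ^ c * (δ * (2 ^ c * δ) ^ i.val) := mul_le_mul_of_nonneg_right hc (by positivity)
      _ = (2 ^ c * δ) ^ (i.val + 1) := by rw [pow_succ (2 ^ c * δ)]; ring
  linarith

end Pool.Agent.Dcp
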