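import Pool.Agent.Dcp.Fra

/-!
# Dcp, module GM: the frames of the curve `(s^(r+1), …, s^(r+l))`

`gm r l s i j = choose (r+j+1) (i+1) s^(r+j-i)`, and for `s ≠ 0` this is `s^(-(i+1)) choose (r+j+1) (i+1) s^(r+j+1)`, so
`gm s = D₁(s) gm(1) D₂(s)` with diagonal matrices.
`gm_one`: `gm(1)` is invertible: if `∑_j choose (r+j+1) (i+1) u_j = 0` for all `i < l`, let `Q = ∑_j u_j X^(r+j+1)` (a real
polynomial); its (Hasse) derivatives of order `1, …, l` vanish at `1`, so the polynomial `Q' = X^r Q₁`, `deg Q₁ < l`, has a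
zero of order `≥ l` at `1`; `(X-1)^l` is coprime to `X^r`, so divides `Q₁`, hence `Q₁ = 0` and all `u_j = 0`.
(Any other proof is welcome, for example by Pascal's rule and induction on `l`, or reduction to a Vandermonde determinant:
`choose (r+j+1) (i+1)` is `(r+j+1)` times a polynomial of degree exactly `i` in `j`.)
`H = (gm(s)ᵀ)⁻¹ = D₁⁻¹ (gm(1)ᵀ)⁻¹ D₂⁻¹`, entries `s^(i+1) A_ij s^(-(r+j+1))`, at most `max |A| κ^(-(r+l))` (`κ ≤ 1`, since `κ ≤ |s| ≤ 1`).
-/

set_option autoImplicit false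

namespace Pool.Agent.Dcp

open MeasureTheory Finset
open scoped ENNReal

/-- the frame of the projected curve -/
noncomputable def gm (r l : ℕ) (s : ℝ) : Matrix (Fin l) (Fin l) ℝ :=
  fun i j => fr (r + l) s (Fin.castLE (Nat.le_add_left l r) i) (Fin.natAdd r j)

private theorem GM_apply (r l : ℕ) (s : ℝ) (i j : Fin l) :
    gm r l s i j = (Nat.choose (r + j.val + 1) (i.val + 1) : ℝ) * s ^ (r + j.val - i.val) := rfl

theorem gm_one (r l : ℕ) : (gm r l 1).det ≠ 0 := by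
  intro hdet
  obtain ⟨u, hu0, hu⟩ := Matrix.exists_mulVec_eq_zero_iff.2 hdet
  apply hu0
  have hsum : ∀ i : Fin l, ∑ j : Fin l, (Nat.choose (r + j.val + 1) (i.val + 1) : ℝ) * u j = 0 := by
    intro i
    have h1 := congrFun hu i
    rw [Matrix.mulVec, dotProduct] at h1
    rw [← show (0 : Fin l → ℝ) i = 0 from rfl, ← h1]
    refine Finset.sum_congr rfl fun j _ => ?_
    rw [GM_apply, one_pow, mul_one]
  -- the polynomial
  set Q : Polynomial ℝ := ∑ j : Fin l, Polynomial.C (((r + j.val + 1 : ℕ) : ℝ) * u j) * Polynomial.X ^ j.val with hQ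
  have hcoef : ∀ j : Fin l, Q.coeff j.val = ((r + j.val + 1 : ℕ) : ℝ) * u j := by
    intro j
    rw [hQ, Polynomial.finsetSum_coeff, Finset.sum_eq_single j]
    · rw [Polynomial.coeff_C_mul_X_pow, if_pos rfl]
    · intro b _ hb
      rw [Polynomial.coeff_C_mul_X_pow, if_neg]
      intro h
      exact hb (Fin.ext h.symm)
    · intro h
      exact absurd (Finset.mem_univ j) h
  have hdeg : Q.degree < (l : WithBot ℕ) := by
    rw [hQ]
    refine (Polynomial.degree_sum_fin_lt _)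
  have hcomp : (Polynomial.X : Polynomial ℝ) ^ l ∣ (Polynomial.X ^ r * Q).comp (Polynomial.X + Polynomial.C 1) := by
    rw [Polynomial.X_pow_dvd_iff]
    intro i hi
    have h1 : (Polynomial.X ^ r * Q).comp (Polynomial.X + Polynomial.C 1) =
        ∑ j : Fin l, Polynomial.C (((r + j.val + 1 : ℕ) : ℝ) * u j) *
          (Polynomial.X + Polynomial.C 1) ^ (r + j.val) := by
      rw [hQ, Polynomial.mul_comp, Polynomial.sum_comp, Finset.mul_sum]
      refine Finset.sum_congr rfl fun j _ => ?_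
      rw [Polynomial.mul_comp, Polynomial.C_comp, Polynomial.X_pow_comp, Polynomial.X_pow_comp, pow_add]
      ring
    rw [h1, Polynomial.finsetSum_coeff]
    have h2 : ∀ j : Fin l, (Polynomial.C (((r + j.val + 1 : ℕ) : ℝ) * u j) *
          (Polynomial.X + Polynomial.C 1) ^ (r + j.val)).coeff i =
          ((i + 1 : ℕ) : ℝ) * ((Nat.choose (r + j.val + 1) (i + 1) : ℝ) * u j) := by
      intro j
      rw [Polynomial.coeff_C_mul, Polynomial.coeff_X_add_C_pow, one_pow, one_mul]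
      have h3 : ((r + j.val + 1 : ℕ) : ℝ) * (Nat.choose (r + j.val) i : ℝ) =
          (Nat.choose (r + j.val + 1) (i + 1) : ℝ) * ((i + 1 : ℕ) : ℝ) := by
        exact_mod_cast Nat.add_one_mul_choose_eq (r + j.val) i
      calc ((r + j.val + 1 : ℕ) : ℝ) * u j * (Nat.choose (r + j.val) i : ℝ)
          = (((r + j.val + 1 : ℕ) : ℝ) * (Nat.choose (r + j.val) i : ℝ)) * u j := by ring
        _ = _ := by rw [h3]; ring
    rw [Finset.sum_congr rfl fun j _ => h2 j, ← Finset.mul_sum, hsum ⟨i, hi⟩, mul_zero]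
  have hdvd : (Polynomial.X - Polynomial.C (1 : ℝ)) ^ l ∣ Polynomial.X ^ r * Q :=
    Polynomial.X_sub_C_pow_dvd_iff.2 hcomp
  have hcop : IsCoprime ((Polynomial.X - Polynomial.C (1 : ℝ)) ^ l) (Polynomial.X ^ r) := by
    refine IsCoprime.pow ?_
    refine ⟨-1, 1, ?_⟩
    rw [Polynomial.C_1]
    ring
  have hdvd2 : (Polynomial.X - Polynomial.C (1 : ℝ)) ^ l ∣ Q := hcop.dvd_of_dvd_mul_left hdvd
  have hQ0 : Q = 0 := by
    by_contra hne
    have h1 := Polynomial.degree_le_of_dvd hdvd2 hne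
    rw [Polynomial.degree_pow, Polynomial.degree_X_sub_C, nsmul_one] at h1
    exact absurd (lt_of_le_of_lt h1 hdeg) (lt_irrefl _)
  funext j
  have h1 := hcoef j
  rw [hQ0, Polynomial.coeff_zero] at h1
  have h2 : ((r + j.val + 1 : ℕ) : ℝ) ≠ 0 := by positivity
  exact (mul_eq_zero.1 h1.symm).resolve_left h2

private theorem GM_scale (r l : ℕ) (s : ℝ) (i j : Fin l) :
    gm r l s i j * s ^ (i.val + 1) = gm r l 1 i j * s ^ (r + j.val + 1) := by
  rw [GM_apply, GM_apply, one_pow, mul_one, mul_assoc]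
  by_cases h : i.val ≤ r + j.val
  · rw [← pow_add]
    congr 2
    omega
  · rw [Nat.choose_eq_zero_of_lt (by omega)]
    simp

theorem gm_inv (r l : ℕ) {κ : ℝ} (hκ : 0 < κ) : ∃ C : ℝ, 0 ≤ C ∧ ∀ s : ℝ, κ ≤ |s| → |s| ≤ 1 →
    ∃ H : Matrix (Fin l) (Fin l) ℝ, H * (gm r l s).transpose = 1 ∧ H.det ≠ 0 ∧
      ∀ i j, |H i j| ≤ C := by
  set B : Matrix (Fin l) (Fin l) ℝ := (gm r l 1).transpose⁻¹ with hB
  have hunit : IsUnit (gm r l 1).transpose.det := by
    rw [Matrix.det_transpose]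
    exact isUnit_iff_ne_zero.2 (gm_one r l)
  have hBm : B * (gm r l 1).transpose = 1 := Matrix.nonsing_inv_mul _ hunit
  refine ⟨(∑ i, ∑ j, |B i j|) * (κ⁻¹ ^ (r + l)), by positivity, fun s hs1 hs2 => ?_⟩
  have hs0 : s ≠ 0 := by
    intro h
    rw [h, abs_zero] at hs1
    exact absurd (lt_of_lt_of_le hκ hs1) (lt_irrefl _)
  have hκ1 : κ ≤ 1 := hs1.trans hs2
  set H : Matrix (Fin l) (Fin l) ℝ := fun i j => s ^ (i.val + 1) * B i j * (s ^ (r + j.val + 1))⁻¹ with hH
  have hmul : H * (gm r l s).transpose = 1 := by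
    ext i k
    rw [Matrix.mul_apply]
    have h1 : ∀ j : Fin l, H i j * (gm r l s).transpose j k =
        (s ^ (i.val + 1) * (s ^ (k.val + 1))⁻¹) * (B i j * (gm r l 1).transpose j k) := by
      intro j
      rw [Matrix.transpose_apply, Matrix.transpose_apply, hH]
      have h2 := GM_scale r l s k j
      have h3 : s ^ (k.val + 1) ≠ 0 := pow_ne_zero _ hs0
      have h4 : s ^ (r + j.val + 1) ≠ 0 := pow_ne_zero _ hs0
      have h5 : gm r l s k j = gm r l 1 k j * s ^ (r + j.val + 1) * (s ^ (k.val + 1))⁻¹ := by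
        rw [← h2, mul_inv_cancel_right₀ h3]
      show s ^ (i.val + 1) * B i j * (s ^ (r + j.val + 1))⁻¹ * gm r l s k j = _
      rw [h5]
      calc s ^ (i.val + 1) * B i j * (s ^ (r + j.val + 1))⁻¹ *
          (gm r l 1 k j * s ^ (r + j.val + 1) * (s ^ (k.val + 1))⁻¹)
          = (s ^ (i.val + 1) * (s ^ (k.val + 1))⁻¹) * (B i j * gm r l 1 k j) *
            ((s ^ (r + j.val + 1))⁻¹ * s ^ (r + j.val + 1)) := by ring
        _ = _ := by rw [inv_mul_cancel₀ h4, mul_one]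
    rw [Finset.sum_congr rfl fun j _ => h1 j, ← Finset.mul_sum, ← Matrix.mul_apply, hBm]
    by_cases hik : i = k
    · rw [hik, Matrix.one_apply_eq, mul_one, mul_inv_cancel₀ (pow_ne_zero _ hs0)]
    · rw [Matrix.one_apply_ne hik, mul_zero]
  refine ⟨H, hmul, ?_, ?_⟩
  · intro h0
    have h1 := congrArg Matrix.det hmul
    rw [Matrix.det_mul, h0, zero_mul, Matrix.det_one] at h1
    exact zero_ne_one h1
  · intro i j
    rw [hH]
    show |s ^ (i.val + 1) * B i j * (s ^ (r + j.val + 1))⁻¹| ≤ _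
    rw [abs_mul, abs_mul, abs_inv, abs_pow, abs_pow]
    have h1 : |s| ^ (i.val + 1) ≤ 1 := pow_le_one₀ (abs_nonneg s) hs2
    have h2 : |B i j| ≤ ∑ i, ∑ j, |B i j| := by
      calc |B i j| ≤ ∑ j, |B i j| :=
            Finset.single_le_sum (f := fun j => |B i j|) (fun _ _ => abs_nonneg _) (Finset.mem_univ j)
        _ ≤ _ := Finset.single_le_sum (f := fun i => ∑ j, |B i j|)
            (fun _ _ => Finset.sum_nonneg fun _ _ => abs_nonneg _) (Finset.mem_univ i)
    have h3 : (|s| ^ (r + j.val + 1))⁻¹ ≤ κ⁻¹ ^ (r + l) := by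
      rw [inv_pow]
      apply inv_anti₀ (pow_pos hκ _)
      calc κ ^ (r + l) ≤ κ ^ (r + j.val + 1) := pow_le_pow_of_le_one hκ.le hκ1 (by have := j.isLt; omega)
        _ ≤ |s| ^ (r + j.val + 1) := pow_le_pow_left₀ hκ.le hs1 _
    have h4 : |s| ^ (i.val + 1) * |B i j| ≤ ∑ i, ∑ j, |B i j| := by
      calc |s| ^ (i.val + 1) * |B i j| ≤ 1 * |B i j| := mul_le_mul_of_nonneg_right h1 (abs_nonneg _)
        _ = |B i j| := one_mul _
        _ ≤ _ := h2
    exact mul_le_mul h4 h3 (by positivity) (le_trans (abs_nonneg _) h2)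

end Pool.Agent.Dcp
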