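import Pool.Agent.Dcp.Defs

/-!
# Dcp, module Itr: the exponents of the iteration

`S n = ∑_{l=1}^{k-1} AA k n l`.  `S (n+1) = ∑_{l=1}^{k-1} (1/l) A_{k-l} + ∑_{l=1}^{k-1} ((k-l)/(k-l+1)) A_{l-1}`
`= ∑_{j=1}^{k-1} (1/(k-j)) A_j + (k-1)/k + ∑_{j=1}^{k-2} ((k-j-1)/(k-j)) A_j = S n + (k-1)/k`
(`j = k - l` in the first sum, `j = l - 1` in the second; for `j = k-1` the missing term of the second sum is `0`).  So `S n ≥ n (k-1)/k ≥ n/2`
and some `l` has `AA k n l ≥ S n/(k-1)`.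
-/

set_option autoImplicit false

namespace Pool.Agent.Dcp

open MeasureTheory Finset
open scoped ENNReal

/-- the exponents of the iteration -/
noncomputable def AA (k : ℕ) : ℕ → ℕ → ℝ
  | 0, l => if l = 0 then 1 else 0
  | n + 1, l => if l = 0 then 1 else
      (1 / (l : ℝ)) * AA k n (k - l) + (((k : ℝ) - l) / ((k : ℝ) - l + 1)) * AA k n (l - 1)

theorem AA_zero_right (k n : ℕ) : AA k n 0 = 1 := by
  cases n <;> simp [AA]

theorem AA_succ_succ (k n l : ℕ) : AA k (n + 1) (l + 1) =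
    (1 / ((l : ℝ) + 1)) * AA k n (k - (l + 1)) + (((k : ℝ) - (l + 1)) / ((k : ℝ) - (l + 1) + 1)) * AA k n l := by
  simp [AA]

theorem AA_sum_succ (K n : ℕ) :
    ∑ i ∈ range K, AA (K + 1) (n + 1) (i + 1) = ∑ i ∈ range K, AA (K + 1) n (i + 1) + (K : ℝ) / (K + 1) := by
  have e1 : ∑ i ∈ range K, (1 / ((i : ℝ) + 1)) * AA (K + 1) n (K + 1 - (i + 1)) =
      ∑ i ∈ range K, (1 / ((K : ℝ) - i)) * AA (K + 1) n (i + 1) := by
    rw [← Finset.sum_range_reflect (fun i => (1 / ((K : ℝ) - i)) * AA (K + 1) n (i + 1))]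
    apply Finset.sum_congr rfl
    intro i hi
    rw [Finset.mem_range] at hi
    have h1 : ((K - 1 - i : ℕ) : ℝ) = (K : ℝ) - 1 - i := by
      rw [Nat.cast_sub (by omega), Nat.cast_sub (by omega)]
      simp
    have h2 : K - 1 - i + 1 = K + 1 - (i + 1) := by omega
    rw [h1, h2]
    congr 2
    ring
  have e2 : ∑ i ∈ range K, ((((K + 1 : ℕ) : ℝ) - (i + 1)) / (((K + 1 : ℕ) : ℝ) - (i + 1) + 1)) * AA (K + 1) n i =
      ∑ i ∈ range K, (((K : ℝ) - (i + 1)) / ((K : ℝ) - i)) * AA (K + 1) n (i + 1) + (K : ℝ) / (K + 1) := by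
    have h1 := Finset.sum_range_succ (fun i : ℕ => (((K : ℝ) - i) / ((K : ℝ) - i + 1)) * AA (K + 1) n i) K
    rw [Finset.sum_range_succ'] at h1
    simp only [Nat.cast_zero, sub_zero, AA_zero_right, mul_one, sub_self, zero_div, zero_mul, add_zero] at h1
    have h2 : ∑ i ∈ range K, ((((K + 1 : ℕ) : ℝ) - (i + 1)) / (((K + 1 : ℕ) : ℝ) - (i + 1) + 1)) * AA (K + 1) n i =
        ∑ i ∈ range K, (((K : ℝ) - i) / ((K : ℝ) - i + 1)) * AA (K + 1) n i := by
      apply Finset.sum_congr rfl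
      intro i _
      push_cast
      congr 2
      · ring
      · ring
    rw [h2, ← h1]
    congr 1
    apply Finset.sum_congr rfl
    intro i _
    push_cast
    congr 2
    ring
  have e3 : ∑ i ∈ range K, AA (K + 1) (n + 1) (i + 1) =
      ∑ i ∈ range K, (1 / ((i : ℝ) + 1)) * AA (K + 1) n (K + 1 - (i + 1)) +
      ∑ i ∈ range K, ((((K + 1 : ℕ) : ℝ) - (i + 1)) / (((K + 1 : ℕ) : ℝ) - (i + 1) + 1)) * AA (K + 1) n i := by
    rw [← Finset.sum_add_distrib]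
    apply Finset.sum_congr rfl
    intro i _
    rw [AA_succ_succ]
  rw [e3, e1, e2, ← add_assoc, ← Finset.sum_add_distrib]
  congr 1
  apply Finset.sum_congr rfl
  intro i hi
  rw [Finset.mem_range] at hi
  have h1 : (K : ℝ) - i ≠ 0 := by
    have : (i : ℝ) < K := by exact_mod_cast hi
    linarith
  rw [← add_mul, ← add_div]
  rw [show (1 : ℝ) + ((K : ℝ) - (i + 1)) = (K : ℝ) - i by ring, div_self h1, one_mul]

theorem AA_sum_ge (K n : ℕ) : (n : ℝ) * ((K : ℝ) / (K + 1)) ≤ ∑ i ∈ range K, AA (K + 1) n (i + 1) := by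
  induction n with
  | zero => simp [AA]
  | succ n ih =>
    rw [AA_sum_succ]
    push_cast
    linarith

theorem aa_grow (k : ℕ) (hk : 2 ≤ k) (T : ℝ) :
    ∃ n l : ℕ, 1 ≤ l ∧ l < k ∧ T ≤ AA k n l := by
  obtain ⟨K, rfl⟩ : ∃ K, k = K + 1 := ⟨k - 1, by omega⟩
  by_contra hcon
  push Not at hcon
  obtain ⟨n, hn⟩ := exists_nat_gt (T * (K + 1))
  have h1 := AA_sum_ge K n
  have h2 : ∑ i ∈ range K, AA (K + 1) n (i + 1) ≤ ∑ _i ∈ range K, T := by
    apply Finset.sum_le_sum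
    intro i hi
    rw [Finset.mem_range] at hi
    exact (hcon n (i + 1) (by omega) (by omega)).le
  rw [Finset.sum_const, Finset.card_range, nsmul_eq_mul] at h2
  have hK : (1 : ℝ) ≤ K := by exact_mod_cast (by omega : 1 ≤ K)
  have h3 : (n : ℝ) * ((K : ℝ) / (K + 1)) ≤ K * T := h1.trans h2
  rw [mul_div_assoc', div_le_iff₀ (by linarith)] at h3
  have h4 : (n : ℝ) * K ≤ (T * (K + 1)) * K := by linarith
  have h5 := le_of_mul_le_mul_right h4 (by linarith)
  linarith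

end Pool.Agent.Dcp
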