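import Pool.Agent.Dcp.Snc

/-!
# Dcp, module Kr: reproducing kernels

`kr_one`: `K` is the inverse Fourier transform of a smooth function with compact support, equal to `1` on `[-1, 1]` and to `0`
outside `[-2, 2]` (`Real.smoothTransition` or `ContDiffBump` on `ℝ`), a Schwartz function
(`HasCompactSupport.toSchwartzMap` or by hand, `SchwartzMap.fourierTransformCLE`, `SchwartzMap.decay`); the Fourier inversion
formula gives the two integrals (`ee (-(ξ v)) = 𝐞 (-(v ξ))`, `Real.fourierIntegral_eq`).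
`kr_prod`: `K v = ∏ K₁ (v i)`, with `M ≥ p`: `‖K₁ v‖ ≤ C/(1 + v²)^M ≤ C/(1+v²)^p ≤ C' ph v ^ p` (`ph_lo`);
`K v * ee (-(ξ ⬝ᵥ v)) = ∏ (K₁ (v i) * ee (-(ξ i * v i)))` and `integral_fintype_prod_eq_prod`.
-/

set_option autoImplicit false

namespace Pool.Agent.Dcp

open MeasureTheory Finset
open scoped ENNReal

theorem kr_one : ∃ K : ℝ → ℂ, Continuous K ∧ Integrable K ∧
    (∀ M : ℕ, ∃ C : ℝ, ∀ v, ‖K v‖ ≤ C / (1 + v ^ 2) ^ M) ∧
    (∀ ξ : ℝ, |ξ| ≤ 1 → ∫ v, K v * ee (-(ξ * v)) = 1) ∧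
    ∀ ξ : ℝ, 2 ≤ |ξ| → ∫ v, K v * ee (-(ξ * v)) = 0 := by
  classical
  let b : ContDiffBump (0 : ℝ) := ⟨1, 2, one_pos, by norm_num⟩
  have hsm : ContDiff ℝ (((⊤ : ℕ∞) : WithTop ℕ∞)) (fun x : ℝ => ((b x : ℝ) : ℂ)) :=
    Complex.ofRealCLM.contDiff.comp b.contDiff
  have hcs : HasCompactSupport (fun x : ℝ => ((b x : ℝ) : ℂ)) := by
    have := b.hasCompactSupport
    exact this.comp_left (g := fun y : ℝ => (y : ℂ)) (by simp)
  let φ : SchwartzMap ℝ ℂ := hcs.toSchwartzMap hsm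
  have hφ : ∀ x : ℝ, φ x = ((b x : ℝ) : ℂ) := fun x => rfl
  let K : SchwartzMap ℝ ℂ := FourierTransformInv.fourierInv φ
  have hK : FourierTransform.fourier K = φ := FourierInvPair.fourier_fourierInv_eq φ
  have key : ∀ ξ : ℝ, ∫ v, K v * ee (-(ξ * v)) = ((b ξ : ℝ) : ℂ) := by
    intro ξ
    rw [← hφ ξ, ← hK, SchwartzMap.fourier_coe, Real.fourier_real_eq]
    refine integral_congr_ae (Filter.Eventually.of_forall fun v => ?_)
    simp only [Circle.smul_def, Real.fourierChar_apply, ee, smul_eq_mul]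
    rw [mul_comm]
    congr 2
    push_cast
    ring
  refine ⟨K, K.continuous, K.integrable, ?_, ?_, ?_⟩
  · intro M
    refine ⟨2 ^ (2 * M) * ((Finset.Iic ((2 * M, 0) : ℕ × ℕ)).sup
      fun m => SchwartzMap.seminorm ℝ m.1 m.2) K, fun v => ?_⟩
    have h1 := SchwartzMap.one_add_le_sup_seminorm_apply (𝕜 := ℝ) (m := ((2 * M, 0) : ℕ × ℕ))
      (k := 2 * M) (n := 0) le_rfl le_rfl K v
    have h2 : (1 + v ^ 2) ^ M ≤ (1 + ‖v‖) ^ (2 * M) := by
      rw [pow_mul]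
      refine pow_le_pow_left₀ (by positivity) ?_ _
      have : v ^ 2 = ‖v‖ ^ 2 := by simp
      rw [this]
      nlinarith [norm_nonneg v]
    rw [le_div_iff₀ (by positivity)]
    rw [norm_iteratedFDeriv_zero] at h1
    calc ‖K v‖ * (1 + v ^ 2) ^ M ≤ ‖K v‖ * (1 + ‖v‖) ^ (2 * M) := by gcongr
      _ = (1 + ‖v‖) ^ (2 * M) * ‖K v‖ := mul_comm _ _
      _ ≤ _ := h1
  · intro ξ hξ
    rw [key, b.one_of_mem_closedBall]
    · simp
    · simpa [Metric.mem_closedBall, b] using hξ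
  · intro ξ hξ
    rw [key, b.zero_of_le_dist]
    · simp
    · simpa [b] using hξ

theorem kr_ee_add (s t : ℝ) : ee (s + t) = ee s * ee t := by
  simp only [ee]
  rw [← Complex.exp_add]
  congr 1
  push_cast
  ring

theorem kr_ee_sum {ι : Type*} (s : Finset ι) (t : ι → ℝ) : ee (∑ i ∈ s, t i) = ∏ i ∈ s, ee (t i) := by
  classical
  induction s using Finset.induction_on with
  | empty => simp [ee]
  | insert a s ha ih => rw [Finset.sum_insert ha, Finset.prod_insert ha, kr_ee_add, ih]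

theorem kr_prod (l : ℕ) (p : ℝ) : ∃ (K : E l → ℂ) (C : ℝ), Continuous K ∧ Integrable K ∧ 0 < C ∧
    (∀ v, ‖K v‖ ≤ C * Ph v ^ p) ∧
    ∀ ξ : E l, (∀ i, |ξ i| ≤ 1) → ∫ v, K v * ee (-(ξ ⬝ᵥ v)) = 1 := by
  obtain ⟨K₁, hc, hi, hd, h1, -⟩ := kr_one
  obtain ⟨M, hM⟩ := exists_nat_ge p
  obtain ⟨C₀, hC₀⟩ := hd M
  obtain ⟨c, hc0, hlo⟩ := ph_lo
  have hCpos : 0 ≤ C₀ := by
    have := hC₀ 0
    simp at this
    exact (norm_nonneg _).trans this
  -- one-dimensional bound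
  obtain ⟨C₁, hC₁, hb⟩ : ∃ C₁ : ℝ, 0 < C₁ ∧ ∀ v, ‖K₁ v‖ ≤ C₁ * ph v ^ p := by
    rcases le_or_gt 0 p with hp | hp
    · refine ⟨(C₀ + 1) / c ^ p, by positivity, fun v => ?_⟩
      have h2 : (c / (1 + v ^ 2)) ^ p ≤ ph v ^ p :=
        Real.rpow_le_rpow (by positivity) (hlo v) hp
      have h3 : (1 + v ^ 2) ^ p ≤ (1 + v ^ 2) ^ M := by
        rw [← Real.rpow_natCast (1 + v ^ 2) M]
        exact Real.rpow_le_rpow_of_exponent_le (show (1:ℝ) ≤ 1 + v ^ 2 by have := sq_nonneg v; linarith) hM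
      calc ‖K₁ v‖ ≤ C₀ / (1 + v ^ 2) ^ M := hC₀ v
        _ ≤ (C₀ + 1) / (1 + v ^ 2) ^ p := by
            apply div_le_div₀ (by positivity) (by linarith) (by positivity) h3
        _ = (C₀ + 1) / c ^ p * (c / (1 + v ^ 2)) ^ p := by
            rw [Real.div_rpow hc0.le (by positivity)]
            field_simp
        _ ≤ (C₀ + 1) / c ^ p * ph v ^ p := by gcongr
    · -- p < 0
      obtain ⟨C₂, hC₂, hhi⟩ := ph_hi
      obtain ⟨C₃, hC₃⟩ := hd 0
      refine ⟨(|C₃| + 1) / C₂ ^ p, by positivity, fun v => ?_⟩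
      have h2 : ph v ≤ C₂ := (hhi v).trans (by
        apply div_le_self hC₂.le; nlinarith [sq_nonneg v])
      have h3 : C₂ ^ p ≤ ph v ^ p := Real.rpow_le_rpow_of_nonpos (ph_pos v) h2 hp.le
      have h4 : ‖K₁ v‖ ≤ C₃ := by simpa using hC₃ v
      calc ‖K₁ v‖ ≤ C₃ := h4
        _ ≤ |C₃| + 1 := (le_abs_self _).trans (by linarith)
        _ = (|C₃| + 1) / C₂ ^ p * C₂ ^ p := by field_simp
        _ ≤ (|C₃| + 1) / C₂ ^ p * ph v ^ p := by gcongr
  refine ⟨fun v => ∏ i, K₁ (v i), C₁ ^ l, ?_, ?_, by positivity, ?_, ?_⟩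
  · exact continuous_finsetProd _ fun i _ => hc.comp (continuous_apply i)
  · exact Integrable.fintype_prod (f := fun _ : Fin l => K₁) (μ := fun _ => volume) fun _ => hi
  · intro v
    rw [norm_prod, Ph, ← Real.finsetProd_rpow _ _ (fun i _ => (ph_pos _).le)]
    calc ∏ i, ‖K₁ (v i)‖ ≤ ∏ i : Fin l, (C₁ * ph (v i) ^ p) :=
          Finset.prod_le_prod (fun i _ => norm_nonneg _) fun i _ => hb _
      _ = C₁ ^ l * ∏ i, ph (v i) ^ p := by
          rw [Finset.prod_mul_distrib]; simp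
  · intro ξ hξ
    have : (fun v : E l => (∏ i, K₁ (v i)) * ee (-(ξ ⬝ᵥ v))) =
        fun v : E l => ∏ i, (K₁ (v i) * ee (-(ξ i * v i))) := by
      funext v
      rw [Finset.prod_mul_distrib, ← kr_ee_sum, Finset.sum_neg_distrib]
      rfl
    rw [this, integral_fintype_prod_volume_eq_prod (fun i (x : ℝ) => K₁ x * ee (-(ξ i * x)))]
    exact Finset.prod_eq_one fun i _ => h1 _ (hξ i)

end Pool.Agent.Dcp
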