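import Pool.Agent.Dcp.Kr

/-!
# Dcp, module LocC: local constancy

`K, C₀` from `kr_prod l p`.  Let `κ v = (2/R)^l K (2 v / R) ee (ξ0 ⬝ᵥ v)`.  For `|ξ_i - ξ0_i| ≤ 2/R`:
`∫ κ v ee (-(ξ ⬝ᵥ v)) = ∫ K v ee (-((ξ - ξ0) R/2 ⬝ᵥ v)) = 1` (scaling), so by `spec_rep` `f x = ∫ κ v f (x - v)`.
`‖κ v‖ₑ ≤ C₁ psi l p R v` (`Ph (2 v / R) ≤ C Ph (v / R)`: `1/(1 + 4 w²) ≤ 1/(1 + w²)` with `ph_hi`, `ph_lo`).
With `I = ∫ psi l p R = ∫ psi l p 1 < ∞`: `‖f x‖ₑ ≤ C₁ ∫ ‖f (x - v)‖ₑ psi`, and by Hölder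
(`ENNReal.lintegral_mul_le_Lp_mul_Lq` with `psi = psi^(1/q) psi^(1-1/q)`, or Jensen) `‖f x‖ₑ^q ≤ C₁^q I^(q-1) ∫ ‖f (x-v)‖ₑ^q psi`.
-/

set_option autoImplicit false

namespace Pool.Agent.Dcp

open MeasureTheory Finset
open scoped ENNReal

private theorem locC_ph2 (l : ℕ) : ∃ C : ℝ, 0 < C ∧ ∀ w : E l,
    Ph (fun i => 2 * w i) ≤ C * Ph w := by
  obtain ⟨c, hc, hlo⟩ := ph_lo
  obtain ⟨C, hC, hhi⟩ := ph_hi
  refine ⟨(C / c) ^ l, by positivity, fun w => ?_⟩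
  have h1 : ∀ x : ℝ, ph (2 * x) ≤ C / c * ph x := by
    intro x
    have h2 := hhi (2 * x)
    have h3 : C / (1 + (2 * x) ^ 2) ≤ C / (1 + x ^ 2) := by
      refine div_le_div_of_nonneg_left hC.le (by positivity) ?_
      nlinarith [sq_nonneg x]
    have h4 : C / (1 + x ^ 2) = C / c * (c / (1 + x ^ 2)) := by
      field_simp
    have h5 : C / c * (c / (1 + x ^ 2)) ≤ C / c * ph x :=
      mul_le_mul_of_nonneg_left (hlo x) (by positivity)
    linarith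
  unfold Ph
  have h6 : ∏ i : Fin l, ph (2 * w i) ≤ ∏ i : Fin l, (C / c * ph (w i)) :=
    Finset.prod_le_prod (fun i _ => (ph_pos _).le) (fun i _ => h1 (w i))
  rw [Finset.prod_mul_distrib, Finset.prod_const, Finset.card_univ, Fintype.card_fin] at h6
  exact h6

private theorem locC_jensen {l : ℕ} {q : ℝ} (hq : 1 ≤ q) {F : E l → ℂ} (hF : Continuous F)
    {w : E l → ℝ≥0∞} (hw : Measurable w) :
    (∫⁻ v, ‖F v‖ₑ * w v) ^ q ≤ (∫⁻ v, w v) ^ (q - 1) * ∫⁻ v, ‖F v‖ₑ ^ q * w v := by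
  have hq0 : 0 < q := by linarith
  have h1 := eLpNorm'_le_eLpNorm'_mul_rpow_measure_univ (μ := (volume : Measure (E l)).withDensity w)
    (f := F) zero_lt_one hq hF.aestronglyMeasurable
  have hm1 : Measurable fun v => ‖F v‖ₑ := hF.measurable.enorm
  have h2 : eLpNorm' F 1 ((volume : Measure (E l)).withDensity w) = ∫⁻ v, ‖F v‖ₑ * w v := by
    rw [eLpNorm'_eq_lintegral_enorm]
    simp only [ENNReal.rpow_one, div_one]
    rw [lintegral_withDensity_eq_lintegral_mul _ hw hm1]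
    refine lintegral_congr fun v => ?_
    rw [Pi.mul_apply, mul_comm]
  have h3 : eLpNorm' F q ((volume : Measure (E l)).withDensity w) =
      (∫⁻ v, ‖F v‖ₑ ^ q * w v) ^ (1 / q) := by
    rw [eLpNorm'_eq_lintegral_enorm, lintegral_withDensity_eq_lintegral_mul _ hw (hm1.pow_const q)]
    congr 1
    refine lintegral_congr fun v => ?_
    rw [Pi.mul_apply, mul_comm]
  have h4 : (volume : Measure (E l)).withDensity w Set.univ = ∫⁻ v, w v := by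
    rw [withDensity_apply _ MeasurableSet.univ, Measure.restrict_univ]
  rw [h2, h3, h4] at h1
  have h5 := ENNReal.rpow_le_rpow h1 hq0.le
  refine h5.trans (le_of_eq ?_)
  rw [ENNReal.mul_rpow_of_nonneg _ _ hq0.le, ← ENNReal.rpow_mul, ← ENNReal.rpow_mul,
    one_div_mul_cancel hq0.ne', ENNReal.rpow_one, mul_comm]
  congr 2
  field_simp

private theorem locC_kap (l : ℕ) {K : E l → ℂ} (hKc : Continuous K) (hKi : Integrable K)
    (hK1 : ∀ ξ : E l, (∀ i, |ξ i| ≤ 1) → ∫ v, K v * ee (-(ξ ⬝ᵥ v)) = 1)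
    {s : ℝ} (hs : 0 < s) (ξ0 : E l) :
    Continuous (fun v : E l => ((s ^ l : ℝ) : ℂ) * K (s • v) * ee (ξ0 ⬝ᵥ v)) ∧
    Integrable (fun v : E l => ((s ^ l : ℝ) : ℂ) * K (s • v) * ee (ξ0 ⬝ᵥ v)) ∧
    ∀ ξ : E l, (∀ i, |ξ i - ξ0 i| ≤ s) →
      ∫ v, ((s ^ l : ℝ) : ℂ) * K (s • v) * ee (ξ0 ⬝ᵥ v) * ee (-(ξ ⬝ᵥ v)) = 1 := by
  have hd : Continuous fun v : E l => ξ0 ⬝ᵥ v := by
    unfold dotProduct
    exact continuous_finsetSum _ fun i _ => continuous_const.mul (continuous_apply i)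
  have hcont : Continuous (fun v : E l => ((s ^ l : ℝ) : ℂ) * K (s • v) * ee (ξ0 ⬝ᵥ v)) :=
    (continuous_const.mul (hKc.comp (continuous_const_smul s))).mul (ee_cont.comp hd)
  refine ⟨hcont, ?_, ?_⟩
  · have h1 : Integrable (fun v : E l => K (s • v)) := hKi.comp_smul hs.ne'
    refine Integrable.mono' (h1.norm.const_mul (s ^ l)) hcont.aestronglyMeasurable ?_
    refine Filter.Eventually.of_forall fun v => ?_
    rw [norm_mul, norm_mul, ee_norm, mul_one, Complex.norm_real, Real.norm_eq_abs,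
      abs_of_pos (pow_pos hs l)]
  · intro ξ hξ
    have h1 : ∀ v : E l, ((s ^ l : ℝ) : ℂ) * K (s • v) * ee (ξ0 ⬝ᵥ v) * ee (-(ξ ⬝ᵥ v)) =
        ((s ^ l : ℝ) : ℂ) * (K (s • v) * ee (-((s⁻¹ • (ξ - ξ0)) ⬝ᵥ (s • v)))) := by
      intro v
      have h2 : -((s⁻¹ • (ξ - ξ0)) ⬝ᵥ (s • v)) = ξ0 ⬝ᵥ v + -(ξ ⬝ᵥ v) := by
        rw [smul_dotProduct, dotProduct_smul, sub_dotProduct, smul_eq_mul, smul_eq_mul,
          inv_mul_cancel_left₀ hs.ne']
        ring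
      rw [h2, ee_add]
      ring
    simp only [h1]
    rw [integral_const_mul]
    have h3 := Measure.integral_comp_smul (volume : Measure (E l))
      (fun v : E l => K v * ee (-((s⁻¹ • (ξ - ξ0)) ⬝ᵥ v))) s
    rw [h3, hK1, Module.finrank_fin_fun, abs_of_pos (by positivity : (0 : ℝ) < (s ^ l)⁻¹)]
    · rw [Complex.real_smul, mul_one, ← Complex.ofReal_mul, mul_inv_cancel₀ (pow_pos hs l).ne',
        Complex.ofReal_one]
    · intro i
      rw [Pi.smul_apply, Pi.sub_apply, smul_eq_mul, abs_mul, abs_of_pos (inv_pos.2 hs)]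
      have h4 := mul_le_mul_of_nonneg_left (hξ i) (inv_pos.2 hs).le
      rwa [inv_mul_cancel₀ hs.ne'] at h4

theorem loc_const (l : ℕ) {p q : ℝ} (hp : 1 ≤ p) (hq : 1 ≤ q) : ∃ C : ℝ≥0∞, C ≠ ⊤ ∧
    ∀ (R : ℝ) (ξ0 : E l) (f : E l → ℂ), 0 < R → Spec {ξ : E l | ∀ i, |ξ i - ξ0 i| ≤ 2 / R} f →
      ∀ x, ‖f x‖ₑ ^ q ≤ C * ∫⁻ w, ‖f (x - w)‖ₑ ^ q * psi l p R w := by
  obtain ⟨K, C0, hKc, hKi, hC0, hKb, hK1⟩ := kr_prod l p
  obtain ⟨C2, hC2, hPh⟩ := locC_ph2 l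
  have hp0 : 0 ≤ p := by linarith
  have hq0 : 0 ≤ q := by linarith
  refine ⟨ENNReal.ofReal (2 ^ l * C0 * C2 ^ p) ^ q * (∫⁻ w, psi l p 1 w) ^ (q - 1), ?_, ?_⟩
  · exact ENNReal.mul_ne_top (ENNReal.rpow_ne_top_of_nonneg hq0 ENNReal.ofReal_ne_top)
      (ENNReal.rpow_ne_top_of_nonneg (by linarith) (psi_fin l hp))
  intro R ξ0 f hR hf x
  have hs : 0 < 2 / R := by positivity
  obtain ⟨hκc, hκi, hκ1⟩ := locC_kap l hKc hKi hK1 hs ξ0
  have hrep := spec_rep hf hκi (c := 1) (fun ξ hξ => hκ1 ξ hξ) x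
  rw [one_mul] at hrep
  have hfc : Continuous f := spec_cont hf
  have hκb : ∀ v : E l, ‖(((2 / R) ^ l : ℝ) : ℂ) * K ((2 / R) • v) * ee (ξ0 ⬝ᵥ v)‖ₑ ≤
      ENNReal.ofReal (2 ^ l * C0 * C2 ^ p) * psi l p R v := by
    intro v
    rw [← ofReal_norm_eq_enorm, norm_mul, norm_mul, ee_norm, mul_one, Complex.norm_real,
      Real.norm_eq_abs, abs_of_pos (pow_pos hs l)]
    unfold psi
    rw [← ENNReal.ofReal_mul (by positivity)]
    refine ENNReal.ofReal_le_ofReal ?_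
    have h1 := hKb ((2 / R) • v)
    have h2 : Ph ((2 / R) • v) ≤ C2 * Ph (fun i => v i / R) := by
      have h3 := hPh (fun i => v i / R)
      have h4 : (fun i => 2 * (v i / R)) = (2 / R) • v := by
        funext i
        rw [Pi.smul_apply, smul_eq_mul]
        ring
      rwa [h4] at h3
    have h5 : Ph ((2 / R) • v) ^ p ≤ C2 ^ p * Ph (fun i => v i / R) ^ p := by
      rw [← Real.mul_rpow hC2.le (Ph_pos _).le]
      exact Real.rpow_le_rpow (Ph_pos _).le h2 hp0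
    have h6 : ‖K ((2 / R) • v)‖ ≤ C0 * (C2 ^ p * Ph (fun i => v i / R) ^ p) :=
      h1.trans (mul_le_mul_of_nonneg_left h5 hC0.le)
    refine (mul_le_mul_of_nonneg_left h6 (pow_pos hs l).le).trans (le_of_eq ?_)
    rw [div_eq_mul_inv, mul_pow]
    ring
  have h1 : ‖f x‖ₑ ≤ ENNReal.ofReal (2 ^ l * C0 * C2 ^ p) * ∫⁻ v, ‖f (x - v)‖ₑ * psi l p R v := by
    rw [← hrep]
    refine (enorm_integral_le_lintegral_enorm _).trans ?_
    rw [← lintegral_const_mul' _ _ ENNReal.ofReal_ne_top]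
    refine lintegral_mono fun v => ?_
    rw [enorm_mul]
    refine (mul_le_mul_left (hκb v) ‖f (x - v)‖ₑ).trans (le_of_eq ?_)
    ring
  have h2 := ENNReal.rpow_le_rpow h1 hq0
  rw [ENNReal.mul_rpow_of_nonneg _ _ hq0] at h2
  have hFc : Continuous fun v : E l => f (x - v) := hfc.comp (continuous_const.sub continuous_id)
  have h3 := locC_jensen hq hFc (psi_meas l p R)
  rw [psi_int l hR] at h3
  exact h2.trans ((mul_le_mul_right h3 _).trans (le_of_eq (mul_assoc _ _ _).symm))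

end Pool.Agent.Dcp
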