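import Pool.Agent.Dcp.LN
import Pool.Agent.Dcp.LocC

/-!
# Dcp, module L1b: the two local inequalities of Lemma 1

`R = 2^(b (r+1))`, `k = r + l`.
`l1_loc`: by `spec_bs` the block sum has spectrum in `UU k 2 0 (2^(-b)) = {ξ | |ξ i| ≤ 2 · 2^(-b(i+1))}` (`pt_zero`), so its
restriction to the last `l` coordinates (`spec_fib`) in `{|ζ j| ≤ 2 · 2^(-b(r+j+1)) ≤ 2/R}`; `loc_const` with `ξ0 = 0`.
`l1_dec`: `G j' z' = bs (m-a') j' f (Fin.append y z') * Ph ((z' - z)/R)` for `j' ∈ bk (a'-a) i` has spectrum in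
`UG r l κ 2 (τ + j'/2^a') (1/2^a')`: `spec_bs`, `spec_fib`, `Ph_spec`, `spec_mul`; in the definition of `UG` take `s = τ + j'/2^a'`,
the coefficients `c` of the point of `UU (r+l) 2 s (1/2^a')`, and `e` from `Ph_spec`, `|e i| ≤ 1/R ≤ (1/2^a')^l` as `l a' ≤ (r+1) b`.
`ln_bk` (with `C = 2`); `∑_{j'} G j' = bs (m-a) i f (Fin.append y ·) * Ph` (`sum_nest`, `m - a = (m-a') + (a'-a)`), and
`‖G j' z'‖ₑ^p R^(-l) = ‖bs …‖ₑ^p psi l p R (z' - z)` with `p = P l`; multiply both sides by `R^(-l)`.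
-/

set_option autoImplicit false

namespace Pool.Agent.Dcp

open MeasureTheory Finset
open scoped ENNReal

private theorem P_two {l : ℕ} (hl : 1 ≤ l) : 2 ≤ P l := by
  have h : (1 : ℝ) ≤ l := by exact_mod_cast hl
  unfold P
  nlinarith

theorem l1_loc (r l : ℕ) (hl : 1 ≤ l) {q : ℝ} (hq : 1 ≤ q) : ∃ C : ℝ≥0∞, C ≠ ⊤ ∧
    ∀ (m b j : ℕ) (g : ℕ → E (r + l) → ℂ), b ≤ m → j < 2 ^ b →
      Fam (r + l) 2 (-((j : ℝ) / 2 ^ b)) 1 m g → ∀ (y : E r) (z : E l),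
        ‖bs (m - b) j g (Fin.append y z)‖ₑ ^ q ≤
          C * ∫⁻ w, ‖bs (m - b) j g (Fin.append y (z - w))‖ₑ ^ q *
            psi l (P l) (2 ^ (b * (r + 1))) w := by
  have hP := P_two hl
  obtain ⟨C, hC, h⟩ := loc_const l (p := P l) (q := q) (by linarith) hq
  refine ⟨C, hC, fun m b j g hb hj hg y z => ?_⟩
  refine h (2 ^ (b * (r + 1))) 0 (fun z => bs (m - b) j g (Fin.append y z)) (by positivity) ?_ z
  have h1 := spec_bs (C := 2) (lam := 1) one_le_two zero_le_one hg hb hj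
  have e0 : -((j : ℝ) / 2 ^ b) + 1 * ((j : ℝ) / 2 ^ b) = 0 := by ring
  rw [e0] at h1
  refine spec_mono (spec_fib h1 y) ?_
  rintro ζ ⟨ξ, ⟨c, hc, rfl⟩, rfl⟩ i
  rw [pt_zero]
  have h2 := hc (Fin.natAdd r i)
  simp only [Pi.zero_apply, sub_zero]
  refine h2.trans ?_
  have h3 : (1 / (2 : ℝ) ^ b) ^ ((Fin.natAdd r i).val + 1) ≤ (1 / (2 : ℝ) ^ b) ^ (r + 1) := by
    refine pow_le_pow_of_le_one (by positivity) ?_ ?_
    · rw [div_le_one (by positivity)]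
      exact one_le_pow₀ one_le_two
    · rw [Fin.val_natAdd]; omega
  have h4 : (2 : ℝ) / 2 ^ (b * (r + 1)) = 2 * (1 / (2 : ℝ) ^ b) ^ (r + 1) := by
    rw [one_div, inv_pow, ← pow_mul]; ring
  rw [h4]
  exact mul_le_mul_of_nonneg_left h3 zero_le_two

private theorem psi_nI {l : ℕ} {p R : ℝ} (hp : 0 ≤ p) (hR : 0 < R) (h : E l → ℂ) (z : E l) :
    ∫⁻ z', ‖h z'‖ₑ ^ p * psi l p R (z' - z) = ENNReal.ofReal (R⁻¹ ^ l) *
      nI p (fun z' => h z' * ((Ph (fun i => (z' i - z i) / R) : ℝ) : ℂ)) := by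
  unfold nI
  rw [← lintegral_const_mul' _ _ ENNReal.ofReal_ne_top]
  refine lintegral_congr fun z' => ?_
  have hpos : 0 < Ph (fun i => (z' i - z i) / R) := Ph_pos _
  have e1 : ‖((Ph (fun i => (z' i - z i) / R) : ℝ) : ℂ)‖ₑ =
      ENNReal.ofReal (Ph (fun i => (z' i - z i) / R)) := by
    rw [← ofReal_norm, Complex.norm_real, Real.norm_of_nonneg hpos.le]
  rw [enorm_mul, ENNReal.mul_rpow_of_nonneg _ _ hp, e1, ENNReal.ofReal_rpow_of_pos hpos]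
  unfold psi
  rw [ENNReal.ofReal_mul (by positivity)]
  simp only [Pi.sub_apply]
  ring

theorem l1_dec (r l : ℕ) (hl : 1 ≤ l) (hD : Adm l 0) {κ : ℝ} (hκ : 0 < κ) {ε : ℝ} (hε : 0 < ε) :
    ∃ K : ℝ≥0∞, K ≠ ⊤ ∧ ∀ (m a a' b i : ℕ) (τ : ℝ) (f : ℕ → E (r + l) → ℂ),
      a ≤ a' → a' ≤ m → l * a' ≤ (r + 1) * b → i < 2 ^ a → Fam (r + l) 2 τ 1 m f →
      (∀ j' ∈ bk (a' - a) i, κ ≤ |τ + (j' : ℝ) / 2 ^ a'| ∧ |τ + (j' : ℝ) / 2 ^ a'| ≤ 1) →
      ∀ (y : E r) (z : E l),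
        ∫⁻ z', ‖bs (m - a) i f (Fin.append y z')‖ₑ ^ P l *
            psi l (P l) (2 ^ (b * (r + 1))) (z' - z) ≤
          (K * 2 ^ (ε * a')) ^ P l * (∑ j' ∈ bk (a' - a) i,
            (∫⁻ z', ‖bs (m - a') j' f (Fin.append y z')‖ₑ ^ P l *
              psi l (P l) (2 ^ (b * (r + 1))) (z' - z)) ^ (2 / P l)) ^ (P l / 2) := by
  have hP := P_two hl
  have hP0 : 0 < P l := by linarith
  obtain ⟨K, hK, h⟩ := ln_bk r l hl hD hκ (C := 2) one_le_two hε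
  refine ⟨K, hK, fun m a a' b i τ f haa ham hlb hi hf hs y z => ?_⟩
  have hR : (0 : ℝ) < 2 ^ (b * (r + 1)) := by positivity
  set R : ℝ := 2 ^ (b * (r + 1)) with hRdef
  set G : ℕ → E l → ℂ := fun j' z' => bs (m - a') j' f (Fin.append y z') *
    ((Ph (fun i => (z' i - z i) / R) : ℝ) : ℂ) with hG
  have hspec : ∀ j ∈ bk (a' - a) i,
      Spec (UG r l κ 2 (τ + (j : ℝ) / 2 ^ a') (1 / 2 ^ a')) (G j) := by
    intro j hj
    have hj' : j < 2 ^ a' := bk_lt haa hi hj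
    have h1 := spec_bs (C := 2) (lam := 1) one_le_two zero_le_one hf ham hj'
    rw [one_mul] at h1
    refine spec_mul (spec_fib h1 y) (Ph_spec l hR z) ?_
    rintro ζ ⟨ξ, ⟨c, hc, rfl⟩, rfl⟩ η hη
    refine ⟨τ + (j : ℝ) / 2 ^ a', c, η, le_refl _, ?_, (hs j hj).1, (hs j hj).2, hc, ?_, ?_⟩
    · have : (0 : ℝ) ≤ 1 / 2 ^ a' := by positivity
      linarith
    · intro i'
      refine (hη i').trans ?_
      have h3 : (1 : ℝ) / R ≤ (1 / 2 ^ a') ^ l := by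
        rw [hRdef, one_div, one_div, inv_pow, ← pow_mul]
        refine inv_anti₀ (by positivity) (pow_le_pow_right₀ one_le_two ?_)
        rw [mul_comm a' l, mul_comm b (r + 1)]
        exact hlb
      have h4 : (0 : ℝ) ≤ (1 / 2 ^ a') ^ l := by positivity
      linarith
    · funext j'
      rfl
  have hmain := h a a' i τ G haa hi hspec
  have e1 : bs (a' - a) i G = fun z' => bs (m - a) i f (Fin.append y z') *
      ((Ph (fun i => (z' i - z i) / R) : ℝ) : ℂ) := by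
    funext z'
    have h5 := sum_nest (fun j => f j (Fin.append y z')) (m - a') (a' - a) i
    have h6 : m - a' + (a' - a) = m - a := by omega
    rw [h6] at h5
    simp only [bs, hG]
    rw [h5, Finset.sum_mul]
  rw [e1] at hmain
  set c : ℝ≥0∞ := ENNReal.ofReal (R⁻¹ ^ l) with hc
  have e2 : ∀ j' : ℕ, ∫⁻ z', ‖bs (m - a') j' f (Fin.append y z')‖ₑ ^ P l *
      psi l (P l) R (z' - z) = c * nI (P l) (G j') := fun j' =>
    psi_nI hP0.le hR (fun z' => bs (m - a') j' f (Fin.append y z')) z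
  rw [psi_nI hP0.le hR (fun z' => bs (m - a) i f (Fin.append y z')) z]
  simp only [e2]
  have e3 : (∑ j' ∈ bk (a' - a) i, (c * nI (P l) (G j')) ^ (2 / P l)) ^ (P l / 2) =
      c * S2 (P l) (bk (a' - a) i) G ^ (P l / 2) := by
    have e4 : ∑ j' ∈ bk (a' - a) i, (c * nI (P l) (G j')) ^ (2 / P l) =
        c ^ (2 / P l) * S2 (P l) (bk (a' - a) i) G := by
      unfold S2
      rw [Finset.mul_sum]
      exact Finset.sum_congr rfl fun j' _ => ENNReal.mul_rpow_of_nonneg _ _ (by positivity)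
    rw [e4, ENNReal.mul_rpow_of_nonneg _ _ (by positivity), ← ENNReal.rpow_mul]
    have e5 : 2 / P l * (P l / 2) = 1 := by field_simp
    rw [e5, ENNReal.rpow_one]
  rw [e3]
  calc c * nI (P l) (fun z' => bs (m - a) i f (Fin.append y z') *
        ((Ph (fun i => (z' i - z i) / R) : ℝ) : ℂ))
      ≤ c * ((K * 2 ^ (ε * a')) ^ P l * S2 (P l) (bk (a' - a) i) G ^ (P l / 2)) :=
        mul_le_mul_right hmain c
    _ = (K * 2 ^ (ε * a')) ^ P l * (c * S2 (P l) (bk (a' - a) i) G ^ (P l / 2)) := by ring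

end Pool.Agent.Dcp
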