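import Pool.Agent.Dcp.L1a
import Pool.Agent.Dcp.L1b

/-!
# Dcp, module L1: Lemma 1

Let `k = r + l`, `q = P k - P l ≥ 1`, `R = 2^(b(r+1))`, `C` from `l1_loc`, `K₀` from `l1_dec`, `Ψ = ∫ psi l (P l) R = ∫ psi l (P l) 1`
(`psi_int`, `psi_fin`).  Let `f, g` be families with base point `τ₀`, `i, j` the blocks.  `transport` from `τ₀` to `τ = -(j/2^b)`:
`f' j x = u x * f j (B x)` and `g'` in the same way; the left side and the `S2` do not change (`nI_lin`; for the left side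
`lint_mat` with `det B = 1`, `‖bs n i f' x‖ = ‖bs n i f (B x)‖`).  So let `τ₀ = τ`.
`lint_append` and `l1_abs` with `s = bk (a'-a) i`, `F y z = ‖bs (m-a) i f (Fin.append y z)‖ₑ`, `Fi i' y z = ‖bs (m-a') i' f (append y z)‖ₑ`,
`G y z = ‖bs (m-b) j g (append y z)‖ₑ`, `ψ = psi l (P l) R`, `D = K₀ 2^(ε a')`, `X = M^(P k) S2 (bk (m-b) j) g ^ (q/2)`,
`Y i' = S2 (P k) (bk (m-a') i') f`.  `h1` is `l1_loc`, `h2` is `l1_dec` (for `j' ∈ bk (a'-a) i`, `j'/2^a'` lies in `[i/2^a, (i+1)/2^a]`, so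
`κ ≤ |j'/2^a' - j/2^b| = |τ + j'/2^a'|`, and both numbers are in `[0, 1]`).  `h3`: `append y (z - w) = append y z - append 0 w`, so it
is the hypothesis `ML … a' b M` for `f` and the family `g` shifted by `append 0 w` (`fam_shift`, `nI_shift`) and the block `i' < 2^a'`
(`lint_append` again).  `∑ Y i' = S2 (bk (m-a) i) f` (`sum_nest`).
Constant: `C D^(P l) Ψ M^(P k) ≤ (K 2^(ε a') M)^(P k)` with `K = max 1 (C Ψ) * max 1 K₀` (`P l ≤ P k`, `1 ≤ P k`).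
-/

set_option autoImplicit false

namespace Pool.Agent.Dcp

open MeasureTheory Finset
open scoped ENNReal

theorem l1_cont_bs {k : ℕ} {C τ lam : ℝ} {m a i : ℕ} {f : ℕ → E k → ℂ} (hC : 1 ≤ C)
    (hl : 0 ≤ lam) (hf : Fam k C τ lam m f) (ha : a ≤ m) (hi : i < 2 ^ a) :
    Continuous (bs (m - a) i f) :=
  spec_cont (spec_bs hC hl hf ha hi)

theorem l1_P_two {l : ℕ} (hl : 1 ≤ l) : 2 ≤ P l := by
  unfold P
  have h : (1 : ℝ) ≤ (l : ℝ) := by exact_mod_cast hl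
  nlinarith

theorem l1_P_le (r l : ℕ) : P l ≤ P (r + l) := by
  unfold P
  have h1 : (0 : ℝ) ≤ (l : ℝ) := Nat.cast_nonneg l
  have h2 : (0 : ℝ) ≤ (r : ℝ) := Nat.cast_nonneg r
  push_cast
  nlinarith [mul_nonneg h1 h2]

theorem l1_P_sub {r l : ℕ} (hr : 1 ≤ r) (hl : 1 ≤ l) : 1 ≤ P (r + l) - P l := by
  unfold P
  have h1 : (1 : ℝ) ≤ (l : ℝ) := by exact_mod_cast hl
  have h2 : (1 : ℝ) ≤ (r : ℝ) := by exact_mod_cast hr
  push_cast
  nlinarith [mul_nonneg (sub_nonneg.2 h1) (sub_nonneg.2 h2)]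

/-- the dyadic rational of a subinterval -/
theorem l1_bk_loc {a a' i j : ℕ} (haa : a ≤ a') (hj : j ∈ bk (a' - a) i) :
    (i : ℝ) / 2 ^ a ≤ (j : ℝ) / 2 ^ a' ∧ ((j : ℝ) + 1) / 2 ^ a' ≤ ((i : ℝ) + 1) / 2 ^ a := by
  obtain ⟨h1, h2⟩ := mem_bk.1 hj
  have hp : (2 : ℝ) ^ a' = 2 ^ (a' - a) * 2 ^ a := by
    rw [← pow_add, Nat.sub_add_cancel haa]
  have h1' : (i : ℝ) * 2 ^ (a' - a) ≤ (j : ℝ) := by exact_mod_cast h1
  have h2' : (j : ℝ) + 1 ≤ ((i : ℝ) + 1) * 2 ^ (a' - a) := by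
    have : j + 1 ≤ (i + 1) * 2 ^ (a' - a) := h2
    exact_mod_cast this
  have hpos : (0 : ℝ) < 2 ^ a := by positivity
  have hpos' : (0 : ℝ) < 2 ^ (a' - a) := by positivity
  rw [hp]
  constructor
  · rw [div_le_div_iff₀ hpos (by positivity)]
    calc (i : ℝ) * (2 ^ (a' - a) * 2 ^ a) = (i * 2 ^ (a' - a)) * 2 ^ a := by ring
      _ ≤ (j : ℝ) * 2 ^ a := mul_le_mul_of_nonneg_right h1' hpos.le
  · rw [div_le_div_iff₀ (by positivity) hpos]
    calc ((j : ℝ) + 1) * 2 ^ a ≤ (((i : ℝ) + 1) * 2 ^ (a' - a)) * 2 ^ a :=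
          mul_le_mul_of_nonneg_right h2' hpos.le
      _ = ((i : ℝ) + 1) * (2 ^ (a' - a) * 2 ^ a) := by ring

/-- the algebra of the constants -/
theorem l1_const {p P' ε : ℝ} (hp : 0 ≤ p) (hP : 1 ≤ P') (hpP : p ≤ P') (hε : 0 < ε) (n : ℕ)
    (C Ψ K₀ : ℝ≥0∞) :
    C * (K₀ * 2 ^ (ε * n)) ^ p * Ψ ≤ (max 1 (C * Ψ) * max 1 K₀ * 2 ^ (ε * n)) ^ P' := by
  have hP0 : 0 ≤ P' := le_trans zero_le_one hP
  have h2 : (1 : ℝ≥0∞) ≤ 2 ^ (ε * n) := by
    have h : (1 : ℝ≥0∞) ≤ 2 := by norm_num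
    have := ENNReal.rpow_le_rpow_of_exponent_le h (show (0 : ℝ) ≤ ε * n by positivity)
    rwa [ENNReal.rpow_zero] at this
  rw [ENNReal.mul_rpow_of_nonneg _ _ hP0, ENNReal.mul_rpow_of_nonneg _ _ hP0,
    ENNReal.mul_rpow_of_nonneg _ _ hp]
  have e : C * (K₀ ^ p * (2 ^ (ε * n)) ^ p) * Ψ = (C * Ψ) * K₀ ^ p * (2 ^ (ε * n)) ^ p := by ring
  rw [e]
  have h3 : C * Ψ ≤ max 1 (C * Ψ) ^ P' := by
    calc C * Ψ ≤ max 1 (C * Ψ) := le_max_right _ _
      _ = max 1 (C * Ψ) ^ (1 : ℝ) := (ENNReal.rpow_one _).symm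
      _ ≤ max 1 (C * Ψ) ^ P' := ENNReal.rpow_le_rpow_of_exponent_le (le_max_left _ _) hP
  have h4 : K₀ ^ p ≤ max 1 K₀ ^ P' :=
    calc K₀ ^ p ≤ max 1 K₀ ^ p := ENNReal.rpow_le_rpow (le_max_right _ _) hp
      _ ≤ max 1 K₀ ^ P' := ENNReal.rpow_le_rpow_of_exponent_le (le_max_left _ _) hpP
  have h5 : ((2 : ℝ≥0∞) ^ (ε * n)) ^ p ≤ (2 ^ (ε * n)) ^ P' :=
    ENNReal.rpow_le_rpow_of_exponent_le h2 hpP
  gcongr

theorem l1_fin {C Ψ K₀ : ℝ≥0∞} (hC : C ≠ ⊤) (hΨ : Ψ ≠ ⊤) (hK : K₀ ≠ ⊤) :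
    max 1 (C * Ψ) * max 1 K₀ ≠ ⊤ := by
  apply ENNReal.mul_ne_top
  · exact (max_lt ENNReal.one_lt_top (ENNReal.mul_lt_top hC.lt_top hΨ.lt_top)).ne
  · exact (max_lt ENNReal.one_lt_top hK.lt_top).ne

/-- the case of the base point `-(j/2^b)` -/
theorem l1_core (r l : ℕ) (hr : 1 ≤ r) (hl : 1 ≤ l) (hD : Adm l 0) {κ : ℝ} (hκ : 0 < κ)
    {ε : ℝ} (hε : 0 < ε) : ∃ K : ℝ≥0∞, K ≠ ⊤ ∧ ∀ (m a a' b : ℕ) (M : ℝ≥0∞), a ≤ a' → a' ≤ m →
      b ≤ m → l * a' ≤ (r + 1) * b → ML (r + l) l κ m a' b M →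
        ∀ (f g : ℕ → E (r + l) → ℂ) (i j : ℕ), i < 2 ^ a → j < 2 ^ b →
          Fam (r + l) 2 (-((j : ℝ) / 2 ^ b)) 1 m f → Fam (r + l) 2 (-((j : ℝ) / 2 ^ b)) 1 m g →
          (∀ s t : ℝ, (i : ℝ) / 2 ^ a ≤ s → s ≤ (i + 1) / 2 ^ a → (j : ℝ) / 2 ^ b ≤ t →
            t ≤ (j + 1) / 2 ^ b → κ ≤ |s - t|) →
          ∫⁻ x, ‖bs (m - a) i f x‖ₑ ^ P l * ‖bs (m - b) j g x‖ₑ ^ (P (r + l) - P l) ≤
            (K * 2 ^ (ε * a') * M) ^ P (r + l) *
              S2 (P (r + l)) (bk (m - a) i) f ^ (P l / 2) *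
              S2 (P (r + l)) (bk (m - b) j) g ^ ((P (r + l) - P l) / 2) := by
  have hPl : 2 ≤ P l := l1_P_two hl
  have hPl0 : 0 ≤ P l := by linarith
  have hq : 1 ≤ P (r + l) - P l := l1_P_sub hr hl
  have hPk : 1 ≤ P (r + l) := by linarith
  have hPk0 : 0 ≤ P (r + l) := by linarith
  obtain ⟨C, hC, h1⟩ := l1_loc r l hl hq
  obtain ⟨K₀, hK₀, h2⟩ := l1_dec r l hl hD hκ hε
  have hΨ : ∫⁻ w, psi l (P l) 1 w ≠ ⊤ := psi_fin l (by linarith)
  refine ⟨max 1 (C * ∫⁻ w, psi l (P l) 1 w) * max 1 K₀, l1_fin hC hΨ hK₀, ?_⟩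
  intro m a a' b M haa ham hbm hlr hML f g i j hi hj hf hg hsep
  have ham0 : a ≤ m := le_trans haa ham
  set τ : ℝ := -((j : ℝ) / 2 ^ b) with hτ
  set q : ℝ := P (r + l) - P l with hqdef
  have hR : (0 : ℝ) < 2 ^ (b * (r + 1)) := by positivity
  have cf : Continuous (bs (m - a) i f) := l1_cont_bs one_le_two zero_le_one hf ham0 hi
  have cg : Continuous (bs (m - b) j g) := l1_cont_bs one_le_two zero_le_one hg hbm hj
  have hlt : ∀ i' ∈ bk (a' - a) i, i' < 2 ^ a' := fun i' hi' => bk_lt haa hi hi'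
  have cfi : ∀ i' ∈ bk (a' - a) i, Continuous (bs (m - a') i' f) := fun i' hi' =>
    l1_cont_bs one_le_two zero_le_one hf ham (hlt i' hi')
  have happ := append_cont r l
  have key := l1_abs (r := r) (l := l) (p := P l) (q := q) hPl (by linarith) (bk (a' - a) i)
    (fun y z => ‖bs (m - a) i f (Fin.append y z)‖ₑ)
    (fun y z => ‖bs (m - b) j g (Fin.append y z)‖ₑ)
    (fun i' y z => ‖bs (m - a') i' f (Fin.append y z)‖ₑ)
    (psi l (P l) (2 ^ (b * (r + 1))))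
    (cf.comp happ).enorm.measurable (cg.comp happ).enorm.measurable
    (fun i' hi' => ((cfi i' hi').comp happ).enorm.measurable)
    (psi_meas l (P l) _) (fun y z => enorm_ne_top) C (K₀ * 2 ^ (ε * a'))
    (M ^ P (r + l) * S2 (P (r + l)) (bk (m - b) j) g ^ (q / 2))
    (fun i' => S2 (P (r + l)) (bk (m - a') i') f)
    (fun y z => h1 m b j g hbm hj hg y z)
    (fun y z => h2 m a a' b i τ f haa ham hlr hi hf ?_ y z)
    ?_
  · rw [psi_int l hR] at key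
    have e1 : ∫⁻ x, ‖bs (m - a) i f x‖ₑ ^ P l * ‖bs (m - b) j g x‖ₑ ^ q =
        ∫⁻ y : E r, ∫⁻ z : E l, ‖bs (m - a) i f (Fin.append y z)‖ₑ ^ P l *
          ‖bs (m - b) j g (Fin.append y z)‖ₑ ^ q :=
      lint_append (fun x => ‖bs (m - a) i f x‖ₑ ^ P l * ‖bs (m - b) j g x‖ₑ ^ q)
        ((cf.enorm.measurable.pow_const _).mul (cg.enorm.measurable.pow_const _))
    have e2 : ∑ i' ∈ bk (a' - a) i, S2 (P (r + l)) (bk (m - a') i') f =
        S2 (P (r + l)) (bk (m - a) i) f := by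
      unfold S2
      have hm : m - a = (m - a') + (a' - a) := by omega
      rw [hm, sum_nest]
    rw [e1]
    rw [e2] at key
    refine le_trans key ?_
    have h3 := l1_const hPl0 hPk (l1_P_le r l) hε a' C (∫⁻ w, psi l (P l) 1 w) K₀
    rw [ENNReal.mul_rpow_of_nonneg _ _ hPk0]
    calc C * (K₀ * 2 ^ (ε * a')) ^ P l * (∫⁻ w, psi l (P l) 1 w) *
          (M ^ P (r + l) * S2 (P (r + l)) (bk (m - b) j) g ^ (q / 2)) *
          S2 (P (r + l)) (bk (m - a) i) f ^ (P l / 2)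
        = (C * (K₀ * 2 ^ (ε * a')) ^ P l * (∫⁻ w, psi l (P l) 1 w)) * M ^ P (r + l) *
          S2 (P (r + l)) (bk (m - a) i) f ^ (P l / 2) *
          S2 (P (r + l)) (bk (m - b) j) g ^ (q / 2) := by ring
      _ ≤ _ := by gcongr
  · intro j' hj'
    obtain ⟨b1, b2⟩ := l1_bk_loc haa hj'
    have hpos : (0 : ℝ) < 2 ^ a' := by positivity
    have hposb : (0 : ℝ) < 2 ^ b := by positivity
    have b3 : (j' : ℝ) / 2 ^ a' ≤ ((j' : ℝ) + 1) / 2 ^ a' := by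
      rw [div_le_div_iff_of_pos_right hpos]; linarith
    have b4 : (j : ℝ) / 2 ^ b ≤ ((j : ℝ) + 1) / 2 ^ b := by
      rw [div_le_div_iff_of_pos_right hposb]; linarith
    have e : |τ + (j' : ℝ) / 2 ^ a'| = |(j' : ℝ) / 2 ^ a' - (j : ℝ) / 2 ^ b| := by
      congr 1
      rw [hτ]; ring
    rw [e]
    refine ⟨hsep _ _ b1 (le_trans b3 b2) le_rfl b4, ?_⟩
    have c1 : 0 ≤ (j' : ℝ) / 2 ^ a' := by positivity
    have c2 : 0 ≤ (j : ℝ) / 2 ^ b := by positivity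
    have c3 : (j' : ℝ) / 2 ^ a' ≤ 1 := by
      rw [div_le_one hpos]
      have := (hlt j' hj').le
      exact_mod_cast this
    have c4 : (j : ℝ) / 2 ^ b ≤ 1 := by
      rw [div_le_one hposb]
      exact_mod_cast hj.le
    rw [abs_le]
    constructor <;> linarith
  · intro w i' hi'
    obtain ⟨b1, b2⟩ := l1_bk_loc haa hi'
    have hsep' : ∀ s t : ℝ, (i' : ℝ) / 2 ^ a' ≤ s → s ≤ (i' + 1) / 2 ^ a' → (j : ℝ) / 2 ^ b ≤ t →
        t ≤ (j + 1) / 2 ^ b → κ ≤ |s - t| := fun s t hs1 hs2 ht1 ht2 =>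
      hsep s t (le_trans b1 hs1) (le_trans hs2 b2) ht1 ht2
    have h3 := hML τ f (fun n x => g n (x - Fin.append 0 w)) hf (fam_shift hg _) i' j
      (hlt i' hi') hj hsep'
    have ebs : ∀ x, bs (m - b) j (fun n x => g n (x - Fin.append 0 w)) x =
        bs (m - b) j g (x - Fin.append 0 w) := fun x => rfl
    simp only [ebs] at h3
    have eS : S2 (P (r + l)) (bk (m - b) j) (fun n x => g n (x - Fin.append 0 w)) =
        S2 (P (r + l)) (bk (m - b) j) g := by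
      unfold S2
      refine Finset.sum_congr rfl fun n _ => ?_
      rw [nI_shift (Fin.append 0 w) (g n)]
    have csub : Continuous (fun x : E (r + l) => x - Fin.append (0 : E r) w) :=
      continuous_id.sub continuous_const
    have cgw : Continuous (fun x => bs (m - b) j g (x - Fin.append (0 : E r) w)) := cg.comp csub
    have m1 : Measurable (fun x => ‖bs (m - a') i' f x‖ₑ ^ P l) :=
      (cfi i' hi').enorm.measurable.pow_const _
    have m2 : Measurable (fun x => ‖bs (m - b) j g (x - Fin.append (0 : E r) w)‖ₑ ^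
        (P (r + l) - P l)) := cgw.enorm.measurable.pow_const _
    rw [eS, lint_append (fun x => ‖bs (m - a') i' f x‖ₑ ^ P l *
      ‖bs (m - b) j g (x - Fin.append (0 : E r) w)‖ₑ ^ (P (r + l) - P l)) (m1.mul m2)] at h3
    have eap : ∀ (y : E r) (z : E l), (Fin.append y z : E (r + l)) - Fin.append 0 w =
        Fin.append y (z - w) := by
      intro y z
      funext n
      induction n using Fin.addCases with
      | left n => simp only [Pi.sub_apply, Fin.append_left, Pi.zero_apply, sub_zero]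
      | right n => simp only [Pi.sub_apply, Fin.append_right]
    simp only [eap] at h3
    calc _ ≤ _ := h3
      _ = _ := by ring

theorem lemma_one (r l : ℕ) (hr : 1 ≤ r) (hl : 1 ≤ l) (hD : Adm l 0) {κ : ℝ} (hκ : 0 < κ)
    {ε : ℝ} (hε : 0 < ε) : ∃ K : ℝ≥0∞, K ≠ ⊤ ∧ ∀ (m a a' b : ℕ) (M : ℝ≥0∞), a ≤ a' → a' ≤ m →
      b ≤ m → l * a' ≤ (r + 1) * b → ML (r + l) l κ m a' b M →
        ML (r + l) l κ m a b (K * 2 ^ (ε * a') * M) := by
  obtain ⟨K, hK, hcore⟩ := l1_core r l hr hl hD hκ hε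
  refine ⟨K, hK, ?_⟩
  intro m a a' b M haa ham hbm hlr hML τ₀ f g hf hg i j hi hj hsep
  obtain ⟨B, u, hB, hu, htr⟩ := transport (r + l) 2 τ₀ (-((j : ℝ) / 2 ^ b))
  have ham0 : a ≤ m := le_trans haa ham
  have h := hcore m a a' b M haa ham hbm hlr hML _ _ i j hi hj (htr 1 m f hf) (htr 1 m g hg) hsep
  have cf : Continuous (bs (m - a) i f) := l1_cont_bs one_le_two zero_le_one hf ham0 hi
  have cg : Continuous (bs (m - b) j g) := l1_cont_bs one_le_two zero_le_one hg hbm hj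
  have ebs : ∀ (n i : ℕ) (f : ℕ → E (r + l) → ℂ) (x : E (r + l)),
      ‖bs n i (fun j y => u y * f j (B.mulVec y)) x‖ₑ = ‖bs n i f (B.mulVec x)‖ₑ := by
    intro n i f x
    have e : bs n i (fun j y => u y * f j (B.mulVec y)) x = u x * bs n i f (B.mulVec x) := by
      unfold bs
      rw [Finset.mul_sum]
    have hux : ‖u x‖ₑ = 1 := by
      rw [← ofReal_norm, hu, ENNReal.ofReal_one]
    rw [e, enorm_mul, hux, one_mul]
  have eS : ∀ (a i : ℕ) (f : ℕ → E (r + l) → ℂ), a ≤ m → i < 2 ^ a → Fam (r + l) 2 τ₀ 1 m f →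
      S2 (P (r + l)) (bk (m - a) i) (fun j y => u y * f j (B.mulVec y)) =
        S2 (P (r + l)) (bk (m - a) i) f := by
    intro a i f ha hi hf
    unfold S2
    refine Finset.sum_congr rfl fun n hn => ?_
    rw [nI_lin hB hu (spec_cont (hf n (bk_lt ha hi hn)))]
  rw [eS a i f ham0 hi hf, eS b j g hbm hj hg] at h
  simp only [ebs] at h
  have hmat := lint_mat B (by rw [hB]; exact one_ne_zero)
    (fun x => ‖bs (m - a) i f x‖ₑ ^ P l * ‖bs (m - b) j g x‖ₑ ^ (P (r + l) - P l))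
    ((cf.enorm.measurable.pow_const _).mul (cg.enorm.measurable.pow_const _))
  rw [hB, abs_one, inv_one, ENNReal.ofReal_one, one_mul] at hmat
  rw [← hmat]
  exact h

end Pool.Agent.Dcp
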