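import Pool.Agent.Dcp.GM

/-!
# Dcp, module LNa: boxes of the projected curve inside boxes of the moment curve

`C₀, H` from `gm_inv`, `η = -(fun j => s₀^(r+j+1))`.  Let `ξ ∈ UG r l κ C t δ` with `s, c, e`; `h = s - s₀`, `|h| ≤ δ₂`,
`k = r + l`, `Cc = pt k h c`, so `pt k s c = pt k s₀ Cc` (`pt_add`).  For `i ≥ l`:
`|Cc i| ≤ (1+C) 2^k δ₂^(i+1) ≤ (1+C) 2^k δ₂^(l+1) ≤ (1+C) 2^k δ^l` (`pt_bd` with `δ₂`, `|c i| ≤ C δ^(i+1) ≤ C δ₂^(i+1)`, `δ₂ ≤ 1`).
For `i < l`: `Cc i = pt l h c' i` with `c' = c` restricted to the indices `< l`.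
`ξ_j + η_j = ∑_{i<l} Cc i gm_ij + e'_j`, `e'_j = e_j + ∑_{i ≥ l} Cc i fr k s₀ i (r+j)`, `|e'| ≤ C₁ δ^l` (`|fr| ≤ 2^k` for `|s₀| ≤ 1`).
`H (ξ + η) = pt l h c' + H e'`.  With `x = t - s₀`, `h = x + h'`, `0 ≤ h' = s - t ≤ δ`: `pt l h c' = pt l x (pt l h' c')`, and
`pt l x c₁ + e'' = pt l x (c₁ + (fm l (-x))ᵀ e'')` (`pt_err`, `fm_bd`, `|x| ≤ 1`), with `c₁ = pt l h' c'`, `|c₁ i| ≤ (1+C) 2^l δ^(i+1)`
(`pt_bd`), `|(fm l (-x))ᵀ e''| ≤ C₂ δ^l ≤ C₂ δ^(i+1)`.  `C' = (1+C) 2^l + C₂`.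
-/

set_option autoImplicit false

namespace Pool.Agent.Dcp

open MeasureTheory Finset
open scoped ENNReal

namespace LNaAux

theorem sum_castLE' (r l : ℕ) (g : Fin (r + l) → ℝ) :
    ∑ i : Fin (r + l), (if i.val < l then g i else 0) =
      ∑ i : Fin l, g (Fin.castLE (Nat.le_add_left l r) i) := by
  rw [← Finset.sum_filter]
  symm
  refine Finset.sum_nbij (fun i => Fin.castLE (Nat.le_add_left l r) i) ?_ ?_ ?_ ?_
  · intro i _
    simp
  · intro i _ j _ h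
    exact Fin.castLE_injective _ h
  · intro j hj
    have hj' : j.val < l := by simpa using hj
    exact ⟨⟨j.val, hj'⟩, by simp, by ext; simp⟩
  · intro i _
    rfl

theorem sum_split (r l : ℕ) (g : Fin (r + l) → ℝ) :
    ∑ i : Fin (r + l), g i =
      ∑ i : Fin l, g (Fin.castLE (Nat.le_add_left l r) i) +
        ∑ i : Fin (r + l), (if i.val < l then 0 else g i) := by
  rw [← sum_castLE', ← Finset.sum_add_distrib]
  refine Finset.sum_congr rfl fun i _ => ?_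
  by_cases h : i.val < l
  · rw [if_pos h, if_pos h, add_zero]
  · rw [if_neg h, if_neg h, zero_add]

/-- the first `l` coordinates of `pt` only depend on the first `l` coefficients -/
theorem pt_cast (r l : ℕ) (h : ℝ) (c : E (r + l)) (j : Fin l) :
    pt (r + l) h c (Fin.castLE (Nat.le_add_left l r) j) =
      pt l h (fun i => c (Fin.castLE (Nat.le_add_left l r) i)) j := by
  unfold pt
  rw [sum_split]
  have h0 : ∑ i : Fin (r + l), (if i.val < l then 0 else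
      c i * fr (r + l) h i (Fin.castLE (Nat.le_add_left l r) j)) = 0 := by
    refine Finset.sum_eq_zero fun i _ => ?_
    by_cases hi : i.val < l
    · rw [if_pos hi]
    · rw [if_neg hi]
      unfold fr
      have h1 : Nat.choose ((Fin.castLE (Nat.le_add_left l r) j).val + 1) (i.val + 1) = 0 := by
        apply Nat.choose_eq_zero_of_lt
        have := j.isLt
        simp only [Fin.val_castLE]
        omega
      rw [h1]
      simp
  rw [h0, add_zero]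
  rfl

theorem fr_bd (r l : ℕ) {s₀ : ℝ} (hs : |s₀| ≤ 1) (i : Fin (r + l)) (j : Fin l) :
    |fr (r + l) s₀ i (Fin.natAdd r j)| ≤ 2 ^ (r + l) := by
  unfold fr
  rw [abs_mul, abs_pow, Nat.abs_cast]
  have h1 : |s₀| ^ ((Fin.natAdd r j).val - i.val) ≤ 1 := pow_le_one₀ (abs_nonneg _) hs
  have h2 : (Nat.choose ((Fin.natAdd r j).val + 1) (i.val + 1) : ℝ) ≤ 2 ^ (r + l) := by
    have h3 : Nat.choose ((Fin.natAdd r j).val + 1) (i.val + 1) ≤ 2 ^ ((Fin.natAdd r j).val + 1) :=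
      Nat.choose_le_two_pow _ _
    have h4 : 2 ^ ((Fin.natAdd r j).val + 1) ≤ 2 ^ (r + l) := by
      apply Nat.pow_le_pow_right (by norm_num)
      have := j.isLt
      simp only [Fin.val_natAdd]
      omega
    exact_mod_cast h3.trans h4
  have h5 : (0 : ℝ) ≤ |s₀| ^ ((Fin.natAdd r j).val - i.val) := pow_nonneg (abs_nonneg _) _
  have h6 : (0 : ℝ) ≤ (Nat.choose ((Fin.natAdd r j).val + 1) (i.val + 1) : ℝ) := Nat.cast_nonneg _
  calc _ ≤ (2 : ℝ) ^ (r + l) * 1 := mul_le_mul h2 h1 h5 (by positivity)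
    _ = _ := mul_one _

theorem mulVec_bd {l : ℕ} (H : Matrix (Fin l) (Fin l) ℝ) {C ρ : ℝ} (hC : 0 ≤ C) (hH : ∀ i j, |H i j| ≤ C)
    {u : E l} (hu : ∀ i, |u i| ≤ ρ) (i : Fin l) : |H.mulVec u i| ≤ l * C * ρ := by
  have h0 : H.mulVec u i = ∑ j : Fin l, H i j * u j := rfl
  have h1 : |H.mulVec u i| ≤ ∑ j : Fin l, |H i j * u j| := by
    rw [h0]
    exact Finset.abs_sum_le_sum_abs _ _
  have h2 : ∑ j : Fin l, |H i j * u j| ≤ ∑ _j : Fin l, C * ρ := by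
    refine Finset.sum_le_sum fun j _ => ?_
    rw [abs_mul]
    exact mul_le_mul (hH i j) (hu j) (abs_nonneg _) hC
  refine (h1.trans h2).trans (le_of_eq ?_)
  rw [Finset.sum_const, Finset.card_univ, Fintype.card_fin, nsmul_eq_mul]
  ring

end LNaAux

open LNaAux in
theorem ug_uu (r l : ℕ) (hl : 1 ≤ l) {κ : ℝ} (hκ : 0 < κ) {C : ℝ} (hC : 1 ≤ C) :
    ∃ C' : ℝ, 1 ≤ C' ∧ ∀ s₀ : ℝ, κ ≤ |s₀| → |s₀| ≤ 1 →
      ∃ (H : Matrix (Fin l) (Fin l) ℝ) (η : E l), H.det ≠ 0 ∧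
        ∀ t δ δ₂ : ℝ, 0 ≤ δ → δ ≤ δ₂ → δ₂ ≤ 1 → δ₂ ^ (l + 1) ≤ δ ^ l → |t - s₀| ≤ δ₂ →
          |t + δ - s₀| ≤ δ₂ → ∀ ξ ∈ UG r l κ C t δ, H.mulVec (ξ + η) ∈ UU l C' (t - s₀) δ := by
  obtain ⟨C₀, hC₀, hgm⟩ := gm_inv r l hκ
  set C₁ : ℝ := C + ((r + l : ℕ) : ℝ) * ((1 + C) * 2 ^ (r + l) * 2 ^ (r + l)) with hC₁
  set C₂ : ℝ := l * 4 ^ l * (l * C₀ * C₁) with hC₂
  have hC0 : 0 ≤ C := by linarith
  have hC₁0 : 0 ≤ C₁ := by positivity
  have hC₂0 : 0 ≤ C₂ := by positivity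
  refine ⟨(1 + C) * 2 ^ l + C₂, ?_, ?_⟩
  · have h1 : (1 : ℝ) ≤ 2 ^ l := one_le_pow₀ (by norm_num)
    nlinarith
  intro s₀ hs1 hs2
  obtain ⟨H, hH1, hH2, hH3⟩ := hgm s₀ hs1 hs2
  refine ⟨H, -(fun j => s₀ ^ (r + j.val + 1)), hH2, ?_⟩
  intro t δ δ₂ hδ hδδ₂ hδ₂ hδl ht1 ht2 ξ hξ
  obtain ⟨s, c, e, hs3, hs4, -, -, hc, he, rfl⟩ := hξ
  have hδ₂0 : 0 ≤ δ₂ := hδ.trans hδδ₂
  have hδ1 : δ ≤ 1 := hδδ₂.trans hδ₂
  -- the shift
  have hh : |s - s₀| ≤ δ₂ := by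
    rw [abs_le] at ht1 ht2 ⊢
    constructor <;> linarith [ht1.1, ht1.2, ht2.1, ht2.2]
  have hpt : pt (r + l) s c = pt (r + l) s₀ (pt (r + l) (s - s₀) c) := by
    rw [← pt_add, add_sub_cancel]
  set Cc : E (r + l) := pt (r + l) (s - s₀) c with hCc
  have hCcb : ∀ i : Fin (r + l), |Cc i| ≤ (1 + C) * 2 ^ (r + l) * δ₂ ^ (i.val + 1) := by
    intro i
    refine pt_bd (r + l) hC0 hh (fun i => (hc i).trans ?_) i
    exact mul_le_mul_of_nonneg_left (pow_le_pow_left₀ hδ hδδ₂ _) hC0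
  -- the error vector
  set e' : E l := fun j => e j + ∑ i : Fin (r + l), (if i.val < l then 0 else
    Cc i * fr (r + l) s₀ i (Fin.natAdd r j)) with he'
  have he'b : ∀ j, |e' j| ≤ C₁ * δ ^ l := by
    intro j
    have h1 : ∀ i : Fin (r + l), |(if i.val < l then 0 else
        Cc i * fr (r + l) s₀ i (Fin.natAdd r j))| ≤ (1 + C) * 2 ^ (r + l) * 2 ^ (r + l) * δ ^ l := by
      intro i
      by_cases hi : i.val < l
      · rw [if_pos hi, abs_zero]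
        positivity
      · rw [if_neg hi, abs_mul]
        have h2 : δ₂ ^ (i.val + 1) ≤ δ ^ l :=
          (pow_le_pow_of_le_one hδ₂0 hδ₂ (by omega)).trans hδl
        have h3 : |Cc i| ≤ (1 + C) * 2 ^ (r + l) * δ ^ l :=
          (hCcb i).trans (mul_le_mul_of_nonneg_left h2 (by positivity))
        calc |Cc i| * |fr (r + l) s₀ i (Fin.natAdd r j)| ≤
            ((1 + C) * 2 ^ (r + l) * δ ^ l) * 2 ^ (r + l) :=
              mul_le_mul h3 (fr_bd r l hs2 i j) (abs_nonneg _) (by positivity)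
          _ = _ := by ring
    have h4 : |∑ i : Fin (r + l), (if i.val < l then 0 else
        Cc i * fr (r + l) s₀ i (Fin.natAdd r j))| ≤
        ((r + l : ℕ) : ℝ) * ((1 + C) * 2 ^ (r + l) * 2 ^ (r + l) * δ ^ l) := by
      refine (Finset.abs_sum_le_sum_abs _ _).trans ((Finset.sum_le_sum fun i _ => h1 i).trans
        (le_of_eq ?_))
      rw [Finset.sum_const, Finset.card_univ, Fintype.card_fin, nsmul_eq_mul]
    calc |e' j| ≤ |e j| + |∑ i : Fin (r + l), (if i.val < l then 0 else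
        Cc i * fr (r + l) s₀ i (Fin.natAdd r j))| := abs_add_le _ _
      _ ≤ C * δ ^ l + ((r + l : ℕ) : ℝ) * ((1 + C) * 2 ^ (r + l) * 2 ^ (r + l) * δ ^ l) :=
          add_le_add (he j) h4
      _ = C₁ * δ ^ l := by rw [hC₁]; ring
  -- decomposition of the vector
  have hdec : (fun j => pt (r + l) s c (Fin.natAdd r j) + e j) + -(fun j : Fin l => s₀ ^ (r + j.val + 1)) =
      (gm r l s₀).transpose.mulVec (fun i => Cc (Fin.castLE (Nat.le_add_left l r) i)) + e' := by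
    funext j
    rw [hpt]
    show (pt (r + l) s₀ Cc (Fin.natAdd r j) + e j) + -(s₀ ^ (r + j.val + 1)) =
      (gm r l s₀).transpose.mulVec (fun i => Cc (Fin.castLE (Nat.le_add_left l r) i)) j + e' j
    have h1 : pt (r + l) s₀ Cc (Fin.natAdd r j) = s₀ ^ (r + j.val + 1) +
        ∑ i : Fin (r + l), Cc i * fr (r + l) s₀ i (Fin.natAdd r j) := rfl
    have h2 : (gm r l s₀).transpose.mulVec (fun i => Cc (Fin.castLE (Nat.le_add_left l r) i)) j =
        ∑ i : Fin l, Cc (Fin.castLE (Nat.le_add_left l r) i) *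
          fr (r + l) s₀ (Fin.castLE (Nat.le_add_left l r) i) (Fin.natAdd r j) := by
      have h3 : (gm r l s₀).transpose.mulVec (fun i => Cc (Fin.castLE (Nat.le_add_left l r) i)) j =
        ∑ i : Fin l, fr (r + l) s₀ (Fin.castLE (Nat.le_add_left l r) i) (Fin.natAdd r j) *
          Cc (Fin.castLE (Nat.le_add_left l r) i) := rfl
      rw [h3]
      exact Finset.sum_congr rfl fun i _ => mul_comm _ _
    rw [h1, h2, he', sum_split]
    ring
  rw [hdec, Matrix.mulVec_add, Matrix.mulVec_mulVec, hH1, Matrix.one_mulVec]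
  have hv : (fun i => Cc (Fin.castLE (Nat.le_add_left l r) i)) =
      pt l (s - s₀) (fun i => c (Fin.castLE (Nat.le_add_left l r) i)) := by
    funext i
    exact pt_cast r l (s - s₀) c i
  have hsum : s - s₀ = (t - s₀) + (s - t) := by ring
  rw [hv, hsum, pt_add, pt_err]
  refine ⟨_, fun i => ?_, rfl⟩
  have h1 : |pt l (s - t) (fun i => c (Fin.castLE (Nat.le_add_left l r) i)) i| ≤
      (1 + C) * 2 ^ l * δ ^ (i.val + 1) := by
    refine pt_bd l hC0 ?_ (fun i => hc (Fin.castLE (Nat.le_add_left l r) i)) i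
    rw [abs_of_nonneg (by linarith)]
    linarith
  have h2 : ∀ i, |H.mulVec e' i| ≤ l * C₀ * (C₁ * δ ^ l) := mulVec_bd H hC₀ hH3 he'b
  have h3 := fm_bd l (t := -(t - s₀)) (by rw [abs_neg]; linarith) h2 i
  have h4 : δ ^ l ≤ δ ^ (i.val + 1) := pow_le_pow_of_le_one hδ hδ1 i.isLt
  have h5 : (l : ℝ) * 4 ^ l * (l * C₀ * (C₁ * δ ^ l)) ≤ C₂ * δ ^ (i.val + 1) := by
    have : (l : ℝ) * 4 ^ l * (l * C₀ * (C₁ * δ ^ l)) = C₂ * δ ^ l := by rw [hC₂]; ring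
    rw [this]
    exact mul_le_mul_of_nonneg_left h4 hC₂0
  calc _ ≤ |pt l (s - t) (fun i => c (Fin.castLE (Nat.le_add_left l r) i)) i| +
      |(fm l (-(t - s₀))).transpose.mulVec (H.mulVec e') i| := abs_add_le _ _
    _ ≤ (1 + C) * 2 ^ l * δ ^ (i.val + 1) + C₂ * δ ^ (i.val + 1) := add_le_add h1 (h3.trans h5)
    _ = _ := by ring

end Pool.Agent.Dcp
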