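import Pool.Agent.Dcp.LNa
import Pool.Agent.Dcp.Blk

/-!
# Dcp, module LNc: decoupling in one cell for the projected curve

`C'` from `ug_uu`.  If no `s ∈ [t, t + δ₂]` satisfies `κ ≤ |s| ≤ 1`, all the `UG` are empty, all `F j = 0` (`spec_empty`) and the left
side is `0`.  Otherwise choose such an `s₀` and take `H, η` from `ug_uu`.
`F' j y = ee ((Hη) ⬝ᵥ y) * F j (Hᵀ y)` has spectrum in `H (ξ + η)`, `ξ` in the spectrum of `F j`, so in
`UU l C' (t - s₀ + δ₂ (j/2^n)) (δ₂/2^n)`: `Fam l C' (t - s₀) δ₂ n F'` (`spec_aff`, `spec_mod`; the conditions of `ug_uu` for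
`t_j = t + δ₂ (j/2^n)`, `δ = δ₂/2^n`: `t_j, t_j + δ, s₀ ∈ [t, t + δ₂]`).  `rescale` for `F'`, and all the integrals `nI (P l)` of
`F'` are those of `F` times the same factor `|det H|⁻¹ ∈ (0, ∞)` (`lint_mat` for `Hᵀ`), which cancels.
-/

set_option autoImplicit false

namespace Pool.Agent.Dcp

open MeasureTheory Finset
open scoped ENNReal

namespace LNcAux

theorem P_pos {l : ℕ} (hl : 1 ≤ l) : 0 < P l := by
  unfold P
  have : (1 : ℝ) ≤ l := by exact_mod_cast hl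
  positivity

/-- change of variables for the integrals `nI` -/
theorem nI_mat {l : ℕ} {p : ℝ} {A : Matrix (Fin l) (Fin l) ℝ} (hA : A.det ≠ 0) (v : E l)
    {f : E l → ℂ} (hf : Continuous f) :
    nI p (fun y => ee (v ⬝ᵥ y) * f (A.mulVec y)) = ENNReal.ofReal |A.det|⁻¹ * nI p f := by
  unfold nI
  rw [← lint_mat A hA (fun x => ‖f x‖ₑ ^ p) ((hf.enorm.measurable).pow_const _)]
  refine lintegral_congr fun y => ?_
  rw [enorm_mul]
  have : ‖ee (v ⬝ᵥ y)‖ₑ = 1 := by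
    rw [← ofReal_norm, ee_norm, ENNReal.ofReal_one]
  rw [this, one_mul]

end LNcAux

open LNcAux in
theorem ln_cell (r l : ℕ) (hl : 1 ≤ l) {κ : ℝ} (hκ : 0 < κ) {C : ℝ} (hC : 1 ≤ C) :
    ∃ C' : ℝ, 1 ≤ C' ∧ ∀ (n : ℕ) (D : ℝ≥0∞) (t δ₂ : ℝ), Dec l C' n D → 0 < δ₂ → δ₂ ≤ 1 →
      δ₂ ^ (l + 1) ≤ (δ₂ / 2 ^ n) ^ l → ∀ F : ℕ → E l → ℂ,
        (∀ j : ℕ, j < 2 ^ n →
          Spec (UG r l κ C (t + δ₂ * ((j : ℝ) / 2 ^ n)) (δ₂ / 2 ^ n)) (F j)) →
        nI (P l) (fun x => ∑ j ∈ range (2 ^ n), F j x) ≤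
          D ^ P l * S2 (P l) (range (2 ^ n)) F ^ (P l / 2) := by
  obtain ⟨C', hC', hug⟩ := ug_uu r l hl hκ hC
  refine ⟨C', hC', fun n D t δ₂ hD hδ hδ1 hpow F hF => ?_⟩
  have hp := P_pos hl
  have h2n : (0 : ℝ) < 2 ^ n := by positivity
  have hδn : 0 < δ₂ / 2 ^ n := by positivity
  have hj01 : ∀ j : ℕ, j < 2 ^ n → 0 ≤ δ₂ * ((j : ℝ) / 2 ^ n) ∧
      δ₂ * ((j : ℝ) / 2 ^ n) + δ₂ / 2 ^ n ≤ δ₂ := by
    intro j hj
    refine ⟨by positivity, ?_⟩
    have h1 : (j : ℝ) + 1 ≤ 2 ^ n := by exact_mod_cast hj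
    have h2 : δ₂ * ((j : ℝ) / 2 ^ n) + δ₂ / 2 ^ n = δ₂ * (((j : ℝ) + 1) / 2 ^ n) := by
      field_simp
    rw [h2]
    have h3 : ((j : ℝ) + 1) / 2 ^ n ≤ 1 := by rwa [div_le_one h2n]
    nlinarith
  by_cases hex : ∃ s₀ : ℝ, t ≤ s₀ ∧ s₀ ≤ t + δ₂ ∧ κ ≤ |s₀| ∧ |s₀| ≤ 1
  swap
  · have hz : ∀ j ∈ range (2 ^ n), ∀ x, F j x = 0 := by
      intro j hj x
      rw [mem_range] at hj
      have h1 := hF j hj
      have h2 : UG r l κ C (t + δ₂ * ((j : ℝ) / 2 ^ n)) (δ₂ / 2 ^ n) = ∅ := by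
        rw [Set.eq_empty_iff_forall_notMem]
        rintro ξ ⟨s, c, e, hs1, hs2, hs3, hs4, -⟩
        have h3 := hj01 j hj
        exact hex ⟨s, by linarith, by linarith, hs3, hs4⟩
      rw [h2] at h1
      exact spec_empty h1 x
    have h3 : nI (P l) (fun x => ∑ j ∈ range (2 ^ n), F j x) = 0 := by
      unfold nI
      rw [lintegral_eq_zero_iff' (by
        have : (fun x => ‖∑ j ∈ range (2 ^ n), F j x‖ₑ ^ P l) = fun _ => 0 := by
          funext x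
          rw [Finset.sum_eq_zero fun j hj => hz j hj x, enorm_zero, ENNReal.zero_rpow_of_pos hp]
        rw [this]
        exact aemeasurable_const)]
      refine Filter.Eventually.of_forall fun x => ?_
      simp only [Pi.zero_apply]
      rw [Finset.sum_eq_zero fun j hj => hz j hj x, enorm_zero, ENNReal.zero_rpow_of_pos hp]
    rw [h3]
    exact zero_le
  obtain ⟨s₀, hs1, hs2, hs3, hs4⟩ := hex
  obtain ⟨H, η, hdet, hH⟩ := hug s₀ hs3 hs4
  set F' : ℕ → E l → ℂ := fun j y => ee ((H.mulVec η) ⬝ᵥ y) * F j (H.transpose.mulVec y) with hF'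
  have hfam : Fam l C' (t - s₀) δ₂ n F' := by
    intro j hj
    have h3 := hj01 j hj
    have h1 := spec_aff H.transpose 0 (Ω' := {ζ | ∃ ξ ∈ UG r l κ C (t + δ₂ * ((j : ℝ) / 2 ^ n))
      (δ₂ / 2 ^ n), ζ = H.mulVec ξ}) (hF j hj) (by
        intro ξ hξ
        rw [Matrix.transpose_transpose]
        exact ⟨ξ, hξ, rfl⟩)
    simp only [add_zero] at h1
    have h2 := spec_mod (H.mulVec η) (Ω' := UU l C' (t - s₀ + δ₂ * ((j : ℝ) / 2 ^ n))
      (δ₂ / 2 ^ n)) h1 (by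
        rintro ζ ⟨ξ, hξ, rfl⟩
        rw [← Matrix.mulVec_add, add_comm η ξ]
        have h4 := hH (t + δ₂ * ((j : ℝ) / 2 ^ n)) (δ₂ / 2 ^ n) δ₂ hδn.le
          (by rw [div_le_iff₀ h2n]
              have : (1 : ℝ) ≤ 2 ^ n := one_le_pow₀ (by norm_num)
              nlinarith) hδ1 hpow
          (by rw [abs_le]; constructor <;> linarith)
          (by rw [abs_le]; constructor <;> linarith) ξ hξ
        have h5 : t + δ₂ * ((j : ℝ) / 2 ^ n) - s₀ = t - s₀ + δ₂ * ((j : ℝ) / 2 ^ n) := by ring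
        rw [h5] at h4
        exact h4)
    exact h2
  have hres := rescale hl hD hδ hfam
  have hdet' : H.transpose.det ≠ 0 := by rwa [Matrix.det_transpose]
  set Λ : ℝ≥0∞ := ENNReal.ofReal |H.transpose.det|⁻¹ with hΛ
  have hΛ0 : Λ ≠ 0 := by
    rw [hΛ, Ne, ENNReal.ofReal_eq_zero, not_le]
    exact inv_pos.mpr (abs_pos.mpr hdet')
  have hΛt : Λ ≠ ⊤ := ENNReal.ofReal_ne_top
  have hcont : ∀ j ∈ range (2 ^ n), Continuous (F j) := fun j hj =>
    spec_cont (hF j (mem_range.mp hj))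
  have e1 : nI (P l) (fun x => ∑ j ∈ range (2 ^ n), F' j x) =
      Λ * nI (P l) (fun x => ∑ j ∈ range (2 ^ n), F j x) := by
    rw [← nI_mat hdet' (H.mulVec η) (continuous_finsetSum _ hcont)]
    congr 1
    funext x
    rw [Finset.mul_sum]
  have e2 : S2 (P l) (range (2 ^ n)) F' = Λ ^ (2 / P l) * S2 (P l) (range (2 ^ n)) F := by
    unfold S2
    rw [Finset.mul_sum]
    refine Finset.sum_congr rfl fun j hj => ?_
    rw [← ENNReal.mul_rpow_of_nonneg _ _ (by positivity), ← nI_mat hdet' (H.mulVec η) (hcont j hj)]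
  rw [e1, e2, ENNReal.mul_rpow_of_nonneg _ _ (by positivity), ← ENNReal.rpow_mul,
    show 2 / P l * (P l / 2) = 1 by field_simp, ENNReal.rpow_one, mul_left_comm] at hres
  exact (ENNReal.mul_le_mul_iff_right hΛ0 hΛt).mp hres

end Pool.Agent.Dcp
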