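import Pool.Agent.Dcp.Grp

/-!
# Dcp, module MLb: simple properties of `ML`

`ml_zero`: `P 0 = 0`, `x ^ 0 = 1`, `dec_bk` for `g`.  `ml_triv`: with `F, G` the two block sums, `θ = P l / P k`: Hölder
(`ENNReal.lintegral_mul_norm_pow_le` applied to `F^(P k)`, `G^(P k)` with exponents `θ`, `1-θ`):
`∫ F^(P l) G^(P k - P l) ≤ (∫ F^(P k))^θ (∫ G^(P k))^(1-θ)` and `dec_bk` for both.
`ml_down`: `G = ∑_{j' ∈ bk (b'-b) j} G_{j'}` (`sum_nest`, `m - b = (m - b') + (b' - b)`), `N = 2^(b'-b)`, `q = P k - P l ≥ 2`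
(`l < k`): `‖G‖^q ≤ N^q ∑ ‖G_{j'}‖^q` (`pow_sum`), every term by the hypothesis (the intervals `[j'/2^b', (j'+1)/2^b']` lie in
`[j/2^b, (j+1)/2^b]`, `j' < 2^b'`), `∑ S_{j'}^(q/2) ≤ (∑ S_{j'})^(q/2)` (`sum_pow_le`), `N^q ≤ N^(P k)`.
-/

set_option autoImplicit false

namespace Pool.Agent.Dcp

open MeasureTheory Finset
open scoped ENNReal

private theorem P_nonneg (k : ℕ) : 0 ≤ P k := by
  unfold P
  positivity

private theorem P_pos {k : ℕ} (hk : 1 ≤ k) : 0 < P k := by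
  unfold P
  have : (0 : ℝ) < k := by exact_mod_cast hk
  positivity

private theorem P_mono {l k : ℕ} (h : l ≤ k) : P l ≤ P k := by
  unfold P
  have h1 : (l : ℝ) ≤ k := by exact_mod_cast h
  have h2 : (0 : ℝ) ≤ l := Nat.cast_nonneg l
  nlinarith

private theorem P_gap {l k : ℕ} (h : l < k) : 2 ≤ P k - P l := by
  unfold P
  have h1 : (l : ℝ) + 1 ≤ k := by exact_mod_cast h
  have h2 : (0 : ℝ) ≤ l := Nat.cast_nonneg l
  nlinarith

private theorem bs_cont {k : ℕ} {τ : ℝ} {m a i : ℕ} {f : ℕ → E k → ℂ}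
    (hf : Fam k 2 τ 1 m f) (ha : a ≤ m) (hi : i < 2 ^ a) : Continuous (bs (m - a) i f) :=
  spec_cont (spec_bs (by norm_num) (by norm_num) hf ha hi)

private theorem lint_sum_mul {α ι : Type*} [MeasurableSpace α] {μ : Measure α} (s : Finset ι)
    (V : ι → α → ℝ≥0∞) (U : α → ℝ≥0∞) (hV : ∀ i ∈ s, Measurable (V i))
    (hfin : ∀ i ∈ s, ∀ x, V i x < ⊤) :
    ∫⁻ x, (∑ i ∈ s, V i x) * U x ∂μ = ∑ i ∈ s, ∫⁻ x, V i x * U x ∂μ := by
  have h1 : Measurable (fun x => ∑ i ∈ s, V i x) := Finset.measurable_fun_sum s hV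
  have h2 := lintegral_withDensity_eq_lintegral_mul_non_measurable μ h1
    (ae_of_all _ (fun x => ENNReal.sum_lt_top.2 (fun i hi => hfin i hi x))) U
  have h3 : μ.withDensity (fun x => ∑ i ∈ s, V i x) = ∑ i ∈ s, μ.withDensity (V i) := by
    ext t ht
    rw [withDensity_apply _ ht, lintegral_finsetSum' s (fun i hi => (hV i hi).aemeasurable),
      Measure.finsetSum_apply]
    apply Finset.sum_congr rfl
    intro i _
    rw [withDensity_apply _ ht]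
  rw [h3, lintegral_finsetSum_measure] at h2
  calc ∫⁻ x, (∑ i ∈ s, V i x) * U x ∂μ = ∑ i ∈ s, ∫⁻ x, U x ∂(μ.withDensity (V i)) := h2.symm
    _ = ∑ i ∈ s, ∫⁻ x, V i x * U x ∂μ := by
        apply Finset.sum_congr rfl
        intro i hi
        exact lintegral_withDensity_eq_lintegral_mul_non_measurable μ (hV i hi)
          (ae_of_all _ (fun x => hfin i hi x)) U

theorem ml_mono {k l m a b : ℕ} {κ : ℝ} {M M' : ℝ≥0∞} (h : ML k l κ m a b M) (hM : M ≤ M') :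
    ML k l κ m a b M' := by
  intro τ f g hf hg i j hi hj hs
  refine (h τ f g hf hg i j hi hj hs).trans ?_
  have := ENNReal.rpow_le_rpow hM (P_nonneg k)
  gcongr

theorem ml_zero {k m a b : ℕ} {κ : ℝ} {D : ℝ≥0∞} (hk : 1 ≤ k) (hb : b ≤ m)
    (h : Dec k 2 (m - b) D) : ML k 0 κ m a b D := by
  intro τ f g hf hg i j hi hj hs
  have h1 := dec_bk hk h (by norm_num : (0 : ℝ) < 1) hg hb hj
  have h0 : P 0 = 0 := by simp [P]
  simp only [h0, ENNReal.rpow_zero, one_mul, sub_zero, zero_div, mul_one]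
  exact h1

theorem ml_triv {k l m a b : ℕ} {κ : ℝ} {D : ℝ≥0∞} (hk : 1 ≤ k) (hl : l ≤ k) (ha : a ≤ m)
    (hb : b ≤ m) (h1 : Dec k 2 (m - a) D) (h2 : Dec k 2 (m - b) D) : ML k l κ m a b D := by
  intro τ f g hf hg i j hi hj hs
  have hPk := P_pos hk
  have hPl := P_nonneg l
  have hlk := P_mono hl
  have e1 := dec_bk hk h1 (by norm_num : (0 : ℝ) < 1) hf ha hi
  have e2 := dec_bk hk h2 (by norm_num : (0 : ℝ) < 1) hg hb hj
  have hθ0 : 0 ≤ P l / P k := div_nonneg hPl hPk.le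
  have hθ1 : 0 ≤ (P k - P l) / P k := div_nonneg (by linarith) hPk.le
  have hθ : P l / P k + (P k - P l) / P k = 1 := by
    field_simp
    ring
  have c1 := bs_cont hf ha hi
  have c2 := bs_cont hg hb hj
  have hol := ENNReal.lintegral_mul_norm_pow_le (μ := (volume : Measure (E k)))
    (f := fun x => ‖bs (m - a) i f x‖ₑ ^ P k) (g := fun x => ‖bs (m - b) j g x‖ₑ ^ P k)
    ((c1.enorm.measurable.pow_const _).aemeasurable)
    ((c2.enorm.measurable.pow_const _).aemeasurable) hθ0 hθ1 hθ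
  have hx1 : ∀ x, (‖bs (m - a) i f x‖ₑ ^ P k) ^ (P l / P k) = ‖bs (m - a) i f x‖ₑ ^ P l := by
    intro x
    rw [← ENNReal.rpow_mul]
    congr 1
    field_simp
  have hx2 : ∀ x, (‖bs (m - b) j g x‖ₑ ^ P k) ^ ((P k - P l) / P k) =
      ‖bs (m - b) j g x‖ₑ ^ (P k - P l) := by
    intro x
    rw [← ENNReal.rpow_mul]
    congr 1
    field_simp
  simp only [hx1, hx2] at hol
  refine hol.trans ?_
  have e1' : (∫⁻ x, ‖bs (m - a) i f x‖ₑ ^ P k) ^ (P l / P k) ≤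
      D ^ P l * S2 (P k) (bk (m - a) i) f ^ (P l / 2) := by
    refine (ENNReal.rpow_le_rpow e1 hθ0).trans (le_of_eq ?_)
    rw [ENNReal.mul_rpow_of_nonneg _ _ hθ0, ← ENNReal.rpow_mul, ← ENNReal.rpow_mul]
    congr 2
    · field_simp
    · field_simp
  have e2' : (∫⁻ x, ‖bs (m - b) j g x‖ₑ ^ P k) ^ ((P k - P l) / P k) ≤
      D ^ (P k - P l) * S2 (P k) (bk (m - b) j) g ^ ((P k - P l) / 2) := by
    refine (ENNReal.rpow_le_rpow e2 hθ1).trans (le_of_eq ?_)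
    rw [ENNReal.mul_rpow_of_nonneg _ _ hθ1, ← ENNReal.rpow_mul, ← ENNReal.rpow_mul]
    congr 2
    · field_simp
    · field_simp
  refine (mul_le_mul' e1' e2').trans (le_of_eq ?_)
  have hD : D ^ P k = D ^ P l * D ^ (P k - P l) := by
    rw [← ENNReal.rpow_add_of_nonneg _ _ hPl (by linarith)]
    congr 1
    ring
  rw [hD]
  ring

theorem ml_down {k l m a b b' : ℕ} {κ : ℝ} {M : ℝ≥0∞} (hl : l < k) (hb : b ≤ b') (hb' : b' ≤ m)
    (h : ML k l κ m a b' M) : ML k l κ m a b (2 ^ (b' - b) * M) := by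
  intro τ f g hf hg i j hi hj hs
  have hPk := P_nonneg k
  have hPl := P_nonneg l
  have hgap := P_gap hl
  have hq0 : 0 < P k - P l := by linarith
  have hG : ∀ x, bs (m - b) j g x = ∑ j' ∈ bk (b' - b) j, bs (m - b') j' g x := by
    intro x
    unfold bs
    have e : m - b = (m - b') + (b' - b) := by omega
    rw [e]
    exact sum_nest (fun j => g j x) _ _ _
  have hS : S2 (P k) (bk (m - b) j) g = ∑ j' ∈ bk (b' - b) j, S2 (P k) (bk (m - b') j') g := by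
    unfold S2
    have e : m - b = (m - b') + (b' - b) := by omega
    rw [e]
    exact sum_nest (fun j => nI (P k) (g j) ^ (2 / P k)) _ _ _
  have hj' : ∀ j' ∈ bk (b' - b) j, j' < 2 ^ b' := fun j' h => bk_lt hb hj h
  have hcard : (((bk (b' - b) j).card : ℕ) : ℝ≥0∞) = 2 ^ (b' - b) := by
    rw [bk_card]
    push_cast
    rfl
  have hN : ((2 : ℝ≥0∞) ^ (b' - b)) ≠ ⊤ := ENNReal.pow_ne_top (by norm_num)
  have hN1 : (1 : ℝ≥0∞) ≤ 2 ^ (b' - b) := one_le_pow₀ (by norm_num)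
  have hpt : ∀ x, ‖bs (m - a) i f x‖ₑ ^ P l * ‖bs (m - b) j g x‖ₑ ^ (P k - P l) ≤
      ((2 : ℝ≥0∞) ^ (b' - b)) ^ (P k - P l) *
        ((∑ j' ∈ bk (b' - b) j, ‖bs (m - b') j' g x‖ₑ ^ (P k - P l)) *
          ‖bs (m - a) i f x‖ₑ ^ P l) := by
    intro x
    have s1 : ‖bs (m - b) j g x‖ₑ ≤ ∑ j' ∈ bk (b' - b) j, ‖bs (m - b') j' g x‖ₑ := by
      rw [hG x]
      exact enorm_sum_le _ _
    have s2 := (ENNReal.rpow_le_rpow s1 hq0.le).trans (pow_sum hq0 (bk (b' - b) j) _)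
    rw [hcard] at s2
    calc ‖bs (m - a) i f x‖ₑ ^ P l * ‖bs (m - b) j g x‖ₑ ^ (P k - P l)
        ≤ ‖bs (m - a) i f x‖ₑ ^ P l * (((2 : ℝ≥0∞) ^ (b' - b)) ^ (P k - P l) *
            ∑ j' ∈ bk (b' - b) j, ‖bs (m - b') j' g x‖ₑ ^ (P k - P l)) :=
          mul_le_mul_right s2 _
      _ = _ := by ring
  have hterm : ∀ j' ∈ bk (b' - b) j,
      ∫⁻ x, ‖bs (m - b') j' g x‖ₑ ^ (P k - P l) * ‖bs (m - a) i f x‖ₑ ^ P l ≤
        M ^ P k * S2 (P k) (bk (m - a) i) f ^ (P l / 2) *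
          S2 (P k) (bk (m - b') j') g ^ ((P k - P l) / 2) := by
    intro j' hjj
    have hh := h τ f g hf hg i j' hi (hj' j' hjj) ?_
    · refine le_trans (le_of_eq ?_) hh
      congr 1
      funext x
      ring
    · intro s t h1 h2 h3 h4
      have hm := mem_bk.1 hjj
      have e : (2 : ℝ) ^ b' = 2 ^ b * 2 ^ (b' - b) := by
        rw [← pow_add]
        congr 1
        omega
      have p1 : (0 : ℝ) < 2 ^ b := by positivity
      have p2 : (0 : ℝ) < 2 ^ (b' - b) := by positivity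
      have m1 : (j : ℝ) * 2 ^ (b' - b) ≤ j' := by exact_mod_cast hm.1
      have m2 : (j' : ℝ) + 1 ≤ ((j : ℝ) + 1) * 2 ^ (b' - b) := by exact_mod_cast hm.2
      apply hs s t h1 h2
      · refine le_trans ?_ h3
        rw [e, div_le_div_iff₀ p1 (by positivity)]
        nlinarith
      · refine h4.trans ?_
        rw [e, div_le_div_iff₀ (by positivity) p1]
        nlinarith
  calc ∫⁻ x, ‖bs (m - a) i f x‖ₑ ^ P l * ‖bs (m - b) j g x‖ₑ ^ (P k - P l)
      ≤ ∫⁻ x, ((2 : ℝ≥0∞) ^ (b' - b)) ^ (P k - P l) *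
        ((∑ j' ∈ bk (b' - b) j, ‖bs (m - b') j' g x‖ₑ ^ (P k - P l)) *
          ‖bs (m - a) i f x‖ₑ ^ P l) := lintegral_mono hpt
    _ = ((2 : ℝ≥0∞) ^ (b' - b)) ^ (P k - P l) *
        ∫⁻ x, ((∑ j' ∈ bk (b' - b) j, ‖bs (m - b') j' g x‖ₑ ^ (P k - P l)) *
          ‖bs (m - a) i f x‖ₑ ^ P l) := by
        rw [lintegral_const_mul']
        exact ENNReal.rpow_ne_top_of_nonneg hq0.le hN
    _ = ((2 : ℝ≥0∞) ^ (b' - b)) ^ (P k - P l) *
        ∑ j' ∈ bk (b' - b) j, ∫⁻ x, ‖bs (m - b') j' g x‖ₑ ^ (P k - P l) *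
          ‖bs (m - a) i f x‖ₑ ^ P l := by
        rw [lint_sum_mul]
        · intro j' hjj
          exact (bs_cont hg hb' (hj' j' hjj)).enorm.measurable.pow_const _
        · intro j' _ x
          exact ENNReal.rpow_lt_top_of_nonneg hq0.le enorm_ne_top
    _ ≤ ((2 : ℝ≥0∞) ^ (b' - b)) ^ (P k - P l) *
        ∑ j' ∈ bk (b' - b) j, M ^ P k * S2 (P k) (bk (m - a) i) f ^ (P l / 2) *
          S2 (P k) (bk (m - b') j') g ^ ((P k - P l) / 2) :=
        mul_le_mul_right (Finset.sum_le_sum hterm) _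
    _ = ((2 : ℝ≥0∞) ^ (b' - b)) ^ (P k - P l) *
        (M ^ P k * S2 (P k) (bk (m - a) i) f ^ (P l / 2) *
          ∑ j' ∈ bk (b' - b) j, S2 (P k) (bk (m - b') j') g ^ ((P k - P l) / 2)) := by
        congr 1
        rw [Finset.mul_sum]
    _ ≤ ((2 : ℝ≥0∞) ^ (b' - b)) ^ (P k) *
        (M ^ P k * S2 (P k) (bk (m - a) i) f ^ (P l / 2) *
          (∑ j' ∈ bk (b' - b) j, S2 (P k) (bk (m - b') j') g) ^ ((P k - P l) / 2)) := by
        apply mul_le_mul'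
        · exact ENNReal.rpow_le_rpow_of_exponent_le hN1 (by linarith)
        · exact mul_le_mul_right (sum_pow_le (by linarith) _ _) _
    _ = (2 ^ (b' - b) * M) ^ P k * S2 (P k) (bk (m - a) i) f ^ (P l / 2) *
        S2 (P k) (bk (m - b) j) g ^ ((P k - P l) / 2) := by
        rw [hS, ENNReal.mul_rpow_of_nonneg _ _ hPk]
        ring

end Pool.Agent.Dcp
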