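import Pool.Agent.Dcp.Grp

/-!
# Dcp, module MLh: the Hölder step

`F = ‖bs (m-a) i f‖ₑ`, `G = ‖bs (m-b) j g‖ₑ` (continuous, finite), `p = P k`, `θ = 1/(k-l+1)`.
`F^(P l) G^(p - P l) = (G^(P (k-l)) F^(p - P (k-l)))^θ (F^(P (l-1)) G^(p - P (l-1)))^(1-θ)`: exponent of `F`:
`θ (p - P (k-l)) + (1-θ) P (l-1) = P l`, that is
`k(k+1) - (k-l)(k-l+1) + (k-l) l (l-1) = l (l+1) (k-l+1)`; the exponent of `G` follows as the sum is `p`.
`ENNReal.lintegral_mul_norm_pow_le`, `hM1` for `(g, f)` with the blocks `(j, i)` and `hM2` for `(f, g)`.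
The same identity for the exponents of the two sums of squares, and of the constants: `(M1^p)^θ (M2^p)^(1-θ) = (M1^θ M2^(1-θ))^p`.
(`ENNReal.mul_rpow_of_nonneg`, `ENNReal.rpow_mul`, `ENNReal.rpow_add_of_nonneg`; all exponents are `≥ 0`.)
-/

set_option autoImplicit false

namespace Pool.Agent.Dcp

open MeasureTheory Finset
open scoped ENNReal

private theorem mix {M1 M2 x y : ℝ≥0∞} {p θ a1 a2 b1 b2 : ℝ} (h0 : 0 ≤ θ) (h1 : 0 ≤ 1 - θ)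
    (hp : 0 ≤ p) (ha1 : 0 ≤ a1) (ha2 : 0 ≤ a2) (hb1 : 0 ≤ b1) (hb2 : 0 ≤ b2) :
    (M1 ^ p * y ^ b1 * x ^ a1) ^ θ * (M2 ^ p * x ^ a2 * y ^ b2) ^ (1 - θ) =
      (M1 ^ θ * M2 ^ (1 - θ)) ^ p * x ^ (θ * a1 + (1 - θ) * a2) * y ^ (θ * b1 + (1 - θ) * b2) := by
  rw [ENNReal.mul_rpow_of_nonneg _ _ h0, ENNReal.mul_rpow_of_nonneg _ _ h0, ENNReal.mul_rpow_of_nonneg _ _ h1,
    ENNReal.mul_rpow_of_nonneg _ _ h1, ENNReal.mul_rpow_of_nonneg _ _ hp,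
    ENNReal.rpow_add_of_nonneg _ _ (by positivity) (by positivity),
    ENNReal.rpow_add_of_nonneg _ _ (by positivity) (by positivity)]
  simp only [← ENNReal.rpow_mul]
  rw [mul_comm p θ, mul_comm b1 θ, mul_comm a1 θ, mul_comm p (1 - θ), mul_comm a2 (1 - θ), mul_comm b2 (1 - θ)]
  ring

private theorem mix' {x y : ℝ≥0∞} {θ a1 a2 b1 b2 : ℝ} (h0 : 0 ≤ θ) (h1 : 0 ≤ 1 - θ)
    (ha1 : 0 ≤ a1) (ha2 : 0 ≤ a2) (hb1 : 0 ≤ b1) (hb2 : 0 ≤ b2) :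
    (y ^ b1 * x ^ a1) ^ θ * (x ^ a2 * y ^ b2) ^ (1 - θ) =
      x ^ (θ * a1 + (1 - θ) * a2) * y ^ (θ * b1 + (1 - θ) * b2) := by
  have := mix (M1 := 1) (M2 := 1) (x := x) (y := y) h0 h1 (le_refl (0 : ℝ)) ha1 ha2 hb1 hb2
  simpa using this

theorem ml_holder {k l m a b : ℕ} {κ : ℝ} {M1 M2 : ℝ≥0∞} (h1 : 1 ≤ l) (h2 : l < k) (ha : a ≤ m) (hb : b ≤ m)
    (hM1 : ML k (k - l) κ m b a M1) (hM2 : ML k (l - 1) κ m a b M2) :
    ML k l κ m a b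
      (M1 ^ (1 / ((k : ℝ) - l + 1)) * M2 ^ (1 - 1 / ((k : ℝ) - l + 1))) := by
  intro τ f g hf hg i j hi hj hsep
  have hkl : ((k - l : ℕ) : ℝ) = (k : ℝ) - l := by rw [Nat.cast_sub h2.le]
  have hl1 : ((l - 1 : ℕ) : ℝ) = (l : ℝ) - 1 := by rw [Nat.cast_sub h1]; simp
  have hl : (1 : ℝ) ≤ l := by exact_mod_cast h1
  have hlk : (l : ℝ) + 1 ≤ k := by exact_mod_cast h2
  set θ : ℝ := 1 / ((k : ℝ) - l + 1) with hθ
  have hden : 0 < (k : ℝ) - l + 1 := by linarith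
  have h0 : 0 ≤ θ := by positivity
  have h01 : 0 ≤ 1 - θ := by
    rw [hθ, sub_nonneg, div_le_one hden]
    linarith
  have hθm : θ * ((k : ℝ) - l + 1) = 1 := by
    rw [hθ]
    field_simp
  have hPkl : P (k - l) = ((k : ℝ) - l) * ((k : ℝ) - l + 1) := by simp [P, hkl]
  have hPl1 : P (l - 1) = ((l : ℝ) - 1) * l := by simp [P, hl1]
  have hPk : P k = (k : ℝ) * (k + 1) := rfl
  have hPl : P l = (l : ℝ) * (l + 1) := rfl
  have eF : θ * (P k - P (k - l)) + (1 - θ) * P (l - 1) = P l := by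
    rw [hPkl, hPl1, hPk, hPl]
    have : θ * ((k : ℝ) * (k + 1) - ((k : ℝ) - l) * ((k : ℝ) - l + 1)) + (1 - θ) * (((l : ℝ) - 1) * l) =
        (θ * ((k : ℝ) - l + 1)) * (2 * l) + (((l : ℝ) - 1) * l) := by ring
    rw [this, hθm]
    ring
  have eG : θ * P (k - l) + (1 - θ) * (P k - P (l - 1)) = P k - P l := by linarith
  have n1 : 0 ≤ P (k - l) := by rw [hPkl]; apply mul_nonneg <;> linarith
  have n2 : 0 ≤ P (l - 1) := by rw [hPl1]; apply mul_nonneg <;> linarith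
  have n3 : 0 ≤ P k := by rw [hPk]; positivity
  have n4 : 0 ≤ P k - P (k - l) := by rw [hPk, hPkl]; nlinarith
  have n5 : 0 ≤ P k - P (l - 1) := by rw [hPk, hPl1]; nlinarith
  have hmF : Measurable fun x => ‖bs (m - a) i f x‖ₑ :=
    (spec_cont (spec_bs (by norm_num) zero_le_one hf ha hi)).measurable.enorm
  have hmG : Measurable fun x => ‖bs (m - b) j g x‖ₑ :=
    (spec_cont (spec_bs (by norm_num) zero_le_one hg hb hj)).measurable.enorm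
  have k1 := hM1 τ g f hg hf j i hj hi (fun s t hs hs' ht ht' => by
    rw [abs_sub_comm]
    exact hsep t s ht ht' hs hs')
  have k2 := hM2 τ f g hf hg i j hi hj hsep
  calc ∫⁻ x, ‖bs (m - a) i f x‖ₑ ^ P l * ‖bs (m - b) j g x‖ₑ ^ (P k - P l)
      = ∫⁻ x, (‖bs (m - b) j g x‖ₑ ^ P (k - l) * ‖bs (m - a) i f x‖ₑ ^ (P k - P (k - l))) ^ θ *
          (‖bs (m - a) i f x‖ₑ ^ P (l - 1) * ‖bs (m - b) j g x‖ₑ ^ (P k - P (l - 1))) ^ (1 - θ) := by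
        apply lintegral_congr
        intro x
        rw [mix' h0 h01 n4 n2 n1 n5, eF, eG]
    _ ≤ (∫⁻ x, ‖bs (m - b) j g x‖ₑ ^ P (k - l) * ‖bs (m - a) i f x‖ₑ ^ (P k - P (k - l))) ^ θ *
          (∫⁻ x, ‖bs (m - a) i f x‖ₑ ^ P (l - 1) * ‖bs (m - b) j g x‖ₑ ^ (P k - P (l - 1))) ^ (1 - θ) := by
        apply ENNReal.lintegral_mul_norm_pow_le _ _ h0 h01 (by ring)
        · exact ((hmG.pow_const _).mul (hmF.pow_const _)).aemeasurable
        · exact ((hmF.pow_const _).mul (hmG.pow_const _)).aemeasurable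
    _ ≤ (M1 ^ P k * S2 (P k) (bk (m - b) j) g ^ (P (k - l) / 2) *
          S2 (P k) (bk (m - a) i) f ^ ((P k - P (k - l)) / 2)) ^ θ *
        (M2 ^ P k * S2 (P k) (bk (m - a) i) f ^ (P (l - 1) / 2) *
          S2 (P k) (bk (m - b) j) g ^ ((P k - P (l - 1)) / 2)) ^ (1 - θ) := by
        gcongr
    _ = _ := by
        rw [mix h0 h01 n3 (by positivity) (by positivity) (by positivity) (by positivity)]
        congr 3
        · linarith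
        · linarith

end Pool.Agent.Dcp
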