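import Pool.Agent.Dcp.Itr
import Pool.Agent.Dcp.L1
import Pool.Agent.Dcp.MLb
import Pool.Agent.Dcp.MLh

/-!
# Dcp, module QSt: the iteration

`qq_zero`: `K` from `Adm k η` for `ε`.  `l = 0`: `ml_zero` with `D = K 2^((η+ε)(m-b)) ≤ K 2^(η (m-b) + ε m)`.  `l ≥ 1`: `AA k 0 l = 0`, `ml_triv`
with `D = K 2^((η+ε) m)` (`dec_mono`; `b ≤ c b ≤ m`).
`qq_step`: given `ε`, let `K₀` be from `hQ` for `ε/2`, `K₁` from `lemma_one (k-l) l` for `ε/2` (maximum over `1 ≤ l < k`, `k = (k-l)+l`).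
Let `k!^(n+1) ∣ b`, `k c b ≤ m`, `a ≤ m`, `l a ≤ (k-l+1) b`.  `l = 0`: `hQ` (`AA k (n+1) 0 = AA k n 0 = 1`).  `l ≥ 1`: `a' = (k-l+1) (b/l)`
(`l ∣ k! ∣ b`), `l a' = (k-l+1) b`, `a ≤ a'`, `a' ≤ k b ≤ m`, `k!^n ∣ a'` (`b/l = (k!/l) k!^n b₁`), `c a' ≤ c k b ≤ m`.
`hQ` for `(l, a, b) := (k-l, b, a')`: `(k-l) b ≤ (l+1) a'` since `l (l+1) a' = (l+1)(k-l+1) b ≥ l (k-l) b`; and for
`(l-1, a', b)`: `(l-1) a' ≤ (k-l+2) b` since `l (l-1) a' = (l-1)(k-l+1) b`.  `ml_holder` gives `ML k l κ m a' b M` with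
`M = K₀ 2^(η (m - A' b) + (ε/2) m)`: with `θ = 1/(k-l+1)`, `θ a' = b/l`, so
`θ η (m - A_{k-l} a') + (1-θ) η (m - A_{l-1} b) = η (m - A' b)`, `A' = (1/l) A_{k-l} + ((k-l)/(k-l+1)) A_{l-1}`.  `lemma_one` (`a' ≤ m`).
`qq_all`: induction, `c = k^(n+1)`.
-/

set_option autoImplicit false

namespace Pool.Agent.Dcp

open MeasureTheory Finset
open scoped ENNReal

/-- the statement of the iteration -/
def QQ (k : ℕ) (κ η : ℝ) (n c : ℕ) (A : ℕ → ℝ) : Prop :=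
  ∀ ε : ℝ, 0 < ε → ∃ K : ℝ≥0∞, K ≠ ⊤ ∧ ∀ m a b l : ℕ, l < k → k.factorial ^ n ∣ b →
    c * b ≤ m → a ≤ m → l * a ≤ (k - l + 1) * b →
      ML k l κ m a b (K * 2 ^ (η * ((m : ℝ) - A l * b) + ε * m))

private theorem aa_zero (k n : ℕ) : AA k n 0 = 1 := by
  cases n with
  | zero => simp [AA]
  | succ n => simp [AA]

private theorem two_rpow_le {x y : ℝ} (h : x ≤ y) : (2 : ℝ≥0∞) ^ x ≤ 2 ^ y :=
  ENNReal.rpow_le_rpow_of_exponent_le (by norm_num) h

theorem qq_zero {k : ℕ} (hk : 2 ≤ k) {η κ : ℝ} (hη : 0 ≤ η) (h : Adm k η) :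
    QQ k κ η 0 k (AA k 0) := by
  intro ε hε
  obtain ⟨K, hK, hdec⟩ := h ε hε
  refine ⟨K, hK, ?_⟩
  intro m a b l hl _ hb ha _
  have hbm : b ≤ m := (Nat.le_mul_of_pos_left b (by omega)).trans hb
  have hm0 : (0 : ℝ) ≤ m := Nat.cast_nonneg m
  rcases Nat.eq_zero_or_pos l with h0 | h0
  · subst h0
    rw [aa_zero]
    refine ml_mono (ml_zero (by omega) hbm (hdec (m - b))) ?_
    refine mul_le_mul_right (two_rpow_le ?_) K
    rw [Nat.cast_sub hbm]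
    have h1 : (0 : ℝ) ≤ b := Nat.cast_nonneg b
    nlinarith
  · have hA : AA k 0 l = 0 := by
      simp [AA, h0.ne']
    rw [hA]
    have hmono : ∀ a : ℕ, a ≤ m → Dec k 2 (m - a) (K * 2 ^ (η * ((m : ℝ) - 0 * b) + ε * m)) := by
      intro a ha
      refine dec_mono (hdec (m - a)) ?_
      refine mul_le_mul_right (two_rpow_le ?_) K
      rw [Nat.cast_sub ha]
      have h1 : (0 : ℝ) ≤ a := Nat.cast_nonneg a
      nlinarith
    exact ml_triv (by omega) hl.le ha hbm (hmono a ha) (hmono b hbm)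

theorem qq_step {k : ℕ} (hk : 2 ≤ k) (hD : ∀ l : ℕ, 1 ≤ l → l < k → Adm l 0) {η κ : ℝ}
    (hη : 0 ≤ η) (hκ : 0 < κ) {n c : ℕ} (hc : 1 ≤ c) (hQ : QQ k κ η n c (AA k n)) :
    QQ k κ η (n + 1) (k * c) (AA k (n + 1)) := by
  intro ε hε
  obtain ⟨K₀, hK₀, hQ₀⟩ := hQ (ε / 2) (by positivity)
  have hex : ∀ l : ℕ, ∃ K : ℝ≥0∞, K ≠ ⊤ ∧ (1 ≤ l → l < k → ∀ (m a a' b : ℕ) (M : ℝ≥0∞),
      a ≤ a' → a' ≤ m → b ≤ m → l * a' ≤ (k - l + 1) * b → ML k l κ m a' b M →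
        ML k l κ m a b (K * 2 ^ (ε / 2 * a') * M)) := by
    intro l
    by_cases hl : 1 ≤ l ∧ l < k
    · obtain ⟨K, hK, hL⟩ := lemma_one (k - l) l (by omega) hl.1 (hD l hl.1 hl.2) hκ
        (ε := ε / 2) (by positivity)
      rw [Nat.sub_add_cancel hl.2.le] at hL
      exact ⟨K, hK, fun _ _ => hL⟩
    · exact ⟨0, ENNReal.zero_ne_top, fun h1 h2 => absurd ⟨h1, h2⟩ hl⟩
  choose K₁ hK₁ hL using hex
  have hsum : ∑ l ∈ range k, K₁ l ≠ ⊤ := by
    rw [ENNReal.sum_ne_top]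
    exact fun l _ => hK₁ l
  refine ⟨K₀ + (∑ l ∈ range k, K₁ l) * K₀, ENNReal.add_ne_top.2 ⟨hK₀,
    ENNReal.mul_ne_top hsum hK₀⟩, ?_⟩
  intro m a b l hl hdvd hb ha hab
  have hm0 : (0 : ℝ) ≤ m := Nat.cast_nonneg m
  have hdvd' : k.factorial ^ n ∣ b := (pow_dvd_pow _ (Nat.le_succ n)).trans hdvd
  have hcb : c * b ≤ m := by
    refine le_trans ?_ hb
    rw [mul_assoc]
    exact Nat.le_mul_of_pos_left _ (by omega)
  rcases Nat.eq_zero_or_pos l with h0 | h0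
  · subst h0
    have h1 := hQ₀ m a b 0 hl hdvd' hcb ha hab
    rw [aa_zero] at h1 ⊢
    refine ml_mono h1 (mul_le_mul' le_self_add (two_rpow_le ?_))
    nlinarith
  · obtain ⟨w, hw⟩ := Nat.dvd_factorial h0 hl.le
    obtain ⟨b1, hb1⟩ := hdvd
    have hb' : b = l * (w * k.factorial ^ n * b1) := by
      calc b = k.factorial ^ (n + 1) * b1 := hb1
        _ = k.factorial ^ n * k.factorial * b1 := by rw [pow_succ]
        _ = k.factorial ^ n * (l * w) * b1 := by rw [← hw]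
        _ = _ := by ring
    obtain ⟨b', hb'def⟩ : ∃ b' : ℕ, b' = w * k.factorial ^ n * b1 := ⟨_, rfl⟩
    rw [← hb'def] at hb'
    obtain ⟨r, hr⟩ : ∃ r : ℕ, k = l + r := ⟨k - l, by omega⟩
    have hr1 : 1 ≤ r := by omega
    have hkl : k - l = r := by omega
    obtain ⟨a', ha'⟩ : ∃ a' : ℕ, a' = (r + 1) * b' := ⟨_, rfl⟩
    have hla' : l * a' = (r + 1) * b := by rw [ha', hb']; ring
    have haa' : a ≤ a' := by
      rw [hkl, ← hla'] at hab
      exact Nat.le_of_mul_le_mul_left hab h0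
    have ha'kb : a' ≤ k * b := by
      calc a' ≤ l * a' := Nat.le_mul_of_pos_left _ h0
        _ = (r + 1) * b := hla'
        _ ≤ k * b := Nat.mul_le_mul_right _ (by omega)
    have hca'm : c * a' ≤ m := by
      calc c * a' ≤ c * (k * b) := Nat.mul_le_mul_left _ ha'kb
        _ = k * c * b := by ring
        _ ≤ m := hb
    have ha'm : a' ≤ m := (Nat.le_mul_of_pos_left _ (by omega)).trans hca'm
    have hbm : b ≤ m := (Nat.le_mul_of_pos_left _ (by omega)).trans hcb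
    have hdvda' : k.factorial ^ n ∣ a' := by
      rw [ha', hb'def]
      exact ⟨(r + 1) * (w * b1), by ring⟩
    have hM1 := hQ₀ m b a' (k - l) (by omega) hdvda' hca'm hbm (by
      have e1 : k - (k - l) + 1 = l + 1 := by omega
      rw [e1, hkl]
      have h1 : l * (r * b) ≤ l * ((l + 1) * a') := by
        calc l * (r * b) ≤ (l + 1) * ((r + 1) * b) :=
              Nat.mul_le_mul (by omega) (Nat.mul_le_mul_right _ (by omega))
          _ = (l + 1) * (l * a') := by rw [hla']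
          _ = l * ((l + 1) * a') := by ring
      exact Nat.le_of_mul_le_mul_left h1 h0)
    have hM2 := hQ₀ m a' b (l - 1) (by omega) hdvd' hcb ha'm (by
      have e1 : k - (l - 1) + 1 = r + 2 := by omega
      rw [e1]
      have h1 : l * ((l - 1) * a') ≤ l * ((r + 2) * b) := by
        calc l * ((l - 1) * a') = (l - 1) * (l * a') := by ring
          _ = (l - 1) * ((r + 1) * b) := by rw [hla']
          _ ≤ l * ((r + 2) * b) := Nat.mul_le_mul (by omega) (Nat.mul_le_mul_right _ (by omega))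
      exact Nat.le_of_mul_le_mul_left h1 h0)
    have hH := ml_holder h0 hl ha'm hbm hM1 hM2
    have hL' := hL l h0 hl m a a' b _ haa' ha'm hbm (by rw [hkl, hla']) hH
    refine ml_mono hL' ?_
    -- the constant
    have hkR : (k : ℝ) = l + r := by rw [hr]; push_cast; ring
    set θ : ℝ := 1 / ((k : ℝ) - l + 1) with hθ
    have hr0 : (0 : ℝ) < (r : ℝ) + 1 := by positivity
    have hθ' : θ = 1 / ((r : ℝ) + 1) := by rw [hθ, hkR]; congr 1; ring
    have hθ0 : 0 ≤ θ := by rw [hθ']; positivity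
    have hθ1 : 0 ≤ 1 - θ := by
      rw [hθ', sub_nonneg, div_le_one hr0]
      have : (0 : ℝ) ≤ r := Nat.cast_nonneg r
      linarith
    have hl0 : (0 : ℝ) < l := by exact_mod_cast h0
    have hbR : (b : ℝ) = l * b' := by rw [hb']; push_cast; ring
    have ha'R : (a' : ℝ) = (r + 1) * b' := by rw [ha']; push_cast; ring
    have hAA : AA k (n + 1) l = (1 / (l : ℝ)) * AA k n (k - l) +
        (((k : ℝ) - l) / ((k : ℝ) - l + 1)) * AA k n (l - 1) := by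
      show (if l = 0 then (1 : ℝ) else _) = _
      rw [if_neg h0.ne']
    set A1 := AA k n (k - l) with hA1
    set A2 := AA k n (l - 1) with hA2
    have hconst : (K₀ * 2 ^ (η * ((m : ℝ) - A1 * a') + ε / 2 * m)) ^ θ *
        (K₀ * 2 ^ (η * ((m : ℝ) - A2 * b) + ε / 2 * m)) ^ (1 - θ) =
        K₀ * 2 ^ (η * ((m : ℝ) - AA k (n + 1) l * b) + ε / 2 * m) := by
      rw [ENNReal.mul_rpow_of_nonneg _ _ hθ0, ENNReal.mul_rpow_of_nonneg _ _ hθ1,
        ← ENNReal.rpow_mul, ← ENNReal.rpow_mul, mul_mul_mul_comm,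
        ← ENNReal.rpow_add_of_nonneg _ _ hθ0 hθ1, ← ENNReal.rpow_add _ _ two_ne_zero
        ENNReal.ofNat_ne_top]
      have e1 : θ + (1 - θ) = 1 := by ring
      rw [e1, ENNReal.rpow_one]
      congr 2
      rw [hAA, hbR, ha'R, hθ', hkR]
      field_simp
      ring
    rw [hconst]
    have hK1 : K₁ l ≤ ∑ l ∈ range k, K₁ l :=
      Finset.single_le_sum (f := K₁) (fun i _ => bot_le) (Finset.mem_range.2 hl)
    calc K₁ l * 2 ^ (ε / 2 * (a' : ℝ)) * (K₀ * 2 ^ (η * ((m : ℝ) - AA k (n + 1) l * b) + ε / 2 * m))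
        = (K₁ l * K₀) * (2 ^ (ε / 2 * (a' : ℝ)) *
          2 ^ (η * ((m : ℝ) - AA k (n + 1) l * b) + ε / 2 * m)) := by ring
      _ = (K₁ l * K₀) * 2 ^ (ε / 2 * (a' : ℝ) +
          (η * ((m : ℝ) - AA k (n + 1) l * b) + ε / 2 * m)) := by
        rw [← ENNReal.rpow_add _ _ two_ne_zero ENNReal.ofNat_ne_top]
      _ ≤ _ := by
        refine mul_le_mul' (le_trans (mul_le_mul' hK1 le_rfl) le_add_self) (two_rpow_le ?_)
        have : (a' : ℝ) ≤ m := by exact_mod_cast ha'm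
        nlinarith

theorem qq_all {k : ℕ} (hk : 2 ≤ k) (hD : ∀ l : ℕ, 1 ≤ l → l < k → Adm l 0) {η κ : ℝ}
    (hη : 0 ≤ η) (hκ : 0 < κ) (h : Adm k η) (n : ℕ) : QQ k κ η n (k ^ (n + 1)) (AA k n) := by
  induction n with
  | zero =>
    rw [zero_add, pow_one]
    exact qq_zero hk hη h
  | succ n ih =>
    have := qq_step hk hD hη hκ (Nat.one_le_pow _ _ (by omega)) ih
    rwa [← pow_succ'] at this

end Pool.Agent.Dcp
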