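import Pool.Agent.Dcp.Tay

/-!
# Dcp, module Shf: on a short arc the sum does not change along a vector

`d = l + 1`, `H = 2^(ν - ν/l)`: `H^d ≤ 2^(l ν + l)` (`ν/l ≥ (ν - l + 1)/l` as real numbers, so
`(l+1)(ν - ν/l) ≤ (l+1)(ν - (ν-l+1)/l) = (l²-1)(ν+1)/l ≤ l ν + l`).  If `a = 0` on the arc both sides are `0` (any `b = 0`, `θ = 0`); the choice of
`b, θ` must not depend on `a`: if no `n` of the arc satisfies `2 |n| ≥ 2^ν`, take `b = 0`, `θ = 0`; otherwise take such an `n₀`.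
`θ' n = (n-n₀)^d/(d (-n₀)^l)`, `|θ' n| ≤ H^d/(d (2^(ν-1))^l) ≤ 2^(2l) =: C₁` for `n` in the arc; `b q = choose d (q+2) (-n₀)^(-(q+1))/d`,
`|b q| ≤ 2^d 2^(q+1)/2^(ν(q+1))`.  Binomial theorem: `n + ∑_q n^(q+2) b q = θ' n - c₀`, `c₀ = (-n₀)^d/(d (-n₀)^l)` (the coefficient of `n` is
`choose d 1 (-n₀)^(d-1)/(d (-n₀)^l) = 1`).  So with `s ∈ [0,1]`: `FS … (cons u x) = ∑_n a n ee (Γ(n)·(u,x))
= ee (s c₀) ∑_n (a n ee (Γ(n)·(u+s, x + s b))) ee (-(s C) (θ' n/C))`, `C = 2^(2 l + 2)`, `θ n = θ' n/C`.  `tay` with `L = C`, `lam = -(s C)`.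
-/

set_option autoImplicit false

namespace Pool.Agent.Dcp

open MeasureTheory Finset
open scoped ENNReal

private theorem shf_ee_add (s t : ℝ) : ee (s + t) = ee s * ee t := by
  unfold ee
  rw [← Complex.exp_add]
  congr 1
  push_cast
  ring

private theorem shf_ee_norm (t : ℝ) : ‖ee t‖ = 1 := by
  unfold ee
  rw [show (2 * Real.pi * t * Complex.I : ℂ) = ((2 * Real.pi * t : ℝ) : ℂ) * Complex.I by
    push_cast; ring, Complex.norm_exp_ofReal_mul_I]

private theorem shf_exp (l ν : ℕ) (hl : 1 ≤ l) : (l + 1) * (ν - ν / l) ≤ l * ν + l := by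
  have h1 := Nat.div_add_mod ν l
  have h2 := Nat.mod_lt ν hl
  obtain ⟨q, hq⟩ : ∃ q, q = ν / l := ⟨_, rfl⟩
  obtain ⟨r, hr⟩ : ∃ r, r = ν % l := ⟨_, rfl⟩
  rw [← hq, ← hr] at h1
  rw [← hr] at h2
  rw [← hq]
  have hqν : q ≤ ν := by
    rw [hq]
    exact Nat.div_le_self ν l
  obtain ⟨k, hk⟩ := Nat.exists_eq_add_of_le hqν
  have h3 : ν - q = k := by omega
  rw [h3]
  have h4 : (l + 1) * k + q = l * ν + r := by
    calc (l + 1) * k + q = l * k + (q + k) := by ring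
      _ = l * k + (l * q + r) := by rw [← hk, h1]
      _ = l * (q + k) + r := by ring
      _ = l * ν + r := by rw [← hk]
  omega

private theorem shf_binom (l : ℕ) (m n : ℝ) (hm : m ≠ 0) :
    n + ∑ q : Fin l, n ^ (q.val + 1 + 1) * (((l + 1).choose (q.val + 2) : ℝ) /
      ((l + 1) * m ^ (q.val + 1))) = (n + m) ^ (l + 1) / ((l + 1) * m ^ l) - m / (l + 1) := by
  have hl : ((l : ℝ) + 1) ≠ 0 := by positivity
  have e1 : (n + m) ^ (l + 1) = (∑ k ∈ range l, n ^ (k + 1 + 1) * m ^ (l + 1 - (k + 1 + 1)) *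
      ((l + 1).choose (k + 1 + 1) : ℝ)) + n * m ^ l * (l + 1) + m ^ (l + 1) := by
    rw [add_pow, Finset.sum_range_succ', Finset.sum_range_succ']
    simp
  have e2 : ∀ k ∈ range l, n ^ (k + 1 + 1) * m ^ (l + 1 - (k + 1 + 1)) *
      ((l + 1).choose (k + 1 + 1) : ℝ) / ((l + 1) * m ^ l) =
      n ^ (k + 1 + 1) * (((l + 1).choose (k + 2) : ℝ) / ((l + 1) * m ^ (k + 1))) := by
    intro k hk
    rw [Finset.mem_range] at hk
    have h1 : m ^ l = m ^ (l + 1 - (k + 1 + 1)) * m ^ (k + 1) := by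
      rw [← pow_add]
      congr 1
      omega
    rw [h1]
    have h2 : m ^ (l + 1 - (k + 1 + 1)) ≠ 0 := pow_ne_zero _ hm
    have h3 : m ^ (k + 1) ≠ 0 := pow_ne_zero _ hm
    field_simp
  rw [e1, add_div, add_div, Finset.sum_div, Finset.sum_congr rfl e2,
    ← Fin.sum_univ_eq_sum_range (fun k => n ^ (k + 1 + 1) * (((l + 1).choose (k + 2) : ℝ) /
      ((l + 1) * m ^ (k + 1)))) l]
  have h4 : m ^ l ≠ 0 := pow_ne_zero _ hm
  have h5 : n * m ^ l * (l + 1) / ((l + 1) * m ^ l) = n := by field_simp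
  have h6 : m ^ (l + 1) / ((l + 1) * m ^ l) = m / (l + 1) := by
    rw [pow_succ]
    field_simp
  rw [h5, h6]
  ring

theorem arc_shift (l : ℕ) (hl : 1 ≤ l) : ∃ C : ℝ, 1 ≤ C ∧ ∀ ν σ i : ℕ, σ ≤ 1 → i < 2 ^ (ν / l) →
    ∃ (b : E l) (θ : ℤ → ℝ), (∀ q, |b q| ≤ C / 2 ^ (ν * (q.val + 1))) ∧
      (∀ n ∈ arc σ ν (ν - ν / l) i, |θ n| ≤ 1) ∧
      ∀ (a : ℤ → ℂ) (p u s : ℝ) (x : E l), (∀ n : ℤ, 2 * |n| < 2 ^ ν → a n = 0) → 1 ≤ p →
        0 ≤ s → s ≤ 1 →
        ‖FS (l + 1) (arc σ ν (ν - ν / l) i) a (Fin.cons u x)‖ₑ ^ p ≤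
          WL C ^ (p - 1) * ∑' j : ℕ, wj C j *
            ‖FS (l + 1) (arc σ ν (ν - ν / l) i) (fun n => a n * (θ n : ℂ) ^ j)
              (Fin.cons (u + s) (fun q => x q + s * b q))‖ₑ ^ p := by
  obtain ⟨C, hC⟩ : ∃ C : ℝ, C = 2 ^ (2 * l + 2) := ⟨_, rfl⟩
  have hC1 : 1 ≤ C := by
    rw [hC]
    exact one_le_pow₀ (by norm_num)
  have hC0 : 0 < C := by linarith
  refine ⟨C, hC1, fun ν σ i _ _ => ?_⟩
  by_cases hex : ∃ n₀ ∈ arc σ ν (ν - ν / l) i, ¬ 2 * |n₀| < 2 ^ ν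
  · obtain ⟨n₀, hn₀, hn₀2⟩ := hex
    push Not at hn₀2
    obtain ⟨m, hm⟩ : ∃ m : ℝ, m = -(n₀ : ℝ) := ⟨_, rfl⟩
    have hmabs : (2 : ℝ) ^ ν / 2 ≤ |m| := by
      rw [hm, abs_neg]
      have h1 : ((2 ^ ν : ℤ) : ℝ) ≤ ((2 * |n₀| : ℤ) : ℝ) := by exact_mod_cast hn₀2
      push_cast at h1
      linarith
    have h2ν : (0 : ℝ) < 2 ^ ν := by positivity
    have hmpos : 0 < |m| := by linarith
    have hm0 : m ≠ 0 := abs_pos.1 hmpos
    have hl1 : (0 : ℝ) < (l : ℝ) + 1 := by positivity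
    have hl11 : (1 : ℝ) ≤ (l : ℝ) + 1 := by linarith [Nat.cast_nonneg (α := ℝ) l]
    refine ⟨fun q => ((l + 1).choose (q.val + 2) : ℝ) / ((l + 1) * m ^ (q.val + 1)),
      fun n => ((n : ℝ) + m) ^ (l + 1) / ((l + 1) * m ^ l) / C, fun q => ?_, fun n hn => ?_,
      fun a p u s x ha hp hs0 hs1 => ?_⟩
    · -- the bound of `b`
      have hq := q.2
      rw [abs_div, abs_mul, abs_pow, abs_of_pos hl1,
        abs_of_nonneg (Nat.cast_nonneg (α := ℝ) _)]
      have h1 : ((l + 1).choose (q.val + 2) : ℝ) ≤ 2 ^ (l + 1) := by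
        exact_mod_cast Nat.choose_le_two_pow (l + 1) (q.val + 2)
      have h2 : ((2 : ℝ) ^ ν / 2) ^ (q.val + 1) ≤ (l + 1) * |m| ^ (q.val + 1) := by
        calc ((2 : ℝ) ^ ν / 2) ^ (q.val + 1) ≤ |m| ^ (q.val + 1) :=
              pow_le_pow_left₀ (by positivity) hmabs _
          _ = 1 * |m| ^ (q.val + 1) := (one_mul _).symm
          _ ≤ (l + 1) * |m| ^ (q.val + 1) := mul_le_mul_of_nonneg_right hl11 (by positivity)
      calc ((l + 1).choose (q.val + 2) : ℝ) / ((l + 1) * |m| ^ (q.val + 1))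
          ≤ 2 ^ (l + 1) / ((2 : ℝ) ^ ν / 2) ^ (q.val + 1) :=
            div_le_div₀ (by positivity) h1 (by positivity) h2
        _ = 2 ^ (l + 1) * 2 ^ (q.val + 1) / 2 ^ (ν * (q.val + 1)) := by
            rw [div_pow, ← pow_mul]
            field_simp
        _ ≤ C / 2 ^ (ν * (q.val + 1)) := by
            refine div_le_div_of_nonneg_right ?_ (by positivity)
            rw [hC, ← pow_add]
            exact pow_le_pow_right₀ (by norm_num) (by omega)
    · -- the bound of `θ`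
      have hdist : |(n : ℝ) + m| ≤ 2 ^ (ν - ν / l) := by
        unfold arc bk at hn hn₀
        simp only [Finset.mem_image, Finset.mem_Ico] at hn hn₀
        obtain ⟨j, ⟨hj1, hj2⟩, hj⟩ := hn
        obtain ⟨j₀, ⟨hj3, hj4⟩, hj₀⟩ := hn₀
        have e : (n : ℝ) + m = (j : ℝ) - (j₀ : ℝ) := by
          rw [hm, ← hj, ← hj₀]
          push_cast
          ring
        rw [e]
        have a1 : ((i * 2 ^ (ν - ν / l) : ℕ) : ℝ) ≤ j := by exact_mod_cast hj1
        have a2 : (j : ℝ) ≤ (((i + 1) * 2 ^ (ν - ν / l) : ℕ) : ℝ) := by exact_mod_cast hj2.le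
        have a3 : ((i * 2 ^ (ν - ν / l) : ℕ) : ℝ) ≤ j₀ := by exact_mod_cast hj3
        have a4 : (j₀ : ℝ) ≤ (((i + 1) * 2 ^ (ν - ν / l) : ℕ) : ℝ) := by exact_mod_cast hj4.le
        push_cast at a1 a2 a3 a4
        rw [abs_le]
        constructor <;> nlinarith
      rw [abs_div, abs_div, abs_mul, abs_pow, abs_pow, abs_of_pos hl1, abs_of_pos hC0]
      rw [div_le_one hC0]
      have h1 : |(n : ℝ) + m| ^ (l + 1) ≤ 2 ^ (l * ν + l) := by
        calc |(n : ℝ) + m| ^ (l + 1) ≤ ((2 : ℝ) ^ (ν - ν / l)) ^ (l + 1) :=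
              pow_le_pow_left₀ (abs_nonneg _) hdist _
          _ = 2 ^ ((l + 1) * (ν - ν / l)) := by
              rw [← pow_mul, mul_comm]
          _ ≤ 2 ^ (l * ν + l) := pow_le_pow_right₀ (by norm_num) (shf_exp l ν hl)
      have h2 : ((2 : ℝ) ^ ν / 2) ^ l ≤ (l + 1) * |m| ^ l := by
        calc ((2 : ℝ) ^ ν / 2) ^ l ≤ |m| ^ l := pow_le_pow_left₀ (by positivity) hmabs _
          _ = 1 * |m| ^ l := (one_mul _).symm
          _ ≤ (l + 1) * |m| ^ l := mul_le_mul_of_nonneg_right hl11 (by positivity)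
      calc |(n : ℝ) + m| ^ (l + 1) / ((l + 1) * |m| ^ l)
          ≤ 2 ^ (l * ν + l) / ((2 : ℝ) ^ ν / 2) ^ l :=
            div_le_div₀ (by positivity) h1 (by positivity) h2
        _ = 2 ^ (2 * l) := by
            rw [div_pow, ← pow_mul, pow_add, mul_comm l ν]
            field_simp
            rw [← pow_mul]
            congr 1
            ring
        _ ≤ C := by
            rw [hC]
            exact pow_le_pow_right₀ (by norm_num) (by omega)
    · -- the identity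
      obtain ⟨b, hb⟩ : ∃ b : E l, b = fun q =>
        ((l + 1).choose (q.val + 2) : ℝ) / ((l + 1) * m ^ (q.val + 1)) := ⟨_, rfl⟩
      obtain ⟨θ, hθ⟩ : ∃ θ : ℤ → ℝ, θ = fun n : ℤ =>
        ((n : ℝ) + m) ^ (l + 1) / ((l + 1) * m ^ l) / C := ⟨_, rfl⟩
      rw [← hb, ← hθ]
      obtain ⟨z, hz⟩ : ∃ z : ℤ → ℂ, z = fun n => a n * ee (∑ i : Fin (l + 1),
        (n : ℝ) ^ (i.val + 1) * (Fin.cons (u + s) (fun q => x q + s * b q) : E (l + 1)) i) :=
        ⟨_, rfl⟩
      have key : ∀ n : ℤ, (∑ i : Fin (l + 1), (n : ℝ) ^ (i.val + 1) *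
          (Fin.cons u x : E (l + 1)) i) = s * (m / (l + 1)) + ((∑ i : Fin (l + 1),
            (n : ℝ) ^ (i.val + 1) * (Fin.cons (u + s) (fun q => x q + s * b q) : E (l + 1)) i) +
            (-(s * C)) * θ n) := by
        intro n
        have h1 := shf_binom l m n hm0
        have h2 : C * θ n = ((n : ℝ) + m) ^ (l + 1) / ((l + 1) * m ^ l) := by
          rw [hθ]
          field_simp
        rw [← h2] at h1
        rw [Fin.sum_univ_succ, Fin.sum_univ_succ]
        simp only [Fin.cons_zero, Fin.cons_succ, Fin.val_zero, Fin.val_succ, zero_add, pow_one]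
        have h3 : ∑ q : Fin l, (n : ℝ) ^ (q.val + 1 + 1) * (x q + s * b q) =
            (∑ q : Fin l, (n : ℝ) ^ (q.val + 1 + 1) * x q) +
              s * ∑ q : Fin l, (n : ℝ) ^ (q.val + 1 + 1) * b q := by
          rw [Finset.mul_sum, ← Finset.sum_add_distrib]
          refine Finset.sum_congr rfl fun q _ => ?_
          ring
        rw [h3]
        have h4 : (n : ℝ) + ∑ q : Fin l, (n : ℝ) ^ (q.val + 1 + 1) * b q =
            C * θ n - m / (l + 1) := by
          rw [hb]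
          exact h1
        have h5 : s * (∑ q : Fin l, (n : ℝ) ^ (q.val + 1 + 1) * b q) =
            s * (C * θ n) - s * (m / (l + 1)) - s * n := by
          have : ∑ q : Fin l, (n : ℝ) ^ (q.val + 1 + 1) * b q =
            C * θ n - m / (l + 1) - n := by linarith
          rw [this]
          ring
        rw [h5]
        ring
      have e1 : FS (l + 1) (arc σ ν (ν - ν / l) i) a (Fin.cons u x) = ee (s * (m / (l + 1))) *
          ∑ n ∈ arc σ ν (ν - ν / l) i, z n * ee (-(s * C) * θ n) := by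
        unfold FS
        rw [Finset.mul_sum]
        refine Finset.sum_congr rfl fun n _ => ?_
        rw [key n, shf_ee_add, shf_ee_add, hz]
        ring
      have e2 : ‖FS (l + 1) (arc σ ν (ν - ν / l) i) a (Fin.cons u x)‖ₑ =
          ‖∑ n ∈ arc σ ν (ν - ν / l) i, z n * ee (-(s * C) * θ n)‖ₑ := by
        rw [e1, enorm_mul]
        have : ‖ee (s * (m / (l + 1)))‖ₑ = 1 := by
          rw [← ofReal_norm_eq_enorm, shf_ee_norm, ENNReal.ofReal_one]
        rw [this, one_mul]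
      have hlam : |-(s * C)| ≤ C := by
        rw [abs_neg, abs_of_nonneg (mul_nonneg hs0 hC0.le)]
        nlinarith
      rw [e2]
      refine (tay hp _ z θ hlam).trans (le_of_eq ?_)
      congr 1
      refine tsum_congr fun j => ?_
      congr 3
      unfold FS
      refine Finset.sum_congr rfl fun n _ => ?_
      rw [hz]
      ring
  · push Not at hex
    refine ⟨fun _ => 0, fun _ => 0, fun q => ?_, fun n _ => ?_, fun a p u s x ha hp _ _ => ?_⟩
    · rw [abs_zero]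
      positivity
    · rw [abs_zero]
      exact zero_le_one
    · have h1 : FS (l + 1) (arc σ ν (ν - ν / l) i) a (Fin.cons u x) = 0 := by
        unfold FS
        refine Finset.sum_eq_zero fun n hn => ?_
        rw [ha n (hex n hn), zero_mul]
      rw [h1, enorm_zero, ENNReal.zero_rpow_of_pos (by linarith)]
      exact zero_le

end Pool.Agent.Dcp
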