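import Pool.Agent.Dcp.Defs

/-!
# Dcp, module SpA: first properties of `Spec`

`spec_zero`, `spec_empty`: take `α = Empty` (respectively: `α` is empty, so `f x = ∫ a, … = 0`).
`spec_cont`: dominated convergence (`continuous_of_dominated`), the integrand is bounded by `B` and `μ` is finite.
`spec_exp`: `α = Unit`, the Dirac mass.
`spec_aff`: `ξ ⬝ᵥ (A *ᵥ y + v) = (Aᵀ *ᵥ ξ) ⬝ᵥ y + ξ ⬝ᵥ v`; new coefficients `c a * ee (ξ a ⬝ᵥ v)`.
`spec_mod`: new frequencies `η + ξ a`.  `spec_fib`: `Fin.append y z` is `A *ᵥ z + Fin.append y 0` (or directly: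
`ξ ⬝ᵥ Fin.append y z = ξ₁ ⬝ᵥ y + ξ₂ ⬝ᵥ z`, `Fin.sum_univ_add`).
`spec_rep`: Fubini: `∫ v, K v * f (x - v) = ∫ a, c a * ee (ξ a ⬝ᵥ x) * (∫ v, K v * ee (-(ξ a ⬝ᵥ v)))`; the double integrand is
bounded by `B ‖K v‖`, integrable on the product.
-/

set_option autoImplicit false

namespace Pool.Agent.Dcp

open MeasureTheory Finset
open scoped ENNReal

theorem ee_add (s t : ℝ) : ee (s + t) = ee s * ee t := by
  unfold ee
  rw [← Complex.exp_add]
  congr 1
  push_cast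
  ring

theorem ee_norm (t : ℝ) : ‖ee t‖ = 1 := by
  unfold ee
  have h : (2 : ℂ) * Real.pi * t * Complex.I = ((2 * Real.pi * t : ℝ) : ℂ) * Complex.I := by
    push_cast
    ring
  rw [h, Complex.norm_exp_ofReal_mul_I]

theorem ee_zero : ee 0 = 1 := by
  unfold ee
  simp

theorem ee_cont : Continuous ee := by
  unfold ee
  fun_prop

theorem spec_mono {k : ℕ} {Ω Ω' : Set (E k)} {f : E k → ℂ} (h : Spec Ω f) (hs : Ω ⊆ Ω') :
    Spec Ω' f := by
  obtain ⟨α, mα, μ, ξ, c, B, hfin, hξ, hc, hΩ, hB, hf⟩ := h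
  exact ⟨α, mα, μ, ξ, c, B, hfin, hξ, hc, fun a => hs (hΩ a), hB, hf⟩

theorem spec_zero {k : ℕ} (Ω : Set (E k)) : Spec Ω (fun _ => 0) := by
  refine ⟨Empty, inferInstance, 0, fun a => a.elim, fun a => a.elim, 0, inferInstance,
    measurable_of_empty _, measurable_of_empty _, fun a => a.elim, fun a => a.elim, fun x => ?_⟩
  rw [integral_zero_measure]

theorem spec_empty {k : ℕ} {f : E k → ℂ} (h : Spec ∅ f) (x : E k) : f x = 0 := by
  obtain ⟨α, mα, μ, ξ, c, B, hfin, hξ, hc, hΩ, hB, hf⟩ := h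
  haveI : IsEmpty α := ⟨fun a => hΩ a⟩
  rw [hf x]
  have : μ = 0 := Measure.eq_zero_of_isEmpty μ
  rw [this, integral_zero_measure]

/-- measurability of the phases -/
theorem spA_meas_dot {k : ℕ} {α : Type} [MeasurableSpace α] {ξ : α → E k} (hξ : Measurable ξ)
    (x : E k) : Measurable (fun a => ξ a ⬝ᵥ x) := by
  unfold dotProduct
  exact Finset.measurable_sum _ (fun i _ => ((measurable_pi_apply i).comp hξ).mul_const _)

theorem spA_meas {k : ℕ} {α : Type} [MeasurableSpace α] {ξ : α → E k} (hξ : Measurable ξ)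
    {c : α → ℂ} (hc : Measurable c) (x : E k) : Measurable (fun a => c a * ee (ξ a ⬝ᵥ x)) :=
  hc.mul (ee_cont.measurable.comp (spA_meas_dot hξ x))

theorem spec_cont {k : ℕ} {Ω : Set (E k)} {f : E k → ℂ} (h : Spec Ω f) : Continuous f := by
  obtain ⟨α, mα, μ, ξ, c, B, hfin, hξ, hc, hΩ, hB, hf⟩ := h
  have hfe : f = fun x => ∫ a, c a * ee (ξ a ⬝ᵥ x) ∂μ := funext hf
  rw [hfe]
  refine continuous_of_dominated (bound := fun _ => B)
    (fun x => (spA_meas hξ hc x).aestronglyMeasurable) (fun x => ?_) (integrable_const B) ?_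
  · filter_upwards with a
    rw [norm_mul, ee_norm, mul_one]
    exact hB a
  · filter_upwards with a
    refine continuous_const.mul (ee_cont.comp ?_)
    unfold dotProduct
    fun_prop

theorem spec_bdd {k : ℕ} {Ω : Set (E k)} {f : E k → ℂ} (h : Spec Ω f) :
    ∃ B : ℝ, ∀ x, ‖f x‖ ≤ B := by
  obtain ⟨α, mα, μ, ξ, c, B, hfin, hξ, hc, hΩ, hB, hf⟩ := h
  refine ⟨B * μ.real Set.univ, fun x => ?_⟩
  rw [hf x]
  refine norm_integral_le_of_norm_le_const ?_
  filter_upwards with a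
  rw [norm_mul, ee_norm, mul_one]
  exact hB a

theorem spec_exp {k : ℕ} (ξ : E k) (c : ℂ) : Spec {ξ} (fun x => c * ee (ξ ⬝ᵥ x)) := by
  refine ⟨Unit, inferInstance, Measure.dirac (), fun _ => ξ, fun _ => c, ‖c‖, inferInstance,
    measurable_const, measurable_const, fun _ => rfl, fun _ => le_rfl, fun x => ?_⟩
  rw [integral_dirac]

theorem spec_aff {k l : ℕ} (A : Matrix (Fin k) (Fin l) ℝ) (v : E k) {Ω : Set (E k)}
    {Ω' : Set (E l)} {f : E k → ℂ} (h : Spec Ω f) (hΩ : ∀ ξ ∈ Ω, A.transpose.mulVec ξ ∈ Ω') :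
    Spec Ω' (fun y => f (A.mulVec y + v)) := by
  obtain ⟨α, mα, μ, ξ, c, B, hfin, hξ, hc, hΩ1, hB, hf⟩ := h
  refine ⟨α, mα, μ, fun a => A.transpose.mulVec (ξ a), fun a => c a * ee (ξ a ⬝ᵥ v), B, hfin,
    ?_, spA_meas hξ hc v, fun a => hΩ _ (hΩ1 a), fun a => ?_, fun y => ?_⟩
  · refine measurable_pi_iff.2 (fun i => ?_)
    have : (fun a => A.transpose.mulVec (ξ a) i) = fun a => ξ a ⬝ᵥ (fun j => A j i) := by
      funext a
      simp only [Matrix.mulVec, Matrix.transpose_apply, dotProduct]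
      exact Finset.sum_congr rfl (fun j _ => mul_comm _ _)
    rw [this]
    exact spA_meas_dot hξ _
  · rw [norm_mul, ee_norm, mul_one]
    exact hB a
  · show f (A.mulVec y + v) = _
    rw [hf]
    refine integral_congr_ae (Filter.Eventually.of_forall (fun a => ?_))
    show c a * ee (ξ a ⬝ᵥ (A.mulVec y + v)) = c a * ee (ξ a ⬝ᵥ v) * ee (A.transpose.mulVec (ξ a) ⬝ᵥ y)
    rw [dotProduct_add, Matrix.dotProduct_mulVec, Matrix.mulVec_transpose, add_comm, ee_add]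
    ring

theorem spec_mod {k : ℕ} (η : E k) {Ω Ω' : Set (E k)} {f : E k → ℂ} (h : Spec Ω f)
    (hΩ : ∀ ξ ∈ Ω, η + ξ ∈ Ω') : Spec Ω' (fun x => ee (η ⬝ᵥ x) * f x) := by
  obtain ⟨α, mα, μ, ξ, c, B, hfin, hξ, hc, hΩ1, hB, hf⟩ := h
  refine ⟨α, mα, μ, fun a => η + ξ a, c, B, hfin,
    hξ.const_add η, hc, fun a => hΩ _ (hΩ1 a), hB, fun x => ?_⟩
  show ee (η ⬝ᵥ x) * f x = _
  rw [hf, ← integral_const_mul]
  refine integral_congr_ae (Filter.Eventually.of_forall (fun a => ?_))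
  show ee (η ⬝ᵥ x) * (c a * ee (ξ a ⬝ᵥ x)) = c a * ee ((η + ξ a) ⬝ᵥ x)
  rw [add_dotProduct, ee_add]
  ring

theorem spec_fib {r l : ℕ} {Ω : Set (E (r + l))} {f : E (r + l) → ℂ} (h : Spec Ω f) (y : E r) :
    Spec {ζ : E l | ∃ ξ ∈ Ω, ζ = fun j => ξ (Fin.natAdd r j)} (fun z => f (Fin.append y z)) := by
  obtain ⟨α, mα, μ, ξ, c, B, hfin, hξ, hc, hΩ1, hB, hf⟩ := h
  refine ⟨α, mα, μ, fun a j => ξ a (Fin.natAdd r j),
    fun a => c a * ee ((fun i => ξ a (Fin.castAdd l i)) ⬝ᵥ y), B, hfin,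
    measurable_pi_iff.2 (fun j => (measurable_pi_apply _).comp hξ), ?_,
    fun a => ⟨ξ a, hΩ1 a, rfl⟩, fun a => ?_, fun z => ?_⟩
  · exact spA_meas (measurable_pi_iff.2 (fun j => (measurable_pi_apply _).comp hξ)) hc y
  · rw [norm_mul, ee_norm, mul_one]
    exact hB a
  · show f (Fin.append y z) = _
    rw [hf]
    refine integral_congr_ae (Filter.Eventually.of_forall (fun a => ?_))
    show c a * ee (ξ a ⬝ᵥ Fin.append y z) = c a * ee ((fun i => ξ a (Fin.castAdd l i)) ⬝ᵥ y) *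
      ee ((fun j => ξ a (Fin.natAdd r j)) ⬝ᵥ z)
    have : ξ a ⬝ᵥ Fin.append y z = (fun i => ξ a (Fin.castAdd l i)) ⬝ᵥ y +
        (fun j => ξ a (Fin.natAdd r j)) ⬝ᵥ z := by
      unfold dotProduct
      rw [Fin.sum_univ_add]
      simp only [Fin.append_left, Fin.append_right]
    rw [this, ee_add]
    ring

theorem spec_rep {k : ℕ} {Ω : Set (E k)} {f : E k → ℂ} (h : Spec Ω f) {K : E k → ℂ}
    (hK : Integrable K) {c : ℂ} (hc : ∀ ξ ∈ Ω, ∫ v, K v * ee (-(ξ ⬝ᵥ v)) = c) (x : E k) :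
    ∫ v, K v * f (x - v) = c * f x := by
  obtain ⟨α, mα, μ, ξ, b, B, hfin, hξ, hb, hΩ1, hB, hf⟩ := h
  have h1 : ∀ v, K v * f (x - v) = ∫ a, K v * (b a * ee (ξ a ⬝ᵥ (x - v))) ∂μ := by
    intro v
    rw [hf, integral_const_mul]
  have hm : Measurable (fun p : E k × α => b p.2 * ee (ξ p.2 ⬝ᵥ (x - p.1))) := by
    refine (hb.comp measurable_snd).mul (ee_cont.measurable.comp ?_)
    unfold dotProduct
    refine Finset.measurable_sum _ (fun i _ => ?_)
    refine Measurable.mul ((measurable_pi_apply i).comp (hξ.comp measurable_snd)) ?_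
    exact (measurable_pi_apply i).comp (measurable_const.sub measurable_fst)
  have hint : Integrable (Function.uncurry fun (v : E k) (a : α) =>
      K v * (b a * ee (ξ a ⬝ᵥ (x - v)))) (volume.prod μ) := by
    have h2 : Integrable (fun p : E k × α => K p.1) (volume.prod μ) := hK.comp_fst μ
    refine h2.mul_bdd (c := B) hm.aestronglyMeasurable ?_
    filter_upwards with p
    rw [norm_mul, ee_norm, mul_one]
    exact hB p.2
  rw [integral_congr_ae (Filter.Eventually.of_forall h1), integral_integral_swap hint, hf x,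
    ← integral_const_mul]
  refine integral_congr_ae (Filter.Eventually.of_forall (fun a => ?_))
  show ∫ v, K v * (b a * ee (ξ a ⬝ᵥ (x - v))) = c * (b a * ee (ξ a ⬝ᵥ x))
  rw [← hc (ξ a) (hΩ1 a), ← integral_mul_const]
  refine integral_congr_ae (Filter.Eventually.of_forall (fun v => ?_))
  show K v * (b a * ee (ξ a ⬝ᵥ (x - v))) = K v * ee (-(ξ a ⬝ᵥ v)) * (b a * ee (ξ a ⬝ᵥ x))
  rw [dotProduct_sub, sub_eq_add_neg, ee_add]
  ring

end Pool.Agent.Dcp
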