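import Pool.Agent.Dcp.EDefs

/-!
# Dcp, module Tay: Taylor expansion of a slowly varying phase

`ee (lam θ) = ∑_j (2 π i lam)^j/j! θ^j` (`NormedSpace.exp`/`Complex.exp` series), so
`∑_n z n ee (lam θ n) = ∑_j (2 π i lam)^j/j! (∑_n z n (θ n)^j)` (finite sum of absolutely convergent series), and
`|(2 π i lam)^j/j!| ≤ (2 π L)^j/j!`, of sum `exp (2 π L)`.  Norms: `x ≤ ∑' wj x_j` in `ℝ≥0∞` (`enorm_tsum_le_tsum_enorm`), and
`(∑' w_j x_j)^p ≤ (∑' w_j)^(p-1) ∑' w_j x_j^p` for `p ≥ 1` (`jens`: Hölder for `tsum` or for the sum of the Dirac masses, `ENNReal.inner_le_Lp_mul_Lq`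
for finite sums and a supremum, or `lintegral` for `Measure.sum`/counting measure).
-/

set_option autoImplicit false

namespace Pool.Agent.Dcp

open MeasureTheory Finset
open scoped ENNReal

theorem jens {p : ℝ} (hp : 1 ≤ p) (w x : ℕ → ℝ≥0∞) :
    (∑' j, w j * x j) ^ p ≤ (∑' j, w j) ^ (p - 1) * ∑' j, w j * x j ^ p := by
  rcases hp.eq_or_lt with rfl | hp1
  · simp
  · obtain ⟨q, hpq⟩ : ∃ q, p.HolderConjugate q := ⟨_, Real.HolderConjugate.conjExponent hp1⟩
    have hp0 : 0 < p := by linarith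
    have hq0 : 0 < q := hpq.symm.pos
    have h := ENNReal.lintegral_mul_le_Lp_mul_Lq (Measure.count : Measure ℕ) hpq
      (f := fun j => w j ^ (1 / p) * x j) (g := fun j => w j ^ (1 / q))
      (measurable_of_countable _).aemeasurable (measurable_of_countable _).aemeasurable
    rw [lintegral_count, lintegral_count, lintegral_count] at h
    have e1 : ∀ j, ((fun j => w j ^ (1 / p) * x j) * fun j => w j ^ (1 / q)) j = w j * x j := by
      intro j
      have h2 : 1 / p + 1 / q = 1 := by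
        rw [one_div, one_div]
        exact hpq.inv_add_inv_eq_one
      rw [Pi.mul_apply, mul_right_comm, ← ENNReal.rpow_add_of_nonneg _ _ (by positivity)
        (by positivity), h2, ENNReal.rpow_one]
    have e2 : ∀ j, (w j ^ (1 / p) * x j) ^ p = w j * x j ^ p := by
      intro j
      rw [ENNReal.mul_rpow_of_nonneg _ _ hp0.le, ← ENNReal.rpow_mul, one_div_mul_cancel hp0.ne',
        ENNReal.rpow_one]
    have e3 : ∀ j, (w j ^ (1 / q)) ^ q = w j := by
      intro j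
      rw [← ENNReal.rpow_mul, one_div_mul_cancel hq0.ne', ENNReal.rpow_one]
    simp only [e1, e2, e3] at h
    have h3 : 1 / q * p = p - 1 := by
      have h4 := hpq.sub_one_mul_conj
      field_simp
      linarith
    calc (∑' j, w j * x j) ^ p
        ≤ ((∑' j, w j * x j ^ p) ^ (1 / p) * (∑' j, w j) ^ (1 / q)) ^ p :=
          ENNReal.rpow_le_rpow h hp0.le
      _ = (∑' j, w j) ^ (p - 1) * ∑' j, w j * x j ^ p := by
          rw [ENNReal.mul_rpow_of_nonneg _ _ hp0.le, ← ENNReal.rpow_mul, ← ENNReal.rpow_mul,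
            one_div_mul_cancel hp0.ne', ENNReal.rpow_one, h3, mul_comm]

theorem tay {p : ℝ} (hp : 1 ≤ p) {L : ℝ} (s : Finset ℤ) (z : ℤ → ℂ) (θ : ℤ → ℝ)
    {lam : ℝ} (hlam : |lam| ≤ L) :
    ‖∑ n ∈ s, z n * ee (lam * θ n)‖ₑ ^ p ≤
      WL L ^ (p - 1) * ∑' j : ℕ, wj L j * ‖∑ n ∈ s, z n * (θ n : ℂ) ^ j‖ₑ ^ p := by
  have hL : 0 ≤ L := (abs_nonneg _).trans hlam
  have hpi := Real.pi_pos
  have hsumL : HasSum (fun j : ℕ => (2 * Real.pi * L) ^ j / (j.factorial : ℝ))
      (Real.exp (2 * Real.pi * L)) := by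
    rw [Real.exp_eq_exp_ℝ]
    exact NormedSpace.expSeries_div_hasSum_exp _
  have hWL : ∑' j : ℕ, wj L j = WL L := by
    unfold wj WL
    rw [← hsumL.tsum_eq, ENNReal.ofReal_tsum_of_nonneg (fun j => by positivity) hsumL.summable]
  set c : ℕ → ℂ := fun j => (2 * Real.pi * lam * Complex.I) ^ j / (j.factorial : ℂ) with hc
  have hex : ∀ n : ℤ, HasSum (fun j : ℕ => c j * (θ n : ℂ) ^ j) (ee (lam * θ n)) := by
    intro n
    have h1 : HasSum (fun j : ℕ => (2 * Real.pi * ((lam * θ n : ℝ) : ℂ) * Complex.I) ^ j /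
        (j.factorial : ℂ)) (ee (lam * θ n)) := by
      unfold ee
      rw [Complex.exp_eq_exp_ℂ]
      exact NormedSpace.expSeries_div_hasSum_exp _
    convert h1 using 2 with j
    rw [hc]
    push_cast
    ring
  have htot : HasSum (fun j : ℕ => c j * ∑ n ∈ s, z n * (θ n : ℂ) ^ j)
      (∑ n ∈ s, z n * ee (lam * θ n)) := by
    have h1 := hasSum_sum (s := s) fun n _ => (hex n).mul_left (z n)
    have h2 : (fun j : ℕ => c j * ∑ n ∈ s, z n * (θ n : ℂ) ^ j) =
        fun j : ℕ => ∑ n ∈ s, z n * (c j * (θ n : ℂ) ^ j) := by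
      funext j
      rw [Finset.mul_sum]
      refine Finset.sum_congr rfl fun n _ => ?_
      ring
    rw [h2]
    exact h1
  have hcb : ∀ j, ‖c j‖ₑ ≤ wj L j := by
    intro j
    unfold wj
    rw [← ofReal_norm]
    apply ENNReal.ofReal_le_ofReal
    rw [hc]
    simp only [norm_div, norm_pow, norm_mul, Complex.norm_I, mul_one, Complex.norm_real,
      Complex.norm_natCast, Complex.norm_ofNat, Real.norm_eq_abs, abs_of_pos hpi]
    gcongr
  have h1 : ‖∑ n ∈ s, z n * ee (lam * θ n)‖ₑ ≤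
      ∑' j : ℕ, wj L j * ‖∑ n ∈ s, z n * (θ n : ℂ) ^ j‖ₑ := by
    rw [← htot.tsum_eq]
    refine enorm_tsum_le_tsum_enorm.trans (ENNReal.tsum_le_tsum fun j => ?_)
    rw [enorm_mul]
    gcongr
    exact hcb j
  calc ‖∑ n ∈ s, z n * ee (lam * θ n)‖ₑ ^ p
      ≤ (∑' j : ℕ, wj L j * ‖∑ n ∈ s, z n * (θ n : ℂ) ^ j‖ₑ) ^ p :=
        ENNReal.rpow_le_rpow h1 (by linarith)
    _ ≤ _ := by
        have h2 := jens hp (wj L) fun j => ‖∑ n ∈ s, z n * (θ n : ℂ) ^ j‖ₑ
        rwa [hWL] at h2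

end Pool.Agent.Dcp
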