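import Pool.Agent.Dcp.Blo

/-!
# Dcp, module ThA: graphs `x_0 = φ(x)` over the last coordinates

`full`: `φ` is Lipschitz on `S` in the sense of `hφ`.  Let `N ≤ 2^M`, `M ≤ log₂ N + 1`.  The integers `1 ≤ |n| ≤ N` are divided according to the sign and the
number `ν ≤ M` with `2^(ν-1) ≤ |n| < 2^ν`; the part `(ν, +)` is contained in `arc 0 ν ν 0 = [0, 2^ν)`, the part `(ν, -)` in
`arc 1 ν ν 0 = [-2^ν, -1]`; `a` times the indicator of the part satisfies the hypothesis of `block`.  `n = 0`: `‖a 0‖`, `S` has finite measure.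
`(x_1 + … + x_m)^p ≤ m^p ∑ x_i^p` (`pow_sum`) with `m = 2 (M+1) + 1` parts and `m^p ≤ C N^ε`: the integral with the exponent `P l` is at most
`A N^ε (∑_{|n| ≤ N} ‖a n‖²)^(P l/2)`.
`full_low`: `0 < p ≤ P l`: Hölder on the finite measure space `S` (`(∫_S F^p) ≤ (∫_S F^(P l))^(p/P l) |S|^(1-p/P l)`), with `ε` replaced by a
smaller number.
-/

set_option autoImplicit false

namespace Pool.Agent.Dcp

open MeasureTheory Finset
open scoped ENNReal

theorem tha_pow_sum {ι : Type*} {p : ℝ} (hp : 0 < p) (s : Finset ι) (x : ι → ℝ≥0∞) :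
    (∑ j ∈ s, x j) ^ p ≤ (s.card : ℝ≥0∞) ^ p * ∑ j ∈ s, x j ^ p := by
  rcases s.eq_empty_or_nonempty with rfl | hs
  · simp [hp]
  obtain ⟨j, hj, hmax⟩ := s.exists_max_image x hs
  calc (∑ j ∈ s, x j) ^ p ≤ (s.card • x j) ^ p :=
        ENNReal.rpow_le_rpow (Finset.sum_le_card_nsmul s x (x j) hmax) hp.le
    _ = (s.card : ℝ≥0∞) ^ p * x j ^ p := by
        rw [nsmul_eq_mul, ENNReal.mul_rpow_of_nonneg _ _ hp.le]
    _ ≤ (s.card : ℝ≥0∞) ^ p * ∑ j ∈ s, x j ^ p := by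
        gcongr
        exact Finset.single_le_sum (f := fun j => x j ^ p) (fun _ _ => zero_le) hj

theorem P_pos {l : ℕ} (hl : 1 ≤ l) : 1 ≤ P l := by
  unfold P
  have : (1 : ℝ) ≤ l := by exact_mod_cast hl
  nlinarith

/-- the sign of an integer -/
def sgi (n : ℤ) : ℕ := if n < 0 then 1 else 0

/-- the dyadic block and the sign -/
def idx (n : ℤ) : ℕ × ℕ := (Nat.size n.natAbs, sgi n)

theorem sgi_le (n : ℤ) : sgi n ≤ 1 := by
  unfold sgi
  split_ifs <;> omega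

theorem mem_arc_of_idx {n : ℤ} : n ∈ arc (idx n).2 (idx n).1 (idx n).1 0 := by
  have h1 : n.natAbs < 2 ^ Nat.size n.natAbs := Nat.lt_size_self n.natAbs
  have h1' : |n| < 2 ^ Nat.size n.natAbs := by
    rw [Int.abs_eq_natAbs]
    exact_mod_cast h1
  unfold arc bk idx
  rw [Finset.mem_image]
  by_cases hn : n < 0
  · refine ⟨(n + 2 ^ Nat.size n.natAbs).toNat, ?_, ?_⟩
    · rw [Finset.mem_Ico]
      have h2 : 0 ≤ n + 2 ^ Nat.size n.natAbs := by
        have := (abs_lt.1 h1').1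
        linarith
      refine ⟨by simp, ?_⟩
      have h3 : (((n + 2 ^ Nat.size n.natAbs).toNat : ℕ) : ℤ) < 2 ^ Nat.size n.natAbs := by
        rw [Int.toNat_of_nonneg h2]
        linarith
      simp only [zero_add, one_mul]
      exact_mod_cast h3
    · have h2 : 0 ≤ n + 2 ^ Nat.size n.natAbs := by
        have := (abs_lt.1 h1').1
        linarith
      rw [Int.toNat_of_nonneg h2]
      simp [sgi, hn]
  · rw [not_lt] at hn
    refine ⟨n.toNat, ?_, ?_⟩
    · rw [Finset.mem_Ico]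
      refine ⟨by simp, ?_⟩
      have h3 : ((n.toNat : ℕ) : ℤ) < 2 ^ Nat.size n.natAbs := by
        rw [Int.toNat_of_nonneg hn]
        exact (abs_lt.1 h1').2
      simp only [zero_add, one_mul]
      exact_mod_cast h3
    · rw [Int.toNat_of_nonneg hn]
      simp [sgi, not_lt.2 hn]

theorem idx_lower {n : ℤ} {ν : ℕ} (h : 2 * |n| < 2 ^ ν) (hν : (idx n).1 = ν) (h0 : 1 ≤ ν) : False := by
  have h1 : Nat.size n.natAbs = ν := hν
  have h2 : 2 * n.natAbs < 2 ^ ν := by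
    have : |n| = (n.natAbs : ℤ) := Int.abs_eq_natAbs n
    rw [this] at h
    exact_mod_cast h
  obtain ⟨m, rfl⟩ : ∃ m, ν = m + 1 := ⟨ν - 1, by omega⟩
  have h3 : n.natAbs < 2 ^ m := by
    rw [pow_succ] at h2
    omega
  have h4 : Nat.size n.natAbs ≤ m := Nat.size_le.2 h3
  omega

theorem FS_enorm_cont {l : ℕ} {φ : E l → ℝ} {S : Set (E l)} {L : ℝ}
    (hφ : ∀ x ∈ S, ∀ y ∈ S, |φ x - φ y| ≤ L * dist x y) (s : Finset ℤ) (a : ℤ → ℂ) :
    ContinuousOn (fun x => FS (l + 1) s a (Fin.cons (φ x) x)) S := by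
  have hφc : ContinuousOn φ S := by
    have h1 : LipschitzOnWith (Real.toNNReal L) φ S := by
      refine LipschitzOnWith.of_dist_le_mul (fun x hx y hy => ?_)
      rw [Real.dist_eq]
      refine (hφ x hx y hy).trans ?_
      gcongr
      exact Real.le_coe_toNNReal L
    exact h1.continuousOn
  unfold FS
  refine continuousOn_finsetSum _ (fun n _ => ?_)
  refine continuousOn_const.mul ?_
  have hee : Continuous ee := by
    unfold ee
    fun_prop
  refine hee.comp_continuousOn ?_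
  refine continuousOn_finsetSum _ (fun i _ => ?_)
  refine continuousOn_const.mul ?_
  refine Fin.cases ?_ (fun j => ?_) i
  · simpa using hφc
  · simpa using (continuous_apply j).continuousOn

/-- splitting the sum -/
theorem FS_split {d : ℕ} (N : ℕ) (M : ℕ) (hM : N < 2 ^ M) (a : ℤ → ℂ) (x : E d) :
    FS d (Icc (-(N : ℤ)) N) a x = ∑ q ∈ (range (M + 1)) ×ˢ (range 2),
      FS d ((Icc (-(N : ℤ)) N).filter (fun n => idx n = q)) a x := by
  unfold FS
  refine (Finset.sum_fiberwise_of_maps_to (g := idx) ?_ _).symm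
  intro n hn
  rw [Finset.mem_product, Finset.mem_range, Finset.mem_range]
  rw [Finset.mem_Icc] at hn
  refine ⟨?_, by have := sgi_le n; unfold idx; simp only; omega⟩
  have h1 : n.natAbs < 2 ^ M := by omega
  have h2 : Nat.size n.natAbs ≤ M := Nat.size_le.2 h1
  unfold idx
  simp only
  omega

theorem FS_ext {d : ℕ} (s t : Finset ℤ) (hst : s ⊆ t) (a : ℤ → ℂ) (x : E d) :
    FS d s a x = FS d t (fun n => if n ∈ s then a n else 0) x := by
  unfold FS
  rw [← Finset.sum_subset hst]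
  · refine Finset.sum_congr rfl (fun n hn => ?_)
    simp [hn]
  · intro n _ hn
    simp [hn]

theorem enorm_ee (t : ℝ) : ‖ee t‖ₑ = 1 := by
  have h : ‖ee t‖ = 1 := by
    unfold ee
    have : (2 * Real.pi * t * Complex.I : ℂ) = ((2 * Real.pi * t : ℝ) : ℂ) * Complex.I := by
      push_cast
      ring
    rw [this]
    exact Complex.norm_exp_ofReal_mul_I _
  rw [← ofReal_norm, h, ENNReal.ofReal_one]

/-- the number of parts -/
theorem parts_bound {p η : ℝ} (hp : 0 < p) (hη : 0 < η) : ∃ C : ℝ≥0∞, C ≠ ⊤ ∧ ∀ N : ℕ, 1 ≤ N →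
    ((2 * (Nat.log 2 N + 2) : ℕ) : ℝ≥0∞) ^ p ≤ C * (N : ℝ≥0∞) ^ η := by
  have hδ : 0 < η / p := by positivity
  set δ : ℝ := η / p with hδd
  have hl2 : 0 < Real.log 2 := Real.log_pos (by norm_num)
  set D : ℝ := 2 * (1 / (δ * Real.log 2) + 2) with hD
  have hDpos : 0 < D := by positivity
  refine ⟨(ENNReal.ofReal D) ^ p, ENNReal.rpow_ne_top_of_nonneg hp.le ENNReal.ofReal_ne_top, ?_⟩
  intro N hN
  have hN1 : (1 : ℝ) ≤ N := by exact_mod_cast hN
  have hN0 : (0 : ℝ) < N := by linarith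
  have h1 : ((2 * (Nat.log 2 N + 2) : ℕ) : ℝ) ≤ D * (N : ℝ) ^ δ := by
    have h2 : (Nat.log 2 N : ℝ) ≤ Real.log N / Real.log 2 := by
      rw [le_div_iff₀ hl2, ← Real.log_pow]
      apply Real.log_le_log (by positivity)
      exact_mod_cast Nat.pow_log_le_self 2 (by omega)
    have h3 : Real.log N ≤ (N : ℝ) ^ δ / δ := Real.log_le_rpow_div hN0.le hδ
    have h4 : (1 : ℝ) ≤ (N : ℝ) ^ δ := Real.one_le_rpow hN1 hδ.le
    push_cast
    calc 2 * ((Nat.log 2 N : ℝ) + 2) ≤ 2 * (((N : ℝ) ^ δ / δ) / Real.log 2 + 2 * (N : ℝ) ^ δ) := by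
          have h5 : (Nat.log 2 N : ℝ) ≤ ((N : ℝ) ^ δ / δ) / Real.log 2 :=
            h2.trans (div_le_div_of_nonneg_right h3 hl2.le)
          linarith
      _ = D * (N : ℝ) ^ δ := by
          rw [hD]
          field_simp
  have h6 : ((2 * (Nat.log 2 N + 2) : ℕ) : ℝ≥0∞) ≤ ENNReal.ofReal D * (N : ℝ≥0∞) ^ δ := by
    have h7 : ((2 * (Nat.log 2 N + 2) : ℕ) : ℝ≥0∞) =
        ENNReal.ofReal ((2 * (Nat.log 2 N + 2) : ℕ) : ℝ) := by
      rw [ENNReal.ofReal_natCast]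
    have h8 : (N : ℝ≥0∞) ^ δ = ENNReal.ofReal ((N : ℝ) ^ δ) := by
      rw [← ENNReal.ofReal_rpow_of_pos hN0, ENNReal.ofReal_natCast]
    rw [h7, h8, ← ENNReal.ofReal_mul hDpos.le]
    exact ENNReal.ofReal_le_ofReal h1
  calc ((2 * (Nat.log 2 N + 2) : ℕ) : ℝ≥0∞) ^ p ≤ (ENNReal.ofReal D * (N : ℝ≥0∞) ^ δ) ^ p :=
        ENNReal.rpow_le_rpow h6 hp.le
    _ = (ENNReal.ofReal D) ^ p * (N : ℝ≥0∞) ^ η := by
        rw [ENNReal.mul_rpow_of_nonneg _ _ hp.le, ← ENNReal.rpow_mul, hδd,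
          div_mul_cancel₀ _ hp.ne']

theorem full (l : ℕ) (hl : 1 ≤ l) {φ : E l → ℝ} {S : Set (E l)} (hS : IsCompact S) {L : ℝ}
    (hφ : ∀ x ∈ S, ∀ y ∈ S, |φ x - φ y| ≤ L * dist x y) {ε : ℝ} (hε : 0 < ε) :
    ∃ A : ℝ≥0∞, A ≠ ⊤ ∧ ∀ (N : ℕ) (a : ℤ → ℂ), 1 ≤ N →
      ∫⁻ x in S, ‖FS (l + 1) (Icc (-(N : ℤ)) N) a (Fin.cons (φ x) x)‖ₑ ^ P l ≤
        A * (N : ℝ≥0∞) ^ ε * (∑ n ∈ Icc (-(N : ℤ)) N, ‖a n‖ₑ ^ 2) ^ (P l / 2) := by
  have hP1 := P_pos hl
  have hP0 : 0 < P l := by linarith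
  obtain ⟨A, hA, hblock⟩ := block l hl hS hφ (ε := ε / 2) (by positivity)
  obtain ⟨C, hC, hparts⟩ := parts_bound (p := P l + 1) (η := ε / 2) (by linarith) (by positivity)
  have hSm : MeasurableSet S := hS.measurableSet
  have hSf : volume S ≠ ⊤ := hS.measure_lt_top.ne
  refine ⟨C * ((A + volume S) * 2 ^ (ε / 2)), ?_, ?_⟩
  · refine ENNReal.mul_ne_top hC (ENNReal.mul_ne_top (ENNReal.add_ne_top.2 ⟨hA, hSf⟩) ?_)
    exact ENNReal.rpow_ne_top_of_nonneg (by positivity) (by norm_num)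
  intro N a hN
  set M : ℕ := Nat.log 2 N + 1 with hM
  have hNM : N < 2 ^ M := Nat.lt_pow_succ_log_self (by norm_num) N
  have hMN : 2 ^ M ≤ 2 * N := by
    rw [hM, pow_succ, mul_comm]
    exact Nat.mul_le_mul_left 2 (Nat.pow_log_le_self 2 (by omega))
  set s : Finset ℤ := Icc (-(N : ℤ)) N with hs
  set X : ℝ≥0∞ := ∑ n ∈ s, ‖a n‖ₑ ^ 2 with hX
  set I : Finset (ℕ × ℕ) := (range (M + 1)) ×ˢ (range 2) with hI
  have hIcard : I.card = 2 * (Nat.log 2 N + 2) := by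
    rw [hI, Finset.card_product, Finset.card_range, Finset.card_range, hM]
    ring
  have hN1 : (1 : ℝ≥0∞) ≤ N := by exact_mod_cast hN
  -- every part
  have hpart : ∀ q ∈ I, ∫⁻ x in S, ‖FS (l + 1) (s.filter (fun n => idx n = q)) a
      (Fin.cons (φ x) x)‖ₑ ^ P l ≤
        ((A + volume S) * 2 ^ (ε / 2)) * (N : ℝ≥0∞) ^ (ε / 2) * X ^ (P l / 2) := by
    rintro ⟨ν, σ⟩ hq
    rw [hI, Finset.mem_product, Finset.mem_range, Finset.mem_range] at hq
    have hq1 : ν < M + 1 := hq.1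
    have hq2 : σ < 2 := hq.2
    rcases Nat.eq_zero_or_pos ν with h0 | hν
    · -- the part `n = 0`
      have hbd : ∀ x : E l, ‖FS (l + 1) (s.filter (fun n => idx n = (ν, σ))) a
          (Fin.cons (φ x) x)‖ₑ ^ P l ≤ X ^ (P l / 2) := by
        intro x
        have hsub : s.filter (fun n => idx n = (ν, σ)) ⊆ {0} := by
          intro n hn
          rw [Finset.mem_filter] at hn
          have h1 : Nat.size n.natAbs = 0 := by
            have := congrArg Prod.fst hn.2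
            simp only [idx] at this
            omega
          rw [Nat.size_eq_zero] at h1
          rw [Finset.mem_singleton]
          omega
        have h2 : ‖FS (l + 1) (s.filter (fun n => idx n = (ν, σ))) a (Fin.cons (φ x) x)‖ₑ ≤
            ‖a 0‖ₑ := by
          rcases Finset.subset_singleton_iff.1 hsub with h3 | h3
          · rw [h3]
            unfold FS
            simp
          · rw [h3]
            unfold FS
            rw [Finset.sum_singleton, enorm_mul, enorm_ee, mul_one]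
        have h4 : ‖a 0‖ₑ ^ 2 ≤ X := by
          rw [hX]
          refine Finset.single_le_sum (f := fun n => ‖a n‖ₑ ^ 2) (fun _ _ => zero_le) ?_
          rw [hs, Finset.mem_Icc]
          omega
        calc ‖FS (l + 1) (s.filter (fun n => idx n = (ν, σ))) a (Fin.cons (φ x) x)‖ₑ ^ P l
            ≤ ‖a 0‖ₑ ^ P l := ENNReal.rpow_le_rpow h2 hP0.le
          _ = (‖a 0‖ₑ ^ 2) ^ (P l / 2) := by
              rw [← ENNReal.rpow_natCast, ← ENNReal.rpow_mul]
              congr 1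
              push_cast
              ring
          _ ≤ X ^ (P l / 2) := ENNReal.rpow_le_rpow h4 (by positivity)
      calc ∫⁻ x in S, ‖FS (l + 1) (s.filter (fun n => idx n = (ν, σ))) a
              (Fin.cons (φ x) x)‖ₑ ^ P l ≤ ∫⁻ _ in S, X ^ (P l / 2) := lintegral_mono (fun x => hbd x)
        _ = X ^ (P l / 2) * volume S := by rw [setLIntegral_const]
        _ = (volume S * 1) * 1 * X ^ (P l / 2) := by ring
        _ ≤ ((A + volume S) * 2 ^ (ε / 2)) * (N : ℝ≥0∞) ^ (ε / 2) * X ^ (P l / 2) := by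
            gcongr
            · exact le_add_self
            · exact ENNReal.one_le_rpow (by norm_num) (by positivity)
            · exact ENNReal.one_le_rpow hN1 (by positivity)
    · -- the parts `ν ≥ 1`
      set t : Finset ℤ := s.filter (fun n => idx n = (ν, σ)) with ht
      have hsub : t ⊆ arc σ ν ν 0 := by
        intro n hn
        rw [ht, Finset.mem_filter] at hn
        have := @mem_arc_of_idx n
        rw [hn.2] at this
        exact this
      have h1 := hblock ν σ (fun n => if n ∈ t then a n else 0) (by omega) (by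
        intro n hn
        by_cases hnt : n ∈ t
        · exfalso
          rw [ht, Finset.mem_filter] at hnt
          exact idx_lower hn (by rw [hnt.2]) hν
        · simp [hnt])
      have h2 : ∀ x : E l, FS (l + 1) t a (Fin.cons (φ x) x) =
          FS (l + 1) (arc σ ν ν 0) (fun n => if n ∈ t then a n else 0) (Fin.cons (φ x) x) :=
        fun x => FS_ext t _ hsub a _
      have h3 : ∑ n ∈ arc σ ν ν 0, ‖(if n ∈ t then a n else 0 : ℂ)‖ₑ ^ 2 ≤ X := by
        calc ∑ n ∈ arc σ ν ν 0, ‖(if n ∈ t then a n else 0 : ℂ)‖ₑ ^ 2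
            = ∑ n ∈ t, ‖(if n ∈ t then a n else 0 : ℂ)‖ₑ ^ 2 := by
              refine (Finset.sum_subset hsub ?_).symm
              intro n _ hn
              simp [hn]
          _ = ∑ n ∈ t, ‖a n‖ₑ ^ 2 := by
              refine Finset.sum_congr rfl (fun n hn => ?_)
              simp [hn]
          _ ≤ X := Finset.sum_le_sum_of_subset (Finset.filter_subset _ _)
      have h4 : (2 : ℝ≥0∞) ^ (ε / 2 * ν) ≤ 2 ^ (ε / 2) * (N : ℝ≥0∞) ^ (ε / 2) := by
        have h5 : (2 : ℝ≥0∞) ^ ν ≤ 2 * (N : ℝ≥0∞) := by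
          calc (2 : ℝ≥0∞) ^ ν ≤ 2 ^ M := pow_le_pow_right₀ (by norm_num) (by omega)
            _ ≤ 2 * (N : ℝ≥0∞) := by exact_mod_cast hMN
        calc (2 : ℝ≥0∞) ^ (ε / 2 * ν) = ((2 : ℝ≥0∞) ^ ν) ^ (ε / 2) := by
              rw [mul_comm, ENNReal.rpow_mul, ENNReal.rpow_natCast]
          _ ≤ (2 * (N : ℝ≥0∞)) ^ (ε / 2) := ENNReal.rpow_le_rpow h5 (by positivity)
          _ = 2 ^ (ε / 2) * (N : ℝ≥0∞) ^ (ε / 2) := ENNReal.mul_rpow_of_nonneg _ _ (by positivity)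
      calc ∫⁻ x in S, ‖FS (l + 1) t a (Fin.cons (φ x) x)‖ₑ ^ P l
          = ∫⁻ x in S, ‖FS (l + 1) (arc σ ν ν 0) (fun n => if n ∈ t then a n else 0)
              (Fin.cons (φ x) x)‖ₑ ^ P l := by
            simp only [h2]
        _ ≤ A * 2 ^ (ε / 2 * ν) *
            (∑ n ∈ arc σ ν ν 0, ‖(if n ∈ t then a n else 0 : ℂ)‖ₑ ^ 2) ^ (P l / 2) := h1
        _ ≤ (A + volume S) * (2 ^ (ε / 2) * (N : ℝ≥0∞) ^ (ε / 2)) * X ^ (P l / 2) := by
            gcongr
            exact le_self_add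
        _ = ((A + volume S) * 2 ^ (ε / 2)) * (N : ℝ≥0∞) ^ (ε / 2) * X ^ (P l / 2) := by ring
  -- the assembly
  have hmeas : ∀ q ∈ I, AEMeasurable (fun x => ‖FS (l + 1) (s.filter (fun n => idx n = q)) a
      (Fin.cons (φ x) x)‖ₑ ^ P l) (volume.restrict S) := by
    intro q _
    have h1 := (FS_enorm_cont hφ (s.filter (fun n => idx n = q)) a).aemeasurable (μ := volume) hSm
    exact h1.enorm.pow_const _
  calc ∫⁻ x in S, ‖FS (l + 1) s a (Fin.cons (φ x) x)‖ₑ ^ P l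
      ≤ ∫⁻ x in S, (I.card : ℝ≥0∞) ^ P l * ∑ q ∈ I,
          ‖FS (l + 1) (s.filter (fun n => idx n = q)) a (Fin.cons (φ x) x)‖ₑ ^ P l := by
        refine lintegral_mono (fun x => ?_)
        have h1 := FS_split N M hNM a (Fin.cons (φ x) x : E (l + 1))
        calc ‖FS (l + 1) s a (Fin.cons (φ x) x)‖ₑ ^ P l
            ≤ (∑ q ∈ I, ‖FS (l + 1) (s.filter (fun n => idx n = q)) a
                (Fin.cons (φ x) x)‖ₑ) ^ P l := by
              refine ENNReal.rpow_le_rpow ?_ hP0.le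
              rw [h1]
              exact enorm_sum_le _ _
          _ ≤ _ := tha_pow_sum hP0 I _
    _ = (I.card : ℝ≥0∞) ^ P l * ∑ q ∈ I, ∫⁻ x in S,
          ‖FS (l + 1) (s.filter (fun n => idx n = q)) a (Fin.cons (φ x) x)‖ₑ ^ P l := by
        rw [lintegral_const_mul' _ _ (ENNReal.rpow_ne_top_of_nonneg hP0.le (by simp)),
          lintegral_finsetSum' _ hmeas]
    _ ≤ (I.card : ℝ≥0∞) ^ P l * ∑ q ∈ I,
          ((A + volume S) * 2 ^ (ε / 2)) * (N : ℝ≥0∞) ^ (ε / 2) * X ^ (P l / 2) := by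
        gcongr with q hq
        exact hpart q hq
    _ = (I.card : ℝ≥0∞) ^ (P l + 1) *
          (((A + volume S) * 2 ^ (ε / 2)) * (N : ℝ≥0∞) ^ (ε / 2) * X ^ (P l / 2)) := by
        rw [Finset.sum_const, nsmul_eq_mul, ← mul_assoc]
        congr 1
        rw [ENNReal.rpow_add_of_nonneg _ _ hP0.le zero_le_one, ENNReal.rpow_one]
    _ ≤ (C * (N : ℝ≥0∞) ^ (ε / 2)) *
          (((A + volume S) * 2 ^ (ε / 2)) * (N : ℝ≥0∞) ^ (ε / 2) * X ^ (P l / 2)) := by
        gcongr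
        rw [hIcard]
        exact hparts N hN
    _ = C * ((A + volume S) * 2 ^ (ε / 2)) * ((N : ℝ≥0∞) ^ (ε / 2) * (N : ℝ≥0∞) ^ (ε / 2)) *
          X ^ (P l / 2) := by ring
    _ = C * ((A + volume S) * 2 ^ (ε / 2)) * (N : ℝ≥0∞) ^ ε * X ^ (P l / 2) := by
        rw [← ENNReal.rpow_add_of_nonneg _ _ (by positivity) (by positivity), add_halves]

theorem full_low (l : ℕ) (hl : 1 ≤ l) {φ : E l → ℝ} {S : Set (E l)} (hS : IsCompact S) {L : ℝ}
    (hφ : ∀ x ∈ S, ∀ y ∈ S, |φ x - φ y| ≤ L * dist x y) {p : ℝ} (hp : 0 < p) (hp' : p ≤ P l)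
    {ε : ℝ} (hε : 0 < ε) : ∃ A : ℝ≥0∞, A ≠ ⊤ ∧ ∀ (N : ℕ) (a : ℤ → ℂ), 1 ≤ N →
      ∫⁻ x in S, ‖FS (l + 1) (Icc (-(N : ℤ)) N) a (Fin.cons (φ x) x)‖ₑ ^ p ≤
        A * (N : ℝ≥0∞) ^ ε * (∑ n ∈ Icc (-(N : ℤ)) N, ‖a n‖ₑ ^ 2) ^ (p / 2) := by
  have hP1 := P_pos hl
  have hP0 : 0 < P l := by linarith
  obtain ⟨A, hA, hfull⟩ := full l hl hS hφ (ε := ε * P l / p) (by positivity)
  have hSm : MeasurableSet S := hS.measurableSet
  have hSf : volume S ≠ ⊤ := hS.measure_lt_top.ne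
  have hr0 : 0 ≤ p / P l := by positivity
  have hr1 : 0 ≤ 1 - p / P l := by
    rw [sub_nonneg, div_le_one hP0]
    exact hp'
  refine ⟨A ^ (p / P l) * volume S ^ (1 - p / P l), ?_, ?_⟩
  · exact ENNReal.mul_ne_top (ENNReal.rpow_ne_top_of_nonneg hr0 hA)
      (ENNReal.rpow_ne_top_of_nonneg hr1 hSf)
  intro N a hN
  set F : E l → ℂ := fun x => FS (l + 1) (Icc (-(N : ℤ)) N) a (Fin.cons (φ x) x) with hF
  have hFm : AEStronglyMeasurable F (volume.restrict S) :=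
    (FS_enorm_cont hφ _ a).aestronglyMeasurable hSm
  have h1 := eLpNorm'_le_eLpNorm'_mul_rpow_measure_univ hp hp' hFm
  have h2 : ∫⁻ x in S, ‖F x‖ₑ ^ p ≤
      (∫⁻ x in S, ‖F x‖ₑ ^ P l) ^ (p / P l) * volume S ^ (1 - p / P l) := by
    have h3 := ENNReal.rpow_le_rpow h1 hp.le
    unfold eLpNorm' at h3
    rw [ENNReal.mul_rpow_of_nonneg _ _ hp.le, ← ENNReal.rpow_mul, ← ENNReal.rpow_mul,
      ← ENNReal.rpow_mul, one_div_mul_cancel hp.ne', ENNReal.rpow_one,
      Measure.restrict_apply_univ] at h3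
    refine h3.trans (le_of_eq ?_)
    congr 2
    · ring
    · field_simp
  refine h2.trans ?_
  have h4 := hfull N a hN
  calc (∫⁻ x in S, ‖F x‖ₑ ^ P l) ^ (p / P l) * volume S ^ (1 - p / P l)
      ≤ (A * (N : ℝ≥0∞) ^ (ε * P l / p) * (∑ n ∈ Icc (-(N : ℤ)) N, ‖a n‖ₑ ^ 2) ^ (P l / 2)) ^
          (p / P l) * volume S ^ (1 - p / P l) := by
        gcongr
    _ = A ^ (p / P l) * volume S ^ (1 - p / P l) * (N : ℝ≥0∞) ^ ε *
          (∑ n ∈ Icc (-(N : ℤ)) N, ‖a n‖ₑ ^ 2) ^ (p / 2) := by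
        rw [ENNReal.mul_rpow_of_nonneg _ _ hr0, ENNReal.mul_rpow_of_nonneg _ _ hr0,
          ← ENNReal.rpow_mul, ← ENNReal.rpow_mul]
        have e1 : ε * P l / p * (p / P l) = ε := by field_simp
        have e2 : P l / 2 * (p / P l) = p / 2 := by field_simp
        rw [e1, e2]
        ring

end Pool.Agent.Dcp
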