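import Pool.Agent.Dcp.ThA

/-!
# Dcp, module ThB: hypersurfaces whose normal vector has a non-zero first component

`Ps j φ y`: the last `l` coordinates of the point `Fin.insertNth j (φ y) y` of the graph.  If `j ≠ 0` and the derivative of
`φ` in the direction of the first variable is not zero at `y₀`, the map `Ps j φ` is strictly differentiable at `y₀` with injective
derivative, so it is bi-Lipschitz near `y₀` (`anti`); then `y 0` is a Lipschitz function of `Ps j φ y` and Lebesgue measure is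
transported with a bounded factor (`lip_meas`), and `full_low` applies.
-/

set_option autoImplicit false

namespace Pool.Agent.Dcp

open MeasureTheory Finset
open scoped ENNReal

/-- the last coordinates of the point of the graph -/
noncomputable def Ps {l : ℕ} (j : Fin (l + 1)) (φ : E l → ℝ) (y : E l) : E l :=
  fun i => (Fin.insertNth (α := fun _ => ℝ) j (φ y) y : E (l + 1)) i.succ

theorem Ps_self {l : ℕ} {j : Fin (l + 1)} (φ : E l → ℝ) {i : Fin l} (h : i.succ = j) (y : E l) :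
    Ps j φ y i = φ y := by
  unfold Ps
  rw [h, Fin.insertNth_apply_same]

theorem Ps_other {l : ℕ} {j : Fin (l + 1)} (φ : E l → ℝ) {i k : Fin l}
    (h : j.succAbove k = i.succ) (y : E l) : Ps j φ y i = y k := by
  unfold Ps
  rw [← h, Fin.insertNth_apply_succAbove]

theorem Ps_cases {l : ℕ} (j : Fin (l + 1)) (i : Fin l) :
    i.succ = j ∨ ∃ k, j.succAbove k = i.succ := by
  rcases Fin.eq_self_or_eq_succAbove j i.succ with h | ⟨k, h⟩
  · exact Or.inl h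
  · exact Or.inr ⟨k, h.symm⟩

theorem Ps_contDiff {l : ℕ} (j : Fin (l + 1)) {φ : E l → ℝ} (hφ : ContDiff ℝ 1 φ) :
    ContDiff ℝ 1 (Ps j φ) := by
  rw [contDiff_pi]
  intro i
  rcases Ps_cases j i with h | ⟨k, h⟩
  · have : (fun y => Ps j φ y i) = φ := funext fun y => Ps_self φ h y
    rw [this]
    exact hφ
  · have : (fun y => Ps j φ y i) = fun y => y k := funext fun y => Ps_other φ h y
    rw [this]
    exact contDiff_apply ℝ ℝ k

theorem Ps_cont {l : ℕ} (j : Fin (l + 1)) {φ : E l → ℝ} (hφ : Continuous φ) :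
    Continuous (Ps j φ) := by
  refine continuous_pi fun i => ?_
  rcases Ps_cases j i with h | ⟨k, h⟩
  · have : (fun y => Ps j φ y i) = φ := funext fun y => Ps_self φ h y
    rw [this]
    exact hφ
  · have : (fun y => Ps j φ y i) = fun y => y k := funext fun y => Ps_other φ h y
    rw [this]
    exact continuous_apply k

theorem Ps_inj {l : ℕ} (hl : 1 ≤ l) {j : Fin (l + 1)} (hj : j ≠ 0) {φ : E l → ℝ}
    (hφ : ContDiff ℝ 1 φ) {y₀ : E l} (h : fderiv ℝ φ y₀ (Pi.single ⟨0, hl⟩ 1) ≠ 0) {v : E l}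
    (hv : fderiv ℝ (Ps j φ) y₀ v = 0) : v = 0 := by
  have hd : DifferentiableAt ℝ (Ps j φ) y₀ := (Ps_contDiff j hφ).differentiable one_ne_zero y₀
  have hc : ∀ i, fderiv ℝ (fun y => Ps j φ y i) y₀ v = 0 := by
    intro i
    have h1 := ((hasFDerivAt_pi'.1 hd.hasFDerivAt) i).fderiv
    rw [h1]
    simp [hv]
  have hk : ∀ k : Fin l, k ≠ ⟨0, hl⟩ → v k = 0 := by
    intro k hk0
    have hs : j.succAbove k ≠ 0 := by
      intro h0
      have hk1 : 0 < k.val := by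
        rcases Nat.eq_zero_or_pos k.val with h1 | h1
        · exact absurd (Fin.ext h1) hk0
        · exact h1
      have h2 := congrArg Fin.val h0
      unfold Fin.succAbove at h2
      split_ifs at h2
      · simp at h2
        omega
      · simp at h2
    obtain ⟨i, hi⟩ := Fin.exists_succ_eq.2 hs
    have h3 := hc i
    have : (fun y => Ps j φ y i) = fun y => y k := funext fun y => Ps_other φ hi.symm y
    rw [this] at h3
    have h4 : fderiv ℝ (fun y : E l => y k) y₀ = ContinuousLinearMap.proj k :=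
      (hasFDerivAt_apply k y₀).fderiv
    rw [h4] at h3
    exact h3
  have hv0 : v = v ⟨0, hl⟩ • Pi.single ⟨0, hl⟩ (1 : ℝ) := by
    funext k
    by_cases hk0 : k = ⟨0, hl⟩
    · subst hk0
      simp
    · rw [hk k hk0]
      simp [hk0]
  have h5 : fderiv ℝ φ y₀ v = 0 := by
    obtain ⟨i, hi⟩ := Fin.exists_succ_eq.2 hj
    have h3 := hc i
    have : (fun y => Ps j φ y i) = φ := funext fun y => Ps_self φ hi y
    rwa [this] at h3
  rw [hv0, map_smul, smul_eq_mul] at h5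
  have h6 : v ⟨0, hl⟩ = 0 := (mul_eq_zero.1 h5).resolve_right h
  rw [hv0, h6, zero_smul]

theorem anti {l : ℕ} (hl : 1 ≤ l) {j : Fin (l + 1)} (hj : j ≠ 0) {φ : E l → ℝ}
    (hφ : ContDiff ℝ 1 φ) {y₀ : E l} (h : fderiv ℝ φ y₀ (Pi.single ⟨0, hl⟩ 1) ≠ 0) :
    ∃ r L : ℝ, 0 < r ∧ 0 < L ∧ ∀ y ∈ Metric.closedBall y₀ r, ∀ y' ∈ Metric.closedBall y₀ r,
      dist y y' ≤ L * dist (Ps j φ y) (Ps j φ y') := by
  have hs : HasStrictFDerivAt (Ps j φ) (fderiv ℝ (Ps j φ) y₀) y₀ :=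
    (Ps_contDiff j hφ).contDiffAt.hasStrictFDerivAt one_ne_zero
  obtain ⟨K, hK, hA⟩ := LinearMap.exists_antilipschitzWith
    (fderiv ℝ (Ps j φ) y₀ : E l →ₗ[ℝ] E l) (LinearMap.ker_eq_bot'.2 fun v hv =>
      Ps_inj hl hj hφ h hv)
  have hKp : (0 : ℝ) < K := hK
  have hb : ∀ v, ‖v‖ ≤ K * ‖fderiv ℝ (Ps j φ) y₀ v‖ := by
    intro v
    have := hA.le_mul_dist v 0
    simpa [dist_zero_right] using this
  obtain ⟨c, hc⟩ : ∃ c : NNReal, (c : ℝ) = 1 / (2 * K) :=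
    ⟨(1 / (2 * K) : ℝ).toNNReal, Real.coe_toNNReal _ (by positivity)⟩
  have hc0 : 0 < c := by
    have : (0 : ℝ) < c := by
      rw [hc]
      positivity
    exact_mod_cast this
  obtain ⟨s, hs1, hs2⟩ := hs.approximates_deriv_on_nhds (c := c) (Or.inr hc0)
  obtain ⟨r, hr, hrs⟩ := Metric.nhds_basis_closedBall.mem_iff.1 hs1
  refine ⟨r, 2 * K, hr, by positivity, fun y hy y' hy' => ?_⟩
  have h1 := hs2 _ (hrs hy) _ (hrs hy')
  have h2 := hb (y - y')
  rw [dist_eq_norm, dist_eq_norm]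
  have h3 : ‖fderiv ℝ (Ps j φ) y₀ (y - y')‖ ≤
      ‖Ps j φ y - Ps j φ y'‖ + 1 / (2 * K) * ‖y - y'‖ := by
    rw [hc] at h1
    have h5 := norm_sub_norm_le (fderiv ℝ (Ps j φ) y₀ (y - y')) (Ps j φ y - Ps j φ y')
    rw [norm_sub_rev (fderiv ℝ (Ps j φ) y₀ (y - y')) (Ps j φ y - Ps j φ y')] at h5
    linarith
  have h6 : (K : ℝ) * (1 / (2 * K) * ‖y - y'‖) = ‖y - y'‖ / 2 := by
    field_simp
  nlinarith [mul_le_mul_of_nonneg_left h3 hKp.le]

theorem lip_vol {l : ℕ} {B : Set (E l)} {g : E l → E l} {L : ℝ} (hL : 0 < L)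
    (h : LipschitzOnWith L.toNNReal g B) : volume (g '' B) ≤ ENNReal.ofReal (L ^ l) * volume B := by
  have h1 := h.hausdorffMeasure_image_le (d := (Fintype.card (Fin l) : ℝ)) (by positivity)
  rw [hausdorffMeasure_pi_real] at h1
  refine h1.trans (le_of_eq ?_)
  congr 1
  rw [Fintype.card_fin, ENNReal.rpow_natCast, ENNReal.ofReal_pow hL.le]
  rfl

theorem lip_meas {l : ℕ} {T : Set (E l)} {Ψ : E l → E l} (hΨ : Continuous Ψ)
    {L : ℝ} (hL : 0 < L) (h : ∀ y ∈ T, ∀ y' ∈ T, dist y y' ≤ L * dist (Ψ y) (Ψ y'))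
    (G : E l → ℝ≥0∞) (hG : Measurable G) :
    ∫⁻ y in T, G (Ψ y) ≤ ENNReal.ofReal (L ^ l) * ∫⁻ x in Ψ '' T, G x := by
  have hinj : Set.InjOn Ψ T := by
    intro y hy y' hy' e
    have := h y hy y' hy'
    rw [e, dist_self, mul_zero] at this
    exact dist_le_zero.1 this
  have hm : Measure.map Ψ (volume.restrict T) ≤
      ENNReal.ofReal (L ^ l) • (volume.restrict (Ψ '' T)) := by
    refine Measure.le_iff.2 fun A hA => ?_
    rw [Measure.map_apply hΨ.measurable hA, Measure.restrict_apply (hΨ.measurable hA),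
      Measure.smul_apply, Measure.restrict_apply hA, smul_eq_mul]
    have hlip : LipschitzOnWith L.toNNReal (Function.invFunOn Ψ T) (A ∩ Ψ '' T) := by
      refine LipschitzOnWith.of_dist_le_mul fun x hx x' hx' => ?_
      have h1 := Function.invFunOn_mem hx.2
      have h2 := Function.invFunOn_mem hx'.2
      have h3 := h _ h1 _ h2
      rwa [Function.invFunOn_eq hx.2, Function.invFunOn_eq hx'.2,
        ← Real.coe_toNNReal L hL.le] at h3
    refine le_trans (measure_mono ?_) (lip_vol hL hlip)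
    rintro y ⟨hyA, hyT⟩
    refine ⟨Ψ y, ⟨hyA, y, hyT, rfl⟩, ?_⟩
    have h1 : Ψ y ∈ Ψ '' T := ⟨y, hyT, rfl⟩
    exact hinj (Function.invFunOn_mem h1) hyT (Function.invFunOn_eq h1)
  calc ∫⁻ y in T, G (Ψ y) = ∫⁻ x, G x ∂(Measure.map Ψ (volume.restrict T)) :=
        (lintegral_map hG hΨ.measurable).symm
    _ ≤ ∫⁻ x, G x ∂(ENNReal.ofReal (L ^ l) • (volume.restrict (Ψ '' T))) := lintegral_mono' hm le_rfl
    _ = ENNReal.ofReal (L ^ l) * ∫⁻ x in Ψ '' T, G x := by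
        rw [lintegral_smul_measure, smul_eq_mul]


theorem FS_eq {l : ℕ} (hl : 1 ≤ l) {j : Fin (l + 1)} (hj : j ≠ 0) (φ : E l → ℝ) (y : E l) :
    (Fin.insertNth (α := fun _ => ℝ) j (φ y) y : E (l + 1)) = Fin.cons (y ⟨0, hl⟩) (Ps j φ y) := by
  funext i
  refine Fin.cases ?_ (fun i => ?_) i
  · rw [Fin.cons_zero]
    have : (0 : Fin (l + 1)) = j.succAbove ⟨0, hl⟩ := by
      rw [Fin.succAbove_of_castSucc_lt]
      · rfl
      · exact Fin.pos_of_ne_zero hj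
    rw [this, Fin.insertNth_apply_succAbove]
  · rw [Fin.cons_succ]
    rfl

/-- local version -/
theorem full_loc (l : ℕ) (hl : 1 ≤ l) (j : Fin (l + 1)) (hj0 : j ≠ 0) {φ : E l → ℝ}
    (hφ : ContDiff ℝ 1 φ) {T : Set (E l)} (hT : IsCompact T) {L : ℝ} (hL : 0 < L)
    (h : ∀ y ∈ T, ∀ y' ∈ T, dist y y' ≤ L * dist (Ps j φ y) (Ps j φ y')) {p : ℝ} (hp : 0 < p)
    (hp' : p ≤ P l) {ε : ℝ} (hε : 0 < ε) : ∃ A : ℝ≥0∞, A ≠ ⊤ ∧ ∀ (N : ℕ) (a : ℤ → ℂ), 1 ≤ N →
      ∫⁻ y in T, ‖FS (l + 1) (Icc (-(N : ℤ)) N) a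
        (Fin.insertNth (α := fun _ => ℝ) j (φ y) y)‖ₑ ^ p ≤
        A * (N : ℝ≥0∞) ^ ε * (∑ n ∈ Icc (-(N : ℤ)) N, ‖a n‖ₑ ^ 2) ^ (p / 2) := by
  have hΨ := Ps_cont j hφ.continuous
  have hinj : Set.InjOn (Ps j φ) T := by
    intro y hy y' hy' e
    have := h y hy y' hy'
    rw [e, dist_self, mul_zero] at this
    exact dist_le_zero.1 this
  have hlip : LipschitzOnWith L.toNNReal
      (fun x => Function.invFunOn (Ps j φ) T x ⟨0, hl⟩) (Ps j φ '' T) := by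
    refine LipschitzOnWith.of_dist_le_mul fun x hx x' hx' => ?_
    have h3 := h _ (Function.invFunOn_mem hx) _ (Function.invFunOn_mem hx')
    rw [Function.invFunOn_eq hx, Function.invFunOn_eq hx'] at h3
    rw [Real.coe_toNNReal L hL.le]
    exact (dist_le_pi_dist _ _ _).trans h3
  obtain ⟨ψ, hψ, hψe⟩ := hlip.extend_real
  have hψ0 : ∀ y ∈ T, ψ (Ps j φ y) = y ⟨0, hl⟩ := by
    intro y hy
    have h1 : Ps j φ y ∈ Ps j φ '' T := ⟨y, hy, rfl⟩
    rw [← hψe h1]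
    show Function.invFunOn (Ps j φ) T (Ps j φ y) ⟨0, hl⟩ = _
    rw [hinj (Function.invFunOn_mem h1) hy (Function.invFunOn_eq h1)]
  obtain ⟨A, hA, hfull⟩ := full_low l hl (hT.image hΨ) (φ := ψ) (L := L)
    (fun x _ x' _ => by
      have := hψ.dist_le_mul x x'
      rwa [Real.coe_toNNReal L hL.le] at this) hp hp' hε
  refine ⟨ENNReal.ofReal (L ^ l) * A, ENNReal.mul_ne_top ENNReal.ofReal_ne_top hA,
    fun N a hN => ?_⟩
  have hG : Measurable fun x : E l =>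
      ‖FS (l + 1) (Icc (-(N : ℤ)) N) a (Fin.cons (ψ x) x)‖ₑ ^ p := by
    have hc : Continuous fun x : E l => (Fin.cons (ψ x) x : E (l + 1)) := by
      refine continuous_pi fun i => ?_
      refine Fin.cases ?_ (fun i => ?_) i
      · simpa using hψ.continuous
      · simpa using continuous_apply i
    exact ((FS_cont (l + 1) _ a).comp hc).enorm.measurable.pow_const p
  calc ∫⁻ y in T, ‖FS (l + 1) (Icc (-(N : ℤ)) N) a
        (Fin.insertNth (α := fun _ => ℝ) j (φ y) y)‖ₑ ^ p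
      = ∫⁻ y in T, (fun x : E l =>
          ‖FS (l + 1) (Icc (-(N : ℤ)) N) a (Fin.cons (ψ x) x)‖ₑ ^ p) (Ps j φ y) := by
        refine setLIntegral_congr_fun hT.measurableSet fun y hy => ?_
        show _ = ‖FS (l + 1) (Icc (-(N : ℤ)) N) a (Fin.cons (ψ (Ps j φ y)) (Ps j φ y))‖ₑ ^ p
        rw [hψ0 y hy, FS_eq hl hj0]
    _ ≤ ENNReal.ofReal (L ^ l) * ∫⁻ x in Ps j φ '' T,
          ‖FS (l + 1) (Icc (-(N : ℤ)) N) a (Fin.cons (ψ x) x)‖ₑ ^ p :=
        lip_meas hΨ hL h _ hG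
    _ ≤ ENNReal.ofReal (L ^ l) * (A * (N : ℝ≥0∞) ^ ε *
          (∑ n ∈ Icc (-(N : ℤ)) N, ‖a n‖ₑ ^ 2) ^ (p / 2)) :=
        mul_le_mul_right (hfull N a hN) _
    _ = _ := by ring

/-- a `C¹` function is Lipschitz on compact sets -/
theorem c1_lip {l : ℕ} {φ : E l → ℝ} (hφ : ContDiff ℝ 1 φ) {S : Set (E l)} (hS : IsCompact S) :
    ∃ L : ℝ, ∀ x ∈ S, ∀ y ∈ S, |φ x - φ y| ≤ L * dist x y := by
  obtain ⟨R, hR⟩ := hS.isBounded.subset_closedBall 0
  obtain ⟨M, hM⟩ := (isCompact_closedBall (0 : E l) R).exists_bound_of_continuousOn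
    (hφ.continuous_fderiv one_ne_zero).continuousOn
  refine ⟨M, fun x hx y hy => ?_⟩
  have h1 := (convex_closedBall (0 : E l) R).norm_image_sub_le_of_norm_fderiv_le (𝕜 := ℝ)
    (fun z _ => (hφ.differentiable one_ne_zero) z) hM (hR hy) (hR hx)
  rwa [Real.norm_eq_abs, ← dist_eq_norm] at h1

theorem full_any (l : ℕ) (hl : 1 ≤ l) (j : Fin (l + 1)) {φ : E l → ℝ} (hφ : ContDiff ℝ 1 φ)
    {S : Set (E l)} (hS : IsCompact S)
    (hj : j ≠ 0 → ∀ y ∈ S, fderiv ℝ φ y (Pi.single ⟨0, hl⟩ 1) ≠ 0) {p : ℝ} (hp : 0 < p)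
    (hp' : p ≤ P l) {ε : ℝ} (hε : 0 < ε) : ∃ A : ℝ≥0∞, A ≠ ⊤ ∧ ∀ (N : ℕ) (a : ℤ → ℂ), 1 ≤ N →
      ∫⁻ y in S, ‖FS (l + 1) (Icc (-(N : ℤ)) N) a
        (Fin.insertNth (α := fun _ => ℝ) j (φ y) y)‖ₑ ^ p ≤
        A * (N : ℝ≥0∞) ^ ε * (∑ n ∈ Icc (-(N : ℤ)) N, ‖a n‖ₑ ^ 2) ^ (p / 2) := by
  by_cases hj0 : j = 0
  · subst hj0
    obtain ⟨L, hL⟩ := c1_lip hφ hS
    obtain ⟨A, hA, h⟩ := full_low l hl hS hL hp hp' hε
    refine ⟨A, hA, fun N a hN => ?_⟩
    simpa only [Fin.insertNth_zero'] using h N a hN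
  · refine hS.induction_on (p := fun T => ∃ A : ℝ≥0∞, A ≠ ⊤ ∧ ∀ (N : ℕ) (a : ℤ → ℂ), 1 ≤ N →
      ∫⁻ y in T, ‖FS (l + 1) (Icc (-(N : ℤ)) N) a
        (Fin.insertNth (α := fun _ => ℝ) j (φ y) y)‖ₑ ^ p ≤
        A * (N : ℝ≥0∞) ^ ε * (∑ n ∈ Icc (-(N : ℤ)) N, ‖a n‖ₑ ^ 2) ^ (p / 2)) ?_ ?_ ?_ ?_
    · exact ⟨0, ENNReal.zero_ne_top, fun N a _ => by simp⟩
    · rintro T T' hTT ⟨A, hA, h⟩
      exact ⟨A, hA, fun N a hN => (lintegral_mono_set hTT).trans (h N a hN)⟩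
    · rintro T T' ⟨A, hA, h⟩ ⟨A', hA', h'⟩
      refine ⟨A + A', ENNReal.add_ne_top.2 ⟨hA, hA'⟩, fun N a hN => ?_⟩
      refine (lintegral_union_le _ _ _).trans ((add_le_add (h N a hN) (h' N a hN)).trans
        (le_of_eq ?_))
      ring
    · intro y hy
      obtain ⟨r, L, hr, hL, h⟩ := anti hl hj0 hφ (hj hj0 y hy)
      refine ⟨S ∩ Metric.closedBall y r, inter_mem_nhdsWithin _
        (Metric.closedBall_mem_nhds y hr), ?_⟩
      exact full_loc l hl j hj0 hφ (hS.inter_right Metric.isClosed_closedBall) hL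
        (fun z hz z' hz' => h z hz.2 z' hz'.2) hp hp' hε

end Pool.Agent.Dcp
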