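import Pool.Agent.Dcp.Fra
import Pool.Agent.Dcp.SpM
import Pool.Agent.Dcp.Lin

/-!
# Dcp, module Trn: affine changes of variables

`transport`: `B = fm k (-τ) * fm k τ'` (determinant `1`, `fm_det`), `u y = ee (η ⬝ᵥ y)`, `η = mc k τ' - Bᵀ *ᵥ mc k τ`.
For `ξ = pt k (τ + h) c = pt k τ (pt k h c) = mc k τ + (fm k τ)ᵀ (pt k h c)` (`pt_add`, `pt_eq`), `h = lam * (j / 2^n)`:
`Bᵀ ξ + η = mc k τ' + (fm k τ')ᵀ (fm k (-τ))ᵀ (fm k τ)ᵀ (pt k h c) = mc k τ' + (fm k τ')ᵀ (pt k h c) = pt k (τ' + h) c` (`fm_inv` with `-τ`).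
`spec_aff` and `spec_mod`.
`nI_lin`: `‖u y * f (B y)‖ = ‖f (B y)‖`, `lint_mat` (`f` continuous).
`rescale`: `transport` to `τ' = 0` (the norms and the norm of the sum do not change, `u y` is a common factor);
then `f' j y = f j (fun i => y i / lam^(i+1))` is `Fam k C 0 1 n` (`pt_homog`, `spec_aff` with a diagonal matrix), and all the
integrals are multiplied by the same factor `Λ` (`lint_mat` with the diagonal matrix, `0 < Λ < ∞`), which cancels:
`Λ ≤ D^p (∑ (Λ x_j)^(2/p))^(p/2) = D^p Λ (∑ x_j^(2/p))^(p/2)` (`P k > 0` for `k ≥ 1`; for `k = 0` everything is `1`, or use that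
the exponent `p/2` is `0` and `Λ = 1`).
-/

set_option autoImplicit false

namespace Pool.Agent.Dcp

open MeasureTheory Finset
open scoped ENNReal

theorem transport (k : ℕ) (C τ τ' : ℝ) : ∃ (B : Matrix (Fin k) (Fin k) ℝ) (u : E k → ℂ),
    B.det = 1 ∧ (∀ y, ‖u y‖ = 1) ∧ ∀ (lam : ℝ) (n : ℕ) (f : ℕ → E k → ℂ), Fam k C τ lam n f →
      Fam k C τ' lam n (fun j y => u y * f j (B.mulVec y)) := by
  refine ⟨fm k (-τ) * fm k τ',
    fun y => ee ((mc k τ' - (fm k (-τ) * fm k τ').transpose.mulVec (mc k τ)) ⬝ᵥ y), ?_, ?_, ?_⟩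
  · rw [Matrix.det_mul, fm_det, fm_det, one_mul]
  · intro y
    exact ee_norm _
  · intro lam n f hf j hj
    have h1 : Spec {ζ : E k | ∃ ξ ∈ UU k C (τ + lam * ((j : ℝ) / 2 ^ n)) (lam / 2 ^ n),
        ζ = (fm k (-τ) * fm k τ').transpose.mulVec ξ}
        (fun y => f j ((fm k (-τ) * fm k τ').mulVec y + 0)) :=
      spec_aff (fm k (-τ) * fm k τ') 0 (hf j hj) (fun ξ hξ => ⟨ξ, hξ, rfl⟩)
    have h2 := spec_mod (mc k τ' - (fm k (-τ) * fm k τ').transpose.mulVec (mc k τ))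
      (Ω' := UU k C (τ' + lam * ((j : ℝ) / 2 ^ n)) (lam / 2 ^ n)) h1 (by
        rintro ζ ⟨ξ, ⟨c, hc, hξ⟩, rfl⟩
        refine ⟨c, hc, ?_⟩
        have hinv : (fm k τ').transpose.mulVec ((fm k (-τ)).transpose.mulVec
            ((fm k τ).transpose.mulVec (pt k (lam * ((j : ℝ) / 2 ^ n)) c))) =
            (fm k τ').transpose.mulVec (pt k (lam * ((j : ℝ) / 2 ^ n)) c) := by
          rw [Matrix.mulVec_mulVec (pt k (lam * ((j : ℝ) / 2 ^ n)) c) (fm k (-τ)).transpose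
            (fm k τ).transpose, ← Matrix.transpose_mul, fm_inv, Matrix.transpose_one,
            Matrix.one_mulVec]
        rw [hξ, pt_add, pt_add, pt_eq k τ, pt_eq k τ', Matrix.mulVec_add, ← add_assoc,
          sub_add_cancel]
        rw [Matrix.transpose_mul, ← Matrix.mulVec_mulVec, hinv])
    simpa only [add_zero] using h2

theorem nI_lin {k : ℕ} {p : ℝ} {B : Matrix (Fin k) (Fin k) ℝ} {u : E k → ℂ} (hB : B.det = 1)
    (hu : ∀ y, ‖u y‖ = 1) {f : E k → ℂ} (hf : Continuous f) :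
    nI p (fun y => u y * f (B.mulVec y)) = nI p f := by
  unfold nI
  have hF : Measurable (fun x : E k => ‖f x‖ₑ ^ p) := by
    exact (hf.measurable.enorm).pow_const p
  have h1 := lint_mat B (by rw [hB]; exact one_ne_zero) (fun x : E k => ‖f x‖ₑ ^ p) hF
  rw [hB, abs_one, inv_one, ENNReal.ofReal_one, one_mul] at h1
  rw [← h1]
  refine lintegral_congr (fun y => ?_)
  have h2 : ‖u y‖ₑ = 1 := by
    rw [← ofReal_norm, hu y, ENNReal.ofReal_one]
  rw [enorm_mul, h2, one_mul]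

theorem nI_shift {k : ℕ} {p : ℝ} (v : E k) (f : E k → ℂ) : nI p (fun x => f (x - v)) = nI p f := by
  unfold nI
  exact lintegral_sub_right_eq_self (fun x : E k => ‖f x‖ₑ ^ p) v

theorem fam_shift {k : ℕ} {C τ lam : ℝ} {n : ℕ} {f : ℕ → E k → ℂ} (hf : Fam k C τ lam n f)
    (v : E k) : Fam k C τ lam n (fun j x => f j (x - v)) := by
  intro j hj
  have h1 := spec_aff (1 : Matrix (Fin k) (Fin k) ℝ) (-v)
    (Ω' := UU k C (τ + lam * ((j : ℝ) / 2 ^ n)) (lam / 2 ^ n)) (hf j hj) (by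
      intro ξ hξ
      rw [Matrix.transpose_one, Matrix.one_mulVec]
      exact hξ)
  have h2 : (fun y : E k => f j ((1 : Matrix (Fin k) (Fin k) ℝ).mulVec y + -v)) =
      fun y => f j (y - v) := by
    funext y
    rw [Matrix.one_mulVec, sub_eq_add_neg]
  rw [h2] at h1
  exact h1

theorem nI_diag {k : ℕ} {p : ℝ} {A : Matrix (Fin k) (Fin k) ℝ} (hA : A.det ≠ 0) {f : E k → ℂ}
    (hf : Continuous f) :
    nI p (fun y => f (A.mulVec y)) = ENNReal.ofReal |A.det|⁻¹ * nI p f := by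
  unfold nI
  exact lint_mat A hA (fun x : E k => ‖f x‖ₑ ^ p) ((hf.measurable.enorm).pow_const p)

theorem fam_dil {k : ℕ} {C lam : ℝ} {n : ℕ} (hlam : 0 < lam) {f : ℕ → E k → ℂ}
    (hf : Fam k C 0 lam n f) : Fam k C 0 1 n (fun j y =>
      f j ((Matrix.diagonal (fun i : Fin k => (lam ^ (i.val + 1))⁻¹)).mulVec y)) := by
  intro j hj
  have h1 := spec_aff (Matrix.diagonal (fun i : Fin k => (lam ^ (i.val + 1))⁻¹)) 0
    (Ω' := UU k C (0 + 1 * ((j : ℝ) / 2 ^ n)) (1 / 2 ^ n)) (hf j hj) (by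
      rintro ξ ⟨c, hc, rfl⟩
      refine ⟨fun i => c i / lam ^ (i.val + 1), ?_, ?_⟩
      · intro i
        have hp : 0 < lam ^ (i.val + 1) := pow_pos hlam _
        rw [abs_div, abs_of_pos hp, div_le_iff₀ hp]
        refine (hc i).trans (le_of_eq ?_)
        rw [mul_assoc, ← mul_pow, one_div, inv_mul_eq_div]
      · funext i
        rw [Matrix.diagonal_transpose, Matrix.mulVec_diagonal, zero_add, zero_add, one_mul,
          pt_homog k hlam, ← mul_assoc, inv_mul_cancel₀ (pow_pos hlam _).ne', one_mul])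
  simpa only [add_zero] using h1

theorem rescale {k : ℕ} (hk : 1 ≤ k) {C : ℝ} {n : ℕ} {D : ℝ≥0∞} (h : Dec k C n D) {τ lam : ℝ}
    (hlam : 0 < lam) {f : ℕ → E k → ℂ} (hf : Fam k C τ lam n f) :
    nI (P k) (fun x => ∑ j ∈ range (2 ^ n), f j x) ≤
      D ^ P k * S2 (P k) (range (2 ^ n)) f ^ (P k / 2) := by
  have hPk : 0 < P k := by
    unfold P
    have : (1 : ℝ) ≤ k := by exact_mod_cast hk
    positivity
  obtain ⟨B, u, hB, hu, htr⟩ := transport k C τ 0
  have hf1 := htr lam n f hf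
  have hcf : ∀ j ∈ range (2 ^ n), Continuous (f j) := fun j hj =>
    spec_cont (hf j (mem_range.1 hj))
  have hcf1 : ∀ j ∈ range (2 ^ n), Continuous (fun y => u y * f j (B.mulVec y)) := fun j hj =>
    spec_cont (hf1 j (mem_range.1 hj))
  have hf2 := fam_dil hlam hf1
  have hdet : (Matrix.diagonal (fun i : Fin k => (lam ^ (i.val + 1))⁻¹)).det ≠ 0 := by
    rw [Matrix.det_diagonal]
    exact (Finset.prod_pos (fun i _ => inv_pos.2 (pow_pos hlam _))).ne'
  have hD := h _ hf2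
  set A : Matrix (Fin k) (Fin k) ℝ := Matrix.diagonal (fun i : Fin k => (lam ^ (i.val + 1))⁻¹)
    with hAdef
  set Lam : ℝ≥0∞ := ENNReal.ofReal |A.det|⁻¹ with hLam
  have hLam0 : Lam ≠ 0 := by
    rw [hLam]
    exact (ENNReal.ofReal_pos.2 (inv_pos.2 (abs_pos.2 hdet))).ne'
  have hLamT : Lam ≠ ⊤ := ENNReal.ofReal_ne_top
  have e1 : nI (P k) (fun x => ∑ j ∈ range (2 ^ n), u (A.mulVec x) * f j (B.mulVec (A.mulVec x))) =
      Lam * nI (P k) (fun x => ∑ j ∈ range (2 ^ n), f j x) := by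
    have e2 := nI_diag (p := P k) hdet
      (f := fun y => ∑ j ∈ range (2 ^ n), u y * f j (B.mulVec y))
      (continuous_finsetSum _ hcf1)
    rw [e2]
    have e3 : (fun y => ∑ j ∈ range (2 ^ n), u y * f j (B.mulVec y)) =
        fun y => u y * (fun z => ∑ j ∈ range (2 ^ n), f j z) (B.mulVec y) := by
      funext y
      rw [← Finset.mul_sum]
    rw [e3, nI_lin hB hu (continuous_finsetSum _ hcf)]
  have e4 : S2 (P k) (range (2 ^ n)) (fun j y => u (A.mulVec y) * f j (B.mulVec (A.mulVec y))) =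
      Lam ^ (2 / P k) * S2 (P k) (range (2 ^ n)) f := by
    unfold S2
    rw [Finset.mul_sum]
    refine Finset.sum_congr rfl (fun j hj => ?_)
    have e5 := nI_diag (p := P k) hdet (f := fun y => u y * f j (B.mulVec y)) (hcf1 j hj)
    rw [e5, nI_lin hB hu (hcf j hj), ENNReal.mul_rpow_of_nonneg _ _ (by positivity)]
  rw [e1, e4, ENNReal.mul_rpow_of_nonneg _ _ (by positivity), ← ENNReal.rpow_mul,
    div_mul_div_cancel₀' (by norm_num) , div_self hPk.ne', ENNReal.rpow_one] at hD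
  have hD2 : Lam * nI (P k) (fun x => ∑ j ∈ range (2 ^ n), f j x) ≤
      Lam * (D ^ P k * S2 (P k) (range (2 ^ n)) f ^ (P k / 2)) := by
    refine hD.trans (le_of_eq ?_)
    ring
  exact (ENNReal.mul_le_mul_iff_right hLam0 hLamT).1 hD2

end Pool.Agent.Dcp
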